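import Mathlib
import Pool.Agent.Work.MP_44129c_co.PL.Good
import Pool.Agent.Work.MP_44129c_co.N.PLift
import Pool.Agent.Work.MP_44129c_co.E.Defs
import Pool.Agent.Work.MP_44129c_co.G.CDefs

/-!
# MP_44129c_co/H, Defs (FIXED, do not change): the case `t ≥ 2`, definitions

Paper: helper25, `/team-store/44129c_v2_helper25.md`.  `m = 3 s + 1 + t`, `n = m + s - 1` is the degree.
-/

set_option autoImplicit false

namespace ZS44129
namespace H

open Finset E N

variable {V : Type} [Fintype V] [DecidableEq V] {m : ℕ}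

/-- the range needed for `t ≥ 2`. -/
def R2 (m s : ℕ) : Prop :=
  (s = 38 ∧ m = 117) ∨ (s = 42 ∧ m = 129) ∨ (s = 46 ∧ m = 141) ∨ (s = 46 ∧ m = 142) ∨
    (s = 46 ∧ m = 143) ∨ (80 ≤ s ∧ 3 * s + 3 ≤ m ∧ 19 * m ≤ 58 * s + 19)

/-- the bound of the colour classes. -/
def alp (s : ℕ) : ℕ := if s = 38 then 89 else 7 * s / 3

/-- order of the subgroup `K6`. -/
def kap (m : ℕ) : ℕ := Nat.gcd 6 m

/-- number of heavy partners of a vertex. -/
def hvy (m : ℕ) : ℕ := (if 2 ∣ m then 1 else 0) + (if 3 ∣ m then 2 else 0)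

/-- the elements `x` of `ZMod m` with `6 x = 0`. -/
def K6 (m : ℕ) : AddSubgroup (ZMod m) where
  carrier := {x | 6 * x = 0}
  add_mem' := by
    intro a b ha hb
    have ha' : 6 * a = 0 := ha
    have hb' : 6 * b = 0 := hb
    show 6 * (a + b) = 0
    rw [mul_add, ha', hb', add_zero]
  zero_mem' := mul_zero 6
  neg_mem' := by
    intro a ha
    have ha' : 6 * a = 0 := ha
    show 6 * (-a) = 0
    rw [mul_neg, ha', neg_zero]

/-- the situation. -/
structure HS (c : V → V → ZMod m) (s : ℕ) : Prop where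
  sym : ∀ x y, c x y = c y x
  zsf : ZSF m c
  card : Fintype.card V = m + s
  rng : R2 m s

/-- number of positions of the pair `u v` with different colours. -/
def Df (c : V → V → ZMod m) (u v : V) : ℕ := ((XX u v).filter (fun x => c u x ≠ c v x)).card

/-- colour class of `r` at `u`. -/
def cl (c : V → V → ZMod m) (u : V) (r : ZMod m) : Finset V := (univ.erase u).filter (fun x => c u x = r)

/-- lifted pair. -/
def Lp (c : V → V → ZMod m) (u v : V) : Prop :=
  m < 2 * Df c u v ∧ ∃ (g : (ZMod m)ˣ) (β : ZMod m) (z0 : ℤ) (al ga : V → ℤ),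
    PLift (fun p q => (g : ZMod m) * c p q - β) u v z0 al ga

/-- no two colours at `z` differ by an element of order 2. -/
def U2 (c : V → V → ZMod m) (z : V) : Prop :=
  ∀ p q, p ≠ z → q ≠ z → 2 * c z p = 2 * c z q → c z p = c z q

/-- no two colours at `z` differ by an element of order 3. -/
def U3 (c : V → V → ZMod m) (z : V) : Prop :=
  ∀ p q, p ≠ z → q ≠ z → 3 * c z p = 3 * c z q → c z p = c z q

/-- the star of `u` has (in some scale) an integer lift with small excess. -/
def ESt (c : V → V → ZMod m) (s : ℕ) (u : V) : Prop :=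
  ∃ (g : (ZMod m)ˣ) (β : ZMod m) (y : V → ℤ),
    SL (fun p q => (g : ZMod m) * c p q - β) u y ∧ exL u y + exH u y + 2 ≤ s

theorem mem_cl {c : V → V → ZMod m} {u x : V} {r : ZMod m} : x ∈ cl c u r ↔ x ≠ u ∧ c u x = r := by
  simp [cl]

theorem mem_K6 {x : ZMod m} : x ∈ K6 m ↔ 6 * x = 0 := Iff.rfl

theorem R2.facts {m s : ℕ} (h : R2 m s) : 38 ≤ s ∧ 3 * s + 3 ≤ m ∧ m ≤ 4 * s ∧ 1000 * m ≤ 3087 * s + 1000 := by
  unfold R2 at h
  omega

end H
end ZS44129
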