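import Pool.Agent.Work.MP_44129c_co.H.CD
import Pool.Agent.Work.MP_44129c_co.N.C34

/-!
# MP_44129c_co/H, C1 (size M): the colours outside a large class are near the colour of the class

`Lp c w v`: `c1 = g c - β`, `PLift c1 w v z0 al ga`, `m < 2 Df c w v`.  `X = XX w v` (`|X| = m + s - 2`, `card_XX`), `D = #{x ∈ X : al x ≠ ga x} ≥ Df c w v` (`c w x ≠ c v x` gives `c1 w x ≠ c1 v x` as `g` is a unit, so
`al x ≠ ga x`), hence `m < 2 D`, `m < 2 s + D` (`m ≤ 4 s`).  `A = cl c w r`, `a = |A|`, `B = (univ.erase w) \ A`, `e = |B| = m + s - 1 - a`.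
(0) `al` is constant on `A.erase v`: `x ≠ x'` in it: `al x - al x'` is divisible by `m` (`h.hu`, same colour); a set `S ⊆ X` with `m - 1` elements, `x ∈ S`, `x' ∉ S` (`|X| ≥ m`): `gap` for `S` and for
`S` with `x` replaced by `x'` (all leaves at `w`, `B = ∅`): both sums are in `[1, m - 1]`, so the difference `al x - al x'` is `0`.  `A.erase v` is nonempty; `k0` = the value.  For `b ∈ B`, `b ≠ v`: `al b ≠ k0` (the colours
differ).  Take `f b = al b - k0`; `(f b : ZMod m) = c1 w b - c1 w x0 = g (c w b - r)` (`x0 ∈ A.erase v`).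
(1) `a ≤ m - 1`: a class has less than `m` elements (`m` vertices of the class have the sum `m • r = 0`, `zsf_star`, StarSys), so `e ≥ s`; and `2 (a - 1) > m - 2` (`ha`, `m ≤ 4 s`).
(2) `c3` (N/C34), second alternative (`cost`): `∑_X cost θ (al, ga) + s + 1 ≤ m`.  `cost θ p q ≥ max (p - θ) 0 + max (θ - 1 - p) 0` (clear).  If `k0 ∉ {θ - 1, θ}` all `x ∈ A.erase v` have cost `≥ 1`: `a - 1 ≤ m - s - 1`,
contradiction to `ha`.  So `k0 ∈ {θ - 1, θ}` and `|al b - k0| - 1 ≤ max (al b - θ) 0 + max (θ - 1 - al b) 0 ≤ cost` for `b ∈ B.erase v` (use `al b ≠ k0`).  Sum over `B.erase v ⊆ X` (`cost ≥ 0`).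
(3) first alternative: `∑_X (max (M - θ) 0 + max (θ - μ) 0) + 2 ≤ m`, each summand `≥ |al x - θ|`.
 * `θ = k0`: `∑_{B.erase v} |al b - k0| ≤ m - 2`, minus `|B.erase v| ≥ e - 1 ≥ s - 1`: `∑ (|f b| - 1) ≤ m - 2 - (s - 1) = m - s - 1`.
 * `θ ≠ k0`: the `≥ a - 1` elements of `A.erase v` give `(a - 1) |k0 - θ| ≤ m - 2`, so `|k0 - θ| = 1` (`2 (a - 1) > m - 2`), and `∑_{B.erase v} |al b - θ| ≤ m - 2 - (a - 1)`; `|al b - k0| - 1 ≤ |al b - θ|`; `a ≥ s`.
In the statement `W.BB (g (c - r)) w = (univ.erase w) \ cl c w r` (`g` a unit).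
-/

set_option autoImplicit false

namespace ZS44129
namespace H

open Finset E N

variable {V : Type} [Fintype V] [DecidableEq V] {m : ℕ}

/-- a colour class has less than `m` elements. -/
private theorem cl_lt0 [NeZero m] {c : V → V → ZMod m} {s : ℕ} (h : HS c s) (w : V) (r : ZMod m) :
    (cl c w r).card + 1 ≤ m := by
  have hf := h.rng.facts
  by_contra hcon
  obtain ⟨D, hD, hDc⟩ := Finset.exists_subset_card_eq (s := cl c w r) (n := m) (by omega)
  obtain ⟨v, hv⟩ : D.Nonempty := by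
    rw [← Finset.card_pos]
    omega
  have hw : w ∉ D := fun h1 => (mem_cl.1 (hD h1)).1 rfl
  have hwv : w ≠ v := by
    rintro rfl
    exact hw hv
  have h1 := h.zsf w v hwv (D.erase v) ∅ (Finset.disjoint_empty_right _)
    (fun h2 => hw (Finset.mem_of_mem_erase h2)) (Finset.notMem_erase v D)
    (Finset.notMem_empty _) (Finset.notMem_empty _)
    (by rw [Finset.card_empty, add_zero, Finset.card_erase_add_one hv, hDc])
  apply h1
  rw [Finset.sum_empty, add_zero, Finset.add_sum_erase D (fun x => c w x) hv,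
    Finset.sum_congr rfl (fun x hx => (mem_cl.1 (hD hx)).2), Finset.sum_const, hDc,
    nsmul_eq_mul, ZMod.natCast_self, zero_mul]

/-- equal colours at `w` have equal lifts. -/
private theorem al_const [NeZero m] {c : V → V → ZMod m} {s : ℕ} {w v : V}
    {z0 : ℤ} {al ga : V → ℤ} (hP : PLift c w v z0 al ga) (hX : (XX w v).card + 2 = m + s)
    (hs : 2 ≤ s) (hm : 2 ≤ m) {x x' : V} (hx : x ∈ XX w v) (hx' : x' ∈ XX w v)
    (he : (al x : ZMod m) = (al x' : ZMod m)) : al x = al x' := by
  by_cases hxx : x = x'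
  · rw [hxx]
  obtain ⟨S, hS1, hS2, hSc⟩ := Finset.exists_subsuperset_card_eq
    (s := {x}) (t := (XX w v).erase x') (n := m - 1)
    (Finset.singleton_subset_iff.2 (Finset.mem_erase.2 ⟨hxx, hx⟩))
    (by rw [Finset.card_singleton]; omega)
    (by
      have h1 := Finset.card_erase_add_one hx'
      omega)
  have hxS : x ∈ S := hS1 (Finset.mem_singleton_self x)
  have hx'S : x' ∉ S := fun h1 => (Finset.mem_erase.1 (hS2 h1)).1 rfl
  have hSX : S ⊆ XX w v := hS2.trans (Finset.erase_subset _ _)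
  have hS'c : (insert x' (S.erase x)).card = m - 1 := by
    rw [Finset.card_insert_of_notMem (fun h1 => hx'S (Finset.mem_of_mem_erase h1)),
      Finset.card_erase_add_one hxS, hSc]
  have hS'X : insert x' (S.erase x) ⊆ XX w v := by
    intro z hz
    rcases Finset.mem_insert.1 hz with h1 | h1
    · rw [h1]; exact hx'
    · exact hSX (Finset.mem_of_mem_erase h1)
  have g1 := hP.gap S ∅ hSX (Finset.empty_subset _) (Finset.disjoint_empty_right _)
    (by rw [Finset.card_empty]; omega)
  have g2 := hP.gap (insert x' (S.erase x)) ∅ hS'X (Finset.empty_subset _)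
    (Finset.disjoint_empty_right _) (by rw [Finset.card_empty]; omega)
  rw [Finset.sum_empty, add_zero] at g1 g2
  rw [Finset.sum_insert (fun h1 => hx'S (Finset.mem_of_mem_erase h1))] at g2
  have g3 := Finset.add_sum_erase S al hxS
  have h4 : (m : ℤ) ∣ al x - al x' := (ZMod.intCast_eq_intCast_iff_dvd_sub _ _ _).1 he.symm
  have h5 : |al x - al x'| < m := by
    rw [abs_lt]
    constructor <;> omega
  have h6 := Int.eq_zero_of_abs_lt_dvd h4 h5
  omega

theorem var_c [NeZero m] {c : V → V → ZMod m} {s : ℕ} (h : HS c s) {w v : V} (hl : Lp c w v) (r : ZMod m)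
    (ha : m + 2 ≤ (cl c w r).card + s) :
    ∃ (g : (ZMod m)ˣ) (f : V → ℤ),
      (∀ b ∈ (W.BB (fun p q => (g : ZMod m) * (c p q - r)) w).erase v,
        (f b : ZMod m) = (g : ZMod m) * (c w b - r)) ∧
      ∑ b ∈ (W.BB (fun p q => (g : ZMod m) * (c p q - r)) w).erase v, (|f b| - 1) + s + 1 ≤ (m : ℤ) := by
  have hf := h.rng.facts
  have ham := cl_lt0 h w r
  obtain ⟨hD, g, β, z0, al, ga, hP⟩ := hl
  obtain ⟨hs1, hm2, hDn⟩ := lp_nD h hD hP
  have hX : (XX w v).card + 2 = m + s := by
    rw [← h.card]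
    exact G.card_XX hP.ne
  -- the two parts of the positions
  have hB : (W.BB (fun p q => (g : ZMod m) * (c p q - r)) w).erase v =
      (XX w v).filter (fun x => ¬ c w x = r) := by
    ext x
    rw [Finset.mem_erase, mem_BB, Finset.mem_filter]
    have e1 : x ∈ XX w v ↔ x ≠ w ∧ x ≠ v := G.mem_XX
    rw [e1]
    have e2 : (g : ZMod m) * (c w x - r) ≠ 0 ↔ ¬ c w x = r := by
      rw [ne_eq, Units.mul_right_eq_zero, sub_eq_zero]
    rw [e2]
    tauto
  have hA1 : (cl c w r).card ≤ ((XX w v).filter (fun x => c w x = r)).card + 1 := by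
    have h1 : cl c w r ⊆ insert v ((XX w v).filter (fun x => c w x = r)) := by
      intro x hx
      rw [Finset.mem_insert, Finset.mem_filter]
      by_cases hxv : x = v
      · exact Or.inl hxv
      · exact Or.inr ⟨G.mem_XX.2 ⟨(mem_cl.1 hx).1, hxv⟩, (mem_cl.1 hx).2⟩
    exact (Finset.card_le_card h1).trans (Finset.card_insert_le _ _)
  have hA2 : ((XX w v).filter (fun x => c w x = r)).card ≤ (cl c w r).card := by
    apply Finset.card_le_card
    intro x hx
    rw [Finset.mem_filter] at hx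
    exact mem_cl.2 ⟨(G.mem_XX.1 hx.1).1, hx.2⟩
  have hAB := Finset.card_filter_add_card_filter_not (s := XX w v) (fun x => c w x = r)
  obtain ⟨x0, hx0⟩ : ((XX w v).filter (fun x => c w x = r)).Nonempty := by
    rw [← Finset.card_pos]
    omega
  rw [Finset.mem_filter] at hx0
  have hcol : ∀ x ∈ XX w v, (al x : ZMod m) = (g : ZMod m) * c w x - β := by
    intro x hx
    obtain ⟨h1, h2⟩ := G.mem_XX.1 hx
    exact hP.hu x h1 h2
  have hk0 : ∀ x ∈ XX w v, c w x = r → al x = al x0 := by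
    intro x hx hxr
    apply al_const hP hX (by omega) hm2 hx hx0.1
    rw [hcol x hx, hcol x0 hx0.1, hxr, hx0.2]
  have hne : ∀ x ∈ XX w v, ¬ c w x = r → al x ≠ al x0 := by
    intro x hx hxr he
    apply hxr
    have h1 := hcol x hx
    rw [he, hcol x0 hx0.1, hx0.2] at h1
    have h2 : (g : ZMod m) * r = (g : ZMod m) * c w x := by
      linear_combination h1
    exact ((Units.mul_right_inj g).1 h2).symm
  refine ⟨g, fun b => al b - al x0, ?_, ?_⟩
  · intro b hb
    rw [hB, Finset.mem_filter] at hb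
    push_cast
    rw [hcol b hb.1, hcol x0 hx0.1, hx0.2]
    ring
  rw [hB]
  have hsplit : ∀ F : V → ℤ, ∑ x ∈ (XX w v).filter (fun x => c w x = r), F x +
      ∑ x ∈ (XX w v).filter (fun x => ¬ c w x = r), F x = ∑ x ∈ XX w v, F x := fun F =>
    Finset.sum_filter_add_sum_filter_not _ _ _
  generalize hAdef : (XX w v).filter (fun x => c w x = r) = A' at hA1 hA2 hAB hsplit
  generalize hBdef : (XX w v).filter (fun x => ¬ c w x = r) = B' at hAB hsplit ⊢
  have hAm : ∀ x ∈ A', x ∈ XX w v ∧ c w x = r := by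
    intro x hx
    rw [← hAdef, Finset.mem_filter] at hx
    exact hx
  have hBm : ∀ x ∈ B', x ∈ XX w v ∧ ¬ c w x = r := by
    intro x hx
    rw [← hBdef, Finset.mem_filter] at hx
    exact hx
  show ∑ b ∈ B', (|al b - al x0| - 1) + (s : ℤ) + 1 ≤ (m : ℤ)
  rcases dich hP h.card hs1 hm2 hDn with ⟨θ, hC⟩ | ⟨θ, hN⟩
  · unfold Cen at hC
    rw [← hsplit] at hC
    have hA0 : (0 : ℤ) ≤ ∑ x ∈ A', cost θ (al x) (ga x) :=
      Finset.sum_nonneg fun x _ => cost_nonneg _ _ _
    have hB0 : (0 : ℤ) ≤ ∑ x ∈ B', cost θ (al x) (ga x) :=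
      Finset.sum_nonneg fun x _ => cost_nonneg _ _ _
    have hk : al x0 = θ ∨ al x0 = θ - 1 := by
      by_contra hcon
      rw [not_or] at hcon
      have h1 : ∀ x ∈ A', (1 : ℤ) ≤ cost θ (al x) (ga x) := by
        intro x hx
        have h2 := dist_le_cost θ (al x) (ga x)
        rw [hk0 x (hAm x hx).1 (hAm x hx).2] at h2 ⊢
        have h3 := le_max_left (al x0 - θ) 0
        have h4 := le_max_right (al x0 - θ) 0
        have h5 := le_max_left (θ - 1 - al x0) 0
        have h6 := le_max_right (θ - 1 - al x0) 0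
        omega
      have h7 := Finset.sum_le_sum h1
      rw [Finset.sum_const, nsmul_eq_mul, mul_one] at h7
      omega
    have h1 : ∀ b ∈ B', |al b - al x0| - 1 ≤ cost θ (al b) (ga b) := by
      intro b hb
      have h2 := dist_le_cost θ (al b) (ga b)
      have h3 := hne b (hBm b hb).1 (hBm b hb).2
      have h4 := le_max_left (al b - θ) 0
      have h5 := le_max_right (al b - θ) 0
      have h6 := le_max_left (θ - 1 - al b) 0
      have h7 := le_max_right (θ - 1 - al b) 0
      rcases abs_cases (al b - al x0) with ⟨h8, h9⟩ | ⟨h8, h9⟩ <;> omega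
    have h2 := Finset.sum_le_sum h1
    linarith
  · have hT := hN.tot
    rw [← hsplit] at hT
    have hB1 : ∑ x ∈ B', |al x - θ| ≤ ∑ x ∈ B', cc θ (al x) (ga x) :=
      Finset.sum_le_sum fun x _ => abs_le_cc _ _ _
    have hA1' : ∑ x ∈ A', |al x0 - θ| ≤ ∑ x ∈ A', cc θ (al x) (ga x) := by
      refine Finset.sum_le_sum fun x hx => ?_
      have h2 := abs_le_cc θ (al x) (ga x)
      rw [hk0 x (hAm x hx).1 (hAm x hx).2] at h2 ⊢
      exact h2
    rw [Finset.sum_const, nsmul_eq_mul] at hA1'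
    by_cases hθ : al x0 = θ
    · rw [hθ, sub_self, abs_zero, mul_zero] at hA1'
      rw [hθ, Finset.sum_sub_distrib, Finset.sum_const, nsmul_eq_mul, mul_one]
      omega
    · have h1 : 1 ≤ |al x0 - θ| := Int.one_le_abs (sub_ne_zero.2 hθ)
      have h2 : ∀ b ∈ B', |al b - al x0| - 1 ≤ |al b - θ| + (|al x0 - θ| - 1) := by
        intro b _
        have h3 := abs_sub_le (al b) θ (al x0)
        rw [abs_sub_comm θ (al x0)] at h3
        linarith
      have h2' : |al x0 - θ| = 1 := by
        by_contra hcon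
        have h3 : 2 ≤ |al x0 - θ| := by omega
        have h4 : (A'.card : ℤ) * 2 ≤ A'.card * |al x0 - θ| :=
          mul_le_mul_of_nonneg_left h3 (by positivity)
        have h5 : 0 ≤ ∑ x ∈ B', |al x - θ| := Finset.sum_nonneg fun x _ => abs_nonneg _
        omega
      rw [h2', mul_one] at hA1'
      have h3 := Finset.sum_le_sum h2
      rw [h2', sub_self] at h3
      simp only [add_zero] at h3
      omega

/-- a colour class has less than `m` elements. -/
theorem cl_lt [NeZero m] {c : V → V → ZMod m} {s : ℕ} (h : HS c s) (w : V) (r : ZMod m) :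
    (cl c w r).card + 1 ≤ m :=
  cl_lt0 h w r

end H
end ZS44129
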