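import Pool.Agent.Work.MP_44129c_co.H.CD

/-!
# MP_44129c_co/H, C2: many roots (counting)
-/

set_option autoImplicit false

namespace ZS44129
namespace H

open Finset E N

variable {V : Type} [Fintype V] [DecidableEq V] {m : ℕ}

theorem many_roots {c : V → V → ZMod m} {s kp : ℕ} {w : V} {mu R : ℕ} (hmu : 1 ≤ mu) (hR : 1 ≤ R)
    (hcount : (s + 1) * (W.AA c w).card ≤ kp * (W.AA c w).card + ∑ y ∈ W.BB c w, (XP c w y).card)
    (hnum : kp * (W.AA c w).card + (W.BB c w).card * (mu - 1) + (R - 1) * ((W.AA c w).card + 1 - mu) <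
      (s + 1) * (W.AA c w).card) :
    ∃ T ⊆ W.BB c w, T.card = R ∧ ∀ y ∈ T, mu ≤ (XP c w y).card := by
  classical
  have hG : R ≤ ((W.BB c w).filter (fun y => mu ≤ (XP c w y).card)).card := by
    by_contra hcon
    push Not at hcon
    have h1 : ∑ y ∈ W.BB c w, (XP c w y).card ≤
        ∑ y ∈ W.BB c w, ((mu - 1) + (if mu ≤ (XP c w y).card then (W.AA c w).card + 1 - mu else 0)) := by
      apply Finset.sum_le_sum
      intro y _
      have h2 : (XP c w y).card ≤ (W.AA c w).card := Finset.card_le_card XP_sub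
      split_ifs with h3
      · omega
      · omega
    rw [Finset.sum_add_distrib, Finset.sum_const, smul_eq_mul, ← Finset.sum_filter, Finset.sum_const,
      smul_eq_mul] at h1
    have h4 : ((W.BB c w).filter (fun y => mu ≤ (XP c w y).card)).card * ((W.AA c w).card + 1 - mu) ≤
        (R - 1) * ((W.AA c w).card + 1 - mu) := Nat.mul_le_mul_right _ (by omega)
    omega
  obtain ⟨T, hT, hTc⟩ := exists_subset_card_eq hG
  refine ⟨T, fun y hy => (mem_filter.1 (hT hy)).1, hTc, fun y hy => (mem_filter.1 (hT hy)).2⟩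

end H
end ZS44129
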