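import Pool.Agent.Work.MP_44129c_co.H.C3
import Pool.Agent.Work.MP_44129c_co.P1.KnC

/-!
# MP_44129c_co/H, C3A (size M-L): an aperiodic cube at a root

`e = |BB|`, `Y = BB.erase y`, `|Y| = e - 1`, `Z = Y.erase v`, `|Z| ≥ e - 2`; `δ = W.dlt c w y` (`= c w b` on `BB`, `= - c y x` on `AA`).  `∑_Z (|f b| - 1) + s + 1 ≤ m` (drop the summand of `y`, all summands are `≥ 0` because
`(f b : ZMod m) = c w b ≠ 0`).  `S` = the set of `small_sel` for `Z`, `k = s - 2` (`s - 2 ≤ e - 2`).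
CHOICE of `b1 ∈ Y \ S` (`e - 1 > s - 2`, so `Y \ S ≠ ∅`): if there is a subgroup `K` with `2 |K| = m` such that all `i ∈ S` have `c w i ∈ K` and some `b ∈ Y` has `c w b ∉ K`, take `b1` = such a `b` (it is not in `S`; the subgroup `K` is unique,
`G.eq_of_card`); otherwise `b1` arbitrary.  `J0 = insert b1 S`, `|J0| = s - 1`.  So (*): for every `K` with `2 |K| = m`: if all `i ∈ J0` have `c w i ∈ K` then all `b ∈ Y` have `c w b ∈ K`.
Suppose the cube `C` of `J0 ∪ P0` is not aperiodic.  Let `H` be its stabiliser (as `ppStab` in W/PP: the `h` with `x + h ∈ C` for all `x ∈ C`), `H ≠ ⊥`, `j = H.index`, `|H| j = m`.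
 (a) `C ≠ univ`: otherwise `ζ = c w y + ∑_Y c w b ∈ C`: `ζ = ∑_T δ`, `T ⊆ J0 ∪ P0`, `J = T ∩ J0`, `P = T ∩ P0`: `c w y + ∑_{Y \ J} c w b + ∑_P c y x = 0`: contradiction to `av_c` (`|P| + e ≤ m`).
 (b) `out_le` (P1/KnC): `#outK + 2 ≤ j`; so `j ≥ 2`.
 (c) `j ≥ 3`, `|H| ≤ 3`: every `x ∈ H` has `2 x = 0` or every `x ∈ H` has `3 x = 0` (`|H| ∈ {2, 3}`), so all `x ∈ P0 ⊆ XP` have `δ x ∉ H`, and all `i ∈ S` have `δ i = c w i = f i ∉ H` (`out_small`): `|P0| + (s - 2) + 2 ≤ j ≤ m / 2`, i.e. `2 (|P0| + s) ≤ m`; with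
   `hmu`: `2 (m + 1 - s) ≤ m`, `m + 2 ≤ 2 s`: contradiction.
 (d) `j ≥ 3`, `|H| ≥ 4`: `out_small` gives `#{i ∈ S : δ i ∉ H} ≥ j - 1`: contradiction to (b).
 (e) `j = 2`: `2 |H| = m`, no element of `J0 ∪ P0` is outside `H`; by (*) all `b ∈ Y` have `c w b ∈ H`, so by `hodd` `c w y ∈ H`.  `C ⊆ H`, `0 ∈ C`, and `C` is a union of cosets of `H`: `C = H`.  `ζ ∈ H = C`: contradiction as in (a).
-/

set_option autoImplicit false

namespace ZS44129
namespace H

open Finset E N

variable {V : Type} [Fintype V] [DecidableEq V] {m : ℕ}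

private def c3aStab {G : Type*} [AddCommGroup G] (S : Finset G) : AddSubgroup G where
  carrier := {h | ∀ x ∈ S, x + h ∈ S}
  add_mem' {a b} ha hb := by
    intro x hx
    rw [← add_assoc]
    exact hb _ (ha x hx)
  zero_mem' := by
    intro x hx
    rwa [add_zero]
  neg_mem' {a} ha := by
    classical
    intro x hx
    have h1 : S.image (fun y => y + a) ⊆ S := by
      intro z hz
      obtain ⟨y, hy, rfl⟩ := Finset.mem_image.1 hz
      exact ha y hy
    have h2 : S.image (fun y => y + a) = S := by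
      apply Finset.eq_of_subset_of_card_le h1
      rw [Finset.card_image_of_injective _ (add_left_injective a)]
    rw [← h2] at hx
    obtain ⟨y, hy, hyx⟩ := Finset.mem_image.1 hx
    have h3 : x + -a = y := by
      rw [← hyx]
      abel
    rw [h3]
    exact hy

private theorem c3a_choice [NeZero m] (δ : V → ZMod m) (Y S : Finset V) (hSY : S ⊆ Y)
    (hc : S.card < Y.card) :
    ∃ b1 ∈ Y \ S, ∀ K : AddSubgroup (ZMod m), 2 * Nat.card K = m →
      (∀ i ∈ insert b1 S, δ i ∈ K) → ∀ b ∈ Y, δ b ∈ K := by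
  classical
  by_cases hK : ∃ K : AddSubgroup (ZMod m), 2 * Nat.card K = m ∧ (∀ i ∈ S, δ i ∈ K) ∧
      ∃ b ∈ Y, δ b ∉ K
  · obtain ⟨K, hK2, hKS, b, hb, hbK⟩ := hK
    refine ⟨b, mem_sdiff.2 ⟨hb, fun h => hbK (hKS b h)⟩, ?_⟩
    intro K' hK' hall
    have h1 : K' = K := G.eq_of_card K' K (by omega)
    rw [h1] at hall
    exact absurd (hall b (mem_insert_self _ _)) hbK
  · obtain ⟨b, hb⟩ : (Y \ S).Nonempty := by
      rw [← card_pos]
      have h1 := card_sdiff_add_card_eq_card hSY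
      omega
    refine ⟨b, hb, ?_⟩
    intro K hK2 hall b' hb'
    by_contra hcon
    exact hK ⟨K, hK2, fun i hi => hall i (mem_insert_of_mem hi), b', hb', hcon⟩

private theorem c3a_dY {c : V → V → ZMod m} {w y b : V} (hb : b ∈ W.BB c w) :
    W.dlt c w y b = c w b := by
  unfold W.dlt
  rw [if_neg (mem_BB.1 hb).2]

private theorem c3a_dX {c : V → V → ZMod m} {w y b : V} (hb : b ∈ W.AA c w) :
    W.dlt c w y b = - c y b := by
  unfold W.dlt
  rw [if_pos (mem_AA.1 hb).2]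

private theorem c3a_zeta [NeZero m] {c : V → V → ZMod m} {s : ℕ} (h : HS c s) {w y : V}
    (hy : y ∈ W.BB c w) (J0 P0 : Finset V) (hJ0 : J0 ⊆ (W.BB c w).erase y)
    (hJ0c : J0.card + 1 = s) (hP0 : P0 ⊆ W.AA c w) (hPc : P0.card + (W.BB c w).card ≤ m) :
    c w y + ∑ b ∈ (W.BB c w).erase y, c w b ∉ cube (W.dlt c w y) (J0 ∪ P0) := by
  intro hmem
  obtain ⟨T, hT, hsum⟩ := mem_cube.1 hmem
  have hdis : Disjoint (T ∩ J0) (T ∩ P0) := by
    rw [Finset.disjoint_left]
    intro x hx hx2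
    have h1 := mem_of_mem_erase (hJ0 (mem_inter.1 hx).2)
    have h2 := hP0 (mem_inter.1 hx2).2
    exact (mem_BB.1 h1).2 (mem_AA.1 h2).2
  have hTu : (T ∩ J0) ∪ (T ∩ P0) = T := by
    rw [← inter_union_distrib_left]
    exact inter_eq_left.2 hT
  have h2 : ∑ i ∈ T ∩ J0, W.dlt c w y i = ∑ i ∈ T ∩ J0, c w i :=
    Finset.sum_congr rfl fun i hi => c3a_dY (mem_of_mem_erase (hJ0 (mem_inter.1 hi).2))
  have h3 : ∑ i ∈ T ∩ P0, W.dlt c w y i = - ∑ i ∈ T ∩ P0, c y i := by
    rw [← Finset.sum_neg_distrib]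
    exact Finset.sum_congr rfl fun i hi => c3a_dX (hP0 (mem_inter.1 hi).2)
  have hsum2 : ∑ i ∈ T ∩ J0, c w i + - ∑ i ∈ T ∩ P0, c y i =
      c w y + ∑ b ∈ (W.BB c w).erase y, c w b := by
    rw [← h2, ← h3, ← Finset.sum_union hdis, hTu, hsum]
  have hJs : T ∩ J0 ⊆ (W.BB c w).erase y := inter_subset_right.trans hJ0
  have hJc : (T ∩ J0).card ≤ J0.card := card_le_card inter_subset_right
  have hPc2 : (T ∩ P0).card ≤ P0.card := card_le_card inter_subset_right
  apply av_c h hy (T ∩ J0) hJs (by omega) (T ∩ P0) (inter_subset_right.trans hP0) (by omega)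
  have h4 := Finset.sum_sdiff (f := fun b => c w b) hJs
  have h5 : c w y + ∑ b ∈ (W.BB c w).erase y \ (T ∩ J0), c w b + ∑ x ∈ T ∩ P0, c y x =
      (c w y + (∑ b ∈ (W.BB c w).erase y \ (T ∩ J0), c w b + ∑ b ∈ T ∩ J0, c w b)) -
        (∑ i ∈ T ∩ J0, c w i + - ∑ i ∈ T ∩ P0, c y i) := by ring
  rw [h5, hsum2, h4, sub_self]

theorem aper_c [NeZero m] {c : V → V → ZMod m} {s : ℕ} (h : HS c s) {w v : V} {f : V → ℤ}
    (hf : ∀ b ∈ (W.BB c w).erase v, (f b : ZMod m) = c w b)
    (hfs : ∑ b ∈ (W.BB c w).erase v, (|f b| - 1) + s + 1 ≤ (m : ℤ))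
    (he : m + 9 ≤ 2 * (W.BB c w).card + s) {y : V} (hy : y ∈ W.BB c w)
    (hodd : ∀ K : AddSubgroup (ZMod m), 2 * Nat.card K = m →
      c w y ∈ K ∨ ∃ b ∈ (W.BB c w).erase y, c w b ∉ K)
    {P0 : Finset V} (hP0 : P0 ⊆ XP c w y) (hmu : m + 1 ≤ P0.card + 2 * s)
    (hP0c : P0.card + (W.BB c w).card ≤ m) :
    ∃ J0 ⊆ (W.BB c w).erase y, J0.card + 1 = s ∧ Aper (cube (W.dlt c w y) (J0 ∪ P0)) := by
  classical
  obtain ⟨hs38, hm1, hm2, hm3⟩ := h.rng.facts
  have : Fintype (ZMod m) := ZMod.fintype m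
  have hm0 : 0 < m := Nat.pos_of_ne_zero (NeZero.ne m)
  set Y := (W.BB c w).erase y with hYd
  set Z := Y.erase v with hZd
  set e := (W.BB c w).card with hed
  have hYc : Y.card + 1 = e := card_erase_add_one hy
  have hZc : e ≤ Z.card + 2 := by
    have h1 : Y.card - 1 ≤ Z.card := Finset.pred_card_le_card_erase (s := Y) (a := v)
    omega
  have hZY : Z ⊆ Y := erase_subset _ _
  have hYB : Y ⊆ W.BB c w := erase_subset _ _
  have hZv : Z ⊆ (W.BB c w).erase v := by
    intro b hb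
    exact mem_erase.2 ⟨(mem_erase.1 hb).1, hYB (hZY hb)⟩
  have hfne : ∀ b ∈ (W.BB c w).erase v, (f b : ZMod m) ≠ 0 := by
    intro b hb
    rw [hf b hb]
    exact (mem_BB.1 (mem_of_mem_erase hb)).2
  have hsumZ : ∑ b ∈ Z, (|f b| - 1) + s + 1 ≤ (m : ℤ) := by
    have h1 : ∑ b ∈ Z, (|f b| - 1) ≤ ∑ b ∈ (W.BB c w).erase v, (|f b| - 1) := by
      apply Finset.sum_le_sum_of_subset_of_nonneg hZv
      intro b hb _
      have h2 : f b ≠ 0 := by
        intro h0
        apply hfne b hb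
        rw [h0, Int.cast_zero]
      have h3 := Int.one_le_abs h2
      omega
    linarith
  obtain ⟨S, hSZ, hSc, hSmin⟩ := small_sel Z f (s - 2) (by omega)
  have hSc2 : S.card + 2 = s := by omega
  have hSY : S ⊆ Y := hSZ.trans hZY
  obtain ⟨b1, hb1, hchoice⟩ := c3a_choice (fun b => c w b) Y S hSY (by omega)
  obtain ⟨hb1Y, hb1S⟩ := mem_sdiff.1 hb1
  have hJ0 : insert b1 S ⊆ Y := insert_subset hb1Y hSY
  have hJ0c : (insert b1 S).card + 1 = s := by
    rw [card_insert_of_notMem hb1S]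
    omega
  refine ⟨insert b1 S, hJ0, hJ0c, ?_⟩
  have hPA : P0 ⊆ W.AA c w := hP0.trans (filter_subset _ _)
  have hz := c3a_zeta h hy (insert b1 S) P0 hJ0 hJ0c hPA hP0c
  by_contra hnap
  set C := cube (W.dlt c w y) (insert b1 S ∪ P0) with hCd
  set H : AddSubgroup (ZMod m) := c3aStab C with hHd
  have hH : ∀ h : ZMod m, h ∈ H ↔ ∀ x ∈ C, x + h ∈ C := fun h => Iff.rfl
  have hHbot : H ≠ ⊥ := by
    intro hb
    apply hnap
    intro g hg
    have h1 : g ∈ H := (hH g).2 hg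
    rw [hb] at h1
    exact (AddSubgroup.mem_bot).1 h1
  have hCne : C ≠ univ := by
    intro hu
    apply hz
    rw [hu]
    exact Finset.mem_univ _
  have hout := out_le (W.dlt c w y) (insert b1 S ∪ P0) H hH hCne
  have hcm : Nat.card (ZMod m) = m := Nat.card_zmod m
  have hji : Nat.card H * H.index = m := by
    rw [AddSubgroup.card_mul_index, hcm]
  rw [hcm] at hout
  have hh2 : 2 ≤ Nat.card H := by
    have h1 : 0 < Nat.card H := Nat.card_pos
    have h2 : Nat.card H ≠ 1 := by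
      intro h3
      exact hHbot ((AddSubgroup.card_eq_one).1 h3)
    omega
  have hj2 : (outK (W.dlt c w y) (insert b1 S ∪ P0) H).card + 2 ≤ H.index := by
    have h1 : ((outK (W.dlt c w y) (insert b1 S ∪ P0) H).card + 2) * Nat.card H ≤
        H.index * Nat.card H := by
      calc ((outK (W.dlt c w y) (insert b1 S ∪ P0) H).card + 2) * Nat.card H ≤ m := hout
        _ = H.index * Nat.card H := hji.symm.trans (mul_comm _ _)
    exact Nat.le_of_mul_le_mul_right h1 (by omega)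
  have hSf : ∀ i ∈ S, W.dlt c w y i = (f i : ZMod m) := by
    intro i hi
    rw [c3a_dY (hYB (hSY hi)), hf i (hZv (hSZ hi))]
  rcases (show 3 ≤ H.index ∨ H.index = 2 by omega) with hj3 | hj3
  · have hos := out_small Z S f hSZ hSc2
      (fun i hi j hj => hSmin i hi j (mem_sdiff.2 ((@Finset.mem_sdiff _ (_) _ _ _).1 hj))) hZc (fun b hb => hfne b (hZv hb)) hsumZ hs38 hm1 hm3
      he H hh2 hj3
    rcases (show Nat.card H ≤ 3 ∨ 4 ≤ Nat.card H by omega) with hh3 | hh4
    · have h1 := hos.1 hh3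
      have hPout : P0 ⊆ outK (W.dlt c w y) (insert b1 S ∪ P0) H := by
        intro x hx
        refine mem_outK.2 ⟨mem_union_right _ hx, ?_⟩
        intro hmem
        rw [c3a_dX (hPA hx), G.mem_iff, smul_neg, neg_eq_zero, nsmul_eq_mul] at hmem
        obtain ⟨hx2, hx3⟩ := (mem_XP.1 (hP0 hx)).2
        rcases (show Nat.card H = 2 ∨ Nat.card H = 3 by omega) with h2 | h2
        · rw [h2] at hmem
          push_cast at hmem
          exact hx2 hmem
        · rw [h2] at hmem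
          push_cast at hmem
          exact hx3 hmem
      have hSout : S ⊆ outK (W.dlt c w y) (insert b1 S ∪ P0) H := by
        intro x hx
        refine mem_outK.2 ⟨mem_union_left _ (mem_insert_of_mem hx), ?_⟩
        rw [hSf x hx]
        exact h1 x hx
      have hdis : Disjoint S P0 := by
        rw [Finset.disjoint_left]
        intro x hx hx2
        exact (mem_BB.1 (hYB (hSY hx))).2 (mem_AA.1 (hPA hx2)).2
      have hcc : S.card + P0.card ≤ (outK (W.dlt c w y) (insert b1 S ∪ P0) H).card := by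
        rw [← card_union_of_disjoint hdis]
        exact card_le_card (union_subset hSout hPout)
      have h2j : 2 * H.index ≤ m := by
        calc 2 * H.index ≤ Nat.card H * H.index := Nat.mul_le_mul_right _ hh2
          _ = m := hji
      omega
    · have h1 := hos.2 hh4
      have h2 : H.index ≤ (outK (W.dlt c w y) (insert b1 S ∪ P0) H).card + 1 := by
        refine h1.trans (Nat.add_le_add_right (card_le_card ?_) 1)
        intro x hx
        obtain ⟨hx1, hx2⟩ := (@Finset.mem_filter _ _ (_) _ _).1 hx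
        refine mem_outK.2 ⟨mem_union_left _ (mem_insert_of_mem hx1), ?_⟩
        rw [hSf x hx1]
        exact hx2
      omega
  · have hm2H : 2 * Nat.card H = m := by
      rw [hj3, mul_comm] at hji
      exact hji
    have hout0 : outK (W.dlt c w y) (insert b1 S ∪ P0) H = ∅ := by
      rw [← card_eq_zero]
      omega
    have hall : ∀ i ∈ insert b1 S ∪ P0, W.dlt c w y i ∈ H := by
      intro i hi
      by_contra hcon
      have h1 : i ∈ outK (W.dlt c w y) (insert b1 S ∪ P0) H := mem_outK.2 ⟨hi, hcon⟩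
      rw [hout0] at h1
      exact absurd h1 (notMem_empty _)
    have hYH : ∀ b ∈ Y, c w b ∈ H := by
      apply hchoice H hm2H
      intro i hi
      have h1 := hall i (mem_union_left _ hi)
      rwa [c3a_dY (hYB (hJ0 hi))] at h1
    have hyH : c w y ∈ H := by
      rcases hodd H hm2H with h1 | ⟨b, hb, hbH⟩
      · exact h1
      · exact absurd (hYH b hb) hbH
    have hzH : c w y + ∑ b ∈ Y, c w b ∈ H := H.add_mem hyH (H.sum_mem hYH)
    apply hz
    have h1 := (hH _).1 hzH 0 (zero_mem_cube _ _)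
    rwa [zero_add] at h1

end H
end ZS44129
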