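import Pool.Agent.Work.MP_44129c_co.H.C3

/-!
# MP_44129c_co/H, C4 (size M): the integer lift at a root

PROOF.  `W.wlift` with `Y = BB.erase y`, `X = XP c w y`, `δ = W.dlt c w y` (nonzero: `c w b ≠ 0` on `BB`; `δ x = - c y x ≠ 0` on `XK` as `6 c y x ≠ 0`), `ζ = c w y + ∑_Y c w b`, `r = s - 1`, `μ = |P0|`; `hav` from `av_c` as in `root_lift`
(W/Root; copy); `m + 1 ≤ 2 (r + μ)` since `μ ≥ m + 1 - 2 s`, `m ≥ 2 s + 1`.  It gives `g`, `n`, `z` with `δ i = n i • g` and for `J ⊆ Y`, `|J| ≤ s - 1`, `P ⊆ X`, `|P| ≤ μ`: `z - m + 1 ≤ ∑_J n + ∑_P n ≤ z - 1`.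
Given `J1`, `J2`: `P1 = {x ∈ P0 : n x ≥ 1}`, `P2 = {x ∈ P0 : n x ≤ -1}` (`n x ≠ 0` on `P0`, so `|P1| + |P2| = |P0|`): `(∑_{J1} n + ∑_{P1} n) - (∑_{J2} n + ∑_{P2} n) ≤ m - 2` and `∑_{P1} n - ∑_{P2} n ≥ |P0|`.
-/

set_option autoImplicit false

namespace ZS44129
namespace H

open Finset E N

variable {V : Type} [Fintype V] [DecidableEq V] {m : ℕ}

theorem lift_c [NeZero m] {c : V → V → ZMod m} {s : ℕ} (h : HS c s) {w y : V} (hy : y ∈ W.BB c w)
    {J0 P0 : Finset V} (hJ0 : J0 ⊆ (W.BB c w).erase y) (hJ0c : J0.card + 1 = s) (hP0 : P0 ⊆ XP c w y)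
    (hmu : m + 1 ≤ P0.card + 2 * s) (hP0c : P0.card + (W.BB c w).card ≤ m)
    (hap : Aper (cube (W.dlt c w y) (J0 ∪ P0))) :
    ∃ (g : (ZMod m)ˣ) (n : V → ℤ), (∀ b ∈ (W.BB c w).erase y, c w b = (n b : ZMod m) * g) ∧
      ∀ J1 ⊆ (W.BB c w).erase y, J1.card + 1 ≤ s → ∀ J2 ⊆ (W.BB c w).erase y, J2.card + 1 ≤ s →
        ∑ b ∈ J1, n b - ∑ b ∈ J2, n b + P0.card + 2 ≤ (m : ℤ) := by
  have hf := h.rng.facts
  have hYB : ∀ b ∈ (W.BB c w).erase y, c w b ≠ 0 := by
    intro b hb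
    exact (mem_BB.1 (Finset.mem_of_mem_erase hb)).2
  have hXA : XP c w y ⊆ W.AA c w := XP_sub
  have hXw : ∀ x ∈ XP c w y, c w x = 0 := fun x hx => (mem_XP.1 hx).1.2
  have hXy : ∀ x ∈ XP c w y, c y x ≠ 0 := by
    intro x hx h1
    apply (mem_XP.1 hx).2.1
    rw [h1, mul_zero]
  have hdY : ∀ b ∈ (W.BB c w).erase y, W.dlt c w y b = c w b := by
    intro b hb
    unfold W.dlt
    rw [if_neg (hYB b hb)]
  have hdX : ∀ x ∈ XP c w y, W.dlt c w y x = - c y x := by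
    intro x hx
    unfold W.dlt
    rw [if_pos (hXw x hx)]
  have hdis : Disjoint ((W.BB c w).erase y) (XP c w y) := by
    rw [Finset.disjoint_left]
    intro x hx hx2
    exact hYB x hx (hXw x hx2)
  obtain ⟨g, n, z, hn, hz, hgap⟩ := W.wlift ((W.BB c w).erase y) (XP c w y) hdis (W.dlt c w y)
    (by
      intro i hi
      rcases Finset.mem_union.mp hi with h1 | h1
      · rw [hdY i h1]; exact hYB i h1
      · rw [hdX i h1]; exact neg_ne_zero.mpr (hXy i h1))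
    (c w y + ∑ b ∈ (W.BB c w).erase y, c w b) (s - 1) P0.card (by omega) (by omega)
    (by
      intro J hJ hJc P hP hPc heq
      apply av_c h hy J hJ (by omega) P (hP.trans hXA) (by omega)
      have h1 : ∑ i ∈ J, W.dlt c w y i = ∑ i ∈ J, c w i :=
        Finset.sum_congr rfl (fun i hi => hdY i (hJ hi))
      have h2 : ∑ i ∈ P, W.dlt c w y i = - ∑ i ∈ P, c y i := by
        rw [← Finset.sum_neg_distrib]
        exact Finset.sum_congr rfl (fun i hi => hdX i (hP hi))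
      have h3 := Finset.sum_sdiff (f := fun b => c w b) hJ
      rw [h1, h2, ← h3] at heq
      have h4 : c w y + ∑ b ∈ (W.BB c w).erase y \ J, c w b + ∑ x ∈ P, c y x =
          (c w y + (∑ b ∈ (W.BB c w).erase y \ J, c w b + ∑ b ∈ J, c w b)) -
            (∑ i ∈ J, c w i + - ∑ i ∈ P, c y i) := by ring
      rw [h4, heq, sub_self])
    (by omega) J0 P0 hJ0 (by omega) hP0 rfl hap
  refine ⟨g, n, ?_, ?_⟩
  · intro b hb
    rw [← hdY b hb, hn b (Finset.mem_union_left _ hb), zsmul_eq_mul]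
  · intro J1 hJ1 hJ1c J2 hJ2 hJ2c
    have h1 := (hgap J1 hJ1 (by omega) (P0.filter (fun x => 1 ≤ n x))
      ((Finset.filter_subset _ _).trans hP0) (Finset.card_le_card (Finset.filter_subset _ _))).2
    have h2 := (hgap J2 hJ2 (by omega) (P0.filter (fun x => ¬ 1 ≤ n x))
      ((Finset.filter_subset _ _).trans hP0) (Finset.card_le_card (Finset.filter_subset _ _))).1
    have h3 := Finset.card_filter_add_card_filter_not (s := P0) (fun x => 1 ≤ n x)
    have h4 : ((P0.filter (fun x => 1 ≤ n x)).card : ℤ) ≤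
        ∑ x ∈ P0.filter (fun x => 1 ≤ n x), n x := by
      rw [Finset.card_eq_sum_ones]
      push_cast
      exact Finset.sum_le_sum fun x hx => (Finset.mem_filter.1 hx).2
    have h5 : ∑ x ∈ P0.filter (fun x => ¬ 1 ≤ n x), n x ≤
        - ((P0.filter (fun x => ¬ 1 ≤ n x)).card : ℤ) := by
      rw [Finset.card_eq_sum_ones]
      push_cast
      rw [← Finset.sum_neg_distrib]
      refine Finset.sum_le_sum fun x hx => ?_
      obtain ⟨h6, h7⟩ := Finset.mem_filter.1 hx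
      have h8 : n x ≠ 0 := by
        intro h9
        have h10 := hn x (Finset.mem_union_right _ (hP0 h6))
        rw [h9, zero_smul, hdX x (hP0 h6), neg_eq_zero] at h10
        exact hXy x (hP0 h6) h10
      omega
    omega

end H
end ZS44129
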