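import Pool.Agent.Work.MP_44129c_co.H.CD

/-!
# MP_44129c_co/H, C4B (size M): the structure at a root

`Y = BB.erase y`, `|Y| = e - 1`, `X = m - s - 1 - mu` (so `m - 2 - mu = X + s - 1`, `X ≤ s - 2` by `n3`).  `n b ≠ 0` on `Y` (`c w b ≠ 0`).  `Pos = {b ∈ Y : 1 ≤ n b}`, `Neg = {b ∈ Y : n b ≤ -1}`, `|Pos| + |Neg| = e - 1`.
(1) Not both `|Pos|, |Neg| ≥ s - 1`: otherwise `J1 ⊆ Pos`, `J2 ⊆ Neg` with `s - 1` elements: `2 (s - 1) + mu + 2 ≤ m`, contradiction to `n3` (`mu ≥ m + 1 - 2 s`).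
(2) Not both `≤ s - 2`: otherwise `J1 = Pos`, `J2 = Neg`: `∑_Y |n b| ≤ m - 2 - mu`, so the set `Big = {|n b| ≥ 2}` has at most `∑_Y (|n b| - 1) ≤ m - 1 - mu - e` elements.  ZERO-SUM STAR: let `i0` be the least natural number with
  `2 i0 ≥ e - s + 1` (`2 i0 ≤ e - s + 2`).  Not both `{n b = 1}` and `{n b = -1}` have `≥ i0` elements: otherwise `i0` of each and `m - 2 i0` elements of `AA` (`m - 2 i0 ≤ m - (e - s + 1) = |AA|`; `2 i0 ≤ m`) are `m` neighbours of `w` with
  colour sum `i0 g - i0 g + 0 = 0`: `zsf_star` (StarSys).  Say `#{n b = -1} ≤ i0 - 1` (if `i0 = 0` both are `≥ i0`: impossible, so `i0 ≥ 1`): `#{n b = 1} ≥ (e - 1) - (m - 1 - mu - e) - (i0 - 1) ≥ s - 1` by `n5`: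
  `2 (2 e + mu + 1 - m - i0) ≥ 4 e + 2 mu + 2 - 2 m - (e - s + 2) ≥ 2 s - 2`.  So `|Pos| ≥ s - 1`: contradiction.  The other case is the same with `Neg`.
(3) So `|Pos| ≥ s - 1`, `|Neg| ≤ s - 2`, or the same after `n ↦ - n`, `g ↦ - g` (the hypotheses are symmetric: exchange `J1`, `J2`).  `Big⁺ = {b : 2 ≤ n b}` has at most `s - 2` elements: otherwise `J1 ⊆ Big⁺` with `s - 1` elements,
  `J2 = ∅`: `2 (s - 1) + mu + 2 ≤ m`: contradiction to `n3`.  Take `Big⁺ ⊆ J1 ⊆ Pos` with `|J1| = s - 1`, `J2 = Neg`: `∑_{J1} n - ∑_{Neg} n + mu + 2 ≤ m`, and `∑_{J1} n = s - 1 + ∑_{Pos} (n - 1)` (the elements of `Pos \ J1` have `n = 1`).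
-/

set_option autoImplicit false

namespace ZS44129
namespace H

open Finset E N

variable {V : Type} [Fintype V] [DecidableEq V] {m : ℕ}

private theorem C4B_star {c : V → V → ZMod m} (hm : 0 < m) (hz : ZSF m c) (u : V) (D : Finset V) (hu : u ∉ D)
    (hD : D.card = m) : ∑ w ∈ D, c u w ≠ 0 := by
  have hne : D.Nonempty := by
    rw [← Finset.card_pos]
    omega
  obtain ⟨v, hv⟩ := hne
  have huv : u ≠ v := by
    rintro rfl
    exact hu hv
  have h := hz u v huv (D.erase v) ∅ (Finset.disjoint_empty_right _)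
    (fun h => hu (Finset.mem_of_mem_erase h)) (Finset.notMem_erase _ _) (Finset.notMem_empty _)
    (Finset.notMem_empty _) (by
      rw [Finset.card_erase_of_mem hv, Finset.card_empty, hD]
      omega)
  rw [Finset.sum_empty, add_zero, Finset.add_sum_erase D (c u) hv] at h
  exact h

private theorem C4B_cnt (n : V → ℤ) (P : Finset V) (h : ∀ b ∈ P, 1 ≤ n b) :
    2 * (P.card : ℤ) ≤ ∑ b ∈ P, n b + ((P.filter (fun b => n b = 1)).card : ℤ) := by
  have h2 := Finset.card_nsmul_le_sum P (fun b => n b + if n b = 1 then (1 : ℤ) else 0) 2 (fun b hb => by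
    have h3 := h b hb
    show (2 : ℤ) ≤ n b + if n b = 1 then (1 : ℤ) else 0
    split_ifs <;> omega)
  rw [nsmul_eq_mul, Finset.sum_add_distrib, Finset.sum_boole] at h2
  linarith

private theorem C4B_fin {c : V → V → ZMod m} {s : ℕ} (hs : 1 ≤ s) {w y : V} (hy : y ∈ W.BB c w) {mu : ℕ}
    (n3 : m + 1 ≤ mu + 2 * s)
    {g : (ZMod m)ˣ} {n : V → ℤ} (hn : ∀ b ∈ (W.BB c w).erase y, c w b = (n b : ZMod m) * g)
    (hvar : ∀ J1 ⊆ (W.BB c w).erase y, J1.card + 1 ≤ s → ∀ J2 ⊆ (W.BB c w).erase y, J2.card + 1 ≤ s →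
        ∑ b ∈ J1, n b - ∑ b ∈ J2, n b + mu + 2 ≤ (m : ℤ))
    (hpos : s ≤ (((W.BB c w).erase y).filter (fun b => 1 ≤ n b)).card + 1)
    (hneg : (((W.BB c w).erase y).filter (fun b => n b ≤ -1)).card + 1 ≤ s) : RD c s mu w y g n := by
  refine ⟨hy, hn, hpos, ?_⟩
  have hbig : (((W.BB c w).erase y).filter (fun b => 2 ≤ n b)).card + 2 ≤ s := by
    by_contra hcon
    push Not at hcon
    obtain ⟨J1, hJ1, hJ1c⟩ := Finset.exists_subset_card_eq
      (show s - 1 ≤ (((W.BB c w).erase y).filter (fun b => 2 ≤ n b)).card by omega)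
    have h1 := hvar J1 (hJ1.trans (Finset.filter_subset _ _)) (by omega) ∅ (Finset.empty_subset _) (by
      rw [Finset.card_empty]
      omega)
    have h2 : J1.card • (2 : ℤ) ≤ ∑ b ∈ J1, n b :=
      Finset.card_nsmul_le_sum J1 n 2 (fun b hb => (Finset.mem_filter.1 (hJ1 hb)).2)
    rw [hJ1c, nsmul_eq_mul] at h2
    rw [Finset.sum_empty] at h1
    have h3 : ((s - 1 : ℕ) : ℤ) = s - 1 := by omega
    rw [h3] at h2
    omega
  obtain ⟨J1, hb1, hp1, hJ1c⟩ := Finset.exists_subsuperset_card_eq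
    (s := ((W.BB c w).erase y).filter (fun b => 2 ≤ n b))
    (t := ((W.BB c w).erase y).filter (fun b => 1 ≤ n b)) (n := s - 1) (by
      intro b hb
      obtain ⟨h1, h2⟩ := Finset.mem_filter.1 hb
      exact Finset.mem_filter.2 ⟨h1, by omega⟩) (by omega) (by omega)
  have h1 := hvar J1 (hp1.trans (Finset.filter_subset _ _)) (by omega)
    (((W.BB c w).erase y).filter (fun b => n b ≤ -1)) (Finset.filter_subset _ _) hneg
  have h2 : ∑ b ∈ ((W.BB c w).erase y).filter (fun b => 1 ≤ n b), (n b - 1) = ∑ b ∈ J1, (n b - 1) := by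
    rw [← Finset.sum_sdiff hp1, add_eq_right]
    refine Finset.sum_eq_zero fun b hb => ?_
    obtain ⟨h3, h4⟩ := Finset.mem_sdiff.1 hb
    obtain ⟨h5, h6⟩ := Finset.mem_filter.1 h3
    by_contra h7
    exact h4 (hb1 (Finset.mem_filter.2 ⟨h5, by omega⟩))
  rw [h2, Finset.sum_sub_distrib, Finset.sum_neg_distrib, Finset.sum_const, hJ1c, nsmul_eq_mul]
  have h3 : ((s - 1 : ℕ) : ℤ) = s - 1 := by omega
  rw [h3]
  omega

theorem sign_c [NeZero m] {c : V → V → ZMod m} {s : ℕ} (h : HS c s) {w y : V} (hy : y ∈ W.BB c w) {mu : ℕ}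
    (n3 : m + 1 ≤ mu + 2 * s) (n2 : m + 9 ≤ 2 * (W.BB c w).card + s)
    (n5 : 2 * m + s ≤ 3 * (W.BB c w).card + 2 * mu) (n1 : (W.BB c w).card + 1 ≤ 2 * s)
    {g : (ZMod m)ˣ} {n : V → ℤ} (hn : ∀ b ∈ (W.BB c w).erase y, c w b = (n b : ZMod m) * g)
    (hvar : ∀ J1 ⊆ (W.BB c w).erase y, J1.card + 1 ≤ s → ∀ J2 ⊆ (W.BB c w).erase y, J2.card + 1 ≤ s →
        ∑ b ∈ J1, n b - ∑ b ∈ J2, n b + mu + 2 ≤ (m : ℤ)) :
    ∃ (g' : (ZMod m)ˣ) (n' : V → ℤ), RD c s mu w y g' n' := by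
  obtain ⟨hs38, h3s, h4s, -⟩ := h.rng.facts
  have hAB := card_AB (c := c) h.card w
  have hYc := Finset.card_erase_add_one hy
  have hn0 : ∀ b ∈ (W.BB c w).erase y, n b ≠ 0 := by
    intro b hb h0
    have h1 := hn b hb
    rw [h0, Int.cast_zero, zero_mul] at h1
    exact (mem_BB.1 (Finset.mem_of_mem_erase hb)).2 h1
  have hvar' : ∀ J1 ⊆ (W.BB c w).erase y, J1.card + 1 ≤ s → ∀ J2 ⊆ (W.BB c w).erase y, J2.card + 1 ≤ s →
        ∑ b ∈ J1, (- n b) - ∑ b ∈ J2, (- n b) + mu + 2 ≤ (m : ℤ) := by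
    intro J1 h1 h2 J2 h3 h4
    rw [Finset.sum_neg_distrib, Finset.sum_neg_distrib]
    have := hvar J2 h3 h4 J1 h1 h2
    omega
  have hn' : ∀ b ∈ (W.BB c w).erase y, c w b = ((- n b : ℤ) : ZMod m) * ((-g : (ZMod m)ˣ) : ZMod m) := by
    intro b hb
    rw [hn b hb, Units.val_neg]
    push_cast
    ring
  have hsplit : (((W.BB c w).erase y).filter (fun b => 1 ≤ n b)).card +
      (((W.BB c w).erase y).filter (fun b => n b ≤ -1)).card = ((W.BB c w).erase y).card := by
    rw [← Finset.card_filter_add_card_filter_not (s := (W.BB c w).erase y) (fun b => 1 ≤ n b)]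
    congr 2
    refine Finset.filter_congr fun b hb => ?_
    have := hn0 b hb
    omega
  -- case A: many positive
  by_cases hP : s ≤ (((W.BB c w).erase y).filter (fun b => 1 ≤ n b)).card + 1
  · refine ⟨g, n, C4B_fin (by omega) hy n3 hn hvar hP ?_⟩
    by_contra hcon
    push Not at hcon
    obtain ⟨J1, hJ1, hJ1c⟩ := Finset.exists_subset_card_eq
      (show s - 1 ≤ (((W.BB c w).erase y).filter (fun b => 1 ≤ n b)).card by omega)
    obtain ⟨J2, hJ2, hJ2c⟩ := Finset.exists_subset_card_eq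
      (show s - 1 ≤ (((W.BB c w).erase y).filter (fun b => n b ≤ -1)).card by omega)
    have h1 := hvar J1 (hJ1.trans (Finset.filter_subset _ _)) (by omega) J2
      (hJ2.trans (Finset.filter_subset _ _)) (by omega)
    have h2 : J1.card • (1 : ℤ) ≤ ∑ b ∈ J1, n b :=
      Finset.card_nsmul_le_sum J1 n 1 (fun b hb => (Finset.mem_filter.1 (hJ1 hb)).2)
    have h3 : ∑ b ∈ J2, n b ≤ J2.card • (-1 : ℤ) :=
      Finset.sum_le_card_nsmul J2 n (-1) (fun b hb => (Finset.mem_filter.1 (hJ2 hb)).2)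
    rw [hJ1c, nsmul_eq_mul] at h2
    rw [hJ2c, nsmul_eq_mul] at h3
    have h4 : ((s - 1 : ℕ) : ℤ) = s - 1 := by omega
    rw [h4] at h2 h3
    omega
  by_cases hN : s ≤ (((W.BB c w).erase y).filter (fun b => n b ≤ -1)).card + 1
  · refine ⟨-g, fun b => - n b, C4B_fin (by omega) hy n3 hn' hvar' ?_ ?_⟩
    · have h1 : ((W.BB c w).erase y).filter (fun b => 1 ≤ - n b) =
          ((W.BB c w).erase y).filter (fun b => n b ≤ -1) :=
        Finset.filter_congr fun b _ => by omega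
      rw [h1]
      exact hN
    · have h1 : ((W.BB c w).erase y).filter (fun b => - n b ≤ -1) =
          ((W.BB c w).erase y).filter (fun b => 1 ≤ n b) :=
        Finset.filter_congr fun b _ => by omega
      rw [h1]
      omega
  -- both small: contradiction
  exfalso
  push Not at hP hN
  have hv := hvar (((W.BB c w).erase y).filter (fun b => 1 ≤ n b)) (Finset.filter_subset _ _) (by omega)
    (((W.BB c w).erase y).filter (fun b => n b ≤ -1)) (Finset.filter_subset _ _) (by omega)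
  have hsP : 2 * ((((W.BB c w).erase y).filter (fun b => 1 ≤ n b)).card : ℤ) ≤
      ∑ b ∈ ((W.BB c w).erase y).filter (fun b => 1 ≤ n b), n b +
      ((((W.BB c w).erase y).filter (fun b => n b = 1)).card : ℤ) := by
    have h1 : (((W.BB c w).erase y).filter (fun b => n b = 1)) =
        (((W.BB c w).erase y).filter (fun b => 1 ≤ n b)).filter (fun b => n b = 1) := by
      rw [Finset.filter_filter]
      exact Finset.filter_congr fun b _ => by omega
    rw [h1]
    exact C4B_cnt _ _ fun b hb => (Finset.mem_filter.1 hb).2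
  have hsN : 2 * ((((W.BB c w).erase y).filter (fun b => n b ≤ -1)).card : ℤ) ≤
      - ∑ b ∈ ((W.BB c w).erase y).filter (fun b => n b ≤ -1), n b +
      ((((W.BB c w).erase y).filter (fun b => n b = -1)).card : ℤ) := by
    have h1 : (((W.BB c w).erase y).filter (fun b => n b = -1)) =
        (((W.BB c w).erase y).filter (fun b => n b ≤ -1)).filter (fun b => - n b = 1) := by
      rw [Finset.filter_filter]
      exact Finset.filter_congr fun b _ => by omega
    rw [h1, ← Finset.sum_neg_distrib]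
    exact C4B_cnt (fun b => - n b) _ fun b hb => by
      have := (Finset.mem_filter.1 hb).2
      omega
  have hP1 : (((W.BB c w).erase y).filter (fun b => n b = 1)).card ≤
      (((W.BB c w).erase y).filter (fun b => 1 ≤ n b)).card := by
    refine Finset.card_le_card fun b hb => ?_
    obtain ⟨h1, h2⟩ := Finset.mem_filter.1 hb
    exact Finset.mem_filter.2 ⟨h1, by omega⟩
  have hN1 : (((W.BB c w).erase y).filter (fun b => n b = -1)).card ≤
      (((W.BB c w).erase y).filter (fun b => n b ≤ -1)).card := by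
    refine Finset.card_le_card fun b hb => ?_
    obtain ⟨h1, h2⟩ := Finset.mem_filter.1 hb
    exact Finset.mem_filter.2 ⟨h1, by omega⟩
  obtain ⟨i0, hi1, hi2⟩ : ∃ i0 : ℕ, (W.BB c w).card + 1 ≤ 2 * i0 + s ∧ 2 * i0 + s ≤ (W.BB c w).card + 2 := by
    refine ⟨((W.BB c w).card + 2 - s) / 2, ?_, ?_⟩ <;> omega
  have hI1 : i0 ≤ (((W.BB c w).erase y).filter (fun b => n b = 1)).card := by
    by_contra hcon
    push Not at hcon
    omega
  have hI2 : i0 ≤ (((W.BB c w).erase y).filter (fun b => n b = -1)).card := by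
    by_contra hcon
    push Not at hcon
    omega
  obtain ⟨J1, hJ1, hJ1c⟩ := Finset.exists_subset_card_eq hI1
  obtain ⟨J2, hJ2, hJ2c⟩ := Finset.exists_subset_card_eq hI2
  obtain ⟨A1, hA1, hA1c⟩ := Finset.exists_subset_card_eq
    (show m - 2 * i0 ≤ (W.AA c w).card by omega)
  have hd12 : Disjoint J1 J2 := by
    rw [Finset.disjoint_left]
    intro b h1 h2
    have h3 := (Finset.mem_filter.1 (hJ1 h1)).2
    have h4 := (Finset.mem_filter.1 (hJ2 h2)).2
    omega
  have hJB : ∀ b ∈ J1 ∪ J2, b ∈ (W.BB c w).erase y := by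
    intro b hb
    rcases Finset.mem_union.1 hb with hb | hb
    · exact (Finset.mem_filter.1 (hJ1 hb)).1
    · exact (Finset.mem_filter.1 (hJ2 hb)).1
  have hdA : Disjoint (J1 ∪ J2) A1 := by
    rw [Finset.disjoint_left]
    intro b h1 h2
    exact (mem_BB.1 (Finset.mem_of_mem_erase (hJB b h1))).2 (mem_AA.1 (hA1 h2)).2
  refine C4B_star (by omega) h.zsf w ((J1 ∪ J2) ∪ A1) ?_ ?_ ?_
  · intro hw
    rcases Finset.mem_union.1 hw with hw | hw
    · exact (mem_BB.1 (Finset.mem_of_mem_erase (hJB w hw))).1 rfl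
    · exact (mem_AA.1 (hA1 hw)).1 rfl
  · rw [Finset.card_union_of_disjoint hdA, Finset.card_union_of_disjoint hd12]
    omega
  · rw [Finset.sum_union hdA, Finset.sum_union hd12,
      Finset.sum_eq_zero (s := A1) (fun x hx => (mem_AA.1 (hA1 hx)).2), add_zero]
    have h1 : ∑ b ∈ J1, c w b = (i0 : ZMod m) * g := by
      rw [Finset.sum_congr rfl (fun b hb => show c w b = (g : ZMod m) from by
        obtain ⟨h2, h3⟩ := Finset.mem_filter.1 (hJ1 hb)
        rw [hn b h2, h3, Int.cast_one, one_mul]), Finset.sum_const, hJ1c, nsmul_eq_mul]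
    have h2 : ∑ b ∈ J2, c w b = (i0 : ZMod m) * (- (g : ZMod m)) := by
      rw [Finset.sum_congr rfl (fun b hb => show c w b = - (g : ZMod m) from by
        obtain ⟨h2, h3⟩ := Finset.mem_filter.1 (hJ2 hb)
        rw [hn b h2, h3, Int.cast_neg, Int.cast_one, neg_one_mul]), Finset.sum_const, hJ2c, nsmul_eq_mul]
    rw [h1, h2]
    ring

end H
end ZS44129
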