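import Pool.Agent.Work.MP_44129c_co.H.CD

/-!
# MP_44129c_co/H, C5 (size M): all roots together

`X = m - s - 1 - mu`, `e = |BB|`, `n6`: `2 X + 3 ≤ e`.  `RD c s mu w y (g y) (n y)` for the `kk ≥ 2` elements `y ∈ T`.
(1) For `y ∈ T` at least `e - 1 - X` elements `b ∈ BB.erase y` have `n y b = 1`: the values are `≠ 0` (`c w b ≠ 0`), the elements with `n ≥ 2` number at most `∑_{pos} (n - 1)`, the negative ones at most `∑_{neg} (- n)`.
(2) Two roots `y, y'`: the two sets of (1) lie in `BB`, `2 (e - 1 - X) > e`: a common `b`: `c w b = g y = g y'`.  So `g y = g` for all `y ∈ T`.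
(3) Values agree: `b ∈ BB`, `b ≠ y, y'`: `n y b ≡ n y' b` mod `m` (both times `g` are `c w b`), `|n y b| ≤ X + 1` (`exc`), `2 (X + 1) < m` (`X ≤ m - s - 1 - mu`, `n3`: `X + 2 ≤ s`): equal.
Fix `y1 ≠ y2` in `T`; `ν b = n y1 b` for `b ≠ y1`, `ν y1 = n y2 y1`.  Then `ν b = n y b` for all `y ∈ T`, `b ∈ BB.erase y`, and `c w b = ν b * g` for all `b ∈ BB`.
(4) `F b = ν b - 1` if `1 ≤ ν b`, `= - ν b` if `ν b ≤ -1`, `F ≥ 0` on `BB` (`ν b ≠ 0`).  `E = ∑_{BB} F`.  `exc` for `y ∈ T`: `E - F y ≤ X`.  Sum over `y ∈ T` and `∑_T F ≤ E`: `(kk - 1) E ≤ kk X ≤ (s - 2)(kk - 1)` (`n8`), so `E ≤ s - 2`.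
`pos`: the positive elements of `BB` contain those of `BB.erase y1`.
-/

set_option autoImplicit false

namespace ZS44129
namespace H

open Finset E N

variable {V : Type} [Fintype V] [DecidableEq V] {m : ℕ}

/-- the excess of a value. -/
private def exF (n : ℤ) : ℤ := if 1 ≤ n then n - 1 else - n

omit [Fintype V] in
private theorem sumF (S : Finset V) (n : V → ℤ) (hn : ∀ b ∈ S, n b ≠ 0) :
    ∑ b ∈ S.filter (fun b => 1 ≤ n b), (n b - 1) +
      ∑ b ∈ S.filter (fun b => n b ≤ -1), (- n b) = ∑ b ∈ S, exF (n b) := by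
  rw [Finset.sum_filter, Finset.sum_filter, ← Finset.sum_add_distrib]
  refine Finset.sum_congr rfl fun b hb => ?_
  have h := hn b hb
  unfold exF
  split_ifs <;> omega

private theorem exF_nonneg {n : ℤ} (h : n ≠ 0) : 0 ≤ exF n := by
  unfold exF
  split_ifs <;> omega

theorem comb_c [NeZero m] {c : V → V → ZMod m} {s mu kk : ℕ} (h : HS c s) {w : V}
    (n3 : m + 1 ≤ mu + 2 * s) (n4 : mu + (W.BB c w).card ≤ m)
    (n6 : 2 * m + 1 ≤ (W.BB c w).card + 2 * s + 2 * mu) (n8 : kk * (m - s - 1 - mu) ≤ (s - 2) * (kk - 1))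
    (n11 : 2 ≤ kk) (T : Finset V) (hT : T.card = kk)
    (hR : ∀ y ∈ T, ∃ (g : (ZMod m)ˣ) (n : V → ℤ), RD c s mu w y g n) :
    ∃ (g : (ZMod m)ˣ) (n : V → ℤ), (∀ b ∈ W.BB c w, c w b = (n b : ZMod m) * g) ∧
      s ≤ ((W.BB c w).filter (fun b => 1 ≤ n b)).card + 1 ∧
      ∑ b ∈ (W.BB c w).filter (fun b => 1 ≤ n b), (n b - 1) +
        ∑ b ∈ (W.BB c w).filter (fun b => n b ≤ -1), (- n b) + 2 ≤ (s : ℤ) := by
  have hf := h.rng.facts
  choose! g n hRD using hR
  have hn0 : ∀ y ∈ T, ∀ b ∈ (W.BB c w).erase y, n y b ≠ 0 := by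
    intro y hy b hb h0
    have h1 := (hRD y hy).hn b hb
    rw [h0, Int.cast_zero, zero_mul] at h1
    exact (mem_BB.1 (Finset.mem_of_mem_erase hb)).2 h1
  have hex : ∀ y ∈ T, ∑ b ∈ (W.BB c w).erase y, exF (n y b) + mu + s + 1 ≤ (m : ℤ) := by
    intro y hy
    rw [← sumF _ _ (hn0 y hy)]
    exact (hRD y hy).exc
  have hTB : ∀ y ∈ T, y ∈ W.BB c w := fun y hy => (hRD y hy).yB
  have hexb : ∀ y ∈ T, ∀ b ∈ (W.BB c w).erase y, exF (n y b) + mu + s + 1 ≤ (m : ℤ) := by
    intro y hy b hb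
    have h1 := Finset.single_le_sum (f := fun b => exF (n y b))
      (fun b hb => exF_nonneg (hn0 y hy b hb)) hb
    have h2 := hex y hy
    have h3 : exF (n y b) ≤ ∑ b ∈ (W.BB c w).erase y, exF (n y b) := h1
    omega
  -- (1)
  have hones : ∀ y ∈ T, ((W.BB c w).card : ℤ) ≤
      (((W.BB c w).erase y).filter (fun b => n y b = 1)).card + 1 + (m - s - 1 - mu) := by
    intro y hy
    have h1 := Finset.card_filter_add_card_filter_not (s := (W.BB c w).erase y)
      (fun b => n y b = 1)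
    have h2 := Finset.card_erase_add_one (hTB y hy)
    have h3 : ((((W.BB c w).erase y).filter (fun b => ¬ n y b = 1)).card : ℤ) ≤
        ∑ b ∈ (W.BB c w).erase y, exF (n y b) := by
      have h4 : ((((W.BB c w).erase y).filter (fun b => ¬ n y b = 1)).card : ℤ) =
          ∑ b ∈ (W.BB c w).erase y, (if ¬ n y b = 1 then (1 : ℤ) else 0) := by
        rw [Finset.card_filter]
        push_cast
        rfl
      rw [h4]
      refine Finset.sum_le_sum fun b hb => ?_
      have h5 := hn0 y hy b hb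
      unfold exF
      split_ifs <;> omega
    have h6 := hex y hy
    omega
  -- (2)
  have hg : ∀ y ∈ T, ∀ y' ∈ T, g y = g y' := by
    intro y hy y' hy'
    have h1 := hones y hy
    have h2 := hones y' hy'
    have h3 : ¬ Disjoint (((W.BB c w).erase y).filter (fun b => n y b = 1))
        (((W.BB c w).erase y').filter (fun b => n y' b = 1)) := by
      intro hd
      have h4 := Finset.card_union_of_disjoint hd
      have h5 : (((W.BB c w).erase y).filter (fun b => n y b = 1)) ∪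
          (((W.BB c w).erase y').filter (fun b => n y' b = 1)) ⊆ W.BB c w :=
        Finset.union_subset ((Finset.filter_subset _ _).trans (Finset.erase_subset _ _))
          ((Finset.filter_subset _ _).trans (Finset.erase_subset _ _))
      have h6 := Finset.card_le_card h5
      omega
    obtain ⟨b, hb1, hb2⟩ := Finset.not_disjoint_iff.1 h3
    obtain ⟨hb3, hb4⟩ := Finset.mem_filter.1 hb1
    obtain ⟨hb5, hb6⟩ := Finset.mem_filter.1 hb2
    have h7 := (hRD y hy).hn b hb3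
    have h8 := (hRD y' hy').hn b hb5
    rw [hb4, Int.cast_one, one_mul] at h7
    rw [hb6, Int.cast_one, one_mul] at h8
    exact Units.ext (h7.symm.trans h8)
  -- (3)
  have hval : ∀ y ∈ T, ∀ y' ∈ T, ∀ b ∈ W.BB c w, b ≠ y → b ≠ y' → n y b = n y' b := by
    intro y hy y' hy' b hb h1 h2
    have hb1 : b ∈ (W.BB c w).erase y := Finset.mem_erase.2 ⟨h1, hb⟩
    have hb2 : b ∈ (W.BB c w).erase y' := Finset.mem_erase.2 ⟨h2, hb⟩
    have h3 := (hRD y hy).hn b hb1
    have h4 := (hRD y' hy').hn b hb2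
    rw [h3, hg y hy y' hy'] at h4
    have h5 : (n y b : ZMod m) = (n y' b : ZMod m) := (Units.mul_left_inj (g y')).1 h4
    have h6 : ((n y b - n y' b : ℤ) : ZMod m) = 0 := by
      push_cast
      rw [h5, sub_self]
    rw [ZMod.intCast_zmod_eq_zero_iff_dvd] at h6
    have h7 := hexb y hy b hb1
    have h8 := hexb y' hy' b hb2
    have h9 := hn0 y hy b hb1
    have h10 := hn0 y' hy' b hb2
    have h11 := Int.eq_zero_of_abs_lt_dvd h6 (by
      unfold exF at h7 h8
      rw [abs_lt]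
      split_ifs at h7 h8 <;> constructor <;> omega)
    omega
  obtain ⟨y1, hy1, y2, hy2, hy12⟩ := Finset.one_lt_card.1 (by omega : 1 < T.card)
  set ν : V → ℤ := fun b => if b = y1 then n y2 y1 else n y1 b with hν
  have hνn : ∀ y ∈ T, ∀ b ∈ (W.BB c w).erase y, ν b = n y b := by
    intro y hy b hb
    obtain ⟨hby, hbB⟩ := Finset.mem_erase.1 hb
    simp only [hν]
    split_ifs with h1
    · subst h1
      exact hval y2 hy2 y hy b hbB hy12 hby
    · exact hval y1 hy1 y hy b hbB h1 hby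
  have hνc : ∀ b ∈ W.BB c w, c w b = (ν b : ZMod m) * g y1 := by
    intro b hb
    by_cases h1 : b = y1
    · have h2 : b ∈ (W.BB c w).erase y2 := Finset.mem_erase.2 ⟨by rw [h1]; exact hy12, hb⟩
      rw [hνn y2 hy2 b h2, hg y1 hy1 y2 hy2]
      exact (hRD y2 hy2).hn b h2
    · have h2 : b ∈ (W.BB c w).erase y1 := Finset.mem_erase.2 ⟨h1, hb⟩
      rw [hνn y1 hy1 b h2]
      exact (hRD y1 hy1).hn b h2
  have hν0 : ∀ b ∈ W.BB c w, ν b ≠ 0 := by
    intro b hb h0
    have h1 := hνc b hb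
    rw [h0, Int.cast_zero, zero_mul] at h1
    exact (mem_BB.1 hb).2 h1
  refine ⟨g y1, ν, hνc, ?_, ?_⟩
  · refine (hRD y1 hy1).pos.trans (Nat.add_le_add_right (Finset.card_le_card ?_) 1)
    intro b hb
    obtain ⟨h1, h2⟩ := Finset.mem_filter.1 hb
    rw [Finset.mem_filter, hνn y1 hy1 b h1]
    exact ⟨Finset.mem_of_mem_erase h1, h2⟩
  · rw [sumF _ _ hν0]
    -- (4)
    have hE : ∀ y ∈ T, ∑ b ∈ W.BB c w, exF (ν b) ≤ exF (ν y) + ((m - s - 1 - mu : ℕ) : ℤ) := by
      intro y hy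
      rw [← Finset.add_sum_erase _ _ (hTB y hy)]
      have h1 : ∑ b ∈ (W.BB c w).erase y, exF (ν b) = ∑ b ∈ (W.BB c w).erase y, exF (n y b) :=
        Finset.sum_congr rfl fun b hb => by rw [hνn y hy b hb]
      rw [h1]
      have h2 := hex y hy
      omega
    have hsum := Finset.sum_le_sum hE
    rw [Finset.sum_const, Finset.sum_add_distrib, Finset.sum_const, hT, nsmul_eq_mul,
      nsmul_eq_mul] at hsum
    have hTE : ∑ y ∈ T, exF (ν y) ≤ ∑ b ∈ W.BB c w, exF (ν b) :=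
      Finset.sum_le_sum_of_subset_of_nonneg hTB (fun b hb _ => exF_nonneg (hν0 b hb))
    have h8 : (kk : ℤ) * ((m - s - 1 - mu : ℕ) : ℤ) ≤ ((s - 2 : ℕ) : ℤ) * ((kk - 1 : ℕ) : ℤ) := by
      exact_mod_cast n8
    obtain ⟨k, rfl⟩ := Nat.exists_eq_add_of_le n11
    have h9 : ((2 + k - 1 : ℕ) : ℤ) = k + 1 := by omega
    have h10 : ((s - 2 : ℕ) : ℤ) = s - 2 := by omega
    rw [h9, h10] at h8
    push_cast at hsum h8
    have h11 : ((k : ℤ) + 1) * ∑ b ∈ W.BB c w, exF (ν b) ≤ ((k : ℤ) + 1) * (s - 2) := by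
      nlinarith [hsum, hTE, h8]
    have h12 := le_of_mul_le_mul_left h11 (by positivity)
    linarith

end H
end ZS44129
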