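import Pool.Agent.Work.MP_44129c_co.H.FDefs
import Pool.Agent.Work.MP_44129c_co.E.GF

/-!
# MP_44129c_co/H, F0 (size S-M): an integer lift with small excess is a star lift

PROOF of `sl_of_ex`.  `h = |HH|`, `l = |LL|`, `l + h = m + s - 1` (`card_LH`).  `gf` with `q = s - 1` (`P = HH u y`, `N = LL u y`; `∑_P (y - 1) = exH ≤ s - 2`, `∑_N (- y) = exL ≤ s - 2`): every integer
`τ` with `- exL ≤ τ ≤ s - 1 + exH` is `∑_Q y` for some `Q ⊆ univ.erase u` with `s - 1` elements.  The complement `A` of `Q` in `univ.erase u` has `m` elements and `∑_A y = tot - τ`, where `tot = ∑_{univ.erase u} y = h + exH - exL`.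
So every integer of `I = [h - (s - 1) - exL, h + exH]` is the sum of `m` values of the star; its image in `ZMod m` is the sum of `m` colours at `u`, so it is not `0` (`ZSF`: a star with `m` edges is a double star: centre edge `u a`, `a ∈ A`,
leaves `A.erase a` at `u`, none at `a`; see `star_zs` in W/Star).  In the other direction: for every `A ⊆ univ.erase u` with `m` elements, `Q = (univ.erase u) \ A` has `s - 1` elements and `- exL ≤ ∑_Q y ≤ s - 1 + exH` (sum of the negative ones,
resp. of all positive excesses), so `∑_A y ∈ I`.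
`0 ∉ I` and `h + exH ≥ 1` (`h ≥ s - 1 ≥ 1`), so `h - (s - 1) - exL ≥ 1`.  `m ∉ I` and `h - (s - 1) - exL ≤ h - (s - 1) ≤ m - (s - 1) < m` (`l ≥ s - 1` gives `h ≤ m`), so `h + exH ≤ m - 1`.  (`0`, `m` have image `0`.)
-/

set_option autoImplicit false

namespace ZS44129
namespace H

open Finset E N

variable {V : Type} [Fintype V] [DecidableEq V] {m : ℕ}

private theorem f0_min (u : V) (y : V → ℤ) :
    ∑ w ∈ univ.erase u, min (y w) 0 = - exL u y := by
  unfold exL LL
  rw [Finset.sum_neg_distrib, neg_neg, Finset.sum_filter]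
  refine Finset.sum_congr rfl fun w _ => ?_
  by_cases h : y w ≤ 0
  · rw [if_pos h, min_eq_left h]
  · rw [if_neg h, min_eq_right (by omega)]

private theorem f0_max (u : V) (y : V → ℤ) :
    ∑ w ∈ univ.erase u, max (y w - 1) 0 = exH u y := by
  unfold exH HH
  rw [Finset.sum_filter]
  refine Finset.sum_congr rfl fun w _ => ?_
  by_cases h : 1 ≤ y w
  · rw [if_pos h, max_eq_left (by omega)]
  · rw [if_neg h, max_eq_right (by omega)]

private theorem f0_lo {u : V} {y : V → ℤ} {Q : Finset V} (hQ : Q ⊆ univ.erase u) :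
    - exL u y ≤ ∑ w ∈ Q, y w := by
  rw [← f0_min]
  have h1 := Finset.sum_sdiff hQ (f := fun w => min (y w) 0)
  have h2 : ∑ w ∈ univ.erase u \ Q, min (y w) 0 ≤ 0 :=
    Finset.sum_nonpos fun w _ => min_le_right _ _
  have h3 : ∑ w ∈ Q, min (y w) 0 ≤ ∑ w ∈ Q, y w :=
    Finset.sum_le_sum fun w _ => min_le_left _ _
  linarith

private theorem f0_hi {u : V} {y : V → ℤ} {Q : Finset V} (hQ : Q ⊆ univ.erase u) :
    ∑ w ∈ Q, y w ≤ Q.card + exH u y := by
  rw [← f0_max]
  have h1 := Finset.sum_sdiff hQ (f := fun w => max (y w - 1) 0)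
  have h2 : 0 ≤ ∑ w ∈ univ.erase u \ Q, max (y w - 1) 0 :=
    Finset.sum_nonneg fun w _ => le_max_right _ _
  have h3 : ∑ w ∈ Q, (y w - 1) ≤ ∑ w ∈ Q, max (y w - 1) 0 :=
    Finset.sum_le_sum fun w _ => le_max_left _ _
  rw [Finset.sum_sub_distrib] at h3
  simp only [Finset.sum_const, nsmul_eq_mul, mul_one] at h3
  linarith

private theorem f0_tot (u : V) (y : V → ℤ) :
    ∑ w ∈ univ.erase u, y w = (HH u y).card + exH u y - exL u y := by
  have h1 : ∑ w ∈ univ.erase u, y w =
      ∑ w ∈ univ.erase u, (min (y w) 0 + max (y w - 1) 0 + (if 1 ≤ y w then 1 else 0)) := by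
    refine Finset.sum_congr rfl fun w _ => ?_
    by_cases h : 1 ≤ y w
    · rw [if_pos h, min_eq_right (by omega), max_eq_left (by omega)]
      ring
    · rw [if_neg h, min_eq_left (by omega), max_eq_right (by omega)]
      ring
  have h2 : ∑ w ∈ univ.erase u, (if 1 ≤ y w then (1 : ℤ) else 0) = (HH u y).card := by
    unfold HH
    rw [Finset.sum_boole]
  rw [h1, Finset.sum_add_distrib, Finset.sum_add_distrib, f0_min, f0_max, h2]
  ring

private theorem f0_zs {c : V → V → ZMod m} (hz : ZSF m c) (hm : 1 ≤ m) {u : V} {A : Finset V}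
    (hA : A ⊆ univ.erase u) (hc : A.card = m) : ∑ x ∈ A, c u x ≠ 0 := by
  have hne : A.Nonempty := by
    rw [← Finset.card_pos]
    omega
  obtain ⟨a, ha⟩ := hne
  have h1 := (Finset.mem_erase.1 (hA ha)).1
  have h2 := hz u a (Ne.symm h1) (A.erase a) ∅ (Finset.disjoint_empty_right _)
    (fun e => (Finset.mem_erase.1 (hA (Finset.mem_of_mem_erase e))).1 rfl)
    (Finset.notMem_erase _ _) (Finset.notMem_empty _) (Finset.notMem_empty _) (by
      have := Finset.card_erase_add_one ha
      rw [Finset.card_empty]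
      omega)
  rwa [Finset.sum_empty, add_zero, Finset.add_sum_erase A (fun x => c u x) ha] at h2

theorem sl_of_ex [NeZero m] {c : V → V → ZMod m} (hz : ZSF m c) {s : ℕ} (hV : Fintype.card V = m + s)
    (hs : 2 ≤ s) {u : V} {y : V → ℤ} (hy : ∀ w, w ≠ u → (y w : ZMod m) = c u w) (hL : exL u y + 2 ≤ s)
    (hH : exH u y + 2 ≤ s) (hl : s ≤ (LL u y).card + 1) (hh : s ≤ (HH u y).card + 1) : SL c u y := by
  have hm : 1 ≤ m := Nat.one_le_iff_ne_zero.2 (NeZero.ne m)
  have hLH := card_LH hV (by omega) u y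
  have hU : (univ.erase u).card + 1 = m + s := by
    rw [Finset.card_erase_add_one (Finset.mem_univ u), Finset.card_univ, hV]
  have htot := f0_tot u y
  have hLe : exL u y = ∑ w ∈ LL u y, (- y w) := rfl
  have hHe : exH u y = ∑ w ∈ HH u y, (y w - 1) := rfl
  have hL0 : 0 ≤ exL u y := by
    have h1 := f0_lo (u := u) (y := y) (Finset.empty_subset _)
    rw [Finset.sum_empty] at h1
    omega
  have hH0 : 0 ≤ exH u y := by
    rw [← f0_max]
    exact Finset.sum_nonneg fun w _ => le_max_right _ _
  have key : ∀ σ : ℤ, (HH u y).card - (s - 1) - exL u y ≤ σ →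
      σ ≤ (HH u y).card + exH u y → (σ : ZMod m) ≠ 0 := by
    intro σ h1 h2
    obtain ⟨Q, hQ, hQc, hQs⟩ := gf y (s - 1) (by omega) (HH u y) (LL u y)
      (by
        rw [Finset.disjoint_left]
        intro w hw hw'
        have h3 := (Finset.mem_filter.1 hw).2
        have h4 := (Finset.mem_filter.1 hw').2
        omega)
      (fun w hw => (Finset.mem_filter.1 hw).2) (fun w hw => (Finset.mem_filter.1 hw).2)
      (by omega) (by omega) (by rw [← hHe]; omega) (by rw [← hLe]; omega)
      ((HH u y).card + exH u y - exL u y - σ) (by rw [← hLe]; omega) (by rw [← hHe]; omega)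
    have hQU : Q ⊆ univ.erase u :=
      hQ.trans (Finset.union_subset (Finset.filter_subset _ _) (Finset.filter_subset _ _))
    have hsd := Finset.sum_sdiff hQU (f := y)
    rw [hQs, htot] at hsd
    have hcd := Finset.card_sdiff_add_card_eq_card hQU
    have hA : (univ.erase u \ Q).card = m := by omega
    have h3 := f0_zs hz hm (A := univ.erase u \ Q) Finset.sdiff_subset hA
    have h4 : ∑ x ∈ univ.erase u \ Q, c u x =
        ((∑ x ∈ univ.erase u \ Q, y x : ℤ) : ZMod m) := by
      rw [Int.cast_sum]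
      refine Finset.sum_congr rfl fun x hx => ?_
      rw [hy x (Finset.mem_erase.1 (Finset.mem_sdiff.1 hx).1).1]
    rw [h4] at h3
    have h5 : ∑ x ∈ univ.erase u \ Q, y x = σ := by omega
    rwa [h5] at h3
  have k0 : 1 ≤ ((HH u y).card : ℤ) - (s - 1) - exL u y := by
    by_contra hcon
    exact key 0 (by omega) (by omega) Int.cast_zero
  have km : ((HH u y).card : ℤ) + exH u y ≤ m - 1 := by
    by_contra hcon
    refine key m (by omega) (by omega) ?_
    rw [Int.cast_natCast, ZMod.natCast_self]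
  refine ⟨hy, fun A hA hAc => ?_⟩
  have hsd := Finset.sum_sdiff hA (f := y)
  have hcd := Finset.card_sdiff_add_card_eq_card hA
  have hQc : ((univ.erase u \ A).card : ℤ) = s - 1 := by omega
  have h1 := f0_lo (u := u) (y := y) (Q := univ.erase u \ A) Finset.sdiff_subset
  have h2 := f0_hi (u := u) (y := y) (Q := univ.erase u \ A) Finset.sdiff_subset
  rw [htot] at hsd
  constructor <;> omega

end H
end ZS44129
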