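import Pool.Agent.Work.MP_44129c_co.H.CD
import Pool.Agent.Work.MP_44129c_co.H.F0
import Pool.Agent.Work.MP_44129c_co.E.Basic

/-!
# MP_44129c_co/H, C6 (size S-M): the star of `w` has a lift with small excess

PROOF of `star_c`.  `y x = 0` on `AA`, `= n x` on `BB` (`if c w x = 0 then 0 else n x`), colouring `c' = g⁻¹ c`: `ZSF` (`zsf_affine` with `β = 0`), `c' w b = n b` (`hn`).  `n b ≠ 0` on `BB` (`c w b ≠ 0`).  So `HH w y = {b ∈ BB : 1 ≤ n b}`,
`LL w y = AA ∪ {b ∈ BB : n b ≤ -1}`, `exH = ∑_{pos} (n - 1)`, `exL = ∑_{neg} (- n)`, `{y = 0} = AA`.  `exL, exH ≥ 0`, so each is `≤ s - 2`.  `sl_of_ex` (H/F0) with `|LL| ≥ |AA| ≥ s`, `|HH| ≥ s - 1` (`hp`).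
-/

set_option autoImplicit false

namespace ZS44129
namespace H

open Finset E N

variable {V : Type} [Fintype V] [DecidableEq V] {m : ℕ}

theorem star_c [NeZero m] {c : V → V → ZMod m} {s : ℕ} (h : HS c s) {w : V} (ha : s ≤ (W.AA c w).card)
    {g : (ZMod m)ˣ} {n : V → ℤ} (hn : ∀ b ∈ W.BB c w, c w b = (n b : ZMod m) * g)
    (hp : s ≤ ((W.BB c w).filter (fun b => 1 ≤ n b)).card + 1)
    (hex : ∑ b ∈ (W.BB c w).filter (fun b => 1 ≤ n b), (n b - 1) +
        ∑ b ∈ (W.BB c w).filter (fun b => n b ≤ -1), (- n b) + 2 ≤ (s : ℤ)) :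
    ∃ y : V → ℤ, SL (fun p q => ((g⁻¹ : (ZMod m)ˣ) : ZMod m) * c p q) w y ∧ exL w y + exH w y + 2 ≤ s ∧
      ((univ.erase w).filter (fun x => y x = 0)).card = (W.AA c w).card := by
  classical
  have hsf := h.rng.facts
  let y : V → ℤ := fun x => if c w x = 0 then 0 else n x
  have hy0 : ∀ x, c w x = 0 → y x = 0 := fun x hx => if_pos hx
  have hy1 : ∀ x, c w x ≠ 0 → y x = n x := fun x hx => if_neg hx
  have hn0 : ∀ b ∈ W.BB c w, n b ≠ 0 := by
    intro b hb h0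
    have h1 := hn b hb
    rw [h0, Int.cast_zero, zero_mul] at h1
    exact (mem_BB.1 hb).2 h1
  have hyc : ∀ x, x ≠ w → (y x : ZMod m) = ((g⁻¹ : (ZMod m)ˣ) : ZMod m) * c w x := by
    intro x hx
    by_cases hc : c w x = 0
    · rw [hy0 x hc, hc, mul_zero, Int.cast_zero]
    · rw [hy1 x hc, hn x (mem_BB.2 ⟨hx, hc⟩), mul_comm (n x : ZMod m), ← mul_assoc,
        Units.inv_mul, one_mul]
  have hz' : ZSF m (fun p q => ((g⁻¹ : (ZMod m)ˣ) : ZMod m) * c p q) := by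
    have h1 := zsf_affine c h.zsf g⁻¹ 0
    simpa only [sub_zero] using h1
  have hHH : HH w y = (W.BB c w).filter (fun b => 1 ≤ n b) := by
    ext x
    unfold HH
    rw [mem_filter, mem_filter, mem_erase, mem_BB]
    constructor
    · rintro ⟨⟨h1, _⟩, h2⟩
      have hc : c w x ≠ 0 := by
        intro hc
        rw [hy0 x hc] at h2
        omega
      rw [hy1 x hc] at h2
      exact ⟨⟨h1, hc⟩, h2⟩
    · rintro ⟨⟨h1, hc⟩, h2⟩
      refine ⟨⟨h1, mem_univ x⟩, ?_⟩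
      rw [hy1 x hc]
      exact h2
  have hexH : exH w y = ∑ b ∈ (W.BB c w).filter (fun b => 1 ≤ n b), (n b - 1) := by
    unfold exH
    rw [hHH]
    refine Finset.sum_congr rfl fun b hb => ?_
    rw [hy1 b (mem_BB.1 (mem_filter.1 hb).1).2]
  have hexL : exL w y = ∑ b ∈ (W.BB c w).filter (fun b => n b ≤ -1), (- n b) := by
    unfold exL
    symm
    have h1 : ∑ b ∈ (W.BB c w).filter (fun b => n b ≤ -1), (- n b) =
        ∑ b ∈ (W.BB c w).filter (fun b => n b ≤ -1), (- y b) := by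
      refine Finset.sum_congr rfl fun b hb => ?_
      rw [hy1 b (mem_BB.1 (mem_filter.1 hb).1).2]
    rw [h1]
    refine Finset.sum_subset ?_ ?_
    · intro x hx
      obtain ⟨h2, h3⟩ := mem_filter.1 hx
      obtain ⟨h4, h5⟩ := mem_BB.1 h2
      refine mem_filter.2 ⟨mem_erase.2 ⟨h4, mem_univ x⟩, ?_⟩
      rw [hy1 x h5]
      omega
    · intro x hx hx'
      obtain ⟨h2, h3⟩ := mem_filter.1 hx
      have h4 := (mem_erase.1 h2).1
      by_cases hc : c w x = 0
      · rw [hy0 x hc, neg_zero]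
      · exfalso
        rw [hy1 x hc] at h3
        have h5 : x ∈ W.BB c w := mem_BB.2 ⟨h4, hc⟩
        have h6 := hn0 x h5
        exact hx' (mem_filter.2 ⟨h5, by omega⟩)
  have hL0 : 0 ≤ exL w y := by
    rw [hexL]
    refine Finset.sum_nonneg fun b hb => ?_
    have := (mem_filter.1 hb).2
    omega
  have hH0 : 0 ≤ exH w y := by
    rw [hexH]
    refine Finset.sum_nonneg fun b hb => ?_
    have := (mem_filter.1 hb).2
    omega
  have hsum : exL w y + exH w y + 2 ≤ s := by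
    rw [hexL, hexH]
    linarith
  have hLL : (W.AA c w).card ≤ (LL w y).card := by
    apply card_le_card
    intro x hx
    obtain ⟨h1, h2⟩ := mem_AA.1 hx
    refine mem_filter.2 ⟨mem_erase.2 ⟨h1, mem_univ x⟩, ?_⟩
    rw [hy0 x h2]
  refine ⟨y, sl_of_ex hz' h.card (by omega) hyc (by omega) (by omega) (by omega)
    (by rw [hHH]; exact hp), hsum, ?_⟩
  apply congrArg
  ext x
  rw [mem_filter, mem_erase, mem_AA]
  constructor
  · rintro ⟨⟨h1, _⟩, h2⟩
    refine ⟨h1, ?_⟩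
    by_contra hc
    rw [hy1 x hc] at h2
    exact hn0 x (mem_BB.2 ⟨h1, hc⟩) h2
  · rintro ⟨h1, h2⟩
    exact ⟨⟨h1, mem_univ x⟩, hy0 x h2⟩

end H
end ZS44129
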