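import Mathlib
import Pool.Agent.Work.MP_44129c_co.T3.Cube3
import Pool.Agent.Work.MP_44129c_co.T3.NoTwG
import Pool.Agent.Work.MP_44129c_co.E.Goodman
import Pool.Agent.Work.MP_44129c_co.H.Defs

/-!
# MP_44129c_co/H, IGW: the Goodman inequality at a vertex with a large class, without `U3`

`gw1` (big class `y = 1`): `ap ≤ s + 1`, so `|PP_w| ≥ s + exH` for all high `w`; `l ≥ s + exH`, `l ≥ e - exH`, so `3 l ≥ m`.
Low `x`: good, or order 2, or order 3 (`m = 3 M`, all but `M - s - 1` of the `lo` elements of `K₀` have `D w = M`).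
Order 3: two of them have `y w = 1`; `fam` with `W` = these two, `τ = 0`: `lo - 2 M + (s - 1) + exL + y x + exH < 0`, that is
`l ≥ M + s + exH + y x`; so `- y x ≥ 2` and `l + exL ≥ M + s > m / 2`: order 2 is excluded for all vertices.
Without order 3: `no_tw_G`.  Otherwise all but `nb ≤ exL / 2` low vertices are good, and `dc0` gives `l h ≥ s n`.
-/

set_option autoImplicit false

namespace ZS44129
namespace H

open Finset E N

variable {V : Type} [Fintype V] [DecidableEq V] {m : ℕ}

private theorem KK_sub (c : V → V → ZMod m) (u : V) (y : V → ℤ) (x : V) : KK c u y x ⊆ HH u y :=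
  Finset.filter_subset _ _

private theorem mem_KK {c : V → V → ZMod m} {u : V} {y : V → ℤ} {x w : V} :
    w ∈ KK c u y x ↔ w ∈ HH u y ∧ rep (2 - lo m u y) (c x w) ≤ 0 := by
  simp [KK]

private theorem D_bd {c : V → V → ZMod m} {u : V} {y : V → ℤ} {x w : V} (hw : w ∈ KK c u y x) :
    1 ≤ 1 - rep (2 - lo m u y) (c x w) ∧ (1 - rep (2 - lo m u y) (c x w)) + 1 ≤ lo m u y := by
  have h1 := (mem_KK.1 hw).2
  have h2 := rep_ge (2 - lo m u y) (c x w)
  omega

/-- the alternative of order 3. -/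
private def Ord3 (c : V → V → ZMod m) (s : ℕ) (u : V) (y : V → ℤ) (x : V) : Prop :=
  ∃ M : ℕ, m = 3 * M ∧ ∃ K₀ ⊆ KK c u y x, (K₀.card : ℤ) = lo m u y ∧ (s : ℤ) + 2 ≤ lo m u y ∧
    (K₀.filter (fun w => ¬ (M : ℤ) ∣ 1 - rep (2 - lo m u y) (c x w))).card + s + 1 ≤ M

private theorem first3 [NeZero m] {c : V → V → ZMod m} (hsym : ∀ x w, c x w = c w x)
    (hz : ZSF m c) {u : V} {y : V → ℤ} (h : SL c u y) {s : ℕ} (hV : Fintype.card V = m + s)
    (hL : exL u y + 2 ≤ s) (hH : exH u y + 2 ≤ s) (hm : m ≤ 4 * s) {x : V} (hO : ¬ Ord3 c s u y x)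
    (hx : x ∈ LL u y) (hlo : (s : ℤ) + 2 ≤ lo m u y) {K₀ : Finset V} (hK : K₀ ⊆ KK c u y x)
    (hc : (K₀.card : ℤ) = lo m u y) :
    ∃ M : ℕ, m = 2 * M ∧
      (K₀.filter (fun w => 1 - rep (2 - lo m u y) (c x w) ≠ (M : ℤ))).card + s + 1 ≤ M := by
  rcases T3.cube3 hsym hz h hV hL hH hm hx hlo hK hc with hM | ⟨M, hM1, hM2⟩
  · exact hM
  · exact absurd ⟨M, hM1, K₀, hK, hc, hlo, hM2⟩ hO

private theorem cubeK3 [NeZero m] {c : V → V → ZMod m} (hsym : ∀ x w, c x w = c w x)
    (hz : ZSF m c) {u : V} {y : V → ℤ} (h : SL c u y) {s : ℕ} (hV : Fintype.card V = m + s)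
    (hL : exL u y + 2 ≤ s) (hH : exH u y + 2 ≤ s) (hm : m ≤ 4 * s) {x : V} (hO : ¬ Ord3 c s u y x)
    (hx : x ∈ LL u y) (hlo : (s : ℤ) + 2 ≤ lo m u y)
    (hK : lo m u y ≤ ((KK c u y x).card : ℤ)) :
    ∃ M : ℕ, m = 2 * M ∧ ((LL u y).card : ℤ) + exL u y + 1 ≤ M ∧
      (KK c u y x).card + s + 1 ≤ M + ((KK c u y x).filter (fun w => c x w = 1 - M)).card := by
  have hlonn : 0 ≤ lo m u y := by
    have : (0 : ℤ) ≤ s := Int.natCast_nonneg _
    linarith
  obtain ⟨K₀, hK₀, hK₀c⟩ := Finset.exists_subset_card_eq (s := KK c u y x) (n := (lo m u y).toNat)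
    (by omega)
  have hK₀c' : (K₀.card : ℤ) = lo m u y := by omega
  obtain ⟨M, hM, hM1⟩ := first3 hsym hz h hV hL hH hm hO hx hlo hK₀ hK₀c'
  have hMs : s + 1 ≤ M := by omega
  have hM2 : M ≤ 2 * s := by omega
  have hall : ((KK c u y x).filter (fun w => 1 - rep (2 - lo m u y) (c x w) ≠ (M : ℤ))).card + s + 1 ≤ M := by
    by_contra hcon
    obtain ⟨B, hB, hBc⟩ := Finset.exists_subset_card_eq
      (s := (KK c u y x).filter (fun w => 1 - rep (2 - lo m u y) (c x w) ≠ (M : ℤ))) (n := M - s) (by omega)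
    obtain ⟨K₁, hBK, hK₁, hK₁c⟩ := Finset.exists_subsuperset_card_eq
      (hB.trans (Finset.filter_subset _ _)) (n := (lo m u y).toNat) (by omega) (by omega)
    have hK₁c' : (K₁.card : ℤ) = lo m u y := by omega
    obtain ⟨M', hM', hM1'⟩ := first3 hsym hz h hV hL hH hm hO hx hlo hK₁ hK₁c'
    have hMM : M' = M := by omega
    subst hMM
    have hle : B.card ≤ (K₁.filter (fun w => 1 - rep (2 - lo m u y) (c x w) ≠ (M' : ℤ))).card := by
      apply Finset.card_le_card
      intro w hw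
      rw [Finset.mem_filter]
      exact ⟨hBK hw, (Finset.mem_filter.1 (hB hw)).2⟩
    omega
  have hsplit := Finset.card_filter_add_card_filter_not (s := KK c u y x)
    (fun w => 1 - rep (2 - lo m u y) (c x w) = (M : ℤ))
  have hKs : s + 2 ≤ (KK c u y x).card := by
    have : ((s + 2 : ℕ) : ℤ) ≤ ((KK c u y x).card : ℤ) := by push_cast; linarith
    exact_mod_cast this
  have hpos : 0 < ((KK c u y x).filter (fun w => 1 - rep (2 - lo m u y) (c x w) = (M : ℤ))).card := by
    have h9 : ((KK c u y x).filter (fun w => ¬ 1 - rep (2 - lo m u y) (c x w) = (M : ℤ))).card + s + 1 ≤ M := hall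
    omega
  refine ⟨M, hM, ?_, ?_⟩
  · obtain ⟨w, hw⟩ := Finset.card_pos.1 hpos
    rw [Finset.mem_filter] at hw
    have h10 := (D_bd hw.1).2
    rw [hw.2] at h10
    have hmz : (m : ℤ) = 2 * M := by exact_mod_cast hM
    have h11 : lo m u y = m - (LL u y).card - exL u y := rfl
    linarith
  · have h12 : ((KK c u y x).filter (fun w => 1 - rep (2 - lo m u y) (c x w) = (M : ℤ))).card ≤
        ((KK c u y x).filter (fun w => c x w = 1 - M)).card := by
      apply Finset.card_le_card
      intro w hw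
      rw [Finset.mem_filter] at hw ⊢
      refine ⟨hw.1, ?_⟩
      have h13 := rep_cast (2 - lo m u y) (c x w)
      have h14 : rep (2 - lo m u y) (c x w) = 1 - (M : ℤ) := by linarith [hw.2]
      rw [h14] at h13
      rw [← h13]
      push_cast
      ring
    have h9 : ((KK c u y x).filter (fun w => ¬ 1 - rep (2 - lo m u y) (c x w) = (M : ℤ))).card + s + 1 ≤ M := hall
    omega

private theorem pervO [NeZero m] {c : V → V → ZMod m} (hsym : ∀ x w, c x w = c w x) (hz : ZSF m c)
    {u : V} {y : V → ℤ} (h : SL c u y) {s : ℕ} (hV : Fintype.card V = m + s)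
    (hL : exL u y + 2 ≤ s) (hH : exH u y + 2 ≤ s) (hm : m ≤ 4 * s) {x : V} (hO : ¬ Ord3 c s u y x)
    (hx : x ∈ LL u y) :
    s + exL u y ≤ ((UU c u y x).card : ℤ) ∨
      ∃ M : ℕ, m = 2 * M ∧ ((LL u y).card : ℤ) + exL u y + 1 ≤ M ∧
        M + 2 * s ≤ (UU c u y x).card + (LL u y).card +
          ((HH u y).filter (fun w => c x w = 1 - M)).card := by
  by_cases hlt : s + exL u y ≤ ((UU c u y x).card : ℤ)
  · exact Or.inl hlt
  right
  have hs : 1 ≤ s := by
    have := exL_nonneg u y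
    have h0 : (2 : ℤ) ≤ s := by linarith
    omega
  have h2 : ((UU c u y x).card : ℤ) + (KK c u y x).card = (HH u y).card := by
    exact_mod_cast card_UK c u y x
  have h3' : ((LL u y).card : ℤ) + (HH u y).card + 1 = m + s := by
    exact_mod_cast card_LH hV hs u y
  by_cases hlo : lo m u y ≤ s + 1
  · exact absurd (perv_greedy hsym hz h hV hL hH hx hlo) hlt
  have hK : lo m u y ≤ ((KK c u y x).card : ℤ) := by
    have h4 : ((UU c u y x).card : ℤ) + 1 ≤ s + exL u y := by omega
    unfold lo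
    linarith
  obtain ⟨M, hM1, hM2, hM3⟩ := cubeK3 hsym hz h hV hL hH hm hO hx (by omega) hK
  refine ⟨M, hM1, hM2, ?_⟩
  have hsub : (KK c u y x).filter (fun w => c x w = 1 - M) ⊆
      (HH u y).filter (fun w => c x w = 1 - M) := by
    refine Finset.filter_subset_filter _ ?_
    unfold KK
    exact Finset.filter_subset _ _
  have h5 := Finset.card_le_card hsub
  have h6 := card_UK c u y x
  have h7 := card_LH hV hs u y
  omega

private theorem ord3_spec [NeZero m] {c : V → V → ZMod m} (hsym : ∀ x w, c x w = c w x)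
    (hz : ZSF m c) {u : V} {y : V → ℤ} (h : SL c u y) {s : ℕ} (hV : Fintype.card V = m + s)
    (hL : exL u y + 2 ≤ s) (hH : exH u y + 2 ≤ s) (hm : m ≤ 4 * s) {x : V}
    (hx : x ∈ LL u y) (hl3 : m ≤ 3 * (LL u y).card) (hlm : (LL u y).card + 2 ≤ m)
    (hO : Ord3 c s u y x) :
    ∃ M : ℕ, m = 3 * M ∧ s + 1 ≤ M ∧ (M : ℤ) + s + exH u y + y x ≤ (LL u y).card := by
  obtain ⟨M, hM, K₀, hK, hKc, hlo, hf⟩ := hO
  refine ⟨M, hM, by omega, ?_⟩
  have hLn := exL_nonneg u y
  have hHn := exH_nonneg u y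
  have hMz : (m : ℤ) = 3 * M := by exact_mod_cast hM
  have hl3z : (m : ℤ) ≤ 3 * (LL u y).card := by exact_mod_cast hl3
  have hlod : lo m u y = m - (LL u y).card - exL u y := rfl
  have hsplit := Finset.card_filter_add_card_filter_not (s := K₀)
    (fun w => (M : ℤ) ∣ 1 - rep (2 - lo m u y) (c x w))
  set K₁ := K₀.filter (fun w => (M : ℤ) ∣ 1 - rep (2 - lo m u y) (c x w)) with hK₁
  have hpos : 0 < K₁.card := by omega
  -- all of them have `D w = M`
  have hD : ∀ w ∈ K₁, 1 - rep (2 - lo m u y) (c x w) = M := by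
    intro w hw
    have h3 := Finset.mem_filter.1 hw
    have hb := D_bd (hK h3.1)
    obtain ⟨j, hj⟩ := h3.2
    have hM0 : (0 : ℤ) < M := by
      have : s + 1 ≤ M := by omega
      have : ((s + 1 : ℕ) : ℤ) ≤ M := by exact_mod_cast this
      push_cast at this
      linarith [Int.natCast_nonneg s]
    have h5 : 1 ≤ (M : ℤ) * j := by rw [← hj]; exact hb.1
    have h6 : (M : ℤ) * j + 1 ≤ 2 * M := by rw [← hj]; linarith [hb.2]
    have h7 : 1 ≤ j := by
      by_contra h8
      push Not at h8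
      have : (M : ℤ) * j ≤ M * 0 := mul_le_mul_of_nonneg_left (by omega) hM0.le
      linarith
    have h8 : j ≤ 1 := by
      by_contra h9
      push Not at h9
      have : (M : ℤ) * 2 ≤ M * j := mul_le_mul_of_nonneg_left (by omega) hM0.le
      linarith
    have h9 : j = 1 := le_antisymm h8 h7
    rw [hj, h9, mul_one]
  obtain ⟨w₀, hw₀⟩ := Finset.card_pos.1 hpos
  have hloM : (M : ℤ) + 1 ≤ lo m u y := by
    have h3 := Finset.mem_filter.1 hw₀
    have hb := (D_bd (hK h3.1)).2
    rw [hD w₀ hw₀] at hb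
    exact hb
  -- two of them have `y w = 1`
  have hex : ((K₁.filter (fun w => ¬ y w = 1)).card : ℤ) ≤ exH u y := by
    have h2 : ((K₁.filter (fun w => ¬ y w = 1)).card : ℤ) ≤
        ∑ w ∈ K₁.filter (fun w => ¬ y w = 1), (y w - 1) := by
      rw [Finset.cast_card]
      refine Finset.sum_le_sum (fun w hw => ?_)
      have h3 := Finset.mem_filter.1 hw
      have h4 := (mem_HH.1 (KK_sub c u y x (hK (Finset.mem_filter.1 h3.1).1))).2
      have h5 := h3.2
      push_cast
      omega
    refine h2.trans ?_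
    unfold exH
    refine Finset.sum_le_sum_of_subset_of_nonneg (fun w hw => ?_) (fun w hw _ => ?_)
    · exact KK_sub c u y x (hK (Finset.mem_filter.1 (Finset.mem_filter.1 hw).1).1)
    · have := (mem_HH.1 hw).2
      omega
  have hsplit2 := Finset.card_filter_add_card_filter_not (s := K₁) (fun w => y w = 1)
  have hK2 : 2 ≤ (K₁.filter (fun w => y w = 1)).card := by omega
  obtain ⟨W, hW, hWc⟩ := Finset.exists_subset_card_eq hK2
  have hWK : ∀ w ∈ W, w ∈ K₁ ∧ y w = 1 := fun w hw => Finset.mem_filter.1 (hW hw)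
  have hWH : W ⊆ HH u y := fun w hw => KK_sub c u y x (hK (Finset.mem_filter.1 (hWK w hw).1).1)
  have hWD : ∑ w ∈ W, (1 - rep (2 - lo m u y) (c x w)) = 2 * M := by
    rw [Finset.sum_congr rfl (fun w hw => hD w (hWK w hw).1), Finset.sum_const, hWc, nsmul_eq_mul]
    push_cast
    ring
  have hWy : ∑ w ∈ W, (y w - 1) = 0 :=
    Finset.sum_eq_zero (fun w hw => by rw [(hWK w hw).2, sub_self])
  by_contra hcon
  push Not at hcon
  refine fam hsym hz h hV hL hH hx W hWH (by omega) (fun w => rep (2 - lo m u y) (c x w))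
    (fun w _ => rep_cast _ _) 0 ?_ ?_ (dvd_zero _)
  · show lo m u y - ∑ w ∈ W, (1 - rep (2 - lo m u y) (c x w)) ≤ 0
    rw [hWD]
    linarith
  · show 0 ≤ lo m u y - ∑ w ∈ W, (1 - rep (2 - lo m u y) (c x w)) + (s - 1) + (exL u y + y x) +
      (exH u y - ∑ w ∈ W, (y w - 1))
    rw [hWD, hWy]
    omega

/-- the inequality, big class `y = 1`. -/
private theorem gw1 [NeZero m] {c : V → V → ZMod m} (hsym : ∀ x w, c x w = c w x)
    (hz : ZSF m c) {u : V} {y : V → ℤ} (h : SL c u y) {s : ℕ} (hV : Fintype.card V = m + s)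
    (hex : exL u y + exH u y + 2 ≤ s) {a e : ℕ}
    (ha : ((univ.erase u).filter (fun w => y w = 1)).card = a) (hae : a + e + 1 = m + s)
    (h1 : m ≤ a + s + 1) (h2 : e + 1 ≤ 2 * s) (h3 : 2 * m ≤ 3 * (s + e)) (h5 : e ≤ a)
    (hm : m ≤ 4 * s) (hm2 : e + 2 ≤ m)
    (hev : ∀ M : ℕ, m = 2 * M → m + 4 ≤ 4 * s ∧ M * M + s < s * s + M * s + M) :
    s * (m + s - 1) ≤ a * e := by
  have hLn := exL_nonneg u y
  have hHn := exH_nonneg u y
  have hL : exL u y + 2 ≤ s := by linarith
  have hH : exH u y + 2 ≤ s := by linarith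
  have hs2 : 2 ≤ s := by omega
  have hLH := card_LH hV (by omega) u y
  -- sizes
  have hHa : a ≤ (HH u y).card := by
    rw [← ha]
    refine Finset.card_le_card (fun w hw => ?_)
    have h6 := Finset.mem_filter.1 hw
    exact mem_HH.2 ⟨(Finset.mem_erase.1 h6.1).1, h6.2.ge⟩
  have hHe : ((HH u y).card : ℤ) ≤ a + exH u y := by
    have h6 := Finset.card_filter_add_card_filter_not (s := HH u y) (fun w => y w = 1)
    have h7 : ((HH u y).filter (fun w => y w = 1)).card ≤ a := by
      rw [← ha]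
      refine Finset.card_le_card (fun w hw => ?_)
      have h8 := Finset.mem_filter.1 hw
      exact Finset.mem_filter.2 ⟨Finset.mem_erase.2 ⟨(mem_HH.1 h8.1).1, Finset.mem_univ _⟩, h8.2⟩
    have h8 : (((HH u y).filter (fun w => ¬ y w = 1)).card : ℤ) ≤ exH u y := by
      have h9 : (((HH u y).filter (fun w => ¬ y w = 1)).card : ℤ) ≤
          ∑ w ∈ (HH u y).filter (fun w => ¬ y w = 1), (y w - 1) := by
        rw [Finset.cast_card]
        refine Finset.sum_le_sum (fun w hw => ?_)
        have h3 := Finset.mem_filter.1 hw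
        have h4 := (mem_HH.1 h3.1).2
        have h5 := h3.2
        push_cast
        omega
      refine h9.trans ?_
      unfold exH
      refine Finset.sum_le_sum_of_subset_of_nonneg (Finset.filter_subset _ _) (fun w hw _ => ?_)
      have := (mem_HH.1 hw).2
      omega
    omega
  have hle : (LL u y).card ≤ e := by omega
  have hap : ap m u y ≤ s + 1 := by
    have : ap m u y = m - (HH u y).card - exH u y := rfl
    omega
  have hP : ∀ w ∈ HH u y, s + exH u y ≤ ((PP c u y w).card : ℤ) := fun w hw =>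
    pervH_greedy hsym hz h hV hL hH hw hap
  have hHne : 0 < (HH u y).card := by omega
  have hls : s + exH u y ≤ ((LL u y).card : ℤ) := by
    obtain ⟨w, hw⟩ := Finset.card_pos.1 hHne
    have h6 := hP w hw
    have h7 : (PP c u y w).card ≤ (LL u y).card := by
      unfold PP
      exact Finset.card_le_card (Finset.filter_subset _ _)
    have h8 : ((PP c u y w).card : ℤ) ≤ (LL u y).card := by exact_mod_cast h7
    linarith
  have hl3 : m ≤ 3 * (LL u y).card := by omega
  have hlm : (LL u y).card + 2 ≤ m := by omega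
  -- order 2 gives a contradiction
  have hno2 : ∀ x ∈ LL u y, ¬ Ord3 c s u y x → s + exL u y ≤ ((UU c u y x).card : ℤ) := by
    intro x hx hO
    rcases pervO hsym hz h hV hL hH hm hO hx with h6 | ⟨M, hM, h6, -⟩
    · exact h6
    exfalso
    have hall : ∀ x ∈ LL u y, ¬ Ord3 c s u y x := by
      intro x' hx' hO'
      obtain ⟨M3, hM3, h7, h8⟩ := ord3_spec hsym hz h hV hL hH hm hx' hl3 hlm hO'
      have h9 : - y x' ≤ exL u y := by
        unfold exL
        exact Finset.single_le_sum (f := fun w => - y w)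
          (fun w hw => by have := (mem_LL.1 hw).2; omega) hx'
      omega
    exact absurd h6 (T3.no_tw_G hsym hz h hV hL hH
      (fun x hx => pervO hsym hz h hV hL hH hm (hall x hx) hx) hM (hev M hM).1 (hev M hM).2)
  -- bad vertices
  have hbad : ∀ x ∈ LL u y, ¬ (s + exL u y ≤ ((UU c u y x).card : ℤ)) → 2 ≤ - y x := by
    intro x hx hb
    have hO : Ord3 c s u y x := by
      by_contra hO
      exact hb (hno2 x hx hO)
    obtain ⟨M3, hM3, h7, h8⟩ := ord3_spec hsym hz h hV hL hH hm hx hl3 hlm hO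
    omega
  set Bd := (LL u y).filter (fun x => ¬ (s + exL u y ≤ ((UU c u y x).card : ℤ))) with hBd
  have hB2 : 2 * (Bd.card : ℤ) ≤ exL u y := by
    have h6 : 2 * (Bd.card : ℤ) = ∑ x ∈ Bd, (2 : ℤ) := by
      rw [Finset.sum_const, nsmul_eq_mul]; ring
    rw [h6]
    refine (Finset.sum_le_sum (fun x hx => hbad x (Finset.mem_filter.1 hx).1
      (Finset.mem_filter.1 hx).2)).trans ?_
    unfold exL
    refine Finset.sum_le_sum_of_subset_of_nonneg (Finset.filter_subset _ _) (fun w hw _ => ?_)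
    have := (mem_LL.1 hw).2
    omega
  have hsplit := Finset.card_filter_add_card_filter_not (s := LL u y)
    (fun x => s + exL u y ≤ ((UU c u y x).card : ℤ))
  have hUs : (((LL u y).card : ℤ) - Bd.card) * (s + exL u y) ≤ ∑ x ∈ LL u y, ((UU c u y x).card : ℤ) := by
    have h6 : (((LL u y).filter (fun x => s + exL u y ≤ ((UU c u y x).card : ℤ))).card : ℤ) =
        ((LL u y).card : ℤ) - Bd.card := by
      have : ((LL u y).filter (fun x => s + exL u y ≤ ((UU c u y x).card : ℤ))).card + Bd.card =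
        (LL u y).card := hsplit
      omega
    rw [← h6, ← nsmul_eq_mul]
    refine (Finset.card_nsmul_le_sum _ (fun x => ((UU c u y x).card : ℤ)) _
      (fun x hx => (Finset.mem_filter.1 hx).2)).trans ?_
    exact Finset.sum_le_sum_of_subset_of_nonneg (Finset.filter_subset _ _)
      (fun _ _ _ => Int.natCast_nonneg _)
  have hPs : ((HH u y).card : ℤ) * (s + exH u y) ≤ ∑ w ∈ HH u y, ((PP c u y w).card : ℤ) := by
    rw [← nsmul_eq_mul]
    exact Finset.card_nsmul_le_sum _ _ _ (fun w hw => hP w hw)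
  have hdc := dc0 hsym hz h hV hL hH (by linarith)
  have hLHz : ((LL u y).card : ℤ) + (HH u y).card + 1 = m + s := by exact_mod_cast hLH
  have haez : (a : ℤ) + e + 1 = m + s := by exact_mod_cast hae
  have hlez : ((LL u y).card : ℤ) ≤ e := by exact_mod_cast hle
  have h5z : (e : ℤ) ≤ a := by exact_mod_cast h5
  have hBn : (0 : ℤ) ≤ Bd.card := Int.natCast_nonneg _
  generalize ((LL u y).card : ℤ) = l at *
  generalize ((HH u y).card : ℤ) = k at *
  generalize ((Bd.card : ℕ) : ℤ) = b at *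
  generalize exL u y = p at *
  generalize exH u y = q at *
  have e1 : (l - b) * (s + p) + k * (s + q) ≤ l * k := by linarith
  -- `b (s + p) ≤ p s ≤ p l`
  have e2 : b * (s + p) ≤ p * l := by
    have h6 : 0 ≤ (p - 2 * b) * s := mul_nonneg (by linarith) (by linarith)
    have h7 : 0 ≤ b * (s - p) := mul_nonneg hBn (by linarith)
    have h8 : 0 ≤ p * (l - s) := mul_nonneg hLn (by linarith)
    nlinarith
  have e3 : (s : ℤ) * (l + k) ≤ l * k := by
    have h6 : 0 ≤ k * q := mul_nonneg (by linarith) hHn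
    nlinarith
  have e4 : l * k ≤ a * e := by
    have h6 : k = a + e - l := by linarith
    have h7 : 0 ≤ (e - l) * (a - l) := mul_nonneg (by linarith) (by linarith)
    rw [h6]
    nlinarith
  have e5 : (s : ℤ) * (m + s - 1) ≤ a * e := by
    have h6 : (m : ℤ) + s - 1 = l + k := by linarith
    rw [h6]
    linarith
  have e6 : ((s * (m + s - 1) : ℕ) : ℤ) ≤ ((a * e : ℕ) : ℤ) := by
    push_cast [show 1 ≤ m + s by omega]
    linarith
  exact_mod_cast e6

theorem gw [NeZero m] {c : V → V → ZMod m} (hsym : ∀ x w, c x w = c w x) (hz : ZSF m c) {s : ℕ}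
    (hV : Fintype.card V = m + s) (hr : R2 m s) {w : V} {y : V → ℤ} (h : SL c w y)
    (hex : exL w y + exH w y + 2 ≤ s) {a0 : ℕ}
    (ha0 : ((univ.erase w).filter (fun x => y x = 0)).card = a0) (h1 : m ≤ a0 + s)
    (h2 : 3 * a0 + 3 ≤ m + 6 * s) : s * (m + s - 1) ≤ a0 * (m + s - 1 - a0) := by
  have hf := hr.facts
  have hle : a0 + 1 ≤ m + s := by
    have h3 : (univ.erase w).card + 1 = m + s := by
      rw [Finset.card_erase_of_mem (Finset.mem_univ w), Finset.card_univ, hV]
      omega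
    have h4 := Finset.card_filter_le (univ.erase w) (fun x => y x = 0)
    omega
  have hsmall : m + s - 1 - a0 + 1 ≤ 2 * s := by omega
  refine gw1 (c := fun x w => 1 - c x w) (fun x w => by rw [hsym x w]) (zsf_refl hz)
    (sl_refl h) hV (by rw [exL_refl, exH_refl]; linarith) ?_ (e := m + s - 1 - a0) (by omega)
    (by omega) hsmall (by omega) (by omega) hf.2.2.1 (by omega) ?_
  · rw [← ha0]
    congr 1
    refine Finset.filter_congr (fun x _ => ?_)
    show 1 - y x = 1 ↔ y x = 0
    constructor <;> intro h <;> omega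
  · intro M hM
    refine ⟨by omega, ?_⟩
    have h4 : (2000 * (M : ℤ)) ≤ 3087 * s + 1000 := by
      have : 2000 * M ≤ 3087 * s + 1000 := by omega
      exact_mod_cast this
    have h5 : (38 : ℤ) ≤ s := by exact_mod_cast hf.1
    have h6 : 0 ≤ (M : ℤ) := Int.natCast_nonneg _
    have h7 : (M : ℤ) * M + s < s * s + M * s + M := by nlinarith
    exact_mod_cast h7

end H
end ZS44129
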