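import Pool.Agent.Work.MP_44129c_co.H.CN
import Pool.Agent.Work.MP_44129c_co.H.C1
import Pool.Agent.Work.MP_44129c_co.H.C2
import Pool.Agent.Work.MP_44129c_co.H.C3A
import Pool.Agent.Work.MP_44129c_co.H.C4
import Pool.Agent.Work.MP_44129c_co.H.C4B
import Pool.Agent.Work.MP_44129c_co.H.C5
import Pool.Agent.Work.MP_44129c_co.H.C6
import Pool.Agent.Work.MP_44129c_co.H.IGW

/-!
# MP_44129c_co/H, IC: block C (classes at vertices which have a lifted pair), proved from the modules

`class_gen`: let `a = |cl c w r|`, `mu`, `kk` with `NCK`.  `var_c` gives an affine change `c2` with class `0`; `many_roots` gives `kk` (`m` even: `kk + 1`) roots; at most one of them is excluded by parity (`bad_uniq`);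
`aper_c`, `lift_c`, `sign_c` at each of them, `comb_c`, `star_c`, and `gw` (IGW) contradicts `n9`.
`class_le`: `class_gen` with `kp = kap m`, `beta_sum`, `class_le0`, `num_c`.
-/

set_option autoImplicit false

namespace ZS44129
namespace H

open Finset E N

variable {V : Type} [Fintype V] [DecidableEq V] {m : ℕ}

/-- a root excluded by parity. -/
private def OddRoot (c : V → V → ZMod m) (w y : V) : Prop :=
  ∃ K : AddSubgroup (ZMod m), 2 * Nat.card K = m ∧ c w y ∉ K ∧ ∀ b ∈ (W.BB c w).erase y, c w b ∈ K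

open Classical in
private theorem bad_uniq [NeZero m] {c : V → V → ZMod m} {w : V} (T : Finset V) (hT : T ⊆ W.BB c w) :
    T.card ≤ (T.filter (fun y => ¬ OddRoot c w y)).card + (if 2 ∣ m then 1 else 0) := by
  have h1 := card_filter_add_card_filter_not (s := T) (fun y => OddRoot c w y)
  have h2 : (T.filter (fun y => OddRoot c w y)).card ≤ (if 2 ∣ m then 1 else 0) := by
    split_ifs with h
    · rw [card_le_one]
      intro y hy y' hy'
      by_contra hne
      obtain ⟨hyT, K, hK, hyK, hbK⟩ := mem_filter.1 hy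
      obtain ⟨hyT', K', hK', hyK', hbK'⟩ := mem_filter.1 hy'
      have e1 : K = K' := G.eq_of_card K K' (by omega)
      subst e1
      exact hyK' (hbK y' (mem_erase.2 ⟨fun h3 => hne h3.symm, hT hyT'⟩))
    · rw [Nat.le_zero, card_eq_zero, filter_eq_empty_iff]
      rintro y - ⟨K, hK, -, -⟩
      exact h ⟨Nat.card K, hK.symm⟩
  omega

/-- the general form (`kp` = the loss in the counting of the roots). -/
theorem class_gen [NeZero m] {c : V → V → ZMod m} {s : ℕ} (h : HS c s) {w v : V} (hl : Lp c w v) (r : ZMod m) {kp : ℕ}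
    (hcount : (s + 1) * (cl c w r).card ≤ kp * (cl c w r).card +
      ∑ y ∈ (univ.erase w).filter (fun y => c w y ≠ r),
        ((cl c w r).filter (fun x => 2 * c y x ≠ 2 * r ∧ 3 * c y x ≠ 3 * r)).card)
    (hnc : ∃ mu kk, NCK m s kp (cl c w r).card (m + s - 1 - (cl c w r).card) mu kk) : False := by
  classical
  have hfacts := h.rng.facts
  obtain ⟨hs38, hm3, hm4, hm5⟩ := hfacts
  have hlt := cl_lt h w r
  obtain ⟨mu, kk, nc⟩ := hnc
  obtain ⟨g, f, hf, hfs⟩ := var_c h hl r nc.n1
  obtain ⟨c2, hc2⟩ : ∃ c2 : V → V → ZMod m, c2 = fun p q => (g : ZMod m) * (c p q - r) := ⟨_, rfl⟩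
  have h2 : HS c2 s := by rw [hc2]; exact hs_scale h g r
  have hAA : W.AA c2 w = cl c w r := by rw [hc2]; exact AA_scale g r w
  rw [← hc2] at hf hfs
  have hf2 : ∀ b ∈ (W.BB c2 w).erase v, (f b : ZMod m) = c2 w b := by
    intro b hb
    rw [hf b hb, hc2]
  have hcard := card_AB (c := c2) h2.card w
  have hAc : (W.AA c2 w).card = (cl c w r).card := by rw [hAA]
  have hBc : (W.BB c2 w).card = m + s - 1 - (cl c w r).card := by omega
  have hBB : (univ.erase w).filter (fun y => c w y ≠ r) = W.BB c2 w := by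
    ext y
    rw [mem_BB, hc2, mem_filter, mem_erase]
    simp only [mem_univ, and_true, ne_eq, Units.mul_right_eq_zero, sub_eq_zero]
  have hXP : ∀ y, (cl c w r).filter (fun x => 2 * c y x ≠ 2 * r ∧ 3 * c y x ≠ 3 * r) = XP c2 w y := by
    intro y
    have e2 : ∀ (k x : ZMod m), k * ((g : ZMod m) * (x - r)) = (g : ZMod m) * (k * x - k * r) := by
      intro k x
      ring
    unfold XP
    rw [hAA]
    apply Finset.filter_congr
    intro x _
    rw [hc2]
    simp only [ne_eq, e2, Units.mul_right_eq_zero, sub_eq_zero]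
  have hcount2 : (s + 1) * (W.AA c2 w).card ≤ kp * (W.AA c2 w).card + ∑ y ∈ W.BB c2 w, (XP c2 w y).card := by
    rw [hAc, ← hBB, ← Finset.sum_congr rfl (fun y _ => congrArg Finset.card (hXP y))]
    exact hcount
  have ae := nc.ae
  have n1 := nc.n1
  have n2 := nc.n2
  have n3 := nc.n3
  have n4 := nc.n4
  have n5 := nc.n5
  have n6 := nc.n6
  have n7 := nc.n7
  have n8 := nc.n8
  have n9 := nc.n9
  have n10 := nc.n10
  have n11 := nc.n11
  rw [← hBc] at n2 n4 n5 n6 n7 n9
  rw [← hAc] at n7 n9 n10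
  obtain ⟨T, hTB, hTc, hTm⟩ := many_roots (w := w) (mu := mu)
    (R := kk + (if 2 ∣ m then 1 else 0)) (by omega) (by omega) hcount2 (by
      have e1 : kk + (if 2 ∣ m then 1 else 0) - 1 = kk - 1 + (if 2 ∣ m then 1 else 0) := by omega
      rw [e1]
      exact n7)
  have hbu := bad_uniq (c := c2) T hTB
  obtain ⟨T', hT', hT'c⟩ := exists_subset_card_eq
    (s := T.filter (fun y => ¬ OddRoot c2 w y)) (n := kk) (by omega)
  have hRD : ∀ y ∈ T', ∃ (g : (ZMod m)ˣ) (n : V → ℤ), RD c2 s mu w y g n := by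
    intro y hy
    obtain ⟨hyT, hyo⟩ := mem_filter.1 (hT' hy)
    have hyB := hTB hyT
    obtain ⟨P0, hP0, hP0c⟩ := exists_subset_card_eq (hTm y hyT)
    have hodd : ∀ K : AddSubgroup (ZMod m), 2 * Nat.card K = m →
        c2 w y ∈ K ∨ ∃ b ∈ (W.BB c2 w).erase y, c2 w b ∉ K := by
      intro K hK
      by_contra hcon2
      push Not at hcon2
      exact hyo ⟨K, hK, hcon2.1, hcon2.2⟩
    obtain ⟨J0, hJ0, hJ0c, hap⟩ := aper_c h2 hf2 hfs n2 hyB hodd hP0 (by omega) (by omega)
    obtain ⟨g1, n, hn, hvar⟩ := lift_c h2 hyB hJ0 hJ0c hP0 (by omega) (by omega) hap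
    rw [hP0c] at hvar
    exact sign_c h2 hyB n3 n2 n5 (by omega) hn hvar
  obtain ⟨g3, n, hn, hpos, hex⟩ := comb_c h2 n3 n4 n6 n8 n11 T' hT'c hRD
  obtain ⟨y, hSL, hexy, hcz⟩ := star_c h2 (by omega) hn hpos hex
  have hz3 : ZSF m (fun p q => ((g3⁻¹ : (ZMod m)ˣ) : ZMod m) * c2 p q) := by
    have h4 := zsf_affine c2 h2.zsf g3⁻¹ 0
    simpa only [sub_zero] using h4
  have hgw := gw (fun x y => by rw [h2.sym x y]) hz3 h2.card h2.rng hSL hexy hcz (by omega) (by omega)
  have e2 : m + s - 1 - (W.AA c2 w).card = (W.BB c2 w).card := by omega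
  rw [e2] at hgw
  omega

theorem class_le [NeZero m] {c : V → V → ZMod m} {s : ℕ} (h : HS c s) {w v : V} (hl : Lp c w v) (r : ZMod m) :
    (cl c w r).card ≤ alp s := by
  classical
  by_contra hcon
  push Not at hcon
  obtain ⟨hs38, hm3, hm4, hm5⟩ := h.rng.facts
  have halp : 38 ≤ alp s := by
    unfold alp
    split_ifs <;> omega
  have hlt := cl_lt h w r
  have h0 := class_le0 h w r (by omega)
  refine class_gen h hl r (kp := kap m) (le_trans (beta_sum h w r (by omega)) (Nat.add_le_add_left ?_ _))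
    (num_c h.rng (by omega) (by omega) h0)
  have h26 : ∀ a : ZMod m, 6 * a ≠ 6 * r → 2 * a ≠ 2 * r ∧ 3 * a ≠ 3 * r := by
    intro a ha
    constructor
    · intro h1
      apply ha
      have h3 : (3 : ZMod m) * (2 * a) = 3 * (2 * r) := by rw [h1]
      linear_combination h3
    · intro h1
      apply ha
      have h3 : (2 : ZMod m) * (3 * a) = 2 * (3 * r) := by rw [h1]
      linear_combination h3
  calc ∑ z ∈ (univ.erase w).filter (fun z => 6 * c w z ≠ 6 * r), ((cl c w r).filter (fun x => 6 * c z x ≠ 6 * r)).card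
      ≤ ∑ z ∈ (univ.erase w).filter (fun z => 6 * c w z ≠ 6 * r),
          ((cl c w r).filter (fun x => 2 * c z x ≠ 2 * r ∧ 3 * c z x ≠ 3 * r)).card := by
        apply Finset.sum_le_sum
        intro z _
        apply Finset.card_le_card
        intro x hx
        rw [mem_filter] at hx ⊢
        exact ⟨hx.1, h26 _ hx.2⟩
    _ ≤ _ := by
        apply Finset.sum_le_sum_of_subset
        intro z hz
        rw [mem_filter] at hz ⊢
        refine ⟨hz.1, fun h1 => hz.2 (by rw [h1])⟩

end H
end ZS44129
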