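import Pool.Agent.Work.MP_44129c_co.H.CN2
import Pool.Agent.Work.MP_44129c_co.H.IC
import Pool.Agent.Work.MP_44129c_co.G.C1K

/-!
# MP_44129c_co/H, IC2: the classes in the second round (no colour differences of order 2, 3), proved from the modules

For `x` in the class `A = cl c w r` the number of `z ≠ w, x` with `c w z ≠ r`, `c x z ≠ r` is at least `s` (`G.c1_exc` with `K = ⊥`), and `2 c x z = 2 r = 2 c x w` gives `c x z = r` (`U2` at `x`), the same for `3`.
-/

set_option autoImplicit false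

namespace ZS44129
namespace H

open Finset E N

variable {V : Type} [Fintype V] [DecidableEq V] {m : ℕ}

private theorem nb_bot [NeZero m] {c : V → V → ZMod m} {s : ℕ} (h : HS c s) (w : V) (r : ZMod m) {x : V}
    (hx : x ∈ cl c w r) : s ≤ G.nb c w x (⊥ : AddSubgroup (ZMod m)) r := by
  classical
  by_contra hcon
  have hf := h.rng.facts
  have h1 : Nat.card (⊥ : AddSubgroup (ZMod m)) = 1 := AddSubgroup.card_bot
  obtain ⟨P1, r1, hlt, -⟩ := G.c1_exc c h.zsf h.card (⊥ : AddSubgroup (ZMod m)) (by omega) w r (x := x)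
    (G.mem_cls.2 ⟨(mem_cl.1 hx).1, by rw [(mem_cl.1 hx).2, sub_self]; exact zero_mem _⟩) (by omega)
  exact not_lt_bot hlt

/-- the counting of the roots in the second round. -/
theorem count2 [NeZero m] {c : V → V → ZMod m} {s : ℕ} (h : HS c s) (h2 : ∀ z, U2 c z) (h3 : ∀ z, U3 c z)
    (w : V) (r : ZMod m) :
    (s + 1) * (cl c w r).card ≤ 1 * (cl c w r).card +
      ∑ y ∈ (univ.erase w).filter (fun y => c w y ≠ r),
        ((cl c w r).filter (fun x => 2 * c y x ≠ 2 * r ∧ 3 * c y x ≠ 3 * r)).card := by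
  classical
  have h1 : ∀ x ∈ cl c w r, s ≤
      (((univ.erase w).filter (fun y => c w y ≠ r)).filter
        (fun y => 2 * c y x ≠ 2 * r ∧ 3 * c y x ≠ 3 * r)).card := by
    intro x hx
    obtain ⟨hxw, hxr⟩ := mem_cl.1 hx
    refine le_trans (nb_bot h w r hx) ?_
    unfold G.nb
    apply Finset.card_le_card
    intro z hz
    rw [Finset.mem_filter, G.mem_XX] at hz
    obtain ⟨⟨hzw, hzx⟩, hz1, hz2⟩ := hz
    rw [AddSubgroup.mem_bot, sub_eq_zero] at hz1 hz2
    rw [Finset.mem_filter, Finset.mem_filter, Finset.mem_erase]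
    have hxw2 : c x w = r := by rw [h.sym x w]; exact hxr
    refine ⟨⟨⟨hzw, Finset.mem_univ z⟩, hz1⟩, ?_, ?_⟩
    · rw [h.sym z x]
      intro h5
      exact hz2 ((h2 x z w hzx (fun h6 => hxw h6.symm) (by rw [hxw2]; exact h5)).trans hxw2)
    · rw [h.sym z x]
      intro h5
      exact hz2 ((h3 x z w hzx (fun h6 => hxw h6.symm) (by rw [hxw2]; exact h5)).trans hxw2)
  have h4 := Finset.sum_le_sum h1
  rw [Finset.sum_const, smul_eq_mul] at h4
  have h5 : ∑ x ∈ cl c w r, (((univ.erase w).filter (fun y => c w y ≠ r)).filter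
        (fun y => 2 * c y x ≠ 2 * r ∧ 3 * c y x ≠ 3 * r)).card =
      ∑ y ∈ (univ.erase w).filter (fun y => c w y ≠ r),
        ((cl c w r).filter (fun x => 2 * c y x ≠ 2 * r ∧ 3 * c y x ≠ 3 * r)).card := by
    simp only [Finset.card_filter]
    exact Finset.sum_comm
  rw [h5] at h4
  have h6 : (s + 1) * (cl c w r).card = (cl c w r).card * s + (cl c w r).card := by ring
  omega

theorem class_le2 [NeZero m] {c : V → V → ZMod m} {s : ℕ} (h : HS c s) (h2 : ∀ z, U2 c z) (h3 : ∀ z, U3 c z)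
    {w v : V} (hl : Lp c w v) (r : ZMod m) : (cl c w r).card ≤ alp2 m s := by
  classical
  by_contra hcon
  push Not at hcon
  obtain ⟨hs38, hm3, hm4, hm5⟩ := h.rng.facts
  have halp : 38 ≤ alp2 m s := by
    unfold alp2
    split_ifs <;> omega
  have hlt := cl_lt h w r
  have h0 := class_le0 h w r (by omega)
  exact class_gen h hl r (kp := 1) (count2 h h2 h3 w r) (num_c2 h.rng (by omega) (by omega) h0)

end H
end ZS44129
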