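import Pool.Agent.Work.MP_44129c_co.H.F7

/-!
# MP_44129c_co/H, IF: interface of block F (proved from F7)
-/

set_option autoImplicit false

namespace ZS44129
namespace H

open Finset E N

variable {V : Type} [Fintype V] [DecidableEq V] {m : ℕ}

theorem hs_affine [NeZero m] {c : V → V → ZMod m} {s : ℕ} (h : HS c s) (g : (ZMod m)ˣ) (β : ZMod m) :
    HS (fun p q => (g : ZMod m) * c p q - β) s :=
  ⟨fun x y => by simp only [h.sym x y], zsf_affine c h.zsf g β, h.card, h.rng⟩

theorem est_mf [NeZero m] {c : V → V → ZMod m} {s : ℕ} (h : HS c s) (h3 : ∀ z, U3 c z)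
    (hcl : ∀ u r, (cl c u r).card ≤ alp s) {u : V} (hu : ESt c s u) :
    ∃ b : V → V → Bool, (∀ x y, b x y = b y x) ∧ MF m b := by
  obtain ⟨g, β, y, hy, hE⟩ := hu
  exact est_mf' (fs_affine ⟨h, h3, hcl⟩ g β) ⟨hy, hE⟩

end H
end ZS44129
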