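import Pool.Agent.Work.MP_44129c_co.H.S5

/-!
# MP_44129c_co/H, IS: interface of block S (all vertices have three lifted pairs; proved from S1-S5)
-/

set_option autoImplicit false

namespace ZS44129
namespace H

open Finset E N

variable {V : Type} [Fintype V] [DecidableEq V] {m : ℕ}

theorem all_good3 [NeZero m] {c : V → V → ZMod m} {s : ℕ} (h : HS c s) (z : V) : Good3 c z :=
  all_good3' h z

end H
end ZS44129
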