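import Pool.Agent.Work.MP_44129c_co.H.WDefs

/-!
# MP_44129c_co/H, WN (size M-L): numbers for block W (checked by computer for `s < 200`)

`n = m + s - 1 = a + b + r`, `t = m - 3 s - 1`, `19 t ≤ s` for `s ≥ 80`, `hv = hvy m ≤ 3`.  `R = n (m - s - 1) + (n - a) max (2 a - n) 0 - (n² - Q)`, `BB2 = 2 R + hv (4 s - 2)`.
Formulas: `Q ≤ a² + b² + r min (r, b) ≤ a n`.  If `2 a ≥ n`: `R ≤ n (a - 2 s) - 2 b r - r (r - min (r, b))` (ring identity: `n² = a² + b² + r² + 2 a b + 2 a r + 2 b r`, `n (m - s - 1) - n (b + r) = n (a - 2 s)`).  If `2 a < n`: `R = Q - 2 s n ≤ n (a - 2 s) - b (a - b) - r (a - min (r, b))`.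
PROOF of `n_w0`: if `2 a < 3 s` then `2 a < n`, `R ≤ n (a - 2 s) ≤ - n s / 2`, `BB2 ≤ - n s + 3 (4 s - 2) < 0`.
PROOF of `n_w`, `s ≥ 80` (`alp2 = ⌊23 s / 10⌋`): in each of the three claims suppose the contrary, then `T` is at least `2 s - 3 - 2 r`, resp. `2 b - 2 s - 2 t - 7`, resp. `m - 2 s - 2`, and also `T ≥ 0`; combine with `(a + b - hv) T ≤ BB2` (`nlinarith` with the products of the hypotheses; for large `r` (`r ≥ 0.5 s`, say) show `BB2 < 0` from
`2 b r` with `b = n - a - r`: on the interval `0.5 s ≤ r ≤ (n - a) / 2` the concave function `r (n - a - r)` is at least its value at an end point, and for `r > (n - a) / 2` (`b < r`) use the term `r (r - b)`).  The last claim: `r < n - a - s`, because `b ≥ m - 2 s + 3` by the second claim.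
The five pairs: finitely many `(a, r)`; a kernel computation (`decide` on a bounded check over `a ≤ 107`, `r ≤ 190` with natural numbers) or the same proof with the numbers.
-/

set_option autoImplicit false

namespace ZS44129
namespace H

/-- small `b` is impossible (`2 a ≥ n`, `r ≤ b`). -/
private theorem wn_a1 {s t a b r T : ℤ} (hs : 80 ≤ s) (ht : 2 ≤ t) (ht2 : 19 * t ≤ s)
    (ha : 10 * a ≤ 23 * s) (ha2 : 4 * s + t ≤ 2 * a) (hsum : a + b + r = 4 * s + t) (hr0 : 0 ≤ r) (hrb : r ≤ b)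
    (hT : 0 ≤ T) (hB : (a + b - 3) * T ≤ 2 * (4 * s + t) * (a - 2 * s) - 4 * b * r + 12 * s - 6) :
    11 * s ≤ 10 * b := by
  by_contra hcon
  push Not at hcon
  have h1 : 0 ≤ (a + b - 3) * T := mul_nonneg (by omega) hT
  have hr : r = 4 * s + t - a - b := by omega
  subst hr
  have h2 : 0 ≤ (11 * s - 10 * b) * (11 * s + 10 * b - 10 * (4 * s + t - a)) :=
    mul_nonneg (by omega) (by omega)
  have h3 : 0 ≤ (23 * s - 10 * a) * (62 * s + 10 * t) := mul_nonneg (by omega) (by omega)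
  have h4 : 0 ≤ (s - 80) * s := mul_nonneg (by omega) (by omega)
  have h5 : 0 ≤ (t - 2) * s := mul_nonneg (by omega) (by omega)
  nlinarith

private theorem wn_g2 {s t a b r T : ℤ} (hs : 80 ≤ s) (ht : 2 ≤ t) (ht2 : 19 * t ≤ s)
    (ha : 10 * a ≤ 23 * s) (ha2 : 4 * s + t ≤ 2 * a) (hsum : a + b + r = 4 * s + t) (hr0 : 0 ≤ r) (hrb : r ≤ b)
    (hT : 0 ≤ T) (hB : (a + b - 3) * T ≤ 2 * (4 * s + t) * (a - 2 * s) - 4 * b * r + 12 * s - 6)
    (hb : 11 * s ≤ 10 * b) : 2 * (s + t + 4) + T ≤ 2 * b := by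
  by_contra hcon
  push Not at hcon
  have h1 : (a + b - 3) * (2 * b - 2 * s - 2 * t - 7) ≤ (a + b - 3) * T :=
    mul_le_mul_of_nonneg_left (by omega) (by omega)
  obtain ⟨d, hd⟩ : ∃ d, d = 10 * b - 11 * s := ⟨_, rfl⟩
  have hr : r = 4 * s + t - a - b := by omega
  subst hr
  have h2 : 0 ≤ (10 * b - 11 * s) * (4 * s + t - a - b) := mul_nonneg (by omega) hr0
  have h3 : 0 ≤ (23 * s - 10 * a) * s := mul_nonneg (by omega) (by omega)
  have h3' : 0 ≤ (23 * s - 10 * a) * t := mul_nonneg (by omega) (by omega)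
  have h4 : 0 ≤ (s - 80) * s := mul_nonneg (by omega) (by omega)
  have h5 : 0 ≤ (s - 19 * t) * s := mul_nonneg (by omega) (by omega)
  have h6 : 0 ≤ (10 * b - 11 * s) * (23 * s - 10 * a) := mul_nonneg (by omega) (by omega)
  have h7 : 0 ≤ (10 * b - 11 * s) * s := mul_nonneg (by omega) (by omega)
  have h8 : 0 ≤ (t - 2) * s := mul_nonneg (by omega) (by omega)
  have h9 : 0 ≤ (10 * b - 11 * s) * t := mul_nonneg (by omega) (by omega)
  nlinarith

private theorem wn_g1 {s t a b r T : ℤ} (hs : 80 ≤ s) (ht : 2 ≤ t) (ht2 : 19 * t ≤ s)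
    (ha : 10 * a ≤ 23 * s) (ha2 : 4 * s + t ≤ 2 * a) (hsum : a + b + r = 4 * s + t) (hr0 : 0 ≤ r) (hrb : r ≤ b)
    (hB : (a + b - 3) * T ≤ 2 * (4 * s + t) * (a - 2 * s) - 4 * b * r + 12 * s - 6)
    (hb : 11 * s ≤ 10 * b) : 2 * r + T + 4 ≤ 2 * s := by
  by_contra hcon
  push Not at hcon
  have h1 : (a + b - 3) * (2 * s - 2 * r - 3) ≤ (a + b - 3) * T :=
    mul_le_mul_of_nonneg_left (by omega) (by omega)
  have hr : r = 4 * s + t - a - b := by omega
  subst hr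
  have h2 : 0 ≤ (10 * b - 11 * s) * (4 * s + t - a - b) := mul_nonneg (by omega) hr0
  have h3 : 0 ≤ (23 * s - 10 * a) * s := mul_nonneg (by omega) (by omega)
  have h3' : 0 ≤ (23 * s - 10 * a) * t := mul_nonneg (by omega) (by omega)
  have h4 : 0 ≤ (s - 80) * s := mul_nonneg (by omega) (by omega)
  have h5 : 0 ≤ (s - 19 * t) * s := mul_nonneg (by omega) (by omega)
  have h6 : 0 ≤ (10 * b - 11 * s) * (23 * s - 10 * a) := mul_nonneg (by omega) (by omega)
  have h7 : 0 ≤ (10 * b - 11 * s) * s := mul_nonneg (by omega) (by omega)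
  have h8 : 0 ≤ (t - 2) * s := mul_nonneg (by omega) (by omega)
  have h9 : 0 ≤ (10 * b - 11 * s) * t := mul_nonneg (by omega) (by omega)
  have h10 : 0 ≤ (2 * a - 4 * s - t) * s := mul_nonneg (by omega) (by omega)
  have h11 : 0 ≤ (2 * a - 4 * s - t) * (23 * s - 10 * a) := mul_nonneg (by omega) (by omega)
  nlinarith

private theorem wn_g3 {s t a b r T : ℤ} (hs : 80 ≤ s) (ht : 2 ≤ t) (ht2 : 19 * t ≤ s)
    (ha : 10 * a ≤ 23 * s) (ha2 : 4 * s + t ≤ 2 * a) (hsum : a + b + r = 4 * s + t) (hr0 : 0 ≤ r) (hrb : r ≤ b)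
    (hB : (a + b - 3) * T ≤ 2 * (4 * s + t) * (a - 2 * s) - 4 * b * r + 12 * s - 6)
    (hb : 11 * s ≤ 10 * b) : T + 2 ≤ s + t := by
  by_contra hcon
  push Not at hcon
  have h1 : (a + b - 3) * (s + t - 1) ≤ (a + b - 3) * T :=
    mul_le_mul_of_nonneg_left (by omega) (by omega)
  have hr : r = 4 * s + t - a - b := by omega
  subst hr
  have h2 : 0 ≤ (10 * b - 11 * s) * (4 * s + t - a - b) := mul_nonneg (by omega) hr0
  have h3 : 0 ≤ (23 * s - 10 * a) * s := mul_nonneg (by omega) (by omega)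
  have h3' : 0 ≤ (23 * s - 10 * a) * t := mul_nonneg (by omega) (by omega)
  have h4 : 0 ≤ (s - 80) * s := mul_nonneg (by omega) (by omega)
  have h5 : 0 ≤ (s - 19 * t) * s := mul_nonneg (by omega) (by omega)
  have h6 : 0 ≤ (4 * s + t - a - b) * (23 * s - 10 * a) := mul_nonneg (by omega) (by omega)
  have h7 : 0 ≤ (4 * s + t - a - b) * s := mul_nonneg (by omega) (by omega)
  have h8 : 0 ≤ (t - 2) * s := mul_nonneg (by omega) (by omega)
  have h9 : 0 ≤ (4 * s + t - a - b) * t := mul_nonneg (by omega) (by omega)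
  nlinarith

/-- `r > b`, `2 a ≥ n`. -/
private theorem wn_a2 {s t a b r T : ℤ} (hs : 80 ≤ s) (ht : 2 ≤ t) (ht2 : 19 * t ≤ s)
    (ha : 10 * a ≤ 23 * s) (hsum : a + b + r = 4 * s + t) (hb0 : 0 ≤ b) (ha3 : 3 * s ≤ 2 * a) (hrb : b ≤ r)
    (hT : 0 ≤ T) (hB : (a + b - 3) * T ≤ 2 * (4 * s + t) * (a - 2 * s) - 2 * (b + r) * r + 12 * s - 6) :
    False := by
  have h1 : 0 ≤ (a + b - 3) * T := mul_nonneg (by omega) hT
  have h2 : (b + r) * (b + r) ≤ 2 * (b + r) * r := by nlinarith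
  have hr : b + r = 4 * s + t - a := by omega
  rw [hr] at h2
  have h3 : 0 ≤ (23 * s - 10 * a) * (23 * s - 10 * a) := mul_self_nonneg _
  have h3' : 0 ≤ (23 * s - 10 * a) * s := mul_nonneg (by omega) (by omega)
  have h4 : 0 ≤ (s - 80) * s := mul_nonneg (by omega) (by omega)
  have h5 : 0 ≤ (t - 2) * s := mul_nonneg (by omega) (by omega)
  have h6 : 0 ≤ (23 * s - 10 * a) * t := mul_nonneg (by omega) (by omega)
  nlinarith

/-- `2 a < n`, `r ≤ b`: `r` is small. -/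
private theorem wn_b0 {s t a b r T : ℤ} (hs : 80 ≤ s) (ht : 2 ≤ t) (ht2 : 19 * t ≤ s) (hba : b ≤ a)
    (ha2 : 2 * a ≤ 4 * s + t) (hsum : a + b + r = 4 * s + t) (hr0 : 0 ≤ r) (hrb : r ≤ b)
    (hT : 0 ≤ T)
    (hB : (a + b - 3) * T ≤ 2 * (a * a + b * b + r * r) - 4 * s * (4 * s + t) + 12 * s - 6) :
    (a + b - 3) * T ≤ (4 * s + t) * t + 12 * s - 6 ∧ 57 * r ≤ 77 * t + 228 := by
  have h1 : 0 ≤ (a + b - 3) * T := mul_nonneg (by omega) hT
  have h2 : 0 ≤ (r - (4 * s + t - 2 * a)) * (r + (4 * s + t - 2 * a)) := mul_nonneg (by omega) (by omega)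
  have h3 : 0 ≤ (b - r) * r := mul_nonneg (by omega) hr0
  have h4 : 2 * (a * a + b * b + r * r) =
      (4 * s + t) * (4 * s + t) + (4 * s + t - 2 * a) * (4 * s + t - 2 * a) - 4 * b * r := by
    have : b = 4 * s + t - a - r := by omega
    subst this
    ring
  have h5 : 3 * (b * r) ≤ (4 * s + t) * t + 12 * s - 6 := by nlinarith
  have h6 : 0 ≤ b * r := mul_nonneg (by omega) hr0
  refine ⟨by nlinarith, ?_⟩
  have h7 : 0 ≤ (b - s) * r := mul_nonneg (by omega) hr0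
  have h8 : 0 ≤ (s - 19 * t) * t := mul_nonneg (by omega) (by omega)
  by_contra hcon
  push Not at hcon
  have h9 : (77 * t + 229) * s ≤ 57 * r * s := mul_le_mul_of_nonneg_right (by omega) (by omega)
  nlinarith

private theorem wn_b1 {s t a b r T : ℤ} (hs : 80 ≤ s) (ht : 2 ≤ t) (ht2 : 19 * t ≤ s) (hba : b ≤ a)
    (ha2 : 2 * a ≤ 4 * s + t) (hsum : a + b + r = 4 * s + t) (hr0 : 0 ≤ r) (hrb : r ≤ b)
    (hT : 0 ≤ T)
    (hB : (a + b - 3) * T ≤ 2 * (a * a + b * b + r * r) - 4 * s * (4 * s + t) + 12 * s - 6) :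
    2 * r + T + 4 ≤ 2 * s ∧ 2 * (s + t + 4) + T ≤ 2 * b ∧ T + 2 ≤ s + t := by
  obtain ⟨h1, h2⟩ := wn_b0 hs ht ht2 hba ha2 hsum hr0 hrb hT hB
  -- `T ≤ 2 t + 8`
  have h3 : T ≤ 2 * t + 8 := by
    by_contra hcon
    push Not at hcon
    have h4 : (a + b - 3) * (2 * t + 9) ≤ (a + b - 3) * T :=
      mul_le_mul_of_nonneg_left (by omega) (by omega)
    have h5 : a + b - 3 = 4 * s + t - r - 3 := by omega
    have h6 : 19 * (a + b - 3) ≥ 60 * s := by omega
    have h7 : 60 * s * (2 * t + 9) ≤ 19 * (a + b - 3) * (2 * t + 9) :=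
      mul_le_mul_of_nonneg_right h6 (by omega)
    have h8 : 0 ≤ (s - 19 * t) * t := mul_nonneg (by omega) (by omega)
    nlinarith
  refine ⟨by omega, by omega, by omega⟩

/-- `2 a < n`, `r > b`: impossible. -/
private theorem wn_b2 {s t a b r T : ℤ} (hs : 80 ≤ s) (ht : 2 ≤ t) (ht2 : 19 * t ≤ s)
    (ha2 : 2 * a ≤ 4 * s + t) (hsum : a + b + r = 4 * s + t) (hb0 : 0 ≤ b) (ha3 : 3 * s ≤ 2 * a) (hrb : b ≤ r)
    (hT : 0 ≤ T)
    (hB : (a + b - 3) * T ≤ 2 * (a * a + b * b + r * b) - 4 * s * (4 * s + t) + 12 * s - 6) : False := by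
  have h1 : 0 ≤ (a + b - 3) * T := mul_nonneg (by omega) hT
  have h2 : 0 ≤ (b + r) * (r - b) := mul_nonneg (by omega) (by omega)
  have h3 : 2 * (b * b + r * b) = (b + r) * (b + r) - (b + r) * (r - b) := by ring
  have h4 : b + r = 4 * s + t - a := by omega
  rw [h4] at h3 h2
  have h5 : 0 ≤ (2 * a - 3 * s) * (4 * s + t - 2 * a) := mul_nonneg (by omega) (by omega)
  have h6 : 0 ≤ (s - 19 * t) * s := mul_nonneg (by omega) (by omega)
  have h7 : 0 ≤ (s - 80) * s := mul_nonneg (by omega) (by omega)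
  have h8 : 0 ≤ (s - 19 * t) * t := mul_nonneg (by omega) (by omega)
  have h9 : 0 ≤ (4 * s + t - 2 * a) * s := mul_nonneg (by omega) (by omega)
  nlinarith

private theorem hvy_le3 (m : ℕ) : hvy m ≤ 3 := by
  unfold hvy
  split_ifs <;> omega

/-- `Q ≤ a n`. -/
private theorem q_le {a b r Q n : ℤ} (hb : b ≤ a) (hb0 : 0 ≤ b) (hr0 : 0 ≤ r) (hn : a + b + r = n)
    (hQ : Q ≤ a * a + b * b + r * min r b) : Q ≤ a * n := by
  have h1 : r * min r b ≤ r * a := mul_le_mul_of_nonneg_left ((min_le_right _ _).trans hb) hr0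
  have h2 : b * b ≤ b * a := mul_le_mul_of_nonneg_left hb hb0
  nlinarith

theorem n_w0 {m s a b r Q : ℕ} (hr : R2 m s) (hb : b ≤ a) (hn : a + b + r + 1 = m + s)
    (hQ : Q ≤ a * a + b * b + r * min r b)
    (hB : 0 ≤ 2 * (((m : ℤ) + s - 1) * ((m : ℤ) - s - 1) + ((m : ℤ) + s - 1 - a) * max (2 * (a : ℤ) - (m + s - 1)) 0 -
      (((m : ℤ) + s - 1) ^ 2 - Q)) + hvy m * (4 * s - 2)) : 3 * s ≤ 2 * a := by
  by_contra hcon
  push Not at hcon
  obtain ⟨h1, h2, h3, h4⟩ := hr.facts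
  have h5 : max (2 * (a : ℤ) - (m + s - 1)) 0 = 0 := max_eq_right (by omega)
  rw [h5, mul_zero, add_zero] at hB
  have h6 : (Q : ℤ) ≤ a * ((m : ℤ) + s - 1) := by
    refine q_le (b := b) (r := r) (by omega) (by omega) (by omega) (by omega) ?_
    exact_mod_cast hQ
  have h7 : (hvy m : ℤ) ≤ 3 := by exact_mod_cast hvy_le3 m
  have h8 : (hvy m : ℤ) * (4 * s - 2) ≤ 3 * (4 * s - 2) := mul_le_mul_of_nonneg_right h7 (by omega)
  have h9 : 0 ≤ (3 * (s : ℤ) - 1 - 2 * a) * ((m : ℤ) + s - 1) := mul_nonneg (by omega) (by omega)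
  have h10 : 0 ≤ ((m : ℤ) + s - 1 - 4 * s) * s := mul_nonneg (by omega) (by omega)
  nlinarith

/-- the case `s ≥ 80`. -/
private theorem n_w80 {m s a b r Q hv : ℤ} {T : ℤ} (hs : 80 ≤ s) (hm1 : 3 * s + 3 ≤ m) (hm2 : 19 * m ≤ 58 * s + 19)
    (ha : 10 * a ≤ 23 * s) (hb : b ≤ a) (hb0 : 0 ≤ b) (hr0 : 0 ≤ r) (hn : a + b + r + 1 = m + s)
    (hQ : Q ≤ a * a + b * b + r * min r b) (hT : 0 ≤ T) (h0 : 3 * s ≤ 2 * a) (hv3 : hv ≤ 3)
    (hB : (a + b - hv) * T ≤
      2 * ((m + s - 1) * (m - s - 1) + (m + s - 1 - a) * max (2 * a - (m + s - 1)) 0 -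
        ((m + s - 1) ^ 2 - Q)) + hv * (4 * s - 2)) :
    2 * r + T + 4 ≤ 2 * s ∧ 2 * (m - 2 * s + 3) + T ≤ 2 * b ∧ T + 2 * s + 3 ≤ m := by
  obtain ⟨t, ht⟩ : ∃ t, m = 3 * s + 1 + t := ⟨m - 3 * s - 1, by ring⟩
  subst ht
  have e1 : (a + b - 3) * T ≤ (a + b - hv) * T := mul_le_mul_of_nonneg_right (by omega) hT
  have e2 : hv * (4 * s - 2) ≤ 3 * (4 * s - 2) := mul_le_mul_of_nonneg_right hv3 (by omega)
  have hsum : a + b + r = 4 * s + t := by omega
  have ht2 : 2 ≤ t := by omega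
  have ht19 : 19 * t ≤ s := by omega
  rcases le_total (4 * s + t) (2 * a) with hc | hc
  · have e3 : max (2 * a - (3 * s + 1 + t + s - 1)) 0 = 2 * a - (4 * s + t) := by
      rw [max_eq_left (by omega)]
      ring
    rw [e3] at hB
    rcases le_total r b with hrb | hrb
    · rw [min_eq_left hrb] at hQ
      have hB' : (a + b - 3) * T ≤ 2 * (4 * s + t) * (a - 2 * s) - 4 * b * r + 12 * s - 6 := by
        have e4 : b = 4 * s + t - a - r := by omega
        subst e4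
        nlinarith
      have h1 := wn_a1 hs ht2 ht19 ha hc hsum hr0 hrb hT hB'
      have h2 := wn_g1 hs ht2 ht19 ha hc hsum hr0 hrb hB' h1
      have h3 := wn_g2 hs ht2 ht19 ha hc hsum hr0 hrb hT hB' h1
      have h4 := wn_g3 hs ht2 ht19 ha hc hsum hr0 hrb hB' h1
      exact ⟨h2, by omega, by omega⟩
    · rw [min_eq_right hrb] at hQ
      exfalso
      refine wn_a2 hs ht2 ht19 ha hsum hb0 h0 hrb hT ?_
      have e4 : b = 4 * s + t - a - r := by omega
      subst e4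
      nlinarith
  · have e3 : max (2 * a - (3 * s + 1 + t + s - 1)) 0 = 0 := max_eq_right (by omega)
    rw [e3, mul_zero, add_zero] at hB
    rcases le_total r b with hrb | hrb
    · rw [min_eq_left hrb] at hQ
      obtain ⟨h1, h2, h3⟩ := wn_b1 hs ht2 ht19 hb hc hsum hr0 hrb hT (by nlinarith)
      exact ⟨h1, by omega, by omega⟩
    · rw [min_eq_right hrb] at hQ
      exfalso
      exact wn_b2 hs ht2 ht19 hc hsum hb0 h0 hrb hT (by nlinarith)


/-- the bound `BB2` with the largest `Q`. -/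
private def wbb (m s hv a b r : ℕ) : ℤ :=
  2 * (((m : ℤ) + s - 1) * ((m : ℤ) - s - 1) + ((m : ℤ) + s - 1 - a) * max (2 * (a : ℤ) - (m + s - 1)) 0 -
        (((m : ℤ) + s - 1) * ((m : ℤ) + s - 1) - (a * a + b * b + r * min r b))) + hv * (4 * s - 2)

/-- the finite check for one pair. -/
private def wchk (m s hv al : ℕ) : Bool :=
  (List.range (al + 1)).all fun a => (List.range (a + 1)).all fun b =>
    decide (2 * a < 3 * s) || decide (m + s < a + b + 1) ||
      (let r := m + s - 1 - a - b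
       let B := wbb m s hv a b r
       decide (B < 0) || (decide (hv < a + b) &&
        (let T := B / ((a : ℤ) + b - hv)
         decide (2 * (r : ℤ) + T + 4 ≤ 2 * s) && decide (2 * ((m : ℤ) - 2 * s + 3) + T ≤ 2 * b) &&
          decide (T + 2 * s + 3 ≤ m))))

private theorem wchk1 : wchk 117 38 2 87 = true := by decide +kernel
private theorem wchk2 : wchk 129 42 2 96 = true := by decide +kernel
private theorem wchk3 : wchk 141 46 2 105 = true := by decide +kernel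
private theorem wchk4 : wchk 142 46 1 106 = true := by decide +kernel
private theorem wchk5 : wchk 143 46 0 107 = true := by decide +kernel

private theorem n_w5 {m s hv al a b r Q : ℕ} {T : ℤ} (hc : wchk m s hv al = true) (ha : a ≤ al) (hb : b ≤ a)
    (hn : a + b + r + 1 = m + s) (hQ : Q ≤ a * a + b * b + r * min r b) (hT : 0 ≤ T) (h0 : 3 * s ≤ 2 * a)
    (hB : ((a : ℤ) + b - hv) * T ≤
      2 * (((m : ℤ) + s - 1) * ((m : ℤ) - s - 1) + ((m : ℤ) + s - 1 - a) * max (2 * (a : ℤ) - (m + s - 1)) 0 -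
        (((m : ℤ) + s - 1) ^ 2 - Q)) + hv * (4 * s - 2)) (hhv : hv ≤ a + b) :
    2 * (r : ℤ) + T + 4 ≤ 2 * s ∧ 2 * ((m : ℤ) - 2 * s + 3) + T ≤ 2 * b ∧ T + 2 * s + 3 ≤ m := by
  unfold wchk at hc
  rw [List.all_eq_true] at hc
  have h1 := hc a (List.mem_range.2 (by omega))
  rw [List.all_eq_true] at h1
  have h2 := h1 b (List.mem_range.2 (by omega))
  have hr : r = m + s - 1 - a - b := by omega
  have hBB : ((a : ℤ) + b - hv) * T ≤ wbb m s hv a b r := by
    have h3 : (Q : ℤ) ≤ a * a + b * b + r * min (r : ℤ) b := by exact_mod_cast hQ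
    unfold wbb
    push_cast
    nlinarith
  have hBB0 : 0 ≤ wbb m s hv a b r := le_trans (mul_nonneg (by omega) hT) hBB
  have e1 : decide (2 * a < 3 * s) = false := decide_eq_false (by omega)
  have e2 : decide (m + s < a + b + 1) = false := decide_eq_false (by omega)
  simp only [e1, e2, Bool.false_or] at h2
  rw [← hr] at h2
  have e3 : decide (wbb m s hv a b r < 0) = false := decide_eq_false (by omega)
  rw [e3, Bool.false_or] at h2
  simp only [Bool.and_eq_true, decide_eq_true_eq] at h2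
  obtain ⟨h4, ⟨h5, h6⟩, h7⟩ := h2
  have h8 : T ≤ wbb m s hv a b r / ((a : ℤ) + b - hv) := by
    rw [Int.le_ediv_iff_mul_le (by omega)]
    rw [mul_comm]
    exact hBB
  refine ⟨by omega, by omega, by omega⟩

theorem n_w {m s a b r Q : ℕ} {T : ℤ} (hr : R2 m s) (ha : a ≤ alp2 m s) (hb : b ≤ a) (hn : a + b + r + 1 = m + s)
    (hQ : Q ≤ a * a + b * b + r * min r b) (hT : 0 ≤ T) (h0 : 3 * s ≤ 2 * a)
    (hB : ((a : ℤ) + b - hvy m) * T ≤
      2 * (((m : ℤ) + s - 1) * ((m : ℤ) - s - 1) + ((m : ℤ) + s - 1 - a) * max (2 * (a : ℤ) - (m + s - 1)) 0 -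
        (((m : ℤ) + s - 1) ^ 2 - Q)) + hvy m * (4 * s - 2)) :
    2 * (r : ℤ) + T + 4 ≤ 2 * s ∧ 2 * ((m : ℤ) - 2 * s + 3) + T ≤ 2 * b ∧ T + 2 * s + 3 ≤ m ∧
      2 * alp2 m s + 2 * r < m + 1 + 4 * s := by
  have hv3 := hvy_le3 m
  have key : 2 * (r : ℤ) + T + 4 ≤ 2 * s ∧ 2 * ((m : ℤ) - 2 * s + 3) + T ≤ 2 * b ∧ T + 2 * s + 3 ≤ m := by
    rcases hr with ⟨h1, h2⟩ | ⟨h1, h2⟩ | ⟨h1, h2⟩ | ⟨h1, h2⟩ | ⟨h1, h2⟩ | ⟨h1, h2, h3⟩
    · have e1 : hvy m = 2 := by rw [h2]; decide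
      have e2 : alp2 m s = 87 := by rw [h1, h2]; decide
      rw [e1] at hB
      rw [e2] at ha
      subst h1
      subst h2
      exact n_w5 wchk1 ha hb hn hQ hT h0 hB (by omega)
    · have e1 : hvy m = 2 := by rw [h2]; decide
      have e2 : alp2 m s = 96 := by rw [h1, h2]; decide
      rw [e1] at hB
      rw [e2] at ha
      subst h1
      subst h2
      exact n_w5 wchk2 ha hb hn hQ hT h0 hB (by omega)
    · have e1 : hvy m = 2 := by rw [h2]; decide
      have e2 : alp2 m s = 105 := by rw [h1, h2]; decide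
      rw [e1] at hB
      rw [e2] at ha
      subst h1
      subst h2
      exact n_w5 wchk3 ha hb hn hQ hT h0 hB (by omega)
    · have e1 : hvy m = 1 := by rw [h2]; decide
      have e2 : alp2 m s = 106 := by rw [h1, h2]; decide
      rw [e1] at hB
      rw [e2] at ha
      subst h1
      subst h2
      exact n_w5 wchk4 ha hb hn hQ hT h0 hB (by omega)
    · have e1 : hvy m = 0 := by rw [h2]; decide
      have e2 : alp2 m s = 107 := by rw [h1, h2]; decide
      rw [e1] at hB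
      rw [e2] at ha
      subst h1
      subst h2
      exact n_w5 wchk5 ha hb hn hQ hT h0 hB (by omega)
    · have e2 : alp2 m s = 23 * s / 10 := by
        unfold alp2
        rw [if_neg (by omega), if_neg (by omega)]
      rw [e2] at ha
      refine n_w80 (m := m) (s := s) (a := a) (b := b) (r := r) (Q := Q) (hv := hvy m) (by omega) (by omega)
        (by omega) (by omega) (by omega) (by omega) (by omega) (by omega) ?_ hT (by omega) (by omega) hB
      exact_mod_cast hQ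
  refine ⟨key.1, key.2.1, key.2.2, ?_⟩
  have h1 := key.1
  have h2 : 2 * alp2 m s < m + 5 + 2 * s := by
    rcases hr with ⟨h1, h2⟩ | ⟨h1, h2⟩ | ⟨h1, h2⟩ | ⟨h1, h2⟩ | ⟨h1, h2⟩ | ⟨h1, h2, h3⟩
    · rw [h1, h2]; decide
    · rw [h1, h2]; decide
    · rw [h1, h2]; decide
    · rw [h1, h2]; decide
    · rw [h1, h2]; decide
    · unfold alp2
      rw [if_neg (by omega), if_neg (by omega)]
      omega
  omega

end H
end ZS44129
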