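import Pool.Agent.Work.MP_44129c_co.H.W7
import Pool.Agent.Work.MP_44129c_co.H.WN

/-!
# MP_44129c_co/H, W8 (size M): the choice of the pair

PROOF.  `f u` = a colour with a class of maximal size at `u`, `g u ≠ f u` a colour with maximal size among the others (`ZMod m` has at least two elements); `n = m + s - 1`.  `tt_sum` gives `u`.  `a = |cl c u (f u)|`, `b = |cl c u (g u)|`, `r = n - a - b` (`a + b ≤ n`, disjoint classes).
`QQ c u ≤ a² + b² + r min (r, b)`: the other classes have sizes `≤ b` and `≤ r`, and the sum of their sizes is `r`.  Let `Hv` = the `v ≠ u` with `m < 2 Df` and not `Lp` (at most `hvy m`).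
For `v ≠ u`: `TT ≥ 0` if `Lp` (`tt_lp`) or `2 Df ≤ m` (`TT ≥ 2 (m - s - 1) - m ≥ 0`); `TT ≥ 2 (m - s - 1) - 2 (m + s - 2) = - (4 s - 2)` always (`Df ≤ |XX| = m + s - 2`, `pw ≥ 0`).  Let `M` = the `v ≠ u` with `c u v ∈ {f u, g u}` (`a + b` elements).
`∑_{v ∈ M \ Hv} TT ≤ ∑_{v ≠ u} TT + (4 s - 2) hvy m ≤ BB2` where `BB2` is the right side of `n_w` with `Q = QQ c u`.  So `BB2 ≥ 0`, `n_w0`: `3 s ≤ 2 a`, `M \ Hv` has at least `a + b - hvy m ≥ 1` elements.  Let `v ∈ M \ Hv` with `TT` minimal, `T = TT ≥ 0`: `(a + b - hvy m) T ≤ BB2`.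
`n_w` gives the inequalities; `T + 2 s + 3 ≤ m` gives `2 Df = 2 (m - s - 1) + pw + pw - T ≥ m + 1`, so `v` is `Lp` (not in `Hv`).  The fields of `WP`: `d1`: `pw ≥ 0`; `d2`: `tt_cl`; `cv`: `hcl`; `n3`: from `2 A + 2 r < m + 1 + 4 s ≤ 2 Df + 4 s`.
-/

set_option autoImplicit false

namespace ZS44129
namespace H

open Finset E N

variable {V : Type} [Fintype V] [DecidableEq V] {m : ℕ}

private theorem pw_nn (c : V → V → ZMod m) (f : V → ZMod m) (u v : V) : 0 ≤ pw c f u v := by
  unfold pw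
  split_ifs
  · exact le_rfl
  · exact le_max_right _ _

private theorem df_le {c : V → V → ZMod m} {s : ℕ} (h : Fintype.card V = m + s) {u v : V}
    (huv : u ≠ v) : Df c u v + 2 ≤ m + s := by
  have h1 : Df c u v ≤ (XX u v).card := Finset.card_filter_le _ _
  have h2 : (XX u v).card + 2 = Fintype.card V := by
    have h3 : ((univ : Finset V).erase u).card = Fintype.card V - 1 := by
      rw [Finset.card_erase_of_mem (Finset.mem_univ _), Finset.card_univ]
    have h4 : (XX u v).card = ((univ : Finset V).erase u).card - 1 := by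
      unfold XX
      exact Finset.card_erase_of_mem (Finset.mem_erase.2 ⟨huv.symm, Finset.mem_univ _⟩)
    have h5 : 2 ≤ Fintype.card V := by
      have : ({u, v} : Finset V).card ≤ Fintype.card V := Finset.card_le_univ _
      rwa [Finset.card_pair huv] at this
    omega
  omega

private theorem sum_cl [NeZero m] (c : V → V → ZMod m) (u : V) :
    ∑ e : ZMod m, (cl c u e).card + 1 = Fintype.card V := by
  have h1 : ((univ : Finset V).erase u).card = ∑ e : ZMod m, (cl c u e).card := by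
    unfold cl
    exact Finset.card_eq_sum_card_fiberwise fun x _ => Finset.mem_univ _
  have h2 : ((univ : Finset V).erase u).card + 1 = Fintype.card V := by
    rw [Finset.card_erase_add_one (Finset.mem_univ _), Finset.card_univ]
  omega

private theorem qq_le [NeZero m] {c : V → V → ZMod m} {u : V} {p q : ZMod m} (hpq : p ≠ q)
    {a b r : ℕ} (ha : (cl c u p).card = a) (hb : (cl c u q).card = b)
    (hr : a + b + r + 1 = Fintype.card V)
    (hq : ∀ e, e ≠ p → (cl c u e).card ≤ b) : QQ c u ≤ a * a + b * b + r * min r b := by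
  have h1 := sum_cl c u
  have hp1 : p ∈ (univ : Finset (ZMod m)) := Finset.mem_univ _
  have hq1 : q ∈ (univ : Finset (ZMod m)).erase p := Finset.mem_erase.2 ⟨hpq.symm, Finset.mem_univ _⟩
  have h2 : ∑ e : ZMod m, (cl c u e).card =
      a + (b + ∑ e ∈ ((univ : Finset (ZMod m)).erase p).erase q, (cl c u e).card) := by
    rw [← Finset.add_sum_erase _ _ hp1, ← Finset.add_sum_erase _ _ hq1, ha, hb]
  have h3 : ∑ e ∈ ((univ : Finset (ZMod m)).erase p).erase q, (cl c u e).card = r := by omega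
  have h4 : QQ c u = a ^ 2 + (b ^ 2 +
      ∑ e ∈ ((univ : Finset (ZMod m)).erase p).erase q, (cl c u e).card ^ 2) := by
    unfold QQ
    rw [← Finset.add_sum_erase _ _ hp1, ← Finset.add_sum_erase _ _ hq1, ha, hb]
  have h5 : ∑ e ∈ ((univ : Finset (ZMod m)).erase p).erase q, (cl c u e).card ^ 2 ≤
      ∑ e ∈ ((univ : Finset (ZMod m)).erase p).erase q, (cl c u e).card * min r b := by
    refine Finset.sum_le_sum fun e he => ?_
    rw [sq]
    refine Nat.mul_le_mul_left _ (le_min ?_ ?_)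
    · rw [← h3]
      exact Finset.single_le_sum (f := fun e => (cl c u e).card) (fun _ _ => Nat.zero_le _) he
    · exact hq e (Finset.ne_of_mem_erase (Finset.mem_of_mem_erase he))
  rw [← Finset.sum_mul, h3] at h5
  rw [h4, sq, sq]
  omega

open Classical in
theorem ex_pair [NeZero m] {c : V → V → ZMod m} {s : ℕ} (h : HS c s)
    (hcl : ∀ u r, (cl c u r).card ≤ alp2 m s)
    (hhv : ∀ u, ((univ.erase u).filter (fun v => m < 2 * Df c u v ∧ ¬ Lp c u v)).card ≤ hvy m) :
    ∃ (u v : V) (p q : ZMod m) (a b r : ℕ) (T : ℤ), WP c s u v p q a b r (alp2 m s) T ∧ Lp c u v := by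
  obtain ⟨s1, s2, s3, s4⟩ := h.rng.facts
  have hcard := h.card
  have hm1 : Fact (1 < m) := ⟨by omega⟩
  have hne : Nonempty V := Fintype.card_pos_iff.1 (by omega)
  have hf' : ∀ u : V, ∃ p : ZMod m, ∀ e, (cl c u e).card ≤ (cl c u p).card := by
    intro u
    obtain ⟨p, -, hp⟩ := Finset.exists_max_image (univ : Finset (ZMod m))
      (fun e => (cl c u e).card) ⟨0, Finset.mem_univ _⟩
    exact ⟨p, fun e => hp e (Finset.mem_univ _)⟩
  choose f hf using hf'
  have hg' : ∀ u : V, ∃ q : ZMod m, q ≠ f u ∧ ∀ e, e ≠ f u → (cl c u e).card ≤ (cl c u q).card := by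
    intro u
    have h1 : ((univ : Finset (ZMod m)).erase (f u)).Nonempty := by
      obtain ⟨y, hy⟩ := exists_ne (f u)
      exact ⟨y, Finset.mem_erase.2 ⟨hy, Finset.mem_univ _⟩⟩
    obtain ⟨q, hq, hq'⟩ := Finset.exists_max_image _ (fun e => (cl c u e).card) h1
    exact ⟨q, Finset.ne_of_mem_erase hq, fun e he =>
      hq' e (Finset.mem_erase.2 ⟨he, Finset.mem_univ _⟩)⟩
  choose g hg1 hg2 using hg'
  obtain ⟨u, hu⟩ := tt_sum h.sym s f
  obtain ⟨a, ha⟩ : ∃ a, (cl c u (f u)).card = a := ⟨_, rfl⟩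
  obtain ⟨b, hb⟩ : ∃ b, (cl c u (g u)).card = b := ⟨_, rfl⟩
  have hba : b ≤ a := by
    rw [← ha, ← hb]
    exact hf u _
  have hdis : Disjoint (cl c u (f u)) (cl c u (g u)) := by
    rw [Finset.disjoint_left]
    intro x hx hx'
    unfold cl at hx hx'
    rw [Finset.mem_filter] at hx hx'
    exact hg1 u (hx'.2.symm.trans hx.2)
  have hMs : cl c u (f u) ∪ cl c u (g u) ⊆ (univ : Finset V).erase u :=
    Finset.union_subset (Finset.filter_subset _ _) (Finset.filter_subset _ _)
  have hMc : (cl c u (f u) ∪ cl c u (g u)).card = a + b := by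
    rw [Finset.card_union_of_disjoint hdis, ha, hb]
  have hVu : ((univ : Finset V).erase u).card + 1 = m + s := by
    rw [Finset.card_erase_add_one (Finset.mem_univ _), Finset.card_univ, hcard]
  have hab : a + b + 1 ≤ m + s := by
    have := Finset.card_le_card hMs
    omega
  obtain ⟨r, hr⟩ : ∃ r, a + b + r + 1 = m + s := ⟨m + s - 1 - a - b, by omega⟩
  have hQ : QQ c u ≤ a * a + b * b + r * min r b :=
    qq_le (hg1 u).symm ha hb (by rw [hcard]; exact hr) fun e he => hb ▸ hg2 u e he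
  set Hv := (univ.erase u).filter (fun v => m < 2 * Df c u v ∧ ¬ Lp c u v) with hHv
  have hHc : Hv.card ≤ hvy m := hhv u
  have hHs : Hv ⊆ (univ : Finset V).erase u := Finset.filter_subset _ _
  set M' := (cl c u (f u) ∪ cl c u (g u)) \ Hv with hM'
  have hM'c : a + b ≤ M'.card + hvy m := by
    have h1 : (cl c u (f u) ∪ cl c u (g u)).card ≤ M'.card + Hv.card := by
      rw [hM']
      have := Finset.le_card_sdiff Hv (cl c u (f u) ∪ cl c u (g u))
      omega
    omega
  have htt0 : ∀ v ∈ (univ : Finset V).erase u, v ∉ Hv → 0 ≤ TT c s f u v := by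
    intro v hv hv'
    by_cases h1 : m < 2 * Df c u v
    · have h2 : Lp c u v := by
        by_contra h3
        exact hv' (Finset.mem_filter.2 ⟨hv, h1, h3⟩)
      exact tt_lp h f hf h2
    · have h2 := pw_nn c f u v
      have h3 := pw_nn c f v u
      unfold TT
      have h4 : (2 * Df c u v : ℤ) ≤ m := by exact_mod_cast not_lt.1 h1
      have h5 : (3 * s + 3 : ℤ) ≤ m := by exact_mod_cast s2
      have h6 : (38 : ℤ) ≤ s := by exact_mod_cast s1
      linarith
  have htt1 : ∀ v ∈ (univ : Finset V).erase u, -(4 * (s : ℤ) - 2) ≤ TT c s f u v := by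
    intro v hv
    have h1 : u ≠ v := (Finset.ne_of_mem_erase hv).symm
    have h2 := pw_nn c f u v
    have h3 := pw_nn c f v u
    have h4 : (Df c u v + 2 : ℤ) ≤ m + s := by exact_mod_cast df_le (c := c) hcard h1
    unfold TT
    linarith
  have hM's : M' ⊆ (univ : Finset V).erase u \ Hv :=
    Finset.sdiff_subset_sdiff hMs subset_rfl
  have hM'0 : ∀ v ∈ M', 0 ≤ TT c s f u v := by
    intro v hv
    have := Finset.mem_sdiff.1 (hM's hv)
    exact htt0 v this.1 this.2
  have hsum : ∑ v ∈ M', TT c s f u v ≤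
      ∑ v ∈ (univ : Finset V).erase u, TT c s f u v + hvy m * (4 * (s : ℤ) - 2) := by
    have h1 : ∑ v ∈ (univ : Finset V).erase u \ Hv, TT c s f u v + ∑ v ∈ Hv, TT c s f u v =
        ∑ v ∈ (univ : Finset V).erase u, TT c s f u v := Finset.sum_sdiff hHs
    have h2 : ∑ v ∈ M', TT c s f u v ≤ ∑ v ∈ (univ : Finset V).erase u \ Hv, TT c s f u v := by
      refine Finset.sum_le_sum_of_subset_of_nonneg hM's fun v hv _ => ?_
      have := Finset.mem_sdiff.1 hv
      exact htt0 v this.1 this.2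
    have h3 : Hv.card • (-(4 * (s : ℤ) - 2)) ≤ ∑ v ∈ Hv, TT c s f u v :=
      Finset.card_nsmul_le_sum _ _ _ fun v hv => htt1 v (hHs hv)
    rw [nsmul_eq_mul] at h3
    have h4 : (Hv.card : ℤ) ≤ hvy m := by exact_mod_cast hHc
    have h5 : (0 : ℤ) ≤ 4 * (s : ℤ) - 2 := by
      have : (38 : ℤ) ≤ s := by exact_mod_cast s1
      linarith
    have h6 := mul_le_mul_of_nonneg_right h4 h5
    linarith
  have hcZ : (Fintype.card V : ℤ) = m + s := by exact_mod_cast hcard
  rw [ha, hcZ] at hu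
  have hBB : ∑ v ∈ M', TT c s f u v ≤
      2 * (((m : ℤ) + s - 1) * ((m : ℤ) - s - 1) + ((m : ℤ) + s - 1 - a) * max (2 * (a : ℤ) - (m + s - 1)) 0 -
        (((m : ℤ) + s - 1) ^ 2 - QQ c u)) + hvy m * (4 * s - 2) := by
    refine hsum.trans ?_
    linarith
  have h3s := n_w0 h.rng hba hr hQ ((Finset.sum_nonneg hM'0).trans hBB)
  have hhvy : hvy m ≤ 3 := by
    unfold hvy
    split_ifs <;> omega
  have hM'ne : M'.Nonempty := by
    rw [← Finset.card_pos]
    omega
  obtain ⟨v, hv, hvmin⟩ := Finset.exists_min_image M' (fun v => TT c s f u v) hM'ne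
  have hT0 : 0 ≤ TT c s f u v := hM'0 v hv
  have hcT : (M'.card : ℤ) * TT c s f u v ≤ ∑ v ∈ M', TT c s f u v := by
    have := Finset.card_nsmul_le_sum M' (fun v => TT c s f u v) (TT c s f u v) fun w hw => hvmin w hw
    rwa [nsmul_eq_mul] at this
  have hB2 : ((a : ℤ) + b - hvy m) * TT c s f u v ≤
      2 * (((m : ℤ) + s - 1) * ((m : ℤ) - s - 1) + ((m : ℤ) + s - 1 - a) * max (2 * (a : ℤ) - (m + s - 1)) 0 -
        (((m : ℤ) + s - 1) ^ 2 - QQ c u)) + hvy m * (4 * s - 2) := by
    refine le_trans ?_ (hcT.trans hBB)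
    refine mul_le_mul_of_nonneg_right ?_ hT0
    have : ((a + b : ℕ) : ℤ) ≤ ((M'.card + hvy m : ℕ) : ℤ) := by exact_mod_cast hM'c
    push_cast at this
    linarith
  have haa : a ≤ alp2 m s := ha ▸ hcl u (f u)
  obtain ⟨k1, k2, k3, k4⟩ := n_w h.rng haa hba hr hQ hT0 h3s hB2
  have hTdef : TT c s f u v = 2 * ((m : ℤ) - s - 1) + pw c f u v + pw c f v u - 2 * Df c u v := rfl
  have p1 := pw_nn c f u v
  have p2 := pw_nn c f v u
  have hdf : (m : ℤ) < 2 * Df c u v := by linarith
  have hdfN : m < 2 * Df c u v := by exact_mod_cast hdf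
  have hvM := Finset.mem_sdiff.1 hv
  have hvu : v ∈ (univ : Finset V).erase u := hMs hvM.1
  have hLp : Lp c u v := by
    by_contra h3
    exact hvM.2 (Finset.mem_filter.2 ⟨hvu, hdfN, h3⟩)
  refine ⟨u, v, f u, g u, a, b, r, TT c s f u v, ?_, hLp⟩
  refine ⟨h.sym, h.zsf, hcard, by omega, by omega, s3, (Finset.ne_of_mem_erase hvu).symm,
    (hg1 u).symm, ?_, ha, hb, hr, hba, hT0, hdfN, ?_, ?_, fun e => hcl v e, k1, k2, ?_⟩
  · rcases Finset.mem_union.1 hvM.1 with h1 | h1
    · exact Or.inl (Finset.mem_filter.1 h1).2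
    · exact Or.inr (Finset.mem_filter.1 h1).2
  · linarith
  · intro e he
    exact tt_cl h f hf he
  · have h7 : (2 * (alp2 m s) + 2 * r : ℤ) < 2 * Df c u v + 4 * s := by
      have : (2 * (alp2 m s : ℤ)) + 2 * r < m + 1 + 4 * s := by exact_mod_cast k4
      linarith
    have h8 : 2 * alp2 m s + 2 * r < 2 * Df c u v + 4 * s := by exact_mod_cast h7
    omega

end H
end ZS44129
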