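import Pool.Agent.Work.MP_44129c_co.H.W6
import Pool.Agent.Work.MP_44129c_co.H.W8

/-!
# MP_44129c_co/H, IW: interface of block W (proved from W6, W8)
-/

set_option autoImplicit false

namespace ZS44129
namespace H

open Finset E N

variable {V : Type} [Fintype V] [DecidableEq V] {m : ℕ}

open Classical in
theorem ex_star [NeZero m] {c : V → V → ZMod m} {s : ℕ} (h : HS c s)
    (hcl : ∀ u r, (cl c u r).card ≤ alp2 m s)
    (hhv : ∀ u, ((univ.erase u).filter (fun v => m < 2 * Df c u v ∧ ¬ Lp c u v)).card ≤ hvy m) :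
    ∃ u, ESt c s u := by
  obtain ⟨u, v, p, q, a, b, r, T, h1, h2⟩ := ex_pair h hcl hhv
  rcases lp_est h1 h2 with h3 | h3
  · exact ⟨u, h3⟩
  · exact ⟨v, h3⟩

end H
end ZS44129
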