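import Pool.Agent.Work.MP_44129c_co.H.ID
import Pool.Agent.Work.MP_44129c_co.H.IC
import Pool.Agent.Work.MP_44129c_co.H.IC2
import Pool.Agent.Work.MP_44129c_co.H.IS
import Pool.Agent.Work.MP_44129c_co.H.IW
import Pool.Agent.Work.MP_44129c_co.H.IF

/-!
# MP_44129c_co/H, Main: the case `t ≥ 2` (proved from the interfaces)
-/

set_option autoImplicit false

namespace ZS44129
namespace H

open Finset E N

variable {V : Type} [Fintype V] [DecidableEq V] {m : ℕ}

theorem t2_mf [NeZero m] {c : V → V → ZMod m} {s : ℕ} (h : HS c s) :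
    ∃ b : V → V → Bool, (∀ x y, b x y = b y x) ∧ MF m b := by
  have h2 : ∀ z, U2 c z := fun z => u2_of h (all_good3 h z)
  have h3 : ∀ z, U3 c z := fun z => u3_of h (all_good3 h z)
  have hcl : ∀ u r, (cl c u r).card ≤ alp s := by
    intro u r
    obtain ⟨W, hW, hW2⟩ := all_good3 h u
    obtain ⟨v, hv⟩ := card_pos.1 (by omega : 0 < W.card)
    exact class_le h (hW2 v hv) r
  have hcl2 : ∀ u r, (cl c u r).card ≤ alp2 m s := by
    intro u r
    obtain ⟨W, hW, hW2⟩ := all_good3 h u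
    obtain ⟨v, hv⟩ := card_pos.1 (by omega : 0 < W.card)
    exact class_le2 h h2 h3 (hW2 v hv) r
  obtain ⟨u, hu⟩ := ex_star h hcl2 (heavy_le h h2 h3)
  exact est_mf h h3 hcl hu

end H
end ZS44129
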