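import Pool.Agent.Work.MP_44129c_co.H.CD

/-!
# MP_44129c_co/H, C3 (size M): selection of small values; the double stars

PROOFS.  `small_sel`: induction on `k` (add to `S` an element of `Z \ S` with the least `|f|`; `Finset.exists_min_image`).
`out_small`: `h = |H|`, `j = H.index`, `h j = m` (`AddSubgroup.card_mul_index`).  For an integer `x` with `(x : ZMod m) ∈ H`, `(x : ZMod m) ≠ 0`: `j ∣ x` (`h • (x : ZMod m) = 0`, so `m ∣ h x`, `j ∣ x`), `x ≠ 0`: `|x| ≥ j`.  All summands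
`|f b| - 1 ≥ 0` (`f b ≠ 0`).
 (1) `h ≤ 3`, `i ∈ S`, `(f i : ZMod m) ∈ H`: `|f i| ≥ j`, `3 j ≥ m`; the `≥ e - s` elements of `Z \ S` have `|f| ≥ |f i| ≥ j`; so `(e - s + 1)(j - 1) ≤ m - s - 1`; `e - s ≥ 6` (`2 e ≥ m + 9 - s ≥ 2 s + 12`), `7 (j - 1) ≤ m - s - 1`,
  `3 j ≥ m`: contradiction.
 (2) `h ≥ 4`: `4 j ≤ m`, so `j < s` (`1000 m ≤ 3087 s + 1000`).  Let `out` = the number of `i ∈ S` with `(f i : ZMod m) ∉ H`, suppose `out + 2 ≤ j`.  `S ∩ H` (the others) has `s - 2 - out ≥ s - j ≥ 1` elements, all with `|f| ≥ j`, and the `≥ e - s`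
  elements of `Z \ S` have `|f| ≥ j`, too (compare with one element of `S ∩ H`).  So `(e - 2 - out)(j - 1) ≤ ∑_Z (|f| - 1) ≤ m - s - 1`, `(e - j)(j - 1) ≤ m - s - 1`.  But for `3 ≤ j`, `4 j ≤ m`: `4 (j - 3)(m/4 - j) ≥ 0` gives
  `(e - j)(j - 1) ≥ 2 e - 6 ≥ m - s + 3` (integers: `(j - 3)(m - 4 j) ≥ 0`, `4 (e - j)(j - 1) = 4 j (e + 1) - 4 j² - 4 e ≥ 4 j (e + 1) - 4 e + 3 m - (m + 12) j = j (4 e - 8 - m) + 3 m - 4 e ≥ 3 (4 e - 8 - m) + 3 m - 4 e = 8 e - 24`,
  using `4 e ≥ 8 + m`).  Contradiction.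
`av_c`: copy the proof of `av` (W/Av): double star with centre edge `w y`; only `zsf`, `card` are used.
-/

set_option autoImplicit false

namespace ZS44129
namespace H

open Finset E N

theorem small_sel {ι : Type} [DecidableEq ι] (Z : Finset ι) (f : ι → ℤ) (k : ℕ) (hk : k ≤ Z.card) :
    ∃ S ⊆ Z, S.card = k ∧ ∀ i ∈ S, ∀ j ∈ Z \ S, |f i| ≤ |f j| := by
  induction k with
  | zero => exact ⟨∅, Finset.empty_subset _, rfl, fun i hi => absurd hi (Finset.notMem_empty i)⟩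
  | succ k ih =>
    obtain ⟨S, hS, hc, hmin⟩ := ih (by omega)
    have hne : (Z \ S).Nonempty := by
      rw [← Finset.card_pos, Finset.card_sdiff_of_subset hS]
      omega
    obtain ⟨z, hz, hzm⟩ := Finset.exists_min_image (Z \ S) (fun i => |f i|) hne
    refine ⟨insert z S, Finset.insert_subset (Finset.mem_sdiff.1 hz).1 hS, ?_, ?_⟩
    · rw [Finset.card_insert_of_notMem (Finset.mem_sdiff.1 hz).2, hc]
    · intro i hi j hj
      obtain ⟨hj1, hj2⟩ := Finset.mem_sdiff.1 hj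
      have hj3 : j ∈ Z \ S := Finset.mem_sdiff.2 ⟨hj1, fun h => hj2 (Finset.mem_insert_of_mem h)⟩
      rcases Finset.mem_insert.1 hi with rfl | hi
      · exact hzm j hj3
      · exact hmin i hi j hj3

open Classical in
theorem out_small {ι : Type} {m s e : ℕ} [NeZero m] (Z S : Finset ι) (f : ι → ℤ) (hS : S ⊆ Z)
    (hSc : S.card + 2 = s) (hmin : ∀ i ∈ S, ∀ j ∈ Z \ S, |f i| ≤ |f j|) (hZ : e ≤ Z.card + 2)
    (hf : ∀ b ∈ Z, (f b : ZMod m) ≠ 0) (hsum : ∑ b ∈ Z, (|f b| - 1) + s + 1 ≤ (m : ℤ)) (hs : 38 ≤ s)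
    (h1 : 3 * s + 3 ≤ m) (h2 : 1000 * m ≤ 3087 * s + 1000) (he : m + 9 ≤ 2 * e + s)
    (H : AddSubgroup (ZMod m)) (hH : 2 ≤ Nat.card H) (hj : 3 ≤ H.index) :
    (Nat.card H ≤ 3 → ∀ i ∈ S, (f i : ZMod m) ∉ H) ∧
      (4 ≤ Nat.card H → H.index ≤ (S.filter (fun i => (f i : ZMod m) ∉ H)).card + 1) := by
  have hm : Nat.card H * H.index = m := by
    rw [AddSubgroup.card_mul_index, Nat.card_zmod]
  have key : ∀ x : ℤ, (x : ZMod m) ∈ H → (x : ZMod m) ≠ 0 → (H.index : ℤ) ≤ |x| := by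
    intro x hx hx0
    have h3 : Nat.card H • (⟨(x : ZMod m), hx⟩ : H) = 0 := card_nsmul_eq_zero'
    have h4 : Nat.card H • (x : ZMod m) = 0 := congrArg Subtype.val h3
    have h5 : (((Nat.card H : ℤ) * x : ℤ) : ZMod m) = 0 := by
      rw [nsmul_eq_mul] at h4
      push_cast
      exact h4
    rw [ZMod.intCast_zmod_eq_zero_iff_dvd] at h5
    have h6 : ((Nat.card H : ℤ) * (H.index : ℤ)) ∣ (Nat.card H : ℤ) * x := by
      have h7 : ((Nat.card H : ℤ) * (H.index : ℤ)) = (m : ℤ) := by exact_mod_cast hm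
      rw [h7]
      exact h5
    have h8 : (H.index : ℤ) ∣ x := Int.dvd_of_mul_dvd_mul_left (by omega) h6
    have hx1 : x ≠ 0 := by
      rintro rfl
      exact hx0 (by simp)
    have h9 : (H.index : ℤ) ∣ |x| := (dvd_abs _ _).2 h8
    exact Int.le_of_dvd (abs_pos.2 hx1) h9
  have hpos : ∀ b ∈ Z, 0 ≤ |f b| - 1 := by
    intro b hb
    have h3 : f b ≠ 0 := by
      intro h4
      exact hf b hb (by rw [h4]; simp)
    have := abs_pos.2 h3
    omega
  have hcs := Finset.card_sdiff_add_card_eq_card hS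
  have gen : ∀ W ⊆ Z, (∀ i ∈ W, (H.index : ℤ) ≤ |f i|) →
      (W.card : ℤ) * ((H.index : ℤ) - 1) + s + 1 ≤ m := by
    intro W hW hWj
    have h3 : (W.card : ℤ) * ((H.index : ℤ) - 1) ≤ ∑ b ∈ W, (|f b| - 1) := by
      rw [← nsmul_eq_mul]
      exact Finset.card_nsmul_le_sum _ _ _ fun b hb => by
        have := hWj b hb
        omega
    have h4 : ∑ b ∈ W, (|f b| - 1) ≤ ∑ b ∈ Z, (|f b| - 1) :=
      Finset.sum_le_sum_of_subset_of_nonneg hW fun b hb _ => hpos b hb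
    linarith
  refine ⟨?_, ?_⟩
  · intro hc3 i hi hiH
    have hij := key (f i) hiH (hf i (hS hi))
    have h3 := gen (insert i (Z \ S)) (Finset.insert_subset (hS hi) Finset.sdiff_subset) (by
      intro b hb
      rcases Finset.mem_insert.1 hb with rfl | hb
      · exact hij
      · exact hij.trans (hmin i hi b hb))
    rw [Finset.card_insert_of_notMem (fun h => (Finset.mem_sdiff.1 h).2 hi)] at h3
    have h4 : 6 ≤ (Z \ S).card := by omega
    have h5 : (m : ℤ) ≤ 3 * (H.index : ℤ) := by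
      have h6 : m ≤ 3 * H.index := hm.ge.trans (Nat.mul_le_mul_right _ hc3)
      exact_mod_cast h6
    have h4' : (6 : ℤ) ≤ ((Z \ S).card : ℤ) := by exact_mod_cast h4
    have h7 : (7 : ℤ) * ((H.index : ℤ) - 1) ≤ (((Z \ S).card + 1 : ℕ) : ℤ) * ((H.index : ℤ) - 1) :=
      mul_le_mul_of_nonneg_right (by push_cast; omega) (by omega)
    omega
  · intro hc4
    by_contra hcon
    push Not at hcon
    have h4j : 4 * H.index ≤ m := (Nat.mul_le_mul_right _ hc4).trans hm.le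
    have hfc := Finset.card_filter_add_card_filter_not (s := S) (fun i => (f i : ZMod m) ∉ H)
    have hin : 1 ≤ (S.filter (fun i => ¬ ((f i : ZMod m) ∉ H))).card := by omega
    obtain ⟨i0, hi0⟩ := Finset.card_pos.1 hin
    obtain ⟨hi0S, hi0H⟩ := Finset.mem_filter.1 hi0
    have hi0j := key (f i0) (not_not.1 hi0H) (hf i0 (hS hi0S))
    have hdis : Disjoint (S.filter (fun i => ¬ ((f i : ZMod m) ∉ H))) (Z \ S) := by
      rw [Finset.disjoint_left]
      intro b h1 h2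
      exact (Finset.mem_sdiff.1 h2).2 (Finset.mem_filter.1 h1).1
    have h3 := gen (S.filter (fun i => ¬ ((f i : ZMod m) ∉ H)) ∪ (Z \ S)) (by
      intro b hb
      rcases Finset.mem_union.1 hb with hb | hb
      · exact hS (Finset.mem_filter.1 hb).1
      · exact (Finset.mem_sdiff.1 hb).1) (by
      intro b hb
      rcases Finset.mem_union.1 hb with hb | hb
      · obtain ⟨h5, h6⟩ := Finset.mem_filter.1 hb
        exact key (f b) (not_not.1 h6) (hf b (hS h5))
      · exact hi0j.trans (hmin i0 hi0S b hb))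
    rw [Finset.card_union_of_disjoint hdis] at h3
    have h5 : e ≤ (S.filter (fun i => ¬ ((f i : ZMod m) ∉ H))).card + (Z \ S).card + H.index := by omega
    have h5' : (e : ℤ) - H.index ≤
        (((S.filter (fun i => ¬ ((f i : ZMod m) ∉ H))).card + (Z \ S).card : ℕ) : ℤ) := by
      have : (e : ℤ) ≤ (((S.filter (fun i => ¬ ((f i : ZMod m) ∉ H))).card + (Z \ S).card : ℕ) : ℤ) + H.index := by
        exact_mod_cast h5
      linarith
    have hj' : (3 : ℤ) ≤ H.index := by exact_mod_cast hj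
    have h6 : ((e : ℤ) - H.index) * ((H.index : ℤ) - 1) + s + 1 ≤ m := by
      have := mul_le_mul_of_nonneg_right h5' (show (0 : ℤ) ≤ (H.index : ℤ) - 1 by omega)
      linarith
    have h4j' : 4 * (H.index : ℤ) ≤ m := by exact_mod_cast h4j
    have he' : (m : ℤ) + 9 ≤ 2 * e + s := by exact_mod_cast he
    have h1' : 3 * (s : ℤ) + 3 ≤ m := by exact_mod_cast h1
    have hs' : (38 : ℤ) ≤ s := by exact_mod_cast hs
    generalize (H.index : ℤ) = j at *
    have h7 : 0 ≤ (j - 3) * ((m : ℤ) - 4 * j) := mul_nonneg (by omega) (by omega)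
    have h8 : 0 ≤ (j - 3) * (4 * (e : ℤ) - 8 - m) := mul_nonneg (by omega) (by omega)
    nlinarith

variable {V : Type} [Fintype V] [DecidableEq V] {m : ℕ}

theorem av_c [NeZero m] {c : V → V → ZMod m} {s : ℕ} (h : HS c s) {w y : V} (hy : y ∈ W.BB c w) (J : Finset V)
    (hJ : J ⊆ (W.BB c w).erase y) (hJc : J.card + 1 ≤ s) (P : Finset V) (hP : P ⊆ W.AA c w)
    (hPc : P.card + (W.BB c w).card ≤ m + J.card) :
    c w y + ∑ b ∈ (W.BB c w).erase y \ J, c w b + ∑ x ∈ P, c y x ≠ 0 := by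
  have hc := card_AB (c := c) h.card w
  have c1 := Finset.card_sdiff_add_card_eq_card hJ
  have c2 := Finset.card_erase_add_one hy
  have c3 := Finset.card_sdiff_add_card_eq_card hP
  have hsz : m + J.card - (W.BB c w).card - P.card ≤ (W.AA c w \ P).card := by omega
  obtain ⟨A', hA', hA'c⟩ := Finset.exists_subset_card_eq hsz
  have hA1 : ∀ x ∈ A', x ∈ W.AA c w ∧ x ∉ P := fun x hx => Finset.mem_sdiff.1 (hA' hx)
  have hB1 : ∀ x ∈ (W.BB c w).erase y \ J, x ≠ y ∧ x ∈ W.BB c w := fun x hx =>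
    Finset.mem_erase.1 (Finset.mem_sdiff.1 hx).1
  have hAB : ∀ x, x ∈ W.AA c w → x ∈ W.BB c w → False := fun x h1 h2 =>
    (mem_BB.1 h2).2 (mem_AA.1 h1).2
  have hyw : w ≠ y := (mem_BB.1 hy).1.symm
  have hdis : Disjoint ((W.BB c w).erase y \ J) A' := by
    rw [Finset.disjoint_left]
    intro x h1 h2
    exact hAB x (hA1 x h2).1 (hB1 x h1).2
  have hz := h.zsf w y hyw (((W.BB c w).erase y \ J) ∪ A') P (by
    rw [Finset.disjoint_left]
    intro x h1 h2
    rcases Finset.mem_union.1 h1 with h3 | h3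
    · exact hAB x (hP h2) (hB1 x h3).2
    · exact (hA1 x h3).2 h2) (by
    intro h1
    rcases Finset.mem_union.1 h1 with h3 | h3
    · exact (mem_BB.1 (hB1 w h3).2).1 rfl
    · exact (mem_AA.1 (hA1 w h3).1).1 rfl) (by
    intro h1
    rcases Finset.mem_union.1 h1 with h3 | h3
    · exact (hB1 y h3).1 rfl
    · exact hAB y (hA1 y h3).1 hy) (fun h1 => (mem_AA.1 (hP h1)).1 rfl)
    (fun h1 => hAB y (hP h1) hy) (by
    rw [Finset.card_union_of_disjoint hdis, hA'c]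
    omega)
  rw [Finset.sum_union hdis, Finset.sum_eq_zero (s := A') (fun x hx => (mem_AA.1 (hA1 x hx).1).2),
    add_zero] at hz
  exact hz

end H
end ZS44129
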