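import Pool.Agent.Work.MP_44129c_co.H.Defs
import Pool.Agent.Work.MP_44129c_co.G.C1K

/-!
# MP_44129c_co/H, D5 (size S-M): the counting of the roots with the trivial subgroup

PROOF of `nb_ge2`.  `x ∈ G.cls c u ⊥ r` (`c u x - r = 0`).  If `nb c u x ⊥ r + 1 ≤ s` then (`Nat.card ⊥ = 1`) `G.c1_exc` with `K = ⊥` (`2 * 1 ≤ m + 1`) gives
`P1 < ⊥`, which is impossible (`not_lt_bot`).
PROOF of `beta_sum2'`.  As `beta_sum'` in H/D3: sum `nb_ge2` over `x ∈ cl c u r` and exchange the sums; `z ∈ XX u x`, `c u z - r ∉ ⊥`,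
`c x z - r ∉ ⊥` means `z ≠ u`, `c u z ≠ r` and (`h.sym`) `c z x ≠ r`; `z ≠ x` is automatic (`c u x = r`).
-/

set_option autoImplicit false

namespace ZS44129
namespace H

open Finset E N

variable {V : Type} [Fintype V] [DecidableEq V] {m : ℕ}

theorem nb_ge2 [NeZero m] {c : V → V → ZMod m} {s : ℕ} (h : HS c s) (u : V) (r : ZMod m) {x : V} (hx : x ∈ cl c u r) :
    s ≤ G.nb c u x ⊥ r := by
  by_contra hcon
  have hf := h.rng.facts
  have hK : Nat.card (⊥ : AddSubgroup (ZMod m)) = 1 := AddSubgroup.card_bot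
  have hxc : x ∈ G.cls c u ⊥ r := by
    obtain ⟨h1, h2⟩ := mem_cl.1 hx
    refine G.mem_cls.2 ⟨h1, ?_⟩
    rw [h2, sub_self]
    exact AddSubgroup.zero_mem _
  obtain ⟨P1, r1, h1, -⟩ := G.c1_exc c h.zsf h.card ⊥ (by omega) u r hxc (by omega)
  exact not_lt_bot h1

theorem beta_sum2' [NeZero m] {c : V → V → ZMod m} {s : ℕ} (h : HS c s) (u : V) (r : ZMod m) :
    (s + 1) * (cl c u r).card ≤ (cl c u r).card +
      ∑ z ∈ (univ.erase u).filter (fun z => c u z ≠ r), ((cl c u r).filter (fun x => c z x ≠ r)).card := by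
  classical
  have h1 : ∀ x ∈ cl c u r, s ≤
      (((univ.erase u).filter (fun z => c u z ≠ r)).filter (fun z => c z x ≠ r)).card := by
    intro x hx
    refine le_trans (nb_ge2 h u r hx) ?_
    unfold G.nb
    apply Finset.card_le_card
    intro z hz
    rw [Finset.mem_filter, G.mem_XX] at hz
    obtain ⟨⟨hzu, hzx⟩, hz1, hz2⟩ := hz
    rw [AddSubgroup.mem_bot, sub_eq_zero] at hz1 hz2
    rw [Finset.mem_filter, Finset.mem_filter, Finset.mem_erase]
    refine ⟨⟨⟨hzu, Finset.mem_univ z⟩, hz1⟩, ?_⟩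
    rw [h.sym z x]
    exact hz2
  have h2 := Finset.sum_le_sum h1
  rw [Finset.sum_const, smul_eq_mul] at h2
  have h3 : ∑ x ∈ cl c u r, (((univ.erase u).filter (fun z => c u z ≠ r)).filter
        (fun z => c z x ≠ r)).card =
      ∑ z ∈ (univ.erase u).filter (fun z => c u z ≠ r),
        ((cl c u r).filter (fun x => c z x ≠ r)).card := by
    simp only [Finset.card_filter]
    exact Finset.sum_comm
  rw [h3, mul_comm] at h2
  rw [add_mul, one_mul, add_comm]
  exact Nat.add_le_add_left h2 _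

end H
end ZS44129
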