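import Pool.Agent.Work.MP_44129c_co.H.D4
import Pool.Agent.Work.MP_44129c_co.H.D5

/-!
# MP_44129c_co/H, ID: interface of block D (bounds for the number of different colours of a lifted pair)
-/

set_option autoImplicit false

namespace ZS44129
namespace H

open Finset E N

variable {V : Type} [Fintype V] [DecidableEq V] {m : ℕ}

/-- D1. -/
theorem lp_cl [NeZero m] {c : V → V → ZMod m} {s : ℕ} (h : HS c s) {u v : V} (hl : Lp c u v) :
    Df c u v + s + 1 ≤ m ∨ ∃ a, a ≠ c u v ∧ Df c u v + 2 * s ≤ (cl c u a).card + (cl c v a).card :=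
  lp_cl' h hl

/-- D2. -/
theorem lp_beta [NeZero m] {c : V → V → ZMod m} {s : ℕ} (h : HS c s) {u v : V} (hl : Lp c u v) (r : ZMod m) :
    (((cl c u r).erase v).filter (fun x => c v x ≠ r)).card + s + 1 ≤ m :=
  lp_beta' h hl r

/-- the counting of the roots: `z` with colour outside `r + K6`, weighted by the number of `x` in the class of `r`
with `c z x` outside `r + K6`. -/
theorem beta_sum [NeZero m] {c : V → V → ZMod m} {s : ℕ} (h : HS c s) (u : V) (r : ZMod m)
    (h6 : 6 ≤ (cl c u r).card) :
    (s + 1) * (cl c u r).card ≤ kap m * (cl c u r).card +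
      ∑ z ∈ (univ.erase u).filter (fun z => 6 * c u z ≠ 6 * r), ((cl c u r).filter (fun x => 6 * c z x ≠ 6 * r)).card :=
  beta_sum' h u r h6

/-- the counting of the roots with the trivial subgroup. -/
theorem beta_sum2 [NeZero m] {c : V → V → ZMod m} {s : ℕ} (h : HS c s) (u : V) (r : ZMod m) :
    (s + 1) * (cl c u r).card ≤ (cl c u r).card +
      ∑ z ∈ (univ.erase u).filter (fun z => c u z ≠ r), ((cl c u r).filter (fun x => c z x ≠ r)).card :=
  beta_sum2' h u r

/-- R0. -/
theorem class_le0 [NeZero m] {c : V → V → ZMod m} {s : ℕ} (h : HS c s) (u : V) (r : ZMod m)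
    (h6 : 6 ≤ (cl c u r).card) :
    (s + 1) * (cl c u r).card ≤ (kap m + hvy m) * (cl c u r).card +
      (m + s - 1 - (cl c u r).card) * (m - s - 1) :=
  class_le0' h u r h6

end H
end ZS44129
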