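import Mathlib
import Pool.Agent.Work.MP_44129c_co.H.ID
import Pool.Agent.Work.MP_44129c_co.W.Root

/-!
# MP_44129c_co/H, CD: definitions of block C (FIXED, do not change)

Block C: a vertex `w` with a lifted pair has all colour classes `≤ alp s` (IC), and `≤ alp2 m s` if no two colours at a vertex differ by an element of order 2, 3 (IC2).  After an affine change of the colouring the class has the colour `0`:
`W.AA c w` = the class, `W.BB c w` = the other vertices (`≠ w`), `a = |AA|`, `e = |BB|`, `a + e + 1 = m + s`.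
`W.dlt c w y` (W/Root): `c w b` on `BB`, `- c y x` on `AA`.
-/

set_option autoImplicit false

namespace ZS44129
namespace H

open Finset E N

variable {V : Type} [Fintype V] [DecidableEq V] {m : ℕ}

/-- the bound of the colour classes in the second round. -/
def alp2 (m s : ℕ) : ℕ := if m = 142 then 106 else if m = 143 then 107 else 23 * s / 10

/-- the elements of `AA` whose colour at `y` is outside `K6`. -/
def XK (c : V → V → ZMod m) (w y : V) : Finset V := (W.AA c w).filter (fun x => 6 * c y x ≠ 0)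

/-- the elements of `AA` whose colour at `y` is not killed by `2` or `3`. -/
def XP (c : V → V → ZMod m) (w y : V) : Finset V := (W.AA c w).filter (fun x => 2 * c y x ≠ 0 ∧ 3 * c y x ≠ 0)

/-- the numerical data for a class of size `a`, with `e` other neighbours (`kp` = the loss in the counting of the roots). -/
structure NCK (m s kp a e mu kk : ℕ) : Prop where
  ae : a + e + 1 = m + s
  n1 : m + 2 ≤ a + s
  n2 : m + 9 ≤ 2 * e + s
  n3 : m + 1 ≤ mu + 2 * s
  n4 : mu + e ≤ m
  n5 : 2 * m + s ≤ 3 * e + 2 * mu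
  n6 : 2 * m + 1 ≤ e + 2 * s + 2 * mu
  n7 : kp * a + e * (mu - 1) + (kk - 1 + (if 2 ∣ m then 1 else 0)) * (a + 1 - mu) < (s + 1) * a
  n8 : kk * (m - s - 1 - mu) ≤ (s - 2) * (kk - 1)
  n9 : a * e < s * (m + s - 1)
  n10 : 3 * a + 3 ≤ m + 6 * s
  n11 : 2 ≤ kk

/-- first round: `kp = kap m`. -/
abbrev NC (m s a e mu kk : ℕ) : Prop := NCK m s (kap m) a e mu kk

/-- a lifted root: `y ∈ BB`; `c w b = n b * g` on `BB \ {y}`, at least `s - 1` values are `≥ 1`, and the excess is `≤ m - s - 1 - mu`. -/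
structure RD (c : V → V → ZMod m) (s mu : ℕ) (w y : V) (g : (ZMod m)ˣ) (n : V → ℤ) : Prop where
  yB : y ∈ W.BB c w
  hn : ∀ b ∈ (W.BB c w).erase y, c w b = (n b : ZMod m) * g
  pos : s ≤ (((W.BB c w).erase y).filter (fun b => 1 ≤ n b)).card + 1
  exc : ∑ b ∈ ((W.BB c w).erase y).filter (fun b => 1 ≤ n b), (n b - 1) +
    ∑ b ∈ ((W.BB c w).erase y).filter (fun b => n b ≤ -1), (- n b) + mu + s + 1 ≤ m

theorem mem_AA {c : V → V → ZMod m} {w x : V} : x ∈ W.AA c w ↔ x ≠ w ∧ c w x = 0 := by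
  simp [W.AA]

theorem mem_BB {c : V → V → ZMod m} {w x : V} : x ∈ W.BB c w ↔ x ≠ w ∧ c w x ≠ 0 := by
  simp [W.BB]

theorem mem_XK {c : V → V → ZMod m} {w y x : V} : x ∈ XK c w y ↔ (x ≠ w ∧ c w x = 0) ∧ 6 * c y x ≠ 0 := by
  simp [XK, mem_AA]

theorem mem_XP {c : V → V → ZMod m} {w y x : V} :
    x ∈ XP c w y ↔ (x ≠ w ∧ c w x = 0) ∧ (2 * c y x ≠ 0 ∧ 3 * c y x ≠ 0) := by
  simp [XP, mem_AA]

theorem XP_sub {c : V → V → ZMod m} {w y : V} : XP c w y ⊆ W.AA c w := filter_subset _ _

theorem card_AB {c : V → V → ZMod m} {s : ℕ} (hV : Fintype.card V = m + s) (w : V) :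
    (W.AA c w).card + (W.BB c w).card + 1 = m + s := by
  have h1 := Finset.card_filter_add_card_filter_not (s := univ.erase w) (fun x => c w x = 0)
  have h2 : (univ.erase w).card + 1 = m + s := by
    rw [Finset.card_erase_add_one (Finset.mem_univ w), Finset.card_univ, hV]
  unfold W.AA W.BB
  simp only [ne_eq]
  omega

theorem hs_scale [NeZero m] {c : V → V → ZMod m} {s : ℕ} (h : HS c s) (g : (ZMod m)ˣ) (r : ZMod m) :
    HS (fun p q => (g : ZMod m) * (c p q - r)) s := by
  refine ⟨fun x y => by rw [h.sym x y], ?_, h.card, h.rng⟩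
  have h1 := zsf_affine c h.zsf g ((g : ZMod m) * r)
  have h2 : (fun p q => (g : ZMod m) * (c p q - r)) = fun p q => (g : ZMod m) * c p q - (g : ZMod m) * r := by
    funext p q
    rw [mul_sub]
  rw [h2]
  exact h1

theorem AA_scale {c : V → V → ZMod m} (g : (ZMod m)ˣ) (r : ZMod m) (w : V) :
    W.AA (fun p q => (g : ZMod m) * (c p q - r)) w = cl c w r := by
  ext x
  rw [mem_AA, mem_cl, Units.mul_right_eq_zero, sub_eq_zero]

end H
end ZS44129
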