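import Pool.Agent.Work.MP_44129c_co.H.CD

/-!
# MP_44129c_co/H, CN (size M-L): the numbers of block C (pure arithmetic)

`e = m + s - 1 - a`, `kk = 8` (`kk = 6` if `s = 38`), `mu` = the least natural number with `n3`, `n5`, `n6`:
`mu = max (m + 1 - 2 s) (max ⌈(2 m + s - 3 e) / 2⌉ ⌈(2 m + 1 - e - 2 s) / 2⌉)`, in `ℕ`: `max (m + 1 - 2 * s) (max ((2 * m + s + 1 - 3 * e) / 2) ((2 * m + 2 - e - 2 * s) / 2))`.
From `h0`: `(s + 1) a ≤ (kap + hvy) a + e (m - s - 1)`.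
FIVE CASES `s ≤ 46` (`R2`): `kap`, `hvy` are numbers, `h0` bounds `a`: `(s, m) = (38, 117)`: `90 ≤ a ≤ 107`; `(42, 129)`: `99 ≤ a ≤ 117`; `(46, 141)`: `108 ≤ a ≤ 128`; `(46, 142)`: `108 ≤ a ≤ 127`; `(46, 143)`: `108 ≤ a ≤ 127`
(`omega` after `norm_num [kap, hvy, alp]`), `interval_cases a`, then the given `mu`, `kk` (numerals) and `decide` / `norm_num` for each field (checked by machine).
`s ≥ 80` (checked by machine for `80 ≤ s ≤ 1200`): `kap m ≤ 6`, `hvy m ≤ 3`, `alp s = 7 s / 3`, so `3 a ≥ 7 s + 1`, `3 e ≤ 3 m - 4 s - 4`, `3 s + 3 ≤ m`, `19 m ≤ 58 s + 19`.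
 `n1`: `3 a + 3 s ≥ 10 s + 1 ≥ 3 m + 6`.  `n2`: `h0` gives `(s - 8)(m + s - 1) ≤ e (m - 9)` and `2 (s - 8)(m + s - 1) ≥ (m + 9 - s)(m - 9)` (nlinarith).  `n4`: `e + 2 ≤ 2 s`, `s + 2 ≤ e`.
 `n3`, `n5`, `n6`: definition of `mu`.  `n8`: `2 mu ≥ 2 m + 1 - e - 2 s` gives `8 (m - s - 1 - mu) ≤ 4 e - 12 ≤ 7 (s - 2)` as `4 e ≤ 7 s - 2` (`3 e ≤ 3 m - 4 s - 4`).
 `n9`: `a e < s (m + s - 1)`, `a = m + s - 1 - e`, `e ≤ m - (4 s + 4) / 3`: increasing in `e` (`2 e < m + s - 1`); at the end point `(7 s + 1)(3 m - 4 s - 4) < 9 s (m + s - 1)`.  `n10`: from `h0`: `(s - 8) a ≤ e (m - s - 1)`.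
 `n7`: with `kap = 6`, `kk - 1 + ev ≤ 8`: enough `6 a + e (mu - 1) + 8 (a + 1 - mu) < (s + 1) a`.  Three cases: `mu = m + 1 - 2 s`; `2 mu ≤ 2 m + s - 3 e + 1`; `2 mu ≤ 2 m + 2 - e - 2 s`.  Insert `mu` (the left side is
 increasing in `mu` as `e ≥ 8`), quadratic inequalities in `s, m, e` with `3 e ≤ 3 m - 4 s - 4`, `19 m ≤ 58 s + 19`, `s ≥ 80` (second case: minimum at `e ≈ 1.5 s`, value `≈ 0.6 s²`; third case: decreasing in `e` and `m`, at the end point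
 `e = m - (4 s + 4) / 3`, `m = (58 s + 19) / 19` a quadratic polynomial in `s` which is positive for `s ≥ 80`; smallest margin `1.8 s`).
You may split this file into private lemmas; any other choice of `mu`, `kk` is fine.
-/

set_option autoImplicit false

namespace ZS44129
namespace H

/-- the integer inequality behind `n7` for `s ≥ 80` -/
private theorem n7_aux {s m e mu : ℤ} (hs : 80 ≤ s) (h1 : 3 * s + 3 ≤ m) (h2 : 19 * m ≤ 58 * s + 19)
    (he : 3 * e ≤ 3 * m - 4 * s - 4) (he8 : s ≤ e)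
    (hmu : mu = m + 1 - 2 * s ∨ 2 * mu ≤ 2 * m + s + 1 - 3 * e ∨ 2 * mu ≤ 2 * m + 2 - e - 2 * s) :
    (e - 8) * (mu - 1) < (s - 13) * (m + s - 1 - e) := by
  rcases hmu with h | h | h
  · subst h
    nlinarith [mul_nonneg (show (0:ℤ) ≤ 3 * m - 4 * s - 4 - 3 * e by linarith)
      (show (0:ℤ) ≤ m - s - 13 by linarith), mul_nonneg (show (0:ℤ) ≤ 58 * s + 19 - 19 * m by linarith)
      (show (0:ℤ) ≤ m - 3 * s - 3 by linarith), mul_nonneg (show (0:ℤ) ≤ 58 * s + 19 - 19 * m by linarith)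
      (show (0:ℤ) ≤ s - 80 by linarith), mul_nonneg (show (0:ℤ) ≤ s - 80 by linarith)
      (show (0:ℤ) ≤ s - 80 by linarith)]
  · have h3 : (e - 8) * (2 * mu - 2) ≤ (e - 8) * (2 * m + s - 1 - 3 * e) :=
      mul_le_mul_of_nonneg_left (by linarith) (by linarith)
    nlinarith [sq_nonneg (6 * e - 3 * s - 2 * m + 3), mul_nonneg (show (0:ℤ) ≤ 58 * s + 19 - 19 * m by linarith)
      (show (0:ℤ) ≤ m - 3 * s - 3 by linarith), mul_nonneg (show (0:ℤ) ≤ 58 * s + 19 - 19 * m by linarith)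
      (show (0:ℤ) ≤ s - 80 by linarith), mul_nonneg (show (0:ℤ) ≤ s - 80 by linarith)
      (show (0:ℤ) ≤ s - 80 by linarith)]
  · have h3 : (e - 8) * (2 * mu - 2) ≤ (e - 8) * (2 * m - e - 2 * s) :=
      mul_le_mul_of_nonneg_left (by linarith) (by linarith)
    have h4 : 0 < 2 * (s - 13) * (m + s - 1 - e) - (e - 8) * (2 * m - 2 * s - e) := by
      have hu : 0 ≤ 3 * m - 4 * s - 4 - 3 * e := by linarith
      obtain ⟨u, hu'⟩ : ∃ u, u = 3 * m - 4 * s - 4 - 3 * e := ⟨_, rfl⟩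
      have hu0 : 0 ≤ u := by linarith
      have hb : 0 < 6 * (s - 13) * (7 * s + 1) - (3 * m - 4 * s - 28) * (3 * m - 2 * s + 4) := by
        have ha1 : 19 * (3 * m - 4 * s - 28) ≤ 98 * s - 475 := by linarith
        have ha2 : 19 * (3 * m - 2 * s + 4) ≤ 136 * s + 133 := by linarith
        have ha3 : 0 ≤ 19 * (3 * m - 4 * s - 28) := by linarith
        have ha4 : 0 ≤ 19 * (3 * m - 2 * s + 4) := by linarith
        have ha5 := mul_le_mul ha1 ha2 ha4 (by linarith)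
        nlinarith [mul_nonneg (show (0:ℤ) ≤ s - 80 by linarith) (show (0:ℤ) ≤ s - 80 by linarith)]
      have h9 : 9 * (2 * (s - 13) * (m + s - 1 - e) - (e - 8) * (2 * m - 2 * s - e)) =
          6 * (s - 13) * (7 * s + 1) - (3 * m - 4 * s - 28) * (3 * m - 2 * s + 4) + u * (8 * s - 46) + u ^ 2 := by
        subst hu'; ring
      have h10 : 0 ≤ u * (8 * s - 46) := mul_nonneg hu0 (by linarith)
      nlinarith [sq_nonneg u]
    nlinarith

private theorem n9_aux {s m e : ℤ} (hs : 80 ≤ s) (h2 : 19 * m ≤ 58 * s + 19)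
    (he : 3 * e ≤ 3 * m - 4 * s - 4) : (m + s - 1 - e) * e < s * (m + s - 1) := by
  have h3 : 0 ≤ (3 * m - 4 * s - 4 - 3 * e) * (7 * s + 1 - 3 * e) :=
    mul_nonneg (by linarith) (by linarith)
  have h4 : 12 * s * m + 3 * m < 37 * s ^ 2 + 23 * s + 4 := by
    nlinarith [mul_nonneg (show (0:ℤ) ≤ 58 * s + 19 - 19 * m by linarith) (show (0:ℤ) ≤ s by linarith)]
  nlinarith

private theorem main_big {m s a e : ℕ} (hs : 80 ≤ s) (h1 : 3 * s + 3 ≤ m) (h2 : 19 * m ≤ 58 * s + 19)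
    (ha : 7 * s + 1 ≤ 3 * a) (ha2 : a + 1 ≤ m) (hae : a + e + 1 = m + s)
    (h0 : (s + 1) * a ≤ (kap m + hvy m) * a + e * (m - s - 1)) :
    ∃ mu kk, NC m s a e mu kk := by
  have hk : kap m ≤ 6 := Nat.gcd_le_left _ (by norm_num)
  have hh : hvy m ≤ 3 := by unfold hvy; split_ifs <;> omega
  -- consequences of `h0`
  have h0' : (s + 1) * a ≤ 9 * a + e * (m - s - 1) := by
    have : (kap m + hvy m) * a ≤ 9 * a := Nat.mul_le_mul_right a (by omega)
    omega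
  obtain ⟨t, ht⟩ : ∃ t, m = s + 1 + t := ⟨m - s - 1, by omega⟩
  have ht' : m - s - 1 = t := by omega
  rw [ht'] at h0'
  have h0z : ((s : ℤ) - 8) * a ≤ e * (m - s - 1) := by
    have : (((s + 1) * a : ℕ) : ℤ) ≤ ((9 * a + e * t : ℕ) : ℤ) := by exact_mod_cast h0'
    push_cast at this
    have ht2 : (m : ℤ) - s - 1 = t := by omega
    rw [ht2]
    nlinarith
  have hae' : (a : ℤ) = m + s - 1 - e := by omega
  have hez : (3 : ℤ) * e ≤ 3 * m - 4 * s - 4 := by omega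
  have hes : s ≤ e := by omega
  have hsz : (80 : ℤ) ≤ s := by exact_mod_cast hs
  have h1z : (3 : ℤ) * s + 3 ≤ m := by exact_mod_cast h1
  have h2z : (19 : ℤ) * m ≤ 58 * s + 19 := by exact_mod_cast h2
  have hn2 : m + 9 ≤ 2 * e + s := by
    by_contra hcon
    push Not at hcon
    have hcz : (2 : ℤ) * e ≤ m + 8 - s := by omega
    rw [hae'] at h0z
    nlinarith [mul_le_mul_of_nonneg_right hcz (show (0:ℤ) ≤ m - 9 by linarith)]
  have hn10 : 3 * a + 3 ≤ m + 6 * s := by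
    by_contra hcon
    push Not at hcon
    have hcz : (m : ℤ) + 6 * s - 2 ≤ 3 * a := by omega
    have he3 : (e : ℤ) = m + s - 1 - a := by omega
    rw [he3] at h0z
    nlinarith [mul_le_mul_of_nonneg_right hcz (show (0:ℤ) ≤ m - 9 by linarith)]
  have hn9 : a * e < s * (m + s - 1) := by
    have := n9_aux hsz h2z hez
    rw [← hae'] at this
    zify [show 1 ≤ m + s by omega]
    exact this
  refine ⟨max (m + 1 - 2 * s) (max ((2 * m + s + 1 - 3 * e) / 2) ((2 * m + 2 - e - 2 * s) / 2)), 8, ?_⟩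
  obtain ⟨mu, hmu⟩ : ∃ mu, mu = max (m + 1 - 2 * s) (max ((2 * m + s + 1 - 3 * e) / 2) ((2 * m + 2 - e - 2 * s) / 2)) := ⟨_, rfl⟩
  rw [← hmu]
  have hmu1 : 1 ≤ mu := by omega
  have hmua : mu ≤ a + 1 := by omega
  refine ⟨hae, by omega, hn2, by omega, by omega, by omega, by omega, ?_, by omega, hn9, hn10, by norm_num⟩
  -- `n7`
  have h7 : ((e : ℤ) - 8) * ((mu : ℤ) - 1) < ((s : ℤ) - 13) * (m + s - 1 - e) := by
    refine n7_aux hsz h1z h2z hez (by omega) ?_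
    omega
  rw [← hae'] at h7
  have hev : (8 - 1 + (if 2 ∣ m then 1 else 0)) * (a + 1 - mu) ≤ 8 * (a + 1 - mu) :=
    Nat.mul_le_mul_right _ (by split_ifs <;> omega)
  have hka : kap m * a ≤ 6 * a := Nat.mul_le_mul_right a hk
  have hfin : 6 * a + e * (mu - 1) + 8 * (a + 1 - mu) < (s + 1) * a := by
    zify [hmu1, hmua]
    linarith
  omega

private def mu0 (m s e : ℕ) : ℕ :=
  max (m + 1 - 2 * s) (max ((2 * m + s + 1 - 3 * e) / 2) ((2 * m + 2 - e - 2 * s) / 2))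

private def P12 (m s a e mu kk : ℕ) : Prop :=
  a + e + 1 = m + s ∧ m + 2 ≤ a + s ∧ m + 9 ≤ 2 * e + s ∧ m + 1 ≤ mu + 2 * s ∧ mu + e ≤ m ∧
  2 * m + s ≤ 3 * e + 2 * mu ∧ 2 * m + 1 ≤ e + 2 * s + 2 * mu ∧
  Nat.gcd 6 m * a + e * (mu - 1) + (kk - 1 + (if 2 ∣ m then 1 else 0)) * (a + 1 - mu) < (s + 1) * a ∧
  kk * (m - s - 1 - mu) ≤ (s - 2) * (kk - 1) ∧ a * e < s * (m + s - 1) ∧ 3 * a + 3 ≤ m + 6 * s ∧ 2 ≤ kk

private instance (m s a e mu kk : ℕ) : Decidable (P12 m s a e mu kk) := by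
  unfold P12; infer_instance

private theorem nc_of {m s a e mu kk : ℕ} (h : P12 m s a e mu kk) : NC m s a e mu kk := by
  obtain ⟨h1, h2, h3, h4, h5, h6, h7, h8, h9, h10, h11, h12⟩ := h
  exact ⟨h1, h2, h3, h4, h5, h6, h7, h8, h9, h10, h11, h12⟩

private theorem small1 : ∀ a ∈ Finset.Icc 90 107, P12 117 38 a (154 - a) (mu0 117 38 (154 - a)) 6 := by
  decide +kernel

private theorem small2 : ∀ a ∈ Finset.Icc 99 117, P12 129 42 a (170 - a) (mu0 129 42 (170 - a)) 8 := by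
  decide +kernel

private theorem small3 : ∀ a ∈ Finset.Icc 108 128, P12 141 46 a (186 - a) (mu0 141 46 (186 - a)) 8 := by
  decide +kernel

private theorem small4 : ∀ a ∈ Finset.Icc 108 127, P12 142 46 a (187 - a) (mu0 142 46 (187 - a)) 8 := by
  decide +kernel

private theorem small5 : ∀ a ∈ Finset.Icc 108 127, P12 143 46 a (188 - a) (mu0 143 46 (188 - a)) 8 := by
  decide +kernel

theorem num_c {m s a : ℕ} (hr : R2 m s) (ha : alp s + 1 ≤ a) (ha2 : a + s + 1 ≤ m + s)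
    (h0 : (s + 1) * a ≤ (kap m + hvy m) * a + (m + s - 1 - a) * (m - s - 1)) :
    ∃ mu kk, NC m s a (m + s - 1 - a) mu kk := by
  rcases hr with ⟨rfl, rfl⟩ | ⟨rfl, rfl⟩ | ⟨rfl, rfl⟩ | ⟨rfl, rfl⟩ | ⟨rfl, rfl⟩ | ⟨h1, h2, h3⟩
  · have hk : kap 117 = 3 := by decide +kernel
    have hh : hvy 117 = 2 := by decide +kernel
    have hal : alp 38 = 89 := by decide +kernel
    rw [hal] at ha
    rw [hk, hh] at h0
    exact ⟨_, _, nc_of (small1 a (Finset.mem_Icc.mpr ⟨by omega, by omega⟩))⟩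
  · have hk : kap 129 = 3 := by decide +kernel
    have hh : hvy 129 = 2 := by decide +kernel
    have hal : alp 42 = 98 := by decide +kernel
    rw [hal] at ha
    rw [hk, hh] at h0
    exact ⟨_, _, nc_of (small2 a (Finset.mem_Icc.mpr ⟨by omega, by omega⟩))⟩
  · have hk : kap 141 = 3 := by decide +kernel
    have hh : hvy 141 = 2 := by decide +kernel
    have hal : alp 46 = 107 := by decide +kernel
    rw [hal] at ha
    rw [hk, hh] at h0
    exact ⟨_, _, nc_of (small3 a (Finset.mem_Icc.mpr ⟨by omega, by omega⟩))⟩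
  · have hk : kap 142 = 2 := by decide +kernel
    have hh : hvy 142 = 1 := by decide +kernel
    have hal : alp 46 = 107 := by decide +kernel
    rw [hal] at ha
    rw [hk, hh] at h0
    exact ⟨_, _, nc_of (small4 a (Finset.mem_Icc.mpr ⟨by omega, by omega⟩))⟩
  · have hk : kap 143 = 1 := by decide +kernel
    have hh : hvy 143 = 0 := by decide +kernel
    have hal : alp 46 = 107 := by decide +kernel
    rw [hal] at ha
    rw [hk, hh] at h0
    exact ⟨_, _, nc_of (small5 a (Finset.mem_Icc.mpr ⟨by omega, by omega⟩))⟩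
  · have hal : alp s = 7 * s / 3 := by
      unfold alp
      rw [if_neg (by omega)]
    rw [hal] at ha
    exact main_big h1 h2 h3 (by omega) (by omega) (by omega) h0

end H
end ZS44129
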