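import Pool.Agent.Work.MP_44129c_co.H.CD

/-!
# MP_44129c_co/H, CN2 (size M-L): the numbers of block C, second round (pure arithmetic, sister of CN)

`e = m + s - 1 - a`, `kk = 10` (`kk = 8` if `s ≤ 46`), `mu` = the least natural number with `n3`, `n5`, `n6`:
`mu = max (m + 1 - 2 * s) (max ((2 * m + s + 1 - 3 * e) / 2) ((2 * m + 2 - e - 2 * s) / 2))` (in `ℕ`).  From `h0`: `(s + 1) a ≤ (kap + hvy) a + e (m - s - 1)`.
FIVE CASES `s ≤ 46` (`R2`): `kap`, `hvy` are numbers, `h0` bounds `a`: `(s, m) = (38, 117)`: `88 ≤ a ≤ 107`; `(42, 129)`: `97 ≤ a ≤ 117`; `(46, 141)`: `106 ≤ a ≤ 128`; `(46, 142)`: `107 ≤ a ≤ 127`; `(46, 143)`: `108 ≤ a ≤ 127`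
(`omega` after `norm_num [kap, hvy, alp2]`), `interval_cases a`, then the given `mu`, `kk = 8` (numerals) and `decide` / `norm_num` for each field (checked by machine).
`s ≥ 80` (checked by machine for `80 ≤ s ≤ 1200`): `kap m ≤ 6`, `hvy m ≤ 3`, `alp2 m s = 23 s / 10` (`m ≠ 142, 143`), so `10 a ≥ 23 s + 1`, `10 e ≤ 10 m - 13 s - 11`, `3 s + 3 ≤ m`, `19 m ≤ 58 s + 19`.
 `n1`: `10 a + 10 s ≥ 33 s + 1 ≥ 10 m + 20`.  `n2`: `h0` gives `(s - 8)(m + s - 1) ≤ e (m - 9)` and `2 (s - 8)(m + s - 1) ≥ (m + 9 - s)(m - 9)` (nlinarith).  `n4`: `e + 2 ≤ 2 s`, `s + 2 ≤ e`.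
 `n3`, `n5`, `n6`: definition of `mu`.  `n8`: `2 mu ≥ 2 m + 1 - e - 2 s` gives `10 (m - s - 1 - mu) ≤ 5 e - 15 ≤ 9 (s - 2)` as `5 e ≤ 9 s - 3`.
 `n9`: `a e < s (m + s - 1)`, `a = m + s - 1 - e`: increasing in `e` (`2 e < m + s - 1`), at the end point `(23 s + 1)(10 m - 13 s - 11) < 100 s (m + s - 1)`.  `n10`: from `h0`: `(s - 8) a ≤ e (m - s - 1)`.
 `n7` (`kp = 1`, `kk - 1 + ev ≤ 10`): enough `a + e (mu - 1) + 10 (a + 1 - mu) < (s + 1) a`.  Three cases: `mu = m + 1 - 2 s`; `2 mu ≤ 2 m + s - 3 e + 1`; `2 mu ≤ 2 m + 2 - e - 2 s`.  Insert `mu` (the left side is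
 increasing in `mu` as `e ≥ 10`), quadratic inequalities in `s, m, e`.
You may split this file into private lemmas; any other choice of `mu`, `kk` is fine (`kk` between 9 and 17 works for `s ≥ 80`).
-/

set_option autoImplicit false

namespace ZS44129
namespace H

private theorem cn2_n2 {s m e : ℤ} (hs : 80 ≤ s) (h1 : 3 * s + 3 ≤ m) (h2 : 19 * m ≤ 58 * s + 19)
    (h0 : (s - 8) * (m + s - 1) ≤ e * (m - 9)) : m + 9 ≤ 2 * e + s := by
  by_contra hcon
  have h3 : 2 * e ≤ m + 8 - s := by omega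
  have h4 : 2 * e * (m - 9) ≤ (m + 8 - s) * (m - 9) :=
    mul_le_mul_of_nonneg_right h3 (by linarith)
  nlinarith [mul_nonneg (show 0 ≤ m - 3 * s - 3 by linarith) (show 0 ≤ 58 * s + 19 - 19 * m by linarith),
    mul_nonneg (show 0 ≤ s - 80 by linarith) (show 0 ≤ m - 3 * s - 3 by linarith),
    mul_nonneg (show 0 ≤ s - 80 by linarith) (show 0 ≤ 58 * s + 19 - 19 * m by linarith),
    mul_nonneg (show 0 ≤ s - 80 by linarith) (show 0 ≤ s - 80 by linarith)]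

private theorem cn2_se {s m e : ℤ} (hs : 80 ≤ s) (h1 : 3 * s + 3 ≤ m) (h2 : 19 * m ≤ 58 * s + 19)
    (h0 : (s - 8) * (m + s - 1) ≤ e * (m - 9)) : s ≤ e := by
  by_contra hcon
  have h3 : e ≤ s - 1 := by omega
  have h4 : e * (m - 9) ≤ (s - 1) * (m - 9) :=
    mul_le_mul_of_nonneg_right h3 (by linarith)
  nlinarith [mul_nonneg (show 0 ≤ s - 80 by linarith) (show 0 ≤ s - 80 by linarith)]

private theorem cn2_n10 {s m e : ℤ} (hs : 80 ≤ s) (h1 : 3 * s + 3 ≤ m) (h2 : 19 * m ≤ 58 * s + 19)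
    (h0 : (s - 8) * (m + s - 1) ≤ e * (m - 9)) : 2 * m ≤ 3 * s + 3 * e := by
  by_contra hcon
  have h3 : 3 * e ≤ 2 * m - 3 * s - 1 := by omega
  have h4 : 3 * e * (m - 9) ≤ (2 * m - 3 * s - 1) * (m - 9) :=
    mul_le_mul_of_nonneg_right h3 (by linarith)
  nlinarith [mul_nonneg (show 0 ≤ m - 3 * s - 3 by linarith) (show 0 ≤ 58 * s + 19 - 19 * m by linarith),
    mul_nonneg (show 0 ≤ s - 80 by linarith) (show 0 ≤ m - 3 * s - 3 by linarith),
    mul_nonneg (show 0 ≤ s - 80 by linarith) (show 0 ≤ 58 * s + 19 - 19 * m by linarith),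
    mul_nonneg (show 0 ≤ s - 80 by linarith) (show 0 ≤ s - 80 by linarith)]

private theorem cn2_n9 {s m a e : ℤ} (hs : 80 ≤ s) (h2 : 19 * m ≤ 58 * s + 19)
    (hae : a + e + 1 = m + s) (ha : 23 * s + 1 ≤ 10 * a) : a * e < s * (m + s - 1) := by
  have he : e = m + s - 1 - a := by linarith
  subst he
  have h3 : 0 ≤ (10 * a - (23 * s + 1)) * (10 * a + (23 * s + 1) - 10 * (m + s - 1)) :=
    mul_nonneg (by linarith) (by linarith)
  have h4 : s * (19 * (m + s - 1)) ≤ s * (77 * s) := mul_le_mul_of_nonneg_left (by linarith) (by linarith)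
  nlinarith

private theorem cn2_n7 {s m a e mu : ℤ} (hs : 80 ≤ s) (h1 : 3 * s + 3 ≤ m) (h2 : 19 * m ≤ 58 * s + 19)
    (hae : a + e + 1 = m + s) (ha : 23 * s + 1 ≤ 10 * a) (he : s ≤ e)
    (hmu : mu = m + 1 - 2 * s ∨ 2 * mu ≤ 2 * m + s - 3 * e + 1 ∨ 2 * mu ≤ 2 * m + 2 - e - 2 * s) :
    a + e * (mu - 1) + 10 * (a + 1 - mu) < (s + 1) * a := by
  have haa : a = m + s - 1 - e := by linarith
  subst haa
  rcases hmu with h | h | h
  · subst h
    nlinarith [mul_nonneg (show 0 ≤ 10 * m - 13 * s - 11 - 10 * e by linarith) (show 0 ≤ m - s - 10 by linarith),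
      mul_nonneg (show 0 ≤ m - 3 * s - 3 by linarith) (show 0 ≤ 58 * s + 19 - 19 * m by linarith),
      mul_nonneg (show 0 ≤ s - 80 by linarith) (show 0 ≤ m - 3 * s - 3 by linarith),
      mul_nonneg (show 0 ≤ s - 80 by linarith) (show 0 ≤ 58 * s + 19 - 19 * m by linarith),
      mul_nonneg (show 0 ≤ s - 80 by linarith) (show 0 ≤ s - 80 by linarith)]
  · have h3 : (e - 10) * (2 * mu) ≤ (e - 10) * (2 * m + s - 3 * e + 1) :=
      mul_le_mul_of_nonneg_left h (by linarith)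
    nlinarith [sq_nonneg (2 * e - 3 * s),
      mul_nonneg (show 0 ≤ m - 3 * s - 3 by linarith) (show 0 ≤ 58 * s + 19 - 19 * m by linarith),
      mul_nonneg (show 0 ≤ s - 80 by linarith) (show 0 ≤ m - 3 * s - 3 by linarith),
      mul_nonneg (show 0 ≤ s - 80 by linarith) (show 0 ≤ 58 * s + 19 - 19 * m by linarith),
      mul_nonneg (show 0 ≤ s - 80 by linarith) (show 0 ≤ s - 80 by linarith),
      mul_nonneg (show 0 ≤ e - s by linarith) (show 0 ≤ 58 * s + 19 - 19 * m by linarith),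
      mul_nonneg (show 0 ≤ e - s by linarith) (show 0 ≤ s - 80 by linarith),
      mul_nonneg (show 0 ≤ 10 * m - 13 * s - 11 - 10 * e by linarith) (show 0 ≤ s - 80 by linarith)]
  · have h3 : (e - 10) * (2 * mu) ≤ (e - 10) * (2 * m + 2 - e - 2 * s) :=
      mul_le_mul_of_nonneg_left h (by linarith)
    nlinarith [mul_nonneg (show 0 ≤ 10 * m - 13 * s - 11 - 10 * e by linarith)
        (show 0 ≤ 2 * m - e - (m - 2 * s) - 10 by linarith),
      mul_nonneg (show 0 ≤ m - 3 * s - 3 by linarith) (show 0 ≤ 58 * s + 19 - 19 * m by linarith),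
      mul_nonneg (show 0 ≤ s - 80 by linarith) (show 0 ≤ m - 3 * s - 3 by linarith),
      mul_nonneg (show 0 ≤ s - 80 by linarith) (show 0 ≤ 58 * s + 19 - 19 * m by linarith),
      mul_nonneg (show 0 ≤ s - 80 by linarith) (show 0 ≤ s - 80 by linarith)]

private theorem cn2_big {m s a : ℕ} (hs : 80 ≤ s) (h1 : 3 * s + 3 ≤ m) (h2 : 19 * m ≤ 58 * s + 19)
    (ha : 23 * s + 1 ≤ 10 * a) (ha2 : a + 1 ≤ m)
    (h0 : (s + 1) * a ≤ 9 * a + (m + s - 1 - a) * (m - s - 1)) :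
    ∃ mu kk, NCK m s 1 a (m + s - 1 - a) mu kk := by
  obtain ⟨e, he⟩ : ∃ e, m + s - 1 - a = e := ⟨_, rfl⟩
  rw [he] at h0 ⊢
  have hae : a + e + 1 = m + s := by omega
  have hsz : (80 : ℤ) ≤ s := by exact_mod_cast hs
  have h1z : 3 * (s : ℤ) + 3 ≤ m := by exact_mod_cast h1
  have h2z : 19 * (m : ℤ) ≤ 58 * s + 19 := by exact_mod_cast h2
  have haez : (a : ℤ) + e + 1 = m + s := by exact_mod_cast hae
  have haz : 23 * (s : ℤ) + 1 ≤ 10 * a := by exact_mod_cast ha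
  have h0z : ((s : ℤ) + 1) * a ≤ 9 * a + e * (m - s - 1) := by
    have h3 : (((s + 1) * a : ℕ) : ℤ) ≤ ((9 * a + e * (m - s - 1) : ℕ) : ℤ) := by exact_mod_cast h0
    rw [Nat.cast_add, Nat.cast_mul, Nat.cast_mul, Nat.cast_mul, Nat.cast_sub (by omega),
      Nat.cast_sub (by omega)] at h3
    push_cast at h3
    exact h3
  have h0' : ((s : ℤ) - 8) * (m + s - 1) ≤ e * (m - 9) := by
    have h3 : (a : ℤ) = m + s - 1 - e := by linarith
    rw [h3] at h0z
    linarith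
  have hn2 := cn2_n2 hsz h1z h2z h0'
  have hse := cn2_se hsz h1z h2z h0'
  have hn10 := cn2_n10 hsz h1z h2z h0'
  have hn9 := cn2_n9 hsz h2z haez haz
  have he2 : e + 1 ≤ 2 * s := by omega
  refine ⟨max (m + 1 - 2 * s) (max ((2 * m + s + 1 - 3 * e) / 2) ((2 * m + 2 - e - 2 * s) / 2)), 10, ?_⟩
  obtain ⟨mu, hmu⟩ : ∃ mu, max (m + 1 - 2 * s) (max ((2 * m + s + 1 - 3 * e) / 2)
    ((2 * m + 2 - e - 2 * s) / 2)) = mu := ⟨_, rfl⟩
  rw [hmu]
  have hm1 : m + 1 ≤ mu + 2 * s := by omega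
  have hm2 : mu + e ≤ m := by omega
  have hm3 : 2 * m + s ≤ 3 * e + 2 * mu := by omega
  have hm4 : 2 * m + 1 ≤ e + 2 * s + 2 * mu := by omega
  have hmu3 : (mu : ℤ) = m + 1 - 2 * s ∨ 2 * (mu : ℤ) ≤ 2 * m + s - 3 * e + 1 ∨
      2 * (mu : ℤ) ≤ 2 * m + 2 - e - 2 * s := by omega
  have hn7 := cn2_n7 hsz h1z h2z haez haz hse hmu3
  refine ⟨hae, by omega, by omega, hm1, hm2, hm3, hm4, ?_, by omega, ?_, by omega, by norm_num⟩
  · have hev : 10 - 1 + (if 2 ∣ m then 1 else 0) ≤ 10 := by split_ifs <;> norm_num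
    refine lt_of_le_of_lt (Nat.add_le_add_left (Nat.mul_le_mul_right _ hev) _) ?_
    zify
    rw [Nat.cast_sub (show 1 ≤ mu by omega), Nat.cast_sub (show mu ≤ a + 1 by omega)]
    push_cast
    linarith
  · zify
    rw [Nat.cast_sub (show 1 ≤ m + s by omega)]
    push_cast
    linarith

private def cn2_mu (m s e : ℕ) : ℕ :=
  max (m + 1 - 2 * s) (max ((2 * m + s + 1 - 3 * e) / 2) ((2 * m + 2 - e - 2 * s) / 2))

private def cn2_P (m s a e mu : ℕ) : Bool :=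
  decide (a + e + 1 = m + s ∧ m + 2 ≤ a + s ∧ m + 9 ≤ 2 * e + s ∧ m + 1 ≤ mu + 2 * s ∧ mu + e ≤ m ∧
    2 * m + s ≤ 3 * e + 2 * mu ∧ 2 * m + 1 ≤ e + 2 * s + 2 * mu ∧
    1 * a + e * (mu - 1) + (8 - 1 + (if 2 ∣ m then 1 else 0)) * (a + 1 - mu) < (s + 1) * a ∧
    8 * (m - s - 1 - mu) ≤ (s - 2) * (8 - 1) ∧ a * e < s * (m + s - 1) ∧ 3 * a + 3 ≤ m + 6 * s)

private theorem cn2_of {m s a : ℕ} (h : cn2_P m s a (m + s - 1 - a) (cn2_mu m s (m + s - 1 - a)) = true) :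
    ∃ mu kk, NCK m s 1 a (m + s - 1 - a) mu kk := by
  obtain ⟨h1, h2, h3, h4, h5, h6, h7, h8, h9, h10, h11⟩ := of_decide_eq_true h
  exact ⟨cn2_mu m s (m + s - 1 - a), 8, ⟨h1, h2, h3, h4, h5, h6, h7, h8, h9, h10, h11, by norm_num⟩⟩

private theorem cn2_range {m s a lo k : ℕ} (hlo : lo ≤ a) (hhi : a < lo + k)
    (h : ∀ i < k, cn2_P m s (lo + i) (m + s - 1 - (lo + i)) (cn2_mu m s (m + s - 1 - (lo + i))) = true) :
    ∃ mu kk, NCK m s 1 a (m + s - 1 - a) mu kk := by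
  have h1 := h (a - lo) (by omega)
  rw [show lo + (a - lo) = a by omega] at h1
  exact cn2_of h1

theorem num_c2 {m s a : ℕ} (hr : R2 m s) (ha : alp2 m s + 1 ≤ a) (ha2 : a + s + 1 ≤ m + s)
    (h0 : (s + 1) * a ≤ (kap m + hvy m) * a + (m + s - 1 - a) * (m - s - 1)) :
    ∃ mu kk, NCK m s 1 a (m + s - 1 - a) mu kk := by
  rcases hr with ⟨rfl, rfl⟩ | ⟨rfl, rfl⟩ | ⟨rfl, rfl⟩ | ⟨rfl, rfl⟩ | ⟨rfl, rfl⟩ | ⟨hs, h1, h2⟩
  · have e1 : kap 117 = 3 := by decide
    have e2 : hvy 117 = 2 := by decide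
    have e3 : alp2 117 38 = 87 := by decide
    rw [e1, e2] at h0
    rw [e3] at ha
    exact cn2_range (lo := 88) (k := 20) (by omega) (by omega) (by decide)
  · have e1 : kap 129 = 3 := by decide
    have e2 : hvy 129 = 2 := by decide
    have e3 : alp2 129 42 = 96 := by decide
    rw [e1, e2] at h0
    rw [e3] at ha
    exact cn2_range (lo := 97) (k := 21) (by omega) (by omega) (by decide)
  · have e1 : kap 141 = 3 := by decide
    have e2 : hvy 141 = 2 := by decide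
    have e3 : alp2 141 46 = 105 := by decide
    rw [e1, e2] at h0
    rw [e3] at ha
    exact cn2_range (lo := 106) (k := 23) (by omega) (by omega) (by decide)
  · have e1 : kap 142 = 2 := by decide
    have e2 : hvy 142 = 1 := by decide
    have e3 : alp2 142 46 = 106 := by decide
    rw [e1, e2] at h0
    rw [e3] at ha
    exact cn2_range (lo := 107) (k := 21) (by omega) (by omega) (by decide)
  · have e1 : kap 143 = 1 := by decide
    have e2 : hvy 143 = 0 := by decide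
    have e3 : alp2 143 46 = 107 := by decide
    rw [e1, e2] at h0
    rw [e3] at ha
    exact cn2_range (lo := 108) (k := 20) (by omega) (by omega) (by decide)
  · have e3 : alp2 m s = 23 * s / 10 := by
      unfold alp2
      rw [if_neg (by omega), if_neg (by omega)]
    rw [e3] at ha
    have hk : kap m + hvy m ≤ 9 := by
      have h3 : kap m ≤ 6 := Nat.gcd_le_left m (by norm_num)
      have h4 : hvy m ≤ 3 := by
        unfold hvy
        split_ifs <;> norm_num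
      omega
    refine cn2_big hs h1 h2 (by omega) (by omega) (h0.trans ?_)
    exact Nat.add_le_add_right (Nat.mul_le_mul_right _ hk) _

end H
end ZS44129
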