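import Pool.Agent.Work.MP_44129c_co.H.DDefs

/-!
# MP_44129c_co/H, D0 (size M): the dichotomy of a lifted pair, with the bound (**)

PROOFS.
`bs_le`, `abs_le_cc`, `abs_le_cc2`, `le_cost`, `dist_le_cost`: case distinctions (`max_def`, `min_def`, `split_ifs`, `omega`), `cost` is
defined in N/C34.
`dich`.  `N.c3 h hV hs hm hD` (N/C34; its `hD` is `m < 2 s + #{al ≠ ga}`).  Second alternative: `Cen`.  First alternative
(`θ`, `∑ cc + 2 ≤ m`, `m ≤ #{θ ≤ max} + 1`, `m ≤ #{min ≤ θ} + 1`): `Non`.
* `ne`.  Let `T ⊆ {w ∈ XX u v : θ ≤ max (al w) (ga w)}` with `|T| = m - 1`.  Choosing at every `w ∈ T` the side of the maximum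
  (`A = {w ∈ T : ga w ≤ al w}`, `B` the rest, `h.gap A B`) gives `z0 + (m - 1) θ ≤ z0 + ∑_T max ≤ m - 1`; in the same way, with
  `T' ⊆ {min ≤ θ}`, `1 ≤ z0 + ∑_{T'} min ≤ z0 + (m - 1) θ` (see `c34_max`, `c34_min` in N/C34, private, copy).  If `z0 ≡ θ` modulo `m`
  then `z0 + (m - 1) θ ≡ m θ ≡ 0`, but `1 ≤ z0 + (m - 1) θ ≤ m - 1`: contradiction.
* Counting: `XX u v` is the disjoint union of `D1` = (exactly one of `al, ga` is `θ`), `D2` = (different, both `≠ θ`), `E` = (equal, `≠ θ`),
  `F` = (both `= θ`).  `D1 + D2 + E + F = m + s - 2` (`G.card_XX` or `c34_card`), `∑ bs = D1 + 2 D2 + E`, `nD = D1 + D2`,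
  `#{al = θ} + #{ga = θ} = D1 + 2 F`, `∑ bs ≤ ∑ cc ≤ m - 2`.  So
  `D1 + 2 F = 2 (m + s - 2) - D1 - 2 D2 - 2 E`, and `2 (m - 2) ≥ 2 ∑ cc = 2 ∑ (cc - bs) + 2 D1 + 4 D2 + 2 E`, hence
  `D1 + 2 F ≥ 2 s + 2 ∑ (cc - bs) + D1 + 2 D2`, which is `cls`.  `F = m + s - 2 - D1 - D2 - E ≥ s + D2` is `nf`.
  (Formally: pointwise identities for indicator functions, e.g. `[al = θ] + [ga = θ] + [al ≠ ga] + 2 [D2] + ... `; sum over
  `XX u v` with `Finset.card_filter`/`sum_boole`, e.g. `1 = [F] + [E] + [D1] + [D2]`, all filters over the same set.)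
-/

set_option autoImplicit false

namespace ZS44129
namespace H

open Finset E N

variable {V : Type} [Fintype V] [DecidableEq V] {m : ℕ}

theorem bs_nonneg (θ a b : ℤ) : 0 ≤ bs θ a b := by
  unfold bs
  split_ifs <;> omega

theorem bs_le (θ a b : ℤ) : bs θ a b ≤ cc θ a b := by
  unfold bs cc
  simp only [max_def, min_def]
  split_ifs <;> omega

theorem bs_le_two (θ a b : ℤ) : bs θ a b ≤ 2 := by
  unfold bs
  split_ifs <;> omega

theorem one_le_bs (θ : ℤ) {a b : ℤ} (h : a ≠ b) : 1 ≤ bs θ a b := by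
  unfold bs
  split_ifs <;> omega

theorem abs_le_cc (θ a b : ℤ) : |a - θ| ≤ cc θ a b := by
  unfold cc
  rw [abs_le]
  simp only [max_def, min_def]
  split_ifs <;> omega

theorem abs_le_cc2 (θ a b : ℤ) : |b - θ| ≤ cc θ a b := by
  unfold cc
  rw [abs_le]
  simp only [max_def, min_def]
  split_ifs <;> omega

theorem cost_nonneg (θ a b : ℤ) : 0 ≤ cost θ a b := by
  unfold cost
  simp only [max_def, min_def]
  split_ifs <;> omega

theorem one_le_cost (θ : ℤ) {a b : ℤ} (h : a ≠ b) : 1 ≤ cost θ a b := by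
  unfold cost
  simp only [max_def, min_def]
  split_ifs <;> omega

/-- distance of `a` from `{θ - 1, θ}`. -/
theorem dist_le_cost (θ a b : ℤ) : max (a - θ) 0 + max (θ - 1 - a) 0 ≤ cost θ a b := by
  unfold cost
  simp only [max_def, min_def]
  split_ifs <;> omega

theorem dist_le_cost2 (θ a b : ℤ) : max (b - θ) 0 + max (θ - 1 - b) 0 ≤ cost θ a b := by
  unfold cost
  simp only [max_def, min_def]
  split_ifs <;> omega

/-- for two positions: the difference of the lifts at `u` is at most the sum of the costs plus one. -/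
theorem sub_le_cost (θ a b a' b' : ℤ) : |a - a'| ≤ cost θ a b + cost θ a' b' + 1 := by
  have h1 := dist_le_cost θ a b
  have h2 := dist_le_cost θ a' b'
  have h3 := le_max_left (a - θ) 0
  have h4 := le_max_left (θ - 1 - a) 0
  have h5 := le_max_left (a' - θ) 0
  have h6 := le_max_left (θ - 1 - a') 0
  have h7 := le_max_right (a - θ) 0
  have h8 := le_max_right (θ - 1 - a) 0
  have h9 := le_max_right (a' - θ) 0
  have h10 := le_max_right (θ - 1 - a') 0
  rw [abs_le]
  constructor <;> omega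

theorem sub_le_cc (θ a b a' b' : ℤ) : |a - a'| ≤ cc θ a b + cc θ a' b' := by
  have h1 := abs_le_cc θ a b
  have h2 := abs_le_cc θ a' b'
  rw [abs_le] at h1 h2 ⊢
  constructor <;> omega

private theorem d0_sides {c : V → V → ZMod m} {u x : V} {z0 : ℤ} {al ga : V → ℤ}
    (h : PLift c u x z0 al ga) {S : Finset V} (hS : S ⊆ XX u x) (hc : S.card + 1 = m)
    (p : V → Prop) [DecidablePred p] :
    1 ≤ z0 + ∑ w ∈ S, (if p w then al w else ga w) ∧
      z0 + ∑ w ∈ S, (if p w then al w else ga w) ≤ m - 1 := by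
  have h1 := h.gap (S.filter p) (S.filter fun w => ¬ p w) ((filter_subset _ _).trans hS)
    ((filter_subset _ _).trans hS) (disjoint_filter_filter_not _ _ _)
    (by rw [card_filter_add_card_filter_not]; exact hc)
  rw [Finset.sum_ite]
  rw [add_assoc] at h1
  exact h1

private theorem d0_max {c : V → V → ZMod m} {u x : V} {z0 : ℤ} {al ga : V → ℤ}
    (h : PLift c u x z0 al ga) {S : Finset V} (hS : S ⊆ XX u x) (hc : S.card + 1 = m) :
    z0 + ∑ w ∈ S, max (al w) (ga w) ≤ m - 1 := by
  have h1 := (d0_sides h hS hc (fun w => ga w ≤ al w)).2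
  have h2 : ∀ w ∈ S, (if ga w ≤ al w then al w else ga w) = max (al w) (ga w) := by
    intro w _
    split_ifs with h3
    · exact (max_eq_left h3).symm
    · exact (max_eq_right (le_of_not_ge h3)).symm
  rwa [sum_congr rfl h2] at h1

private theorem d0_min {c : V → V → ZMod m} {u x : V} {z0 : ℤ} {al ga : V → ℤ}
    (h : PLift c u x z0 al ga) {S : Finset V} (hS : S ⊆ XX u x) (hc : S.card + 1 = m) :
    1 ≤ z0 + ∑ w ∈ S, min (al w) (ga w) := by
  have h1 := (d0_sides h hS hc (fun w => al w ≤ ga w)).1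
  have h2 : ∀ w ∈ S, (if al w ≤ ga w then al w else ga w) = min (al w) (ga w) := by
    intro w _
    split_ifs with h3
    · exact (min_eq_left h3).symm
    · exact (min_eq_right (le_of_not_ge h3)).symm
  rwa [sum_congr rfl h2] at h1

private theorem d0_card {u x : V} (hux : u ≠ x) {s : ℕ} (hV : Fintype.card V = m + s) :
    (XX u x).card + 2 = m + s := by
  have h1 : (XX u x) = (univ.erase u).erase x := by
    ext y
    rw [mem_XX, mem_erase, mem_erase]
    simp only [mem_univ, and_true]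
    exact and_comm
  rw [h1, card_erase_of_mem (mem_erase.2 ⟨hux.symm, mem_univ x⟩), card_erase_of_mem (mem_univ u),
    card_univ, hV]
  have h2 : 2 ≤ Fintype.card V := by
    rw [← Finset.card_pair hux]
    exact card_le_univ _
  omega

theorem dich {c : V → V → ZMod m} {u v : V} {z0 : ℤ} {al ga : V → ℤ}
    (h : PLift c u v z0 al ga) {s : ℕ} (hV : Fintype.card V = m + s) (hs : 1 ≤ s) (hm : 2 ≤ m)
    (hD : m < 2 * s + nD u v al ga) :
    (∃ θ : ℤ, Cen s m θ u v al ga) ∨ (∃ θ : ℤ, Non s m θ z0 u v al ga) := by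
  rcases N.c3 h hV hs hm hD with ⟨θ, h1, h2, h3⟩ | ⟨θ, h1, h2, h3⟩
  · right
    refine ⟨θ, ?_⟩
    have htot : ∑ w ∈ XX u v, cc θ (al w) (ga w) + 2 ≤ m := h1
    have hX := d0_card h.ne hV
    have hXz : ((XX u v).card : ℤ) = m + s - 2 := by
      have : (((XX u v).card + 2 : ℕ) : ℤ) = ((m + s : ℕ) : ℤ) := congrArg _ hX
      push_cast at this
      linarith
    refine ⟨?_, htot, ?_, ?_⟩
    · intro hne
      obtain ⟨T, hT, hTc⟩ := exists_subset_card_eq
        (s := (XX u v).filter (fun w => θ ≤ max (al w) (ga w))) (n := m - 1) (by omega)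
      obtain ⟨T', hT', hTc'⟩ := exists_subset_card_eq
        (s := (XX u v).filter (fun w => min (al w) (ga w) ≤ θ)) (n := m - 1) (by omega)
      have g1 := d0_max h (hT.trans (filter_subset _ _)) (by omega)
      have g2 := d0_min h (hT'.trans (filter_subset _ _)) (by omega)
      have hk : ((m - 1 : ℕ) : ℤ) = m - 1 := by omega
      have g3 : ((m : ℤ) - 1) * θ ≤ ∑ w ∈ T, max (al w) (ga w) := by
        rw [← hk, ← hTc, ← nsmul_eq_mul]
        exact card_nsmul_le_sum _ _ _ (fun w hw => (mem_filter.1 (hT hw)).2)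
      have g4 : ∑ w ∈ T', min (al w) (ga w) ≤ ((m : ℤ) - 1) * θ := by
        rw [← hk, ← hTc', ← nsmul_eq_mul]
        exact sum_le_card_nsmul _ _ _ (fun w hw => (mem_filter.1 (hT' hw)).2)
      have g5 : (m : ℤ) ∣ z0 - θ := by
        rw [← ZMod.intCast_zmod_eq_zero_iff_dvd]
        push_cast
        rw [hne, sub_self]
      obtain ⟨k, hk2⟩ := g5
      have g6 : z0 + ((m : ℤ) - 1) * θ = m * (k + θ) := by
        have : z0 = θ + m * k := by linarith
        rw [this]
        ring
      have g7 : 1 ≤ (m : ℤ) * (k + θ) := by linarith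
      have g8 : (m : ℤ) * (k + θ) ≤ m - 1 := by linarith
      have hm' : (0 : ℤ) < m := by exact_mod_cast (by omega : 0 < m)
      have g9 : 1 ≤ k + θ := by
        by_contra hc
        have : k + θ ≤ 0 := by omega
        nlinarith
      nlinarith
    · have key : ((((XX u v).filter (fun w => al w = θ)).card : ℤ) +
          (((XX u v).filter (fun w => ga w = θ)).card : ℤ)) =
          2 * ((XX u v).card : ℤ) - 2 * ∑ w ∈ XX u v, bs θ (al w) (ga w) + nD u v al ga +
            nD2 θ u v al ga := by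
        unfold nD nD2
        rw [← Finset.sum_boole, ← Finset.sum_boole, ← Finset.sum_boole, ← Finset.sum_boole,
          Finset.mul_sum, ← Finset.sum_add_distrib,
          show 2 * ((XX u v).card : ℤ) = ∑ w ∈ XX u v, (2 : ℤ) by
            rw [Finset.sum_const, nsmul_eq_mul]; ring,
          ← Finset.sum_sub_distrib, ← Finset.sum_add_distrib, ← Finset.sum_add_distrib]
        refine Finset.sum_congr rfl fun w _ => ?_
        unfold bs
        split_ifs <;> omega
      rw [key, hXz, Finset.sum_sub_distrib]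
      linarith
    · have key : (nF θ u v al ga : ℤ) =
          ((XX u v).card : ℤ) - ∑ w ∈ XX u v, bs θ (al w) (ga w) + nD2 θ u v al ga := by
        unfold nF nD2
        rw [← Finset.sum_boole, ← Finset.sum_boole,
          show ((XX u v).card : ℤ) = ∑ w ∈ XX u v, (1 : ℤ) by
            rw [Finset.sum_const, nsmul_eq_mul]; ring,
          ← Finset.sum_sub_distrib, ← Finset.sum_add_distrib]
        refine Finset.sum_congr rfl fun w _ => ?_
        unfold bs
        split_ifs <;> omega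
      have hle : ∑ w ∈ XX u v, bs θ (al w) (ga w) ≤ ∑ w ∈ XX u v, cc θ (al w) (ga w) :=
        Finset.sum_le_sum fun w _ => bs_le θ (al w) (ga w)
      have : ((s + nD2 θ u v al ga : ℕ) : ℤ) ≤ (nF θ u v al ga : ℤ) := by
        push_cast
        rw [key, hXz]
        linarith
      exact_mod_cast this
  · left
    exact ⟨θ, h1⟩

end H
end ZS44129
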