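import Pool.Agent.Work.MP_44129c_co.H.Defs
import Pool.Agent.Work.MP_44129c_co.G.Classify
import Pool.Agent.Work.MP_44129c_co.G.Partner

/-!
# MP_44129c_co/H, P2 (size S-M): wide pairs which are not good are heavy of index 2 or 3, and there are few of them

PROOFS.
`wd_heavy`: copy of the proof of `classify2` (G/Classify.lean, last theorem; `hno` is only used for this pair: `pair_thmP`
gives `GP c u w` or `Hv`).  Numerics from `R2.facts`: `38 ≤ s`, `3 s + 3 ≤ m`, `m ≤ 4 s`, `1000 m ≤ 3087 s + 1000`.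
(`|L| ≥ 4` gives `m ≤ 4 s ≤ s |L|`.  For index `j ≥ 4`, `h = a + 4`, `j = b + 4`: `m = a b + 4 a + 4 b + 16` and `lemQ`:
`s + 1 ≤ h + Out ≤ h + j - 2`, so `a + b ≥ s - 5`, `m ≥ 4 (s - 5) + 16 = 4 s - 4 > 3.087 s + 1`.)
`heavy_few`: as `fb_F3` in G/FinalB.lean (private there, copy), but counting by divisibility: the `w` with `2 |P| = m` are at most
one (`partner2`) and exist only if `2 ∣ m`; the `w` with `3 |P| = m` are at most two (`partner3`) and exist only if `3 ∣ m`.
-/

set_option autoImplicit false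

namespace ZS44129
namespace H

open Finset E N

variable {V : Type} [Fintype V] [DecidableEq V] {m : ℕ}

private theorem p2_hv [NeZero m] {c : V → V → ZMod m} {κ : ℕ} {u w : V} {P : AddSubgroup (ZMod m)}
    {r : ZMod m} (h : G.Hv c κ u w P r) : ∃ j, m = Nat.card P * j ∧ G.Out c u w P r + 2 ≤ j := by
  have hd : Nat.card P ∣ m := by
    have := AddSubgroup.card_addSubgroup_dvd_card P
    rwa [Nat.card_zmod] at this
  obtain ⟨j, hj⟩ := hd
  refine ⟨j, hj, ?_⟩
  have h1 := h.2.2.2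
  have h2 : (G.Out c u w P r + 2) * Nat.card P ≤ j * Nat.card P := by
    rw [mul_comm j, ← hj]
    exact h1
  exact le_of_mul_le_mul_right h2 Nat.card_pos

theorem wd_heavy [NeZero m] {c : V → V → ZMod m} {s : ℕ} (h : HS c s) {u w : V} (hW : G.Wd c 3 u w)
    (hg : ¬ G.GP c u w) : ∃ (P : AddSubgroup (ZMod m)) (r : ZMod m), G.Hv c 3 u w P r ∧
      (2 * Nat.card P = m ∨ 3 * Nat.card P = m) := by
  classical
  obtain ⟨hs, hm1, hm2, hm3⟩ := h.rng.facts
  have hj : ∀ L : AddSubgroup (ZMod m), 3 < Nat.card L → m ≤ s * Nat.card L := by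
    intro L hL
    have h1 : s * 4 ≤ s * Nat.card L := Nat.mul_le_mul_left _ hL
    omega
  obtain ⟨P, r, hH⟩ := (G.pair_thmP c h.zsf (Or.inr rfl) h.card hj hW).resolve_left hg
  refine ⟨P, r, hH, ?_⟩
  obtain ⟨j, hmj, ho⟩ := p2_hv hH
  have hq := G.lemQ c h.sym h.zsf h.card (by omega) hH
  have hP4 : 3 < Nat.card P := hH.2.1
  by_cases hj4 : 4 ≤ j
  · exfalso
    clear hj
    generalize Nat.card P = h at *
    generalize G.Out c u w P r = o at *
    obtain ⟨a, rfl⟩ : ∃ a, h = a + 4 := ⟨h - 4, by omega⟩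
    obtain ⟨b, rfl⟩ : ∃ b, j = b + 4 := ⟨j - 4, by omega⟩
    have e1 : m = a * b + 4 * a + 4 * b + 16 := by rw [hmj]; ring
    generalize a * b = t at e1
    omega
  · rcases (by omega : j = 0 ∨ j = 1 ∨ j = 2 ∨ j = 3) with h | h | h | h
    · omega
    · omega
    · left
      rw [h] at hmj
      omega
    · right
      rw [h] at hmj
      omega

theorem heavy_few [NeZero m] {c : V → V → ZMod m} {s : ℕ} (h : HS c s) (u : V) (W : Finset V)
    (hW : ∀ w ∈ W, ∃ (P : AddSubgroup (ZMod m)) (r : ZMod m), G.Hv c 3 u w P r ∧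
      (2 * Nat.card P = m ∨ 3 * Nat.card P = m)) : W.card ≤ hvy m := by
  classical
  obtain ⟨hs, hm1, hm2, hm3⟩ := h.rng.facts
  have hV : 6 ≤ Fintype.card V := by
    rw [h.card]
    omega
  set W2 := W.filter (fun w => ∃ (P : AddSubgroup (ZMod m)) (r : ZMod m), G.Hv c 3 u w P r ∧
    2 * Nat.card P = m) with hW2
  set W3 := W.filter (fun w => ∃ (P : AddSubgroup (ZMod m)) (r : ZMod m), G.Hv c 3 u w P r ∧
    3 * Nat.card P = m) with hW3
  have hsub : W ⊆ W2 ∪ W3 := by
    intro w hw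
    rw [Finset.mem_union, hW2, hW3, Finset.mem_filter, Finset.mem_filter]
    obtain ⟨P, r, h1, h2⟩ := hW w hw
    rcases h2 with h2 | h2
    · exact Or.inl ⟨hw, P, r, h1, h2⟩
    · exact Or.inr ⟨hw, P, r, h1, h2⟩
  have h2 : W2.card ≤ if 2 ∣ m then 1 else 0 := by
    split_ifs with hd
    · rw [Finset.card_le_one]
      intro a ha b hb
      rw [hW2, Finset.mem_filter] at ha hb
      obtain ⟨_, P, r, h1, h2⟩ := ha
      obtain ⟨_, P', r', h1', h2'⟩ := hb
      exact G.partner2 c (by omega) h1 h2 h1' h2'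
    · rw [Nat.le_zero, Finset.card_eq_zero, hW2, Finset.filter_eq_empty_iff]
      rintro w _ ⟨P, r, _, h2⟩
      exact hd ⟨_, h2.symm⟩
  have h3 : W3.card ≤ if 3 ∣ m then 2 else 0 := by
    split_ifs with hd
    · apply G.partner3 c hV u W3 (κ := 3)
      intro w hw
      rw [hW3, Finset.mem_filter] at hw
      exact hw.2
    · rw [Nat.le_zero, Finset.card_eq_zero, hW3, Finset.filter_eq_empty_iff]
      rintro w _ ⟨P, r, _, h3⟩
      exact hd ⟨_, h3.symm⟩
  have h4 := Finset.card_le_card hsub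
  have h5 := Finset.card_union_le W2 W3
  unfold hvy
  omega

end H
end ZS44129
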