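import Pool.Agent.Work.MP_44129c_co.H.P1
import Pool.Agent.Work.MP_44129c_co.H.P2

/-!
# MP_44129c_co/H, IP (size S-M): interface of block P (pair facts), to be proved from P1, P2

PROOFS.
`lp_ne`: field `ne` of the `PLift`.  `lp_symm`: `Df c v u = Df c u v` (`XX u v = XX v u`, `ne_comm`); `N.plift_symm` (the colouring
`g c - β` is symmetric by `h.sym`).  `dk_le_df`: `dd_anti` with `⊥ ≤ K6 m` and `dd_bot`.
`heavyK_le`: `heavy_few` with `W` = the filter.  For `v ∈ W`: `¬ GP` by `gp_lp`; `Wd c 3 u v` as `fb_wide` (G/FinalB.lean, private,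
copy; `Nat.card (K6 m) = gcd 6 m` is `card_K6`); `wd_heavy`.
`heavy_le`: `heavy_few` again.  `Wd c 3 u v`: `m < 2 DD c u v ⊥` by `dd_bot`.  Let `L ≠ ⊥`, `|L| ≤ 3`: `|L| ∈ {2, 3}`; if `c u x - c v x ∈ L`
at a position `x` then `|L| • (c u x - c v x) = 0`, i.e. `2 c x u = 2 c x v` or `3 c x u = 3 c x v` (`h.sym`), so `c u x = c v x` by
`h2 x` or `h3 x` (`u ≠ x`, `v ≠ x`).  Hence `DD c u v L = Df c u v` (`≥` is needed) and `m ≤ (Df + 1) * 2 ≤ (DD + 1) |L|`.
-/

set_option autoImplicit false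

namespace ZS44129
namespace H

open Finset E N

variable {V : Type} [Fintype V] [DecidableEq V] {m : ℕ}

theorem lp_symm [NeZero m] {c : V → V → ZMod m} {s : ℕ} (h : HS c s) {u v : V} (hl : Lp c u v) : Lp c v u := by
  obtain ⟨h1, g, β, z0, al, ga, hP⟩ := hl
  have h2 : Df c v u = Df c u v := by
    unfold Df
    have h3 : XX v u = XX u v := by
      ext x
      rw [mem_XX, mem_XX, and_comm]
    rw [h3]
    congr 1
    refine Finset.filter_congr fun x _ => ?_
    exact ne_comm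
  refine ⟨by rw [h2]; exact h1, g, β, z0, ga, al, ?_⟩
  refine plift_symm ?_ hP
  intro x y
  show (g : ZMod m) * c x y - β = (g : ZMod m) * c y x - β
  rw [h.sym]

theorem lp_ne [NeZero m] {c : V → V → ZMod m} {u v : V} (hl : Lp c u v) : u ≠ v := by
  obtain ⟨-, g, β, z0, al, ga, hP⟩ := hl
  exact hP.ne

theorem dk_le_df [NeZero m] (c : V → V → ZMod m) (u v : V) : G.DD c u v (K6 m) ≤ Df c u v := by
  rw [← dd_bot]
  exact dd_anti c u v bot_le

private theorem wide6 [NeZero m] (c : V → V → ZMod m) {u v : V} (huv : u ≠ v)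
    (h : m < 2 * G.DD c u v (K6 m)) : G.Wd c 3 u v := by
  refine ⟨huv, lt_of_lt_of_le h (Nat.mul_le_mul_left 2 (dd_anti c u v bot_le)), ?_⟩
  intro L hL hL3
  have hpos : 0 < Nat.card L := Nat.card_pos
  have hne1 : Nat.card L ≠ 1 := by
    intro h1
    exact hL (AddSubgroup.card_eq_one.1 h1)
  have hdm : Nat.card L ∣ m := by
    have := AddSubgroup.card_addSubgroup_dvd_card L
    rwa [Nat.card_zmod] at this
  have h6 : Nat.card L ∣ 6 := by
    have : Nat.card L = 2 ∨ Nat.card L = 3 := by omega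
    rcases this with h | h
    · rw [h]; decide
    · rw [h]; decide
  have hle : L ≤ K6 m := G.le_of_dvd L (K6 m) (by rw [card_K6]; exact Nat.dvd_gcd h6 hdm)
  have h1 := dd_anti c u v hle
  have h2 : 2 ≤ Nat.card L := by omega
  calc m ≤ (G.DD c u v (K6 m) + 1) * 2 := by omega
    _ ≤ (G.DD c u v L + 1) * Nat.card L := Nat.mul_le_mul (by omega) h2

open Classical in
/-- heavy partners modulo `K6`. -/
theorem heavyK_le [NeZero m] {c : V → V → ZMod m} {s : ℕ} (h : HS c s) (u : V) :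
    ((univ.erase u).filter (fun v => m < 2 * G.DD c u v (K6 m) ∧ ¬ Lp c u v)).card ≤ hvy m := by
  apply heavy_few h u
  intro w hw
  rw [Finset.mem_filter] at hw
  have huw : u ≠ w := (Finset.ne_of_mem_erase hw.1).symm
  exact wd_heavy h (wide6 c huw hw.2.1) fun hg => hw.2.2 (gp_lp h hg)

private theorem dd_small [NeZero m] {c : V → V → ZMod m} (hsym : ∀ x y, c x y = c y x)
    (h2 : ∀ z, U2 c z) (h3 : ∀ z, U3 c z) (u v : V) (L : AddSubgroup (ZMod m))
    (hL : Nat.card L = 2 ∨ Nat.card L = 3) : Df c u v ≤ G.DD c u v L := by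
  classical
  rw [← dd_bot]
  unfold G.DD G.Dn
  apply Finset.card_le_card
  intro x hx
  rw [Finset.mem_filter] at hx ⊢
  refine ⟨hx.1, fun hmem => hx.2 ?_⟩
  obtain ⟨hxu, hxv⟩ := G.mem_XX.1 hx.1
  have h4 := (G.mem_iff L _).1 hmem
  rw [AddSubgroup.mem_bot, sub_eq_zero]
  rw [smul_sub, sub_eq_zero] at h4
  rcases hL with hL | hL
  · rw [hL, nsmul_eq_mul, nsmul_eq_mul, hsym u x, hsym v x] at h4
    have h5 := h2 x u v hxu.symm hxv.symm (by exact_mod_cast h4)
    rw [hsym u x, hsym v x]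
    exact h5
  · rw [hL, nsmul_eq_mul, nsmul_eq_mul, hsym u x, hsym v x] at h4
    have h5 := h3 x u v hxu.symm hxv.symm (by exact_mod_cast h4)
    rw [hsym u x, hsym v x]
    exact h5

open Classical in
/-- heavy partners if no two colours differ by an element of order 2 or 3. -/
theorem heavy_le [NeZero m] {c : V → V → ZMod m} {s : ℕ} (h : HS c s) (h2 : ∀ z, U2 c z)
    (h3 : ∀ z, U3 c z) (u : V) :
    ((univ.erase u).filter (fun v => m < 2 * Df c u v ∧ ¬ Lp c u v)).card ≤ hvy m := by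
  apply heavy_few h u
  intro w hw
  rw [Finset.mem_filter] at hw
  have huw : u ≠ w := (Finset.ne_of_mem_erase hw.1).symm
  have hW : G.Wd c 3 u w := by
    refine ⟨huw, by rw [dd_bot]; exact hw.2.1, ?_⟩
    intro L hL hL3
    have hpos : 0 < Nat.card L := Nat.card_pos
    have hne1 : Nat.card L ≠ 1 := by
      intro h1
      exact hL (AddSubgroup.card_eq_one.1 h1)
    have h4 := dd_small h.sym h2 h3 u w L (by omega)
    calc m ≤ (Df c u w + 1) * 2 := by omega
      _ ≤ (G.DD c u w L + 1) * Nat.card L := Nat.mul_le_mul (by omega) (by omega)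
  exact wd_heavy h hW fun hg => hw.2.2 (gp_lp h hg)

end H
end ZS44129
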