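import Pool.Agent.Work.MP_44129c_co.H.D0
import Pool.Agent.Work.MP_44129c_co.H.IP

/-!
# MP_44129c_co/H, D1 (size S-M): lifted pairs and classes, `lp_cl`

PROOFS.
`df_le_nD`: if `al w = ga w` then `g * c u w - β = g * c v w - β` in `ZMod m`, so `c u w = c v w` (`g` is a unit): the positions with
different colours have different lifts.
`lp_nD`: `h` gives `2 ≤ m`, `1 ≤ s`, `m ≤ 4 s` (`R2.facts`); `m < 2 Df ≤ 2 nD`, so `m < 2 s + nD`.
`cls_u`: if `al w = θ` and `(θ : ZMod m) = g * r - β` then `g * c u w - β = g * r - β`, so `c u w = r`, and `w ≠ u`.  `cls_v`: the same.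
`lp_cl`: unpack `hl`; `dich` (with `zsf`-free data only; `lp_nD`).  `Cen`: `nD ≤ ∑ cost` (`one_le_cost`, `cost_nonneg`), so
`Df + s + 1 ≤ m`.  `Non`: `a := g⁻¹ * (θ + β)`; `g * a - β = θ`; `a ≠ c u v` by `ne` (`z0 = g * c u v - β`, field `h0`); `cls`, `bs_le`,
`cls_u`, `cls_v`, `df_le_nD` give `Df + 2 s ≤ |cl u a| + |cl v a|`.
-/

set_option autoImplicit false

namespace ZS44129
namespace H

open Finset E N

variable {V : Type} [Fintype V] [DecidableEq V] {m : ℕ}

private theorem d1_unit [NeZero m] (g : (ZMod m)ˣ) {a b β : ZMod m}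
    (h : (g : ZMod m) * a - β = (g : ZMod m) * b - β) : a = b := by
  have h1 : (g : ZMod m) * a = (g : ZMod m) * b := sub_left_injective h
  exact (Units.mul_right_inj g).1 h1

theorem df_le_nD [NeZero m] {c : V → V → ZMod m} {g : (ZMod m)ˣ} {β : ZMod m} {u v : V} {z0 : ℤ} {al ga : V → ℤ}
    (h : PLift (fun p q => (g : ZMod m) * c p q - β) u v z0 al ga) : Df c u v ≤ nD u v al ga := by
  unfold Df nD
  refine Finset.card_le_card fun x hx => ?_
  obtain ⟨h1, h2⟩ := Finset.mem_filter.1 hx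
  refine Finset.mem_filter.2 ⟨h1, fun h3 => h2 ?_⟩
  obtain ⟨h4, h5⟩ := mem_XX.1 h1
  have h6 := h.hu x h4 h5
  have h7 := h.hx x h4 h5
  rw [h3] at h6
  exact d1_unit g (h6.symm.trans h7)

theorem lp_nD [NeZero m] {c : V → V → ZMod m} {s : ℕ} (hh : HS c s) {g : (ZMod m)ˣ} {β : ZMod m} {u v : V} {z0 : ℤ}
    {al ga : V → ℤ} (hD : m < 2 * Df c u v)
    (h : PLift (fun p q => (g : ZMod m) * c p q - β) u v z0 al ga) : 1 ≤ s ∧ 2 ≤ m ∧ m < 2 * s + nD u v al ga := by
  have h1 := hh.rng.facts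
  have h2 := df_le_nD h
  omega

theorem cls_u [NeZero m] {c : V → V → ZMod m} {g : (ZMod m)ˣ} {β : ZMod m} {u v : V} {z0 : ℤ} {al ga : V → ℤ}
    (h : PLift (fun p q => (g : ZMod m) * c p q - β) u v z0 al ga) {θ : ℤ} {r : ZMod m}
    (hr : (θ : ZMod m) = (g : ZMod m) * r - β) :
    ((XX u v).filter (fun w => al w = θ)).card ≤ (cl c u r).card := by
  refine Finset.card_le_card fun x hx => ?_
  obtain ⟨h1, h2⟩ := Finset.mem_filter.1 hx
  obtain ⟨h4, h5⟩ := mem_XX.1 h1
  have h6 := h.hu x h4 h5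
  rw [h2, hr] at h6
  exact mem_cl.2 ⟨h4, (d1_unit g h6).symm⟩

theorem cls_v [NeZero m] {c : V → V → ZMod m} {g : (ZMod m)ˣ} {β : ZMod m} {u v : V} {z0 : ℤ} {al ga : V → ℤ}
    (h : PLift (fun p q => (g : ZMod m) * c p q - β) u v z0 al ga) {θ : ℤ} {r : ZMod m}
    (hr : (θ : ZMod m) = (g : ZMod m) * r - β) :
    ((XX u v).filter (fun w => ga w = θ)).card ≤ (cl c v r).card := by
  refine Finset.card_le_card fun x hx => ?_
  obtain ⟨h1, h2⟩ := Finset.mem_filter.1 hx
  obtain ⟨h4, h5⟩ := mem_XX.1 h1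
  have h6 := h.hx x h4 h5
  rw [h2, hr] at h6
  exact mem_cl.2 ⟨h5, (d1_unit g h6).symm⟩

/-- D1 (interface). -/
theorem lp_cl' [NeZero m] {c : V → V → ZMod m} {s : ℕ} (h : HS c s) {u v : V} (hl : Lp c u v) :
    Df c u v + s + 1 ≤ m ∨ ∃ a, a ≠ c u v ∧ Df c u v + 2 * s ≤ (cl c u a).card + (cl c v a).card := by
  obtain ⟨hD, g, β, z0, al, ga, hP⟩ := hl
  obtain ⟨hs, hm, hD'⟩ := lp_nD h hD hP
  have hdf := df_le_nD hP
  rcases dich hP h.card hs hm hD' with ⟨θ, hC⟩ | ⟨θ, hN⟩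
  · left
    unfold Cen at hC
    have h1 : (nD u v al ga : ℤ) ≤ ∑ w ∈ XX u v, cost θ (al w) (ga w) := by
      have h2 : ((((XX u v).filter (fun w => al w ≠ ga w)).card : ℕ) : ℤ) ≤
          ∑ w ∈ (XX u v).filter (fun w => al w ≠ ga w), cost θ (al w) (ga w) := by
        have := Finset.card_nsmul_le_sum ((XX u v).filter (fun w => al w ≠ ga w))
          (fun w => cost θ (al w) (ga w)) 1
          (fun w hw => one_le_cost θ (Finset.mem_filter.1 hw).2)
        simpa using this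
      have h3 : ∑ w ∈ (XX u v).filter (fun w => al w ≠ ga w), cost θ (al w) (ga w) ≤
          ∑ w ∈ XX u v, cost θ (al w) (ga w) :=
        Finset.sum_le_sum_of_subset_of_nonneg (Finset.filter_subset _ _)
          (fun w _ _ => cost_nonneg θ _ _)
      exact h2.trans h3
    have h2 : (Df c u v : ℤ) + s + 1 ≤ m := by
      have : (Df c u v : ℤ) ≤ nD u v al ga := by exact_mod_cast hdf
      linarith
    exact_mod_cast h2
  · right
    obtain ⟨a, ha⟩ : ∃ a, a = ((g⁻¹ : (ZMod m)ˣ) : ZMod m) * ((θ : ZMod m) + β) := ⟨_, rfl⟩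
    have hga : (θ : ZMod m) = (g : ZMod m) * a - β := by
      rw [ha, ← mul_assoc, ← Units.val_mul, mul_inv_cancel, Units.val_one, one_mul]
      ring
    refine ⟨a, ?_, ?_⟩
    · intro he
      apply hN.ne
      rw [hga, he]
      exact hP.h0
    · have h1 := cls_u hP hga
      have h2 := cls_v hP hga
      have h3 : 0 ≤ ∑ w ∈ XX u v, (cc θ (al w) (ga w) - bs θ (al w) (ga w)) :=
        Finset.sum_nonneg fun w _ => sub_nonneg.2 (bs_le θ _ _)
      have h4 := hN.cls
      have h5 : (0 : ℤ) ≤ nD2 θ u v al ga := Int.natCast_nonneg _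
      have h6 : (Df c u v : ℤ) + 2 * s ≤ (cl c u a).card + (cl c v a).card := by
        have e1 : (Df c u v : ℤ) ≤ nD u v al ga := by exact_mod_cast hdf
        have e2 : (((XX u v).filter (fun w => al w = θ)).card : ℤ) ≤ (cl c u a).card := by
          exact_mod_cast h1
        have e3 : (((XX u v).filter (fun w => ga w = θ)).card : ℤ) ≤ (cl c v a).card := by
          exact_mod_cast h2
        linarith
      exact_mod_cast h6

end H
end ZS44129
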