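import Pool.Agent.Work.MP_44129c_co.H.D1
import Pool.Agent.Work.MP_44129c_co.G.CosDeg

/-!
# MP_44129c_co/H, D2 (size M): `lp_beta`

`cl_le`: `G.coset_deg c h.zsf u ⊥` (`2 * 1 ≤ m + 2`): `#{x ≠ u : c u x - r ∈ ⊥} + 2 ≤ m + 1`, and `c u x - r ∈ ⊥` iff `c u x = r`.

PROOF of `lp_beta'`.  `B = {x ∈ cl c u r : x ≠ v, c v x ≠ r}` is a set of positions with different colours.  Unpack `hl` (`g`, `β`,
`z0`, `al`, `ga`), `dich`.
* `Cen`: `|B| ≤ Df ≤ nD ≤ ∑ cost` and `∑ cost + s + 1 ≤ m`.
* `Non`, `(θ : ZMod m) = g * r - β`: on the positions of `nF` (`al = ga = θ`) the colours `c u x`, `c v x` are both `r` (as in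
  `cls_u`), so they are in `cl c u r` and not in `B`; hence `|B| + nF ≤ |cl c u r| ≤ m - 1`, and `s ≤ nF`.
* `Non`, `(θ : ZMod m) ≠ g * r - β`: for `x ∈ B`: `al x ≠ θ` (`al x ≡ g * r - β`), `al x ≠ ga x` (different colours).  Those with
  `ga x ≠ θ` are counted by `nD2`; those with `ga x = θ` have `c v x = r'`, `r' := g⁻¹ * (θ + β)`, as well as the positions of `nF`
  (which have `al x = θ`, so they are different from the former), so their number plus `nF` is `≤ |cl c v r'| ≤ m - 1`.
  Together `|B| ≤ (m - 1 - nF) + nD2 ≤ m - 1 - s` by `nf : s + nD2 ≤ nF`.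
-/

set_option autoImplicit false

namespace ZS44129
namespace H

open Finset E N

variable {V : Type} [Fintype V] [DecidableEq V] {m : ℕ}

theorem cl_le [NeZero m] {c : V → V → ZMod m} {s : ℕ} (h : HS c s) (u : V) (r : ZMod m) : (cl c u r).card + 1 ≤ m := by
  classical
  have hb : Nat.card (⊥ : AddSubgroup (ZMod m)) = 1 := AddSubgroup.card_bot
  have h1 := G.coset_deg c h.zsf u ⊥ (by rw [hb]; omega) r
  rw [hb] at h1
  have h2 : (cl c u r).card ≤
      ((univ.erase u).filter (fun x => c u x - r ∈ (⊥ : AddSubgroup (ZMod m)))).card := by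
    refine Finset.card_le_card fun x hx => ?_
    obtain ⟨h3, h4⟩ := mem_cl.1 hx
    refine Finset.mem_filter.2 ⟨Finset.mem_erase.2 ⟨h3, Finset.mem_univ x⟩, ?_⟩
    rw [AddSubgroup.mem_bot, h4, sub_self]
  omega

private theorem d2_unit [NeZero m] (g : (ZMod m)ˣ) {a b β : ZMod m}
    (h : (g : ZMod m) * a - β = (g : ZMod m) * b - β) : a = b := by
  have h1 : (g : ZMod m) * a = (g : ZMod m) * b := sub_left_injective h
  exact (Units.mul_right_inj g).1 h1

/-- D2 (interface). -/
theorem lp_beta' [NeZero m] {c : V → V → ZMod m} {s : ℕ} (h : HS c s) {u v : V} (hl : Lp c u v) (r : ZMod m) :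
    (((cl c u r).erase v).filter (fun x => c v x ≠ r)).card + s + 1 ≤ m := by
  obtain ⟨hD, g, β, z0, al, ga, hP⟩ := hl
  obtain ⟨hs, hm, hD'⟩ := lp_nD h hD hP
  have hdf := df_le_nD hP
  have hB : ∀ x ∈ ((cl c u r).erase v).filter (fun x => c v x ≠ r),
      x ≠ u ∧ x ≠ v ∧ c u x = r ∧ c v x ≠ r := by
    intro x hx
    obtain ⟨h1, h2⟩ := Finset.mem_filter.1 hx
    obtain ⟨h3, h4⟩ := Finset.mem_erase.1 h1
    obtain ⟨h5, h6⟩ := mem_cl.1 h4
    exact ⟨h5, h3, h6, h2⟩
  rcases dich hP h.card hs hm hD' with ⟨θ, hC⟩ | ⟨θ, hN⟩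
  · unfold Cen at hC
    have h1 : (nD u v al ga : ℤ) ≤ ∑ w ∈ XX u v, cost θ (al w) (ga w) := by
      have h2 : ((((XX u v).filter (fun w => al w ≠ ga w)).card : ℕ) : ℤ) ≤
          ∑ w ∈ (XX u v).filter (fun w => al w ≠ ga w), cost θ (al w) (ga w) := by
        have := Finset.card_nsmul_le_sum ((XX u v).filter (fun w => al w ≠ ga w))
          (fun w => cost θ (al w) (ga w)) 1
          (fun w hw => one_le_cost θ (Finset.mem_filter.1 hw).2)
        simpa using this
      have h3 : ∑ w ∈ (XX u v).filter (fun w => al w ≠ ga w), cost θ (al w) (ga w) ≤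
          ∑ w ∈ XX u v, cost θ (al w) (ga w) :=
        Finset.sum_le_sum_of_subset_of_nonneg (Finset.filter_subset _ _)
          (fun w _ _ => cost_nonneg θ _ _)
      exact h2.trans h3
    have h2 : (Df c u v : ℤ) + s + 1 ≤ m := by
      have : (Df c u v : ℤ) ≤ nD u v al ga := by exact_mod_cast hdf
      linarith
    have h3 : Df c u v + s + 1 ≤ m := by exact_mod_cast h2
    have h4 : (((cl c u r).erase v).filter (fun x => c v x ≠ r)).card ≤ Df c u v := by
      unfold Df
      refine Finset.card_le_card fun x hx => ?_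
      obtain ⟨a1, a2, a3, a4⟩ := hB x hx
      refine Finset.mem_filter.2 ⟨mem_XX.2 ⟨a1, a2⟩, ?_⟩
      rw [a3]
      exact fun he => a4 he.symm
    omega
  · have hnf := hN.nf
    have hF : ∀ x ∈ (XX u v).filter (fun w => al w = θ ∧ ga w = θ),
        x ≠ u ∧ x ≠ v ∧ al x = θ ∧ ga x = θ := by
      intro x hx
      obtain ⟨h1, h2, h3⟩ := Finset.mem_filter.1 hx
      obtain ⟨h4, h5⟩ := mem_XX.1 h1
      exact ⟨h4, h5, h2, h3⟩
    by_cases hr : (θ : ZMod m) = (g : ZMod m) * r - β
    · have hFc : ∀ x ∈ (XX u v).filter (fun w => al w = θ ∧ ga w = θ), c u x = r ∧ c v x = r := by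
        intro x hx
        obtain ⟨a1, a2, a3, a4⟩ := hF x hx
        have h6 := hP.hu x a1 a2
        have h7 := hP.hx x a1 a2
        rw [a3, hr] at h6
        rw [a4, hr] at h7
        exact ⟨(d2_unit g h6).symm, (d2_unit g h7).symm⟩
      have hdis : Disjoint (((cl c u r).erase v).filter (fun x => c v x ≠ r))
          ((XX u v).filter (fun w => al w = θ ∧ ga w = θ)) := by
        rw [Finset.disjoint_left]
        intro x h1 h2
        exact (hB x h1).2.2.2 (hFc x h2).2
      have hsub : (((cl c u r).erase v).filter (fun x => c v x ≠ r)) ∪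
          ((XX u v).filter (fun w => al w = θ ∧ ga w = θ)) ⊆ cl c u r := by
        intro x hx
        rcases Finset.mem_union.1 hx with h1 | h1
        · obtain ⟨a1, a2, a3, a4⟩ := hB x h1
          exact mem_cl.2 ⟨a1, a3⟩
        · exact mem_cl.2 ⟨(hF x h1).1, (hFc x h1).1⟩
      have h1 := Finset.card_le_card hsub
      rw [Finset.card_union_of_disjoint hdis] at h1
      have h2 := cl_le h u r
      unfold nF at hnf
      omega
    · obtain ⟨r', hr'⟩ : ∃ r', r' = ((g⁻¹ : (ZMod m)ˣ) : ZMod m) * ((θ : ZMod m) + β) := ⟨_, rfl⟩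
      have hgr : (θ : ZMod m) = (g : ZMod m) * r' - β := by
        rw [hr', ← mul_assoc, ← Units.val_mul, mul_inv_cancel, Units.val_one, one_mul]
        ring
      have hBa : ∀ x ∈ ((cl c u r).erase v).filter (fun x => c v x ≠ r), al x ≠ θ ∧ al x ≠ ga x := by
        intro x hx
        obtain ⟨a1, a2, a3, a4⟩ := hB x hx
        have h6 := hP.hu x a1 a2
        have h7 := hP.hx x a1 a2
        constructor
        · intro he
          apply hr
          rw [← he, h6, a3]
        · intro he
          apply a4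
          rw [← a3]
          rw [he] at h6
          exact (d2_unit g (h6.symm.trans h7)).symm
      -- split by ga x = θ
      have hsplit := Finset.card_filter_add_card_filter_not
        (s := ((cl c u r).erase v).filter (fun x => c v x ≠ r)) (fun x => ga x ≠ θ)
      have h1 : ((((cl c u r).erase v).filter (fun x => c v x ≠ r)).filter (fun x => ga x ≠ θ)).card ≤
          nD2 θ u v al ga := by
        unfold nD2
        refine Finset.card_le_card fun x hx => ?_
        obtain ⟨h2, h3⟩ := Finset.mem_filter.1 hx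
        obtain ⟨a1, a2, a3, a4⟩ := hB x h2
        exact Finset.mem_filter.2 ⟨mem_XX.2 ⟨a1, a2⟩, (hBa x h2).2, (hBa x h2).1, h3⟩
      have hdis : Disjoint ((((cl c u r).erase v).filter (fun x => c v x ≠ r)).filter (fun x => ¬ ga x ≠ θ))
          ((XX u v).filter (fun w => al w = θ ∧ ga w = θ)) := by
        rw [Finset.disjoint_left]
        intro x h2 h3
        exact (hBa x (Finset.mem_filter.1 h2).1).1 (hF x h3).2.2.1
      have hsub : ((((cl c u r).erase v).filter (fun x => c v x ≠ r)).filter (fun x => ¬ ga x ≠ θ)) ∪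
          ((XX u v).filter (fun w => al w = θ ∧ ga w = θ)) ⊆ cl c v r' := by
        intro x hx
        have key : ∀ y, y ≠ u → y ≠ v → ga y = θ → y ∈ cl c v r' := by
          intro y b1 b2 b3
          have h7 := hP.hx y b1 b2
          rw [b3, hgr] at h7
          exact mem_cl.2 ⟨b2, (d2_unit g h7).symm⟩
        rcases Finset.mem_union.1 hx with h2 | h2
        · obtain ⟨h3, h4⟩ := Finset.mem_filter.1 h2
          obtain ⟨a1, a2, a3, a4⟩ := hB x h3
          exact key x a1 a2 (not_not.1 h4)
        · obtain ⟨a1, a2, a3, a4⟩ := hF x h2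
          exact key x a1 a2 a4
      have h2 := Finset.card_le_card hsub
      rw [Finset.card_union_of_disjoint hdis] at h2
      have h3 := cl_le h v r'
      unfold nF at hnf
      omega

end H
end ZS44129
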