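import Pool.Agent.Work.MP_44129c_co.H.IP
import Pool.Agent.Work.MP_44129c_co.G.C1K

/-!
# MP_44129c_co/H, D3 (size M): the counting of the roots

PROOF of `nb_ge`.  `K = K6 m`, `Nat.card K = kap m ≤ 6` (`card_K6` of P1).  `x ∈ G.cls c u K r` as `c u x - r = 0`.  If
`nb c u x K r + |K| ≤ s`, `G.c1_exc` gives `P1`, `r1` with `c u x - r1 ∉ P1` and `(#{z ∈ (cls).erase x : c u z - r1 ∉ P1} + 2) |P1| ≤ |K|`;
all `z ∈ (cl c u r).erase x` are in this set (`c u z = r = c u x`), so `(|cl c u r| - 1 + 2) * 1 ≤ 6`, contradiction to `6 ≤ |cl c u r|`.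
PROOF of `beta_sum'`.  Sum `nb_ge` over `x ∈ cl c u r` and exchange the sums (`Finset.sum_comm'` or
`Finset.sum_card_bipartiteAbove_eq_sum_card_bipartiteBelow`): `z ∈ XX u x`, `c u z - r ∉ K6`, `c x z - r ∉ K6` means `z ≠ u`,
`6 * c u z ≠ 6 * r`, and (`h.sym`) `6 * c z x ≠ 6 * r`; `z ≠ x` is automatic (`c u x = r`).
-/

set_option autoImplicit false

namespace ZS44129
namespace H

open Finset E N

variable {V : Type} [Fintype V] [DecidableEq V] {m : ℕ}

private theorem kap_le : kap m ≤ 6 := by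
  unfold kap
  exact Nat.gcd_le_left m (by norm_num)

theorem nb_ge [NeZero m] {c : V → V → ZMod m} {s : ℕ} (h : HS c s) (u : V) (r : ZMod m)
    (h6 : 6 ≤ (cl c u r).card) {x : V} (hx : x ∈ cl c u r) :
    s + 1 ≤ G.nb c u x (K6 m) r + kap m := by
  classical
  by_contra hcon
  have hk := kap_le (m := m)
  have hf := h.rng.facts
  have hK : Nat.card (K6 m) = kap m := card_K6
  have hcls : ∀ z ∈ cl c u r, z ∈ G.cls c u (K6 m) r := by
    intro z hz
    obtain ⟨h1, h2⟩ := mem_cl.1 hz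
    refine G.mem_cls.2 ⟨h1, ?_⟩
    rw [h2, sub_self]
    exact (K6 m).zero_mem
  obtain ⟨P1, r1, h1, h2, h3, h4⟩ := G.c1_exc c h.zsf h.card (K6 m) (by omega) u r (hcls x hx)
    (by omega)
  have hp : 0 < Nat.card P1 := Nat.card_pos
  have h5 : ((cl c u r).erase x).card ≤
      (((G.cls c u (K6 m) r).erase x).filter (fun z => c u z - r1 ∉ P1)).card := by
    apply Finset.card_le_card
    intro z hz
    obtain ⟨hzx, hzc⟩ := Finset.mem_erase.1 hz
    rw [Finset.mem_filter]
    refine ⟨Finset.mem_erase.2 ⟨hzx, hcls z hzc⟩, ?_⟩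
    have e1 : c u z = c u x := by
      rw [(mem_cl.1 hzc).2, (mem_cl.1 hx).2]
    rw [e1]
    exact h3
  have h6' : ((cl c u r).erase x).card + 1 = (cl c u r).card := Finset.card_erase_add_one hx
  have h7 : 7 * 1 ≤ ((((G.cls c u (K6 m) r).erase x).filter (fun z => c u z - r1 ∉ P1)).card + 2) *
      Nat.card P1 := Nat.mul_le_mul (by omega) hp
  omega

private theorem mem_K6_iff {a r : ZMod m} : a - r ∈ K6 m ↔ 6 * a = 6 * r := by
  rw [mem_K6, mul_sub, sub_eq_zero]

/-- interface. -/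
theorem beta_sum' [NeZero m] {c : V → V → ZMod m} {s : ℕ} (h : HS c s) (u : V) (r : ZMod m)
    (h6 : 6 ≤ (cl c u r).card) :
    (s + 1) * (cl c u r).card ≤ kap m * (cl c u r).card +
      ∑ z ∈ (univ.erase u).filter (fun z => 6 * c u z ≠ 6 * r), ((cl c u r).filter (fun x => 6 * c z x ≠ 6 * r)).card := by
  classical
  have h1 : ∀ x ∈ cl c u r, s + 1 ≤
      (((univ.erase u).filter (fun z => 6 * c u z ≠ 6 * r)).filter
        (fun z => 6 * c z x ≠ 6 * r)).card + kap m := by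
    intro x hx
    refine le_trans (nb_ge h u r h6 hx) (Nat.add_le_add_right ?_ _)
    unfold G.nb
    apply Finset.card_le_card
    intro z hz
    rw [Finset.mem_filter, G.mem_XX] at hz
    obtain ⟨⟨hzu, hzx⟩, hz1, hz2⟩ := hz
    rw [mem_K6_iff] at hz1 hz2
    rw [Finset.mem_filter, Finset.mem_filter, Finset.mem_erase]
    refine ⟨⟨⟨hzu, Finset.mem_univ z⟩, hz1⟩, ?_⟩
    rw [h.sym z x]
    exact hz2
  have h2 := Finset.sum_le_sum h1
  rw [Finset.sum_const, smul_eq_mul, Finset.sum_add_distrib, Finset.sum_const, smul_eq_mul] at h2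
  have h3 : ∑ x ∈ cl c u r, (((univ.erase u).filter (fun z => 6 * c u z ≠ 6 * r)).filter
        (fun z => 6 * c z x ≠ 6 * r)).card =
      ∑ z ∈ (univ.erase u).filter (fun z => 6 * c u z ≠ 6 * r),
        ((cl c u r).filter (fun x => 6 * c z x ≠ 6 * r)).card := by
    simp only [Finset.card_filter]
    exact Finset.sum_comm
  rw [h3, mul_comm (cl c u r).card (s + 1), mul_comm (cl c u r).card (kap m)] at h2
  omega

end H
end ZS44129
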