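import Pool.Agent.Work.MP_44129c_co.H.D2
import Pool.Agent.Work.MP_44129c_co.H.D3

/-!
# MP_44129c_co/H, D4 (size M): first bound of the colour classes

PROOF of `beta_le`.  `A = cl c u r`, `z` with `c u z ≠ r` (so `z ∉ A`).  `β_z = #{x ∈ A : 6 c z x ≠ 6 r}`.  If `Lp c u z`: such an `x` is
`≠ z` and has `c z x ≠ r`, so `β_z + s + 1 ≤ m` by `lp_beta'`.  If `¬ Lp c u z` and `2 DD c u z K6 ≤ m`: such an `x` is a position of the
pair `u z` with `c u x - c z x = r - c z x ∉ K6`, so `β_z ≤ DD c u z K6 ≤ m / 2` and `m / 2 + s + 1 ≤ m` (`3 s + 3 ≤ m`).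
PROOF of `class_le0'`.  `beta_sum'`; `B = {z ≠ u : 6 c u z ≠ 6 r}`, `|B| + |A| ≤ m + s - 1` (`B` and `A` are disjoint in `univ.erase u`).
`β_z ≤ (m - s - 1) + (if z is heavy then |A| else 0)`, heavy: `m < 2 DD c u z K6 ∧ ¬ Lp c u z`; `heavyK_le`.
-/

set_option autoImplicit false

namespace ZS44129
namespace H

open Finset E N

variable {V : Type} [Fintype V] [DecidableEq V] {m : ℕ}

theorem beta_le [NeZero m] {c : V → V → ZMod m} {s : ℕ} (h : HS c s) {u z : V} {r : ZMod m} (hzu : z ≠ u)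
    (hz : c u z ≠ r) (hh : ¬ (m < 2 * G.DD c u z (K6 m) ∧ ¬ Lp c u z)) :
    ((cl c u r).filter (fun x => 6 * c z x ≠ 6 * r)).card + s + 1 ≤ m := by
  classical
  have hf := h.rng.facts
  by_cases hl : Lp c u z
  · have h1 := lp_beta' h hl r
    have h2 : (cl c u r).filter (fun x => 6 * c z x ≠ 6 * r) ⊆
        ((cl c u r).erase z).filter (fun x => c z x ≠ r) := by
      intro x hx
      obtain ⟨hx1, hx2⟩ := Finset.mem_filter.1 hx
      obtain ⟨hx3, hx4⟩ := mem_cl.1 hx1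
      refine Finset.mem_filter.2 ⟨Finset.mem_erase.2 ⟨fun h3 => hz ?_, hx1⟩, fun h3 => hx2 ?_⟩
      · rw [← h3]
        exact hx4
      · rw [h3]
    have h3 := Finset.card_le_card h2
    omega
  · have h1 : ¬ (m < 2 * G.DD c u z (K6 m)) := fun h2 => hh ⟨h2, hl⟩
    have h2 : ((cl c u r).filter (fun x => 6 * c z x ≠ 6 * r)).card ≤ G.DD c u z (K6 m) := by
      unfold G.DD G.Dn
      refine Finset.card_le_card fun x hx => ?_
      obtain ⟨hx1, hx2⟩ := Finset.mem_filter.1 hx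
      obtain ⟨hx3, hx4⟩ := mem_cl.1 hx1
      refine Finset.mem_filter.2 ⟨(G.mem_XX).2 ⟨hx3, fun h3 => hz ?_⟩, fun h3 => hx2 ?_⟩
      · rw [← h3]
        exact hx4
      · rw [mem_K6, hx4, mul_sub, sub_eq_zero] at h3
        exact h3.symm
    omega

/-- interface. -/
theorem class_le0' [NeZero m] {c : V → V → ZMod m} {s : ℕ} (h : HS c s) (u : V) (r : ZMod m)
    (h6 : 6 ≤ (cl c u r).card) :
    (s + 1) * (cl c u r).card ≤ (kap m + hvy m) * (cl c u r).card +
      (m + s - 1 - (cl c u r).card) * (m - s - 1) := by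
  classical
  have h1 := beta_sum' h u r h6
  obtain ⟨Hv, hHv, hmem⟩ : ∃ Hv : Finset V, Hv.card ≤ hvy m ∧
      ∀ z, z ≠ u → (m < 2 * G.DD c u z (K6 m) ∧ ¬ Lp c u z) → z ∈ Hv :=
    ⟨_, heavyK_le h u, fun z hz1 hz2 =>
      Finset.mem_filter.2 ⟨Finset.mem_erase.2 ⟨hz1, Finset.mem_univ z⟩, hz2⟩⟩
  obtain ⟨B, hB⟩ : ∃ B : Finset V, B = (univ.erase u).filter (fun z => 6 * c u z ≠ 6 * r) :=
    ⟨_, rfl⟩
  obtain ⟨A, hA⟩ : ∃ A : Finset V, A = cl c u r := ⟨_, rfl⟩
  rw [← hB] at h1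
  have h2 : ∀ z ∈ B, ((cl c u r).filter (fun x => 6 * c z x ≠ 6 * r)).card ≤
      (m - s - 1) + (if z ∈ Hv then A.card else 0) := by
    intro z hz
    rw [hB] at hz
    obtain ⟨hz1, hz2⟩ := Finset.mem_filter.1 hz
    have hzu := (Finset.mem_erase.1 hz1).1
    by_cases h3 : z ∈ Hv
    · rw [if_pos h3, hA]
      exact (Finset.card_filter_le _ _).trans (Nat.le_add_left _ _)
    · rw [if_neg h3]
      have h4 := beta_le h hzu (r := r) (fun h5 => hz2 (by rw [h5])) (fun h5 => h3 (hmem z hzu h5))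
      omega
  have h3 := Finset.sum_le_sum h2
  rw [Finset.sum_add_distrib, Finset.sum_const, smul_eq_mul, ← Finset.sum_filter,
    Finset.sum_const, smul_eq_mul] at h3
  have h4 : (B.filter (fun z => z ∈ Hv)).card ≤ hvy m := by
    refine le_trans (Finset.card_le_card fun z hz => ?_) hHv
    exact (Finset.mem_filter.1 hz).2
  have h5 : B.card + A.card ≤ m + s - 1 := by
    have h6 : Disjoint B A := by
      rw [Finset.disjoint_left]
      intro x hx1 hx2
      rw [hB] at hx1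
      rw [hA] at hx2
      exact (Finset.mem_filter.1 hx1).2 (by rw [(mem_cl.1 hx2).2])
    have h7 : B ∪ A ⊆ univ.erase u := by
      intro x hx
      rcases Finset.mem_union.1 hx with h8 | h8
      · rw [hB] at h8
        exact (Finset.mem_filter.1 h8).1
      · rw [hA] at h8
        exact Finset.mem_erase.2 ⟨(mem_cl.1 h8).1, Finset.mem_univ x⟩
    have h8 := Finset.card_le_card h7
    rw [Finset.card_union_of_disjoint h6, Finset.card_erase_of_mem (Finset.mem_univ u),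
      Finset.card_univ, h.card] at h8
    exact h8
  rw [← hA] at h1 h3 ⊢
  have h9 : B.card * (m - s - 1) ≤ (m + s - 1 - A.card) * (m - s - 1) :=
    Nat.mul_le_mul_right _ (by omega)
  have h10 : (B.filter (fun z => z ∈ Hv)).card * A.card ≤ hvy m * A.card :=
    Nat.mul_le_mul_right _ h4
  have h11 := h1.trans (Nat.add_le_add_left (h3.trans (Nat.add_le_add h9 h10)) _)
  refine h11.trans (le_of_eq ?_)
  rw [add_mul]
  ring

end H
end ZS44129
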