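import Pool.Agent.Work.MP_44129c_co.H.Defs
import Pool.Agent.Work.MP_44129c_co.N.C34

/-!
# MP_44129c_co/H, DDefs (FIXED, do not change): costs of a position for the noncentral threshold
-/

set_option autoImplicit false

namespace ZS44129
namespace H

open Finset E N

variable {V : Type} [Fintype V] [DecidableEq V] {m : ℕ}

/-- cost of a position with lifts `a`, `b` for the noncentral threshold `θ`. -/
def cc (θ a b : ℤ) : ℤ := max (max a b - θ) 0 + max (θ - min a b) 0

/-- base cost: `0` if `a = b = θ`, `2` if `a ≠ b` and both are different from `θ`, else `1`. -/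
def bs (θ a b : ℤ) : ℤ := (if a = θ ∧ b = θ then 0 else 1) + (if a ≠ b ∧ a ≠ θ ∧ b ≠ θ then 1 else 0)

/-- the number of positions with different lifts. -/
def nD (u v : V) (al ga : V → ℤ) : ℕ := ((XX u v).filter (fun w => al w ≠ ga w)).card

/-- the number of positions with different lifts, both different from `θ`. -/
def nD2 (θ : ℤ) (u v : V) (al ga : V → ℤ) : ℕ :=
  ((XX u v).filter (fun w => al w ≠ ga w ∧ al w ≠ θ ∧ ga w ≠ θ)).card

/-- the number of positions with both lifts equal to `θ`. -/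
def nF (θ : ℤ) (u v : V) (al ga : V → ℤ) : ℕ := ((XX u v).filter (fun w => al w = θ ∧ ga w = θ)).card

/-- the central case of the dichotomy `N.c3`. -/
def Cen (s m : ℕ) (θ : ℤ) (u v : V) (al ga : V → ℤ) : Prop :=
  ∑ w ∈ XX u v, cost θ (al w) (ga w) + s + 1 ≤ m

/-- the noncentral case of the dichotomy `N.c3`. -/
structure Non (s m : ℕ) (θ z0 : ℤ) (u v : V) (al ga : V → ℤ) : Prop where
  ne : (z0 : ZMod m) ≠ (θ : ZMod m)
  tot : ∑ w ∈ XX u v, cc θ (al w) (ga w) + 2 ≤ m
  cls : (nD u v al ga : ℤ) + 2 * s + nD2 θ u v al ga + 2 * ∑ w ∈ XX u v, (cc θ (al w) (ga w) - bs θ (al w) (ga w)) ≤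
    ((XX u v).filter (fun w => al w = θ)).card + ((XX u v).filter (fun w => ga w = θ)).card
  nf : s + nD2 θ u v al ga ≤ nF θ u v al ga

end H
end ZS44129
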