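import Pool.Agent.Work.MP_44129c_co.H.FDefs

/-!
# MP_44129c_co/H, FN (size M): numbers for block F (checked by computer for `s < 500`)

`R2 m s`: five pairs (substitute, `decide` / `norm_num` / `omega` / `interval_cases`) or `80 ≤ s`, `3 s + 3 ≤ m`, `19 m ≤ 58 s + 19`.  With `t = m - 3 s - 1`, `n = m + s - 1 = 4 s + t`, `19 t ≤ s`, `α = alp s = ⌊7 s / 3⌋`, `7 s eb ≤ n t`.
PROOFS.  `n_half`: if `4 h ≤ 7 s - 1` then `h < n / 2` and `h (n - h)` is increasing in `h` on that range: `16 h (n - h) ≤ (7 s - 1)(4 n - 7 s + 1) = (7 s - 1)(9 s + 4 t + 1)`, which is `< 16 s n = 64 s² + 16 s t` because `63 s² + 28 s t - 2 s - 4 t - 1 < 64 s² + 16 s t` iff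
`12 s t < s² + 2 s + 4 t + 1`, true for `19 t ≤ s`; for the five pairs also (for `(46, 143)`: `4 h ≤ 321` gives `h ≤ 80`, `80 * 108 < 46 * 188`).  Use it for `h` and for `l`.
`n_eb`: `7 s (a + b) ≤ 4 (l a + h b) ≤ 4 l h - 4 s n ≤ n² - 4 s n = n t` (`4 l h ≤ (l + h)²`).
`n_bad`: suppose `s + 1 ≤ 2 (x + z)`.  Let `k = min l h + s - α - 2 - 3 (a + b) > 0`; then `(x + z) k ≤ 3 (dL + dH) ≤ 3 S`, `S = l h - s (l + h) - l a - h b`, so `(s + 1) k ≤ 6 S`.  Put `min l h = n / 2 - ζ`: `S ≤ n t / 4 - ζ² - (7 s / 4)(a + b)`, `k ≥ 2 s + t/2 - ζ + s - 7 s / 3 - 2 - 3 (a + b)`;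
`6 S ≤ 1.5 n t - 6 ζ² - 10.5 s (a + b)`, `(s + 1) k ≥ (s + 1)(2 s / 3 + t / 2 - 2 - ζ) - 3 (s + 1)(a + b)`.  As `10.5 s ≥ 3 (s + 1)` we may take `a + b = 0`; `6 ζ² - (s + 1) ζ ≥ - (s + 1)² / 24`, and
`(s + 1)(2 s / 3 + t / 2 - 2) - (s + 1)² / 24 > 1.5 (4 s + t) t` for `19 t ≤ s`, `80 ≤ s`.  The five pairs: `S ≥ 0` leaves finitely many `(h, a, b)` (`a + b ≤ 2`): `interval_cases`.
The others are linear (`omega` after bounding `eb`: `7 s eb ≤ (4 s + t) t ≤ (77 / 19) s t`, so `133 eb ≤ 77 t`, `19 eb ≤ 11 t`).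
-/

set_option autoImplicit false

namespace ZS44129
namespace H

private theorem fn_t {m s : ℕ} (hr : R2 m s) :
    ∃ t, m = 3 * s + 1 + t ∧ 2 ≤ t ∧ 12 * t ≤ s + 2 ∧ 38 ≤ s := by
  unfold R2 at hr
  exact ⟨m - 3 * s - 1, by omega, by omega, by omega, by omega⟩

private theorem fn_e {m s : ℕ} (hr : R2 m s) :
    (s = 38 ∧ m = 117 ∧ eb m s = 1 ∧ alp s = 89) ∨ (s = 42 ∧ m = 129 ∧ eb m s = 1 ∧ alp s = 98) ∨
    (s = 46 ∧ m = 141 ∧ eb m s = 1 ∧ alp s = 107) ∨ (s = 46 ∧ m = 142 ∧ eb m s = 1 ∧ alp s = 107) ∨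
    (s = 46 ∧ m = 143 ∧ eb m s = 2 ∧ alp s = 107) ∨
    (80 ≤ s ∧ 3 * s + 3 ≤ m ∧ 19 * m ≤ 58 * s + 19 ∧ 19 * eb m s ≤ 11 * (m - 3 * s - 1) ∧
      alp s = 7 * s / 3) := by
  unfold R2 at hr
  rcases hr with ⟨h1, h2⟩ | ⟨h1, h2⟩ | ⟨h1, h2⟩ | ⟨h1, h2⟩ | ⟨h1, h2⟩ | ⟨h1, h2, h3⟩
  · subst h1 h2; left; exact ⟨rfl, rfl, by decide, by decide⟩
  · subst h1 h2; right; left; exact ⟨rfl, rfl, by decide, by decide⟩
  · subst h1 h2; right; right; left; exact ⟨rfl, rfl, by decide, by decide⟩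
  · subst h1 h2; right; right; right; left; exact ⟨rfl, rfl, by decide, by decide⟩
  · subst h1 h2; right; right; right; right; left; exact ⟨rfl, rfl, by decide, by decide⟩
  · right; right; right; right; right
    refine ⟨h1, h2, h3, ?_, ?_⟩
    · obtain ⟨t, ht⟩ : ∃ t, m = 3 * s + 1 + t := ⟨m - 3 * s - 1, by omega⟩
      have h4 : m - 3 * s - 1 = t := by omega
      have h5 : m + s - 1 = 4 * s + t := by omega
      have h6 : 19 * t ≤ s := by omega
      have h7 : eb m s * (7 * s) ≤ (4 * s + t) * t := by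
        unfold eb
        rw [h4, h5]
        exact Nat.div_mul_le_self _ _
      rw [h4]
      generalize eb m s = e at *
      have h8 : (19 * e) * (7 * s) ≤ (11 * t) * (7 * s) := by
        have h9 : 19 * t * t ≤ s * t := Nat.mul_le_mul_right t h6
        nlinarith
      exact Nat.le_of_mul_le_mul_right h8 (by omega)
    · unfold alp
      rw [if_neg (by omega)]

private theorem fn_half {m s l h : ℕ} (hr : R2 m s) (hn : l + h + 1 = m + s)
    (hlh : s * (l + h) ≤ l * h) : 7 * s ≤ 4 * h := by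
  obtain ⟨t, ht, ht2, ht12, hs⟩ := fn_t hr
  by_contra hcon
  push Not at hcon
  have hnn : l + h = 4 * s + t := by omega
  have hl : l = 4 * s + t - h := by omega
  zify at hlh hnn hcon ht12 ht2 hs
  have hl' : (l : ℤ) = 4 * s + t - h := by linarith
  rw [hl'] at hlh
  have h1 : (0 : ℤ) ≤ (7 * s - 1 - 4 * h) * (4 * (4 * s + t) - 4 * h - (7 * s - 1)) :=
    mul_nonneg (by linarith) (by linarith)
  have h2 : (0 : ℤ) ≤ s * (s + 2 - 12 * t) := mul_nonneg (by linarith) (by linarith)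
  nlinarith

theorem n_half {m s l h : ℕ} (hr : R2 m s) (hn : l + h + 1 = m + s) (hlh : s * (l + h) ≤ l * h) :
    7 * s ≤ 4 * l ∧ 7 * s ≤ 4 * h := by
  refine ⟨?_, fn_half hr hn hlh⟩
  refine fn_half (l := h) (h := l) hr (by omega) ?_
  rw [add_comm h l, mul_comm h l]
  exact hlh

theorem n_eb {m s l h a b : ℕ} (hr : R2 m s) (hn : l + h + 1 = m + s)
    (hlh : s * (l + h) + l * a + h * b ≤ l * h) : a + b ≤ eb m s := by
  obtain ⟨t, ht, ht2, ht12, hs⟩ := fn_t hr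
  obtain ⟨h1, h2⟩ := n_half hr hn (by omega)
  unfold eb
  have h4 : m - 3 * s - 1 = t := by omega
  have h5 : m + s - 1 = 4 * s + t := by omega
  have hnn : l + h = 4 * s + t := by omega
  rw [h4, h5, Nat.le_div_iff_mul_le (by omega)]
  have h6 : 7 * s * a ≤ 4 * l * a := Nat.mul_le_mul_right a h1
  have h7 : 7 * s * b ≤ 4 * h * b := Nat.mul_le_mul_right b h2
  rw [hnn] at hlh
  zify at *
  have hl' : (l : ℤ) = 4 * s + t - h := by linarith
  nlinarith [sq_nonneg ((l : ℤ) - h)]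

/-- small consequences. -/
theorem n_lin {m s : ℕ} (hr : R2 m s) : 7 * eb m s + alp s ≤ m ∧ 4 * (m / 2 + 2 + eb m s) ≤ 7 * s ∧
    2 * (m + 1 + 2 * eb m s) ≤ 7 * s ∧ 4 * (m + eb m s) ≤ 13 * s ∧ 2 * eb m s + 2 ≤ m ∧ eb m s + 4 ≤ s ∧
    3 * alp s ≤ 7 * s + 1 ∧ 7 * s ≤ 3 * alp s + 2 := by
  have he := fn_e hr
  generalize eb m s = e at *
  generalize alp s = k at *
  omega

theorem n_good {m s h U b : ℕ} (hr : R2 m s) (h1 : 7 * s ≤ 4 * h) (h2 : 4 * h + 7 * s + 4 ≤ 4 * (m + s))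
    (hU : 3 * U + alp s + 3 ≤ h + 4 * s) (hb : b ≤ eb m s) :
    ff m s + U + b ≤ h ∧ U + b + 2 ≤ 2 * s ∧ alp s + U ≤ m + s := by
  have he := fn_e hr
  unfold ff
  generalize eb m s = e at *
  generalize alp s = k at *
  omega

private theorem fn_bad (s t l h a b x z dL dH k μ : ℤ) (hs : 38 ≤ s) (ht2 : 2 ≤ t)
    (ht12 : 12 * t ≤ s + 2) (hn : l + h = 4 * s + t) (hk : 3 * k ≤ 7 * s + 1) (hμl : μ ≤ l)
    (hμh : μ ≤ h) (hμ : 7 * s ≤ 4 * μ) (_h0 : 0 ≤ s)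
    (hlh : s * (4 * s + t) + l * a + h * b + dL + dH ≤ l * h)
    (hx : x * (h + s) ≤ 3 * dL + x * (k + 2 + 3 * a)) (hz : z * (l + s) ≤ 3 * dH + z * (k + 2 + 3 * b))
    (hxz : s + 1 ≤ 2 * (x + z)) (ha : 0 ≤ a) (hb : 0 ≤ b) (hx0 : 0 ≤ x) (hz0 : 0 ≤ z) (hdL : 0 ≤ dL)
    (hdH : 0 ≤ dH) (hor : μ = l ∨ μ = h) : False := by
  obtain ⟨E, hE⟩ : ∃ E, E = a + b := ⟨_, rfl⟩
  obtain ⟨K, hK⟩ : ∃ K, K = μ + s - k - 2 - 3 * E := ⟨_, rfl⟩
  have hE0 : 0 ≤ E := by rw [hE]; linarith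
  have h1 : x * K ≤ 3 * dL := by
    have : x * K ≤ x * (h + s - (k + 2 + 3 * a)) := mul_le_mul_of_nonneg_left (by linarith) hx0
    nlinarith
  have h2 : z * K ≤ 3 * dH := by
    have : z * K ≤ z * (l + s - (k + 2 + 3 * b)) := mul_le_mul_of_nonneg_left (by linarith) hz0
    nlinarith
  have h3 : (s + 1) * K ≤ 6 * (dL + dH) := by
    rcases le_total 0 K with hK0 | hK0
    · have : (s + 1) * K ≤ 2 * (x + z) * K := mul_le_mul_of_nonneg_right hxz hK0
      nlinarith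
    · have : (s + 1) * K ≤ 0 := mul_nonpos_of_nonneg_of_nonpos (by linarith) hK0
      linarith
  have h4 : μ * E ≤ l * a + h * b := by
    rw [hE]
    have e1 : μ * a ≤ l * a := mul_le_mul_of_nonneg_right hμl ha
    have e2 : μ * b ≤ h * b := mul_le_mul_of_nonneg_right hμh hb
    linarith
  have h5 : (s + 1) * (3 * μ - 4 * s - 7 - 9 * E) ≤ 3 * ((s + 1) * K) := by
    have : (s + 1) * (3 * μ - 4 * s - 7 - 9 * E) ≤ (s + 1) * (3 * K) :=
      mul_le_mul_of_nonneg_left (by linarith) (by linarith)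
    linarith
  have h6 : 0 ≤ E * (2 * μ - s - 1) := mul_nonneg hE0 (by linarith)
  have h7 : (s + 1) * (3 * μ - 4 * s - 7) ≤ 18 * (l * h - s * (4 * s + t)) := by
    nlinarith
  obtain ⟨D, hD⟩ : ∃ D, D = 4 * s + t - 2 * μ := ⟨_, rfl⟩
  have h8 : 4 * (l * h) = (4 * s + t) ^ 2 - D ^ 2 := by
    rcases hor with h9 | h9
    · have : h = 4 * s + t - l := by linarith
      rw [hD, h9, this]; ring
    · have : l = 4 * s + t - h := by linarith
      rw [hD, h9, this]; ring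
  have h9 : (s + 1) * (3 * (4 * s + t) - 3 * D - 8 * s - 14) ≤ 9 * ((4 * s + t) * t - D ^ 2) := by
    have : (s + 1) * (3 * (4 * s + t) - 3 * D - 8 * s - 14) = 2 * ((s + 1) * (3 * μ - 4 * s - 7)) := by
      rw [hD]; ring
    rw [this]
    nlinarith
  have h10 : 0 ≤ (6 * D - (s + 1)) ^ 2 := sq_nonneg _
  have h11 : 4 * ((s + 1) * (4 * s + 3 * t - 14)) ≤ 36 * ((4 * s + t) * t) + (s + 1) ^ 2 := by
    nlinarith
  have h12 : 0 ≤ s * (s + 2 - 12 * t) := mul_nonneg (by linarith) (by linarith)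
  have h13 : 0 ≤ t * (s + 2 - 12 * t) := mul_nonneg (by linarith) (by linarith)
  have h14 : 0 ≤ (s - 38) * s := mul_nonneg (by linarith) (by linarith)
  nlinarith

theorem n_bad {m s l h a b x z dL dH : ℕ} (hr : R2 m s) (hn : l + h + 1 = m + s)
    (hlh : s * (l + h) + l * a + h * b + dL + dH ≤ l * h)
    (hx : x * (h + s) ≤ 3 * dL + x * (alp s + 2 + 3 * a)) (hz : z * (l + s) ≤ 3 * dH + z * (alp s + 2 + 3 * b)) :
    2 * (x + z) ≤ s := by
  obtain ⟨t, ht, ht2, ht12, hs⟩ := fn_t hr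
  obtain ⟨h1, h2⟩ := n_half hr hn (by omega)
  have hal : 3 * alp s ≤ 7 * s + 1 := (n_lin hr).2.2.2.2.2.2.1
  generalize alp s = k at *
  have hnn : l + h = 4 * s + t := by omega
  rw [hnn] at hlh
  by_contra hcon
  push Not at hcon
  zify at *
  rcases le_total (l : ℤ) h with hle | hle
  · exact fn_bad s t l h a b x z dL dH k l hs ht2 ht12 hnn hal le_rfl hle h1 (by linarith) hlh hx hz
      (by linarith) (by positivity) (by positivity) (by positivity) (by positivity) (by positivity)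
      (by positivity) (Or.inl rfl)
  · exact fn_bad s t l h a b x z dL dH k h hs ht2 ht12 hnn hal hle le_rfl h2 (by linarith) hlh hx hz
      (by linarith) (by positivity) (by positivity) (by positivity) (by positivity) (by positivity)
      (by positivity) (Or.inr rfl)

theorem n_step {m s sg : ℕ} (hr : R2 m s) (h1 : 5 * s ≤ 4 * sg) :
    m + 1 + eb m s ≤ 2 * s + sg ∧ ff m s ≤ sg := by
  have he := fn_e hr
  unfold ff
  generalize eb m s = e at *
  generalize alp s = k at *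
  omega

theorem n_step2 {m s h p : ℕ} (hr : R2 m s) (h1 : 4 * h + 7 * s + 4 ≤ 4 * (m + s)) (hp : m + p ≤ h + alp s + eb m s) :
    p + eb m s + 2 ≤ 2 * s := by
  have he := fn_e hr
  generalize eb m s = e at *
  generalize alp s = k at *
  omega

end H
end ZS44129
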