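import Pool.Agent.Work.MP_44129c_co.H.IG
import Pool.Agent.Work.MP_44129c_co.H.FN
import Pool.Agent.Work.MP_44129c_co.E.Dc

/-!
# MP_44129c_co/H, F1 (size M): the counts of a star with small excess

PROOF.  `R2.facts` gives `m ≤ 4 s`, `38 ≤ s`.  `hev` for `goodL_U`: `m = 2 M`, `m ≤ 3.087 s + 1`: `m + 4 ≤ 4 s`, and `M * M + s < s * s + M * s + M` because `M (M - s) ≤ s * s` (`M ≤ 1.6 s`, `1.6 * 0.6 < 1`) and `s ≤ M`.
`es_count`: `goodL_U`, `goodH_U` and `dc0` (`exL + exH + 1 ≤ s`): with the integers `|UU_x| - s - exL ≥ 0`, `|PP_w| - s - exH ≥ 0`: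
`∑_x (|UU_x| - s - exL) + ∑_w (|PP_w| - s - exH) + l (s + exL) + h (s + exH) ≤ l h`.
`es_num`: drop the sums; `n_half`, `n_eb` (with `a = exL.toNat`, `b = exH.toNat`; `card_LH`).
`es_numU`: the fields of `NumU m s (ff m s) u y`: `ff m s + s = m / 2 + 2`; the number of zeros is `≥ l - exL` (`l = |LL|`; the elements of `LL` with `y ≠ 0` have `- y ≥ 1`), of ones `≥ h - exH`; `n_lin`: `4 (m / 2 + 2 + eb) ≤ 7 s ≤ 4 l`.
`sy u y = h + exH - exL`; `s1`: `2 (h - exL) ≥ 7 s / 2 - 2 eb ≥ m + 1` (`n_lin`, third); `s2`: `2 (h + exH) ≤ 2 (m + s - 1 - l) + 2 eb`, the same inequality; `l1`: `h + 2 l + exH - exL > m - 1 + 2 s` iff `l - exL + exH > s` (`l + h = m + s - 1`);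
`l2`: `h + exH - exL + s < 2 l` follows from `m + s - 1 + eb + s < 3 l`, `12 l ≥ 21 s` and `n_lin` (fourth: `4 (m + eb) ≤ 13 s`); `k1`, `k2` in the same way.
-/

set_option autoImplicit false

namespace ZS44129
namespace H

open Finset E N

variable {V : Type} [Fintype V] [DecidableEq V] {m : ℕ}

private theorem f1_hev {m s : ℕ} (hr : R2 m s) : ∀ M : ℕ, m = 2 * M →
    m + 4 ≤ 4 * s ∧ M * M + s < s * s + M * s + M := by
  intro M hM
  obtain ⟨h1, h2, h3, h4⟩ := hr.facts
  refine ⟨by omega, ?_⟩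
  obtain ⟨r, rfl⟩ : ∃ r, M = s + r := ⟨M - s, by omega⟩
  have h5 : 100 * r ≤ 56 * s := by omega
  have h6 : 1 ≤ s * s := Nat.mul_pos (by omega) (by omega)
  have h7 : (100 * r) * (100 * (s + r)) ≤ (56 * s) * (156 * s) :=
    Nat.mul_le_mul h5 (by omega)
  nlinarith

private theorem f1_zero (u : V) (y : V → ℤ) :
    ((LL u y).card : ℤ) - exL u y ≤ (((univ.erase u).filter (fun w => y w = 0)).card : ℤ) := by
  have h1 : ((LL u y).card : ℤ) - exL u y = ∑ w ∈ LL u y, (1 + y w) := by
    unfold exL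
    rw [Finset.sum_add_distrib, Finset.sum_neg_distrib]
    simp
  have h2 : (((LL u y).filter (fun w => y w = 0)).card : ℤ) =
      ∑ w ∈ LL u y, (if y w = 0 then 1 else 0) := by
    rw [Finset.card_filter]
    push_cast
    rfl
  have h3 : ((LL u y).card : ℤ) - exL u y ≤ (((LL u y).filter (fun w => y w = 0)).card : ℤ) := by
    rw [h1, h2]
    apply Finset.sum_le_sum
    intro w hw
    have h3 := (mem_LL.1 hw).2
    split_ifs <;> omega
  have h4 : ((LL u y).filter (fun w => y w = 0)).card ≤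
      ((univ.erase u).filter (fun w => y w = 0)).card :=
    Finset.card_le_card (Finset.filter_subset_filter _ (Finset.filter_subset _ _))
  omega

private theorem f1_one (u : V) (y : V → ℤ) :
    ((HH u y).card : ℤ) - exH u y ≤ (((univ.erase u).filter (fun w => y w = 1)).card : ℤ) := by
  have h1 : ((HH u y).card : ℤ) - exH u y = ∑ w ∈ HH u y, (1 - (y w - 1)) := by
    unfold exH
    rw [Finset.sum_sub_distrib (fun _ => (1 : ℤ)) (fun w => y w - 1)]
    simp
  have h2 : (((HH u y).filter (fun w => y w = 1)).card : ℤ) =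
      ∑ w ∈ HH u y, (if y w = 1 then 1 else 0) := by
    rw [Finset.card_filter]
    push_cast
    rfl
  have h3 : ((HH u y).card : ℤ) - exH u y ≤ (((HH u y).filter (fun w => y w = 1)).card : ℤ) := by
    rw [h1, h2]
    apply Finset.sum_le_sum
    intro w hw
    have h3 := (mem_HH.1 hw).2
    split_ifs <;> omega
  have h4 : ((HH u y).filter (fun w => y w = 1)).card ≤
      ((univ.erase u).filter (fun w => y w = 1)).card :=
    Finset.card_le_card (Finset.filter_subset_filter _ (Finset.filter_subset _ _))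
  omega

private theorem f1_tot (u : V) (y : V → ℤ) :
    sy u y = (HH u y).card + exH u y - exL u y := by
  have hm : ∑ w ∈ univ.erase u, min (y w) 0 = - exL u y := by
    unfold exL LL
    rw [Finset.sum_neg_distrib, neg_neg, Finset.sum_filter]
    refine Finset.sum_congr rfl fun w _ => ?_
    by_cases h : y w ≤ 0
    · rw [if_pos h, min_eq_left h]
    · rw [if_neg h, min_eq_right (by omega)]
  have hM : ∑ w ∈ univ.erase u, max (y w - 1) 0 = exH u y := by
    unfold exH HH
    rw [Finset.sum_filter]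
    refine Finset.sum_congr rfl fun w _ => ?_
    by_cases h : 1 ≤ y w
    · rw [if_pos h, max_eq_left (by omega)]
    · rw [if_neg h, max_eq_right (by omega)]
  have h1 : ∑ w ∈ univ.erase u, y w =
      ∑ w ∈ univ.erase u, (min (y w) 0 + max (y w - 1) 0 + (if 1 ≤ y w then 1 else 0)) := by
    refine Finset.sum_congr rfl fun w _ => ?_
    by_cases h : 1 ≤ y w
    · rw [if_pos h, min_eq_right (by omega), max_eq_left (by omega)]
      ring
    · rw [if_neg h, min_eq_left (by omega), max_eq_right (by omega)]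
      ring
  have h2 : ∑ w ∈ univ.erase u, (if 1 ≤ y w then (1 : ℤ) else 0) = (HH u y).card := by
    unfold HH
    rw [Finset.sum_boole]
  unfold sy
  rw [h1, Finset.sum_add_distrib, Finset.sum_add_distrib, hm, hM, h2]
  ring

theorem es_count [NeZero m] {c : V → V → ZMod m} {s : ℕ} (h : FS c s) {u : V} {y : V → ℤ} (hy : ES c s u y) :
    (∀ x ∈ LL u y, s + exL u y ≤ ((UU c u y x).card : ℤ)) ∧
    (∀ w ∈ HH u y, s + exH u y ≤ ((PP c u y w).card : ℤ)) ∧
    ∑ x ∈ LL u y, ((UU c u y x).card : ℤ) + ∑ w ∈ HH u y, ((PP c u y w).card : ℤ) ≤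
      ((LL u y).card * (HH u y).card : ℤ) := by
  obtain ⟨h1, h2, h3, h4⟩ := h.hs.rng.facts
  have e1 := exL_nonneg u y
  have e2 := exH_nonneg u y
  have e3 := hy.ex
  refine ⟨fun x hx => ?_, fun w hw => ?_, ?_⟩
  · exact goodL_U h.hs.sym h.hs.zsf h.u3 hy.sl h.hs.card (by omega) (by omega) h3
      (f1_hev h.hs.rng) hx
  · exact goodH_U h.hs.sym h.hs.zsf h.u3 hy.sl h.hs.card (by omega) (by omega) h3
      (f1_hev h.hs.rng) hw
  · exact dc0 h.hs.sym h.hs.zsf hy.sl h.hs.card (by omega) (by omega) (by omega)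

theorem es_num [NeZero m] {c : V → V → ZMod m} {s : ℕ} (h : FS c s) {u : V} {y : V → ℤ} (hy : ES c s u y) :
    7 * s ≤ 4 * (LL u y).card ∧ 7 * s ≤ 4 * (HH u y).card ∧ exL u y + exH u y ≤ eb m s := by
  obtain ⟨k1, k2, k3⟩ := es_count h hy
  obtain ⟨h1, h2, h3, h4⟩ := h.hs.rng.facts
  have e1 := exL_nonneg u y
  have e2 := exH_nonneg u y
  have hc := card_LH h.hs.card (by omega) u y
  have s1 : ((LL u y).card : ℤ) * (s + exL u y) ≤ ∑ x ∈ LL u y, ((UU c u y x).card : ℤ) := by
    have := Finset.sum_le_sum k1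
    rwa [Finset.sum_const, nsmul_eq_mul] at this
  have s2 : ((HH u y).card : ℤ) * (s + exH u y) ≤ ∑ w ∈ HH u y, ((PP c u y w).card : ℤ) := by
    have := Finset.sum_le_sum k2
    rwa [Finset.sum_const, nsmul_eq_mul] at this
  obtain ⟨a, ha⟩ : ∃ a : ℕ, exL u y = a := ⟨(exL u y).toNat, by omega⟩
  obtain ⟨b, hb⟩ : ∃ b : ℕ, exH u y = b := ⟨(exH u y).toNat, by omega⟩
  rw [ha] at s1
  rw [hb] at s2
  have s3 : ((LL u y).card : ℤ) * (s + a) + ((HH u y).card : ℤ) * (s + b) ≤
      (LL u y).card * (HH u y).card := by linarith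
  have s4 : (LL u y).card * (s + a) + (HH u y).card * (s + b) ≤
      (LL u y).card * (HH u y).card := by exact_mod_cast s3
  have s5 : s * ((LL u y).card + (HH u y).card) + (LL u y).card * a + (HH u y).card * b ≤
      (LL u y).card * (HH u y).card := by
    refine le_trans (le_of_eq ?_) s4
    ring
  have s6 : s * ((LL u y).card + (HH u y).card) ≤ (LL u y).card * (HH u y).card := by omega
  have r1 := n_half h.hs.rng hc s6
  have r2 := n_eb h.hs.rng hc s5
  refine ⟨r1.1, r1.2, ?_⟩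
  rw [ha, hb]
  exact_mod_cast r2

theorem es_numU [NeZero m] {c : V → V → ZMod m} {s : ℕ} (h : FS c s) {u : V} {y : V → ℤ} (hy : ES c s u y) :
    NumU m s (ff m s) u y := by
  obtain ⟨r1, r2, r3⟩ := es_num h hy
  obtain ⟨h1, h2, h3, h4⟩ := h.hs.rng.facts
  obtain ⟨n1, n2, n3, n4, n5, n6, n7, n8⟩ := n_lin h.hs.rng
  have e1 := exL_nonneg u y
  have e2 := exH_nonneg u y
  have e3 := hy.ex
  have hc := card_LH h.hs.card (by omega) u y
  have z0 := f1_zero u y
  have z1 := f1_one u y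
  have hff : ff m s + s = m / 2 + 2 := by
    unfold ff
    omega
  have hsy : sy u y = (HH u y).card + exH u y - exL u y := f1_tot u y
  constructor
  · omega
  · omega
  · omega
  · omega
  · omega
  · omega
  · omega
  · omega
  · omega
  · omega
  · omega
  · omega
  · omega

end H
end ZS44129
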