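import Pool.Agent.Work.MP_44129c_co.H.FDefs

/-!
# MP_44129c_co/H, F2 (size M): estimates for a lifted pair

`X = XX u x`, `|X| = m + s - 2`.  `PLift` gives: for every `S ⊆ X` with `m - 1` elements and every splitting of `S` in two parts the sum is in `[1, m - 1]`; so `1 ≤ z0 + ∑_S min (y w) (t w)` and `z0 + ∑_S max (y w) (t w) ≤ m - 1` (put every `w` on its
smaller resp. larger side; see the private lemmas `c34_sides`, `c34_min`, `c34_max` of N/C34, copy them).
`pair_min`: `P` = the `w ∈ X` with `y w ≥ 1` and `t w ≥ 1`, `|P| = p ≥ s - 1`; remove from `P` a set `R` of `s - 1` elements which contains all `w ∈ P` with `y w ≥ 2` and `t w ≥ 2` (`h2`); `S = X \ R` has `m - 1` elements, the `p - s + 1` elements of `P \ R` have `min = 1`,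
the others `min ≤ 0`: `1 ≤ z0 + (p - s + 1) - ∑_{X \ P} (- min)`.
`pair_max`: `Q` = the `w ∈ X` with `y w ≥ 1` or `t w ≥ 1`, `|Q| = U ≤ m - 1`; remove from `X \ Q` (`m + s - 2 - U ≥ s - 1` elements) a set `R` of `s - 1` elements containing all `w` with `y w ≤ -1` and `t w ≤ -1`; `S = X \ R`: the elements of `S \ Q` have `max = 0`, so
`z0 + U + ∑_Q (max - 1) ≤ m - 1`.
`pair_max2`: `U ≥ m`.  If at least `m` elements have `max ≥ 2`, `m - 1` of them give `z0 + 2 (m - 1) ≤ m - 1`: contradiction to `2 ≤ z0 + m`.  Otherwise take `S ⊆ Q` with `m - 1` elements containing all with `max ≥ 2`: `z0 + (m - 1) + ∑_Q (max - 1) ≤ m - 1`.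
`pair_bd`: for `w ∈ X`: `|t w - y w| ≤ m - 2`: take `A ⊆ X` with `m - 1` elements and `w ∈ A`: `A` at `u`, resp. `A \ {w}` at `u` and `w` at `x`.
`pair_eq`: then `c u w = c x w` implies `y w = t w` (`m ∣ t w - y w`).
-/

set_option autoImplicit false

namespace ZS44129
namespace H

open Finset E N

variable {V : Type} [Fintype V] [DecidableEq V] {m : ℕ}

private theorem f2_card {u x : V} (hux : u ≠ x) {s : ℕ} (hV : Fintype.card V = m + s) :
    (XX u x).card + 2 = m + s := by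
  have h1 : (XX u x) = (univ.erase u).erase x := rfl
  rw [h1, card_erase_of_mem (mem_erase.2 ⟨hux.symm, mem_univ x⟩), card_erase_of_mem (mem_univ u),
    card_univ, hV]
  have h2 : 2 ≤ Fintype.card V := by
    rw [← Finset.card_pair hux]
    exact card_le_univ _
  omega

private theorem f2_sides {c : V → V → ZMod m} {u x : V} {z0 : ℤ} {al ga : V → ℤ}
    (h : PLift c u x z0 al ga) {S : Finset V} (hS : S ⊆ XX u x) (hc : S.card + 1 = m)
    (p : V → Prop) [DecidablePred p] :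
    1 ≤ z0 + ∑ w ∈ S, (if p w then al w else ga w) ∧
      z0 + ∑ w ∈ S, (if p w then al w else ga w) ≤ m - 1 := by
  have h1 := h.gap (S.filter p) (S.filter fun w => ¬ p w) ((filter_subset _ _).trans hS)
    ((filter_subset _ _).trans hS) (disjoint_filter_filter_not _ _ _)
    (by rw [card_filter_add_card_filter_not]; exact hc)
  rw [Finset.sum_ite]
  rw [add_assoc] at h1
  exact h1

private theorem f2_max {c : V → V → ZMod m} {u x : V} {z0 : ℤ} {al ga : V → ℤ}
    (h : PLift c u x z0 al ga) {S : Finset V} (hS : S ⊆ XX u x) (hc : S.card + 1 = m) :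
    z0 + ∑ w ∈ S, max (al w) (ga w) ≤ m - 1 := by
  have h1 := (f2_sides h hS hc (fun w => ga w ≤ al w)).2
  have h2 : ∀ w ∈ S, (if ga w ≤ al w then al w else ga w) = max (al w) (ga w) := by
    intro w _
    split_ifs with h3
    · exact (max_eq_left h3).symm
    · exact (max_eq_right (le_of_not_ge h3)).symm
  rwa [sum_congr rfl h2] at h1

private theorem f2_min {c : V → V → ZMod m} {u x : V} {z0 : ℤ} {al ga : V → ℤ}
    (h : PLift c u x z0 al ga) {S : Finset V} (hS : S ⊆ XX u x) (hc : S.card + 1 = m) :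
    1 ≤ z0 + ∑ w ∈ S, min (al w) (ga w) := by
  have h1 := (f2_sides h hS hc (fun w => al w ≤ ga w)).1
  have h2 : ∀ w ∈ S, (if al w ≤ ga w then al w else ga w) = min (al w) (ga w) := by
    intro w _
    split_ifs with h3
    · exact (min_eq_left h3).symm
    · exact (min_eq_right (le_of_not_ge h3)).symm
  rwa [sum_congr rfl h2] at h1

/-- a sum over `X` without `R`, where `R` is contained in the part where `p` holds. -/
private theorem f2_split {X R : Finset V} (p : V → Prop) [DecidablePred p] (hR : R ⊆ X.filter p)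
    (f : V → ℤ) : ∑ w ∈ X \ R, f w =
      ∑ w ∈ X.filter (fun w => ¬ p w), f w + ∑ w ∈ (X.filter p) \ R, f w := by
  rw [← sum_union]
  · congr 1
    ext w
    simp only [mem_sdiff, mem_union, mem_filter]
    constructor
    · rintro ⟨h1, h2⟩
      by_cases h3 : p w
      · exact Or.inr ⟨⟨h1, h3⟩, h2⟩
      · exact Or.inl ⟨h1, h3⟩
    · rintro (⟨h1, h2⟩ | ⟨⟨h1, _⟩, h2⟩)
      · exact ⟨h1, fun h3 => h2 (mem_filter.1 (hR h3)).2⟩
      · exact ⟨h1, h2⟩
  · rw [disjoint_left]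
    intro w h1 h2
    exact (mem_filter.1 h1).2 (mem_filter.1 (mem_sdiff.1 h2).1).2

theorem pair_min {c : V → V → ZMod m} {u x : V} {z0 : ℤ} {y t : V → ℤ} (h : PLift c u x z0 y t)
    {s : ℕ} (hV : Fintype.card V = m + s) (hs : 1 ≤ s) (hm : 1 ≤ m)
    (hp : s ≤ ((XX u x).filter (fun w => 1 ≤ y w ∧ 1 ≤ t w)).card + 1)
    (h2 : ((XX u x).filter (fun w => 2 ≤ y w ∧ 2 ≤ t w)).card + 1 ≤ s) :
    ∑ w ∈ (XX u x).filter (fun w => ¬ (1 ≤ y w ∧ 1 ≤ t w)), (- min (y w) (t w)) + s ≤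
      z0 + ((XX u x).filter (fun w => 1 ≤ y w ∧ 1 ≤ t w)).card := by
  have hX := f2_card h.ne hV
  obtain ⟨R, hR1, hR2, hR3⟩ := exists_subsuperset_card_eq
    (s := (XX u x).filter (fun w => 2 ≤ y w ∧ 2 ≤ t w))
    (t := (XX u x).filter (fun w => 1 ≤ y w ∧ 1 ≤ t w)) (n := s - 1)
    (by
      intro w hw
      obtain ⟨h1, h3, h4⟩ := mem_filter.1 hw
      exact mem_filter.2 ⟨h1, by omega, by omega⟩) (by omega) (by omega)
  have hRX : R ⊆ XX u x := hR2.trans (filter_subset _ _)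
  have hS : (XX u x \ R).card + 1 = m := by
    have h1 := card_sdiff_add_card_eq_card hRX
    omega
  have h1 := f2_min h (S := XX u x \ R) sdiff_subset hS
  rw [f2_split (fun w => 1 ≤ y w ∧ 1 ≤ t w) hR2] at h1
  have h3 : ∀ w ∈ ((XX u x).filter (fun w => 1 ≤ y w ∧ 1 ≤ t w)) \ R,
      min (y w) (t w) = 1 := by
    intro w hw
    obtain ⟨h4, h5⟩ := mem_sdiff.1 hw
    obtain ⟨h6, h7, h8⟩ := mem_filter.1 h4
    have h9 : ¬ (2 ≤ y w ∧ 2 ≤ t w) := fun h10 => h5 (hR1 (mem_filter.2 ⟨h6, h10⟩))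
    omega
  rw [sum_congr rfl h3, sum_const, nsmul_eq_mul, mul_one] at h1
  have h4 := card_sdiff_add_card_eq_card hR2
  rw [sum_neg_distrib]
  omega

theorem pair_max {c : V → V → ZMod m} {u x : V} {z0 : ℤ} {y t : V → ℤ} (h : PLift c u x z0 y t)
    {s : ℕ} (hV : Fintype.card V = m + s) (hs : 1 ≤ s)
    (hU : ((XX u x).filter (fun w => 1 ≤ y w ∨ 1 ≤ t w)).card + 1 ≤ m)
    (h2 : ((XX u x).filter (fun w => y w ≤ -1 ∧ t w ≤ -1)).card + 1 ≤ s) :
    ∑ w ∈ (XX u x).filter (fun w => 1 ≤ y w ∨ 1 ≤ t w), (max (y w) (t w) - 1) +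
      ((XX u x).filter (fun w => 1 ≤ y w ∨ 1 ≤ t w)).card + z0 + 1 ≤ m := by
  have hX := f2_card h.ne hV
  have hc := card_filter_add_card_filter_not (s := XX u x) (fun w => 1 ≤ y w ∨ 1 ≤ t w)
  obtain ⟨R, hR1, hR2, hR3⟩ := exists_subsuperset_card_eq
    (s := (XX u x).filter (fun w => y w ≤ -1 ∧ t w ≤ -1))
    (t := (XX u x).filter (fun w => ¬ (1 ≤ y w ∨ 1 ≤ t w))) (n := s - 1)
    (by
      intro w hw
      obtain ⟨h1, h3, h4⟩ := mem_filter.1 hw
      exact mem_filter.2 ⟨h1, by omega⟩) (by omega) (by omega)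
  have hRX : R ⊆ XX u x := hR2.trans (filter_subset _ _)
  have hS : (XX u x \ R).card + 1 = m := by
    have h1 := card_sdiff_add_card_eq_card hRX
    omega
  have h1 := f2_max h (S := XX u x \ R) sdiff_subset hS
  rw [f2_split (fun w => ¬ (1 ≤ y w ∨ 1 ≤ t w)) hR2] at h1
  have h3 : ∀ w ∈ ((XX u x).filter (fun w => ¬ (1 ≤ y w ∨ 1 ≤ t w))) \ R,
      max (y w) (t w) = 0 := by
    intro w hw
    obtain ⟨h4, h5⟩ := mem_sdiff.1 hw
    obtain ⟨h6, h7⟩ := mem_filter.1 h4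
    have h9 : ¬ (y w ≤ -1 ∧ t w ≤ -1) := fun h10 => h5 (hR1 (mem_filter.2 ⟨h6, h10⟩))
    omega
  rw [sum_congr rfl h3, sum_const_zero, add_zero] at h1
  have h4 : ((XX u x).filter (fun w => ¬ ¬ (1 ≤ y w ∨ 1 ≤ t w))) =
      (XX u x).filter (fun w => 1 ≤ y w ∨ 1 ≤ t w) := by
    ext w
    simp only [mem_filter, not_not]
  rw [h4] at h1
  have h5 : ∑ w ∈ (XX u x).filter (fun w => 1 ≤ y w ∨ 1 ≤ t w), (max (y w) (t w) - 1) =
      ∑ w ∈ (XX u x).filter (fun w => 1 ≤ y w ∨ 1 ≤ t w), max (y w) (t w) -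
        ((XX u x).filter (fun w => 1 ≤ y w ∨ 1 ≤ t w)).card := by
    rw [sum_sub_distrib, sum_const, nsmul_eq_mul, mul_one]
  rw [h5]
  linarith

theorem pair_max2 {c : V → V → ZMod m} {u x : V} {z0 : ℤ} {y t : V → ℤ} (h : PLift c u x z0 y t)
    {s : ℕ} (hV : Fintype.card V = m + s) (hs : 1 ≤ s) (hm : 1 ≤ m)
    (hU : m ≤ ((XX u x).filter (fun w => 1 ≤ y w ∨ 1 ≤ t w)).card) (hz : 2 ≤ z0 + m) :
    ∑ w ∈ (XX u x).filter (fun w => 1 ≤ y w ∨ 1 ≤ t w), (max (y w) (t w) - 1) + z0 ≤ 0 := by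
  have hX := f2_card h.ne hV
  by_cases hT : m - 1 ≤ ((XX u x).filter (fun w => 2 ≤ max (y w) (t w))).card
  · exfalso
    obtain ⟨S, hS, hSc⟩ := exists_subset_card_eq hT
    have h1 := f2_max h (hS.trans (filter_subset _ _)) (by omega)
    have h2 : ∑ w ∈ S, (2 : ℤ) ≤ ∑ w ∈ S, max (y w) (t w) :=
      sum_le_sum fun w hw => (mem_filter.1 (hS hw)).2
    rw [sum_const, nsmul_eq_mul, hSc] at h2
    have h3 : ((m - 1 : ℕ) : ℤ) = m - 1 := by omega
    rw [h3] at h2
    linarith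
  · obtain ⟨S, hS1, hS2, hS3⟩ := exists_subsuperset_card_eq
      (s := (XX u x).filter (fun w => 2 ≤ max (y w) (t w)))
      (t := (XX u x).filter (fun w => 1 ≤ y w ∨ 1 ≤ t w)) (n := m - 1)
      (by
        intro w hw
        obtain ⟨h1, h3⟩ := mem_filter.1 hw
        exact mem_filter.2 ⟨h1, by omega⟩) (by omega) (by omega)
    have h1 := f2_max h (hS2.trans (filter_subset _ _)) (by omega)
    have h2 : ∑ w ∈ S, (max (y w) (t w) - 1) =
        ∑ w ∈ (XX u x).filter (fun w => 1 ≤ y w ∨ 1 ≤ t w), (max (y w) (t w) - 1) := by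
      refine sum_subset hS2 fun w hw hwS => ?_
      obtain ⟨h6, h7⟩ := mem_filter.1 hw
      have h9 : ¬ 2 ≤ max (y w) (t w) := fun h10 => hwS (hS1 (mem_filter.2 ⟨h6, h10⟩))
      omega
    rw [← h2, sum_sub_distrib, sum_const, nsmul_eq_mul, mul_one, hS3]
    have h3 : ((m - 1 : ℕ) : ℤ) = m - 1 := by omega
    rw [h3]
    linarith

theorem pair_bd {c : V → V → ZMod m} {u x : V} {z0 : ℤ} {y t : V → ℤ} (h : PLift c u x z0 y t)
    {s : ℕ} (hV : Fintype.card V = m + s) (hs : 1 ≤ s) (hm : 2 ≤ m) {w : V} (hw : w ∈ XX u x) :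
    |t w - y w| + 2 ≤ m := by
  have hX := f2_card h.ne hV
  obtain ⟨A, hA1, hA2, hA3⟩ := exists_subsuperset_card_eq (s := {w}) (t := XX u x) (n := m - 1)
    (singleton_subset_iff.2 hw) (by rw [card_singleton]; omega) (by omega)
  have hwA : w ∈ A := singleton_subset_iff.1 hA1
  have h1 := h.gap A ∅ hA2 (empty_subset _) (disjoint_empty_right _) (by
    rw [card_empty]; omega)
  have h2 := h.gap (A.erase w) {w} ((erase_subset _ _).trans hA2) (singleton_subset_iff.2 hw)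
    (disjoint_singleton_right.2 (notMem_erase w A)) (by
      rw [card_erase_of_mem hwA, card_singleton]; omega)
  rw [sum_empty, add_zero] at h1
  rw [sum_singleton] at h2
  have h3 := add_sum_erase A y hwA
  have h4 : t w - y w ≤ m - 2 := by linarith [h1.1, h2.2]
  have h5 : -(m - 2 : ℤ) ≤ t w - y w := by linarith [h1.2, h2.1]
  have h6 := abs_le.2 ⟨h5, h4⟩
  linarith

theorem pair_eq {c : V → V → ZMod m} {u x : V} {z0 : ℤ} {y t : V → ℤ} (h : PLift c u x z0 y t)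
    {s : ℕ} (hV : Fintype.card V = m + s) (hs : 1 ≤ s) (hm : 2 ≤ m) {w : V} (hw : w ∈ XX u x)
    (he : c u w = c x w) : y w = t w := by
  have h1 := pair_bd h hV hs hm hw
  obtain ⟨hwu, hwx⟩ : w ≠ u ∧ w ≠ x := by
    have h2 : w ∈ (univ.erase u).erase x := hw
    simp only [mem_erase, mem_univ, and_true] at h2
    exact ⟨h2.2, h2.1⟩
  have h2 : ((t w - y w : ℤ) : ZMod m) = 0 := by
    push_cast
    rw [h.hx w hwu hwx, h.hu w hwu hwx, he, sub_self]
  have h3 := (ZMod.intCast_zmod_eq_zero_iff_dvd _ m).1 h2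
  have h4 : t w - y w = 0 := by
    apply Int.eq_zero_of_abs_lt_dvd h3
    linarith
  linarith

end H
end ZS44129
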