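import Pool.Agent.Work.MP_44129c_co.H.F2
import Pool.Agent.Work.MP_44129c_co.N.C34

/-!
# MP_44129c_co/H, F3 (size M): the excess of the second star of a lifted pair, `z0 ≤ 0`

`tt x u z0 t` = the star of `x`: value `z0` at `u`, `t w` at the others.  `X = XX u x`.  `univ.erase x = {u} ∪ X`, and `z0 ≤ 0`: so `exL x tt = |z0| + ∑_{X, t ≤ 0} (- t)`, `exH x tt = ∑_{X, t ≥ 1} (t - 1)`.
`p = #{X : y ≥ 1, t ≥ 1}`, `U = #{X : y ≥ 1 or t ≥ 1}`.
PROOF of `tot`.  `c4_low` (`z0 ≤ 0`): `s ≤ p`.  `pair_min` (`#{y ≥ 2, t ≥ 2} ≤ exH u y ≤ s - 2`): `∑_{t ≤ 0} (- t) ≤ ∑_{not both ≥ 1} (- min) ≤ z0 + p - s` (the terms are `≥ 0`, and `- t ≤ - min`), so `exL x tt ≤ p - s`.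
(a) `U ≤ m - 1`: `pair_max` (`#{y ≤ -1, t ≤ -1} ≤ exL u y ≤ s - 2`): `exH x tt ≤ ∑ (max - 1) ≤ m - 1 - U - z0`.  (b) `U ≥ m`: `pair_max2` (`- z0 ≤ exL u y ≤ s - 2`): `exH x tt ≤ - z0`.
PROOF of `cnt1`: the elements of `X` with `t = 1` have colour `1` at `x`: at most `a`; those with `t ≥ 2`: at most `exH x tt`.
`cnt0`: the same for `t ≤ 0` (all of `univ.erase x`, also `u`; colour `0`).
-/

set_option autoImplicit false
set_option linter.unusedSectionVars false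

namespace ZS44129
namespace H

open Finset E N

variable {V : Type} [Fintype V] [DecidableEq V] {m : ℕ}

/-- the star of `x`: value `z0` at `u`. -/
def tt (u : V) (z0 : ℤ) (t : V → ℤ) (w : V) : ℤ := if w = u then z0 else t w

private theorem f3_tt_ne {u w : V} {z0 : ℤ} {t : V → ℤ} (hw : w ≠ u) : tt u z0 t w = t w := if_neg hw

private theorem f3_tt_self {u : V} {z0 : ℤ} {t : V → ℤ} : tt u z0 t u = z0 := if_pos rfl

private theorem f3_LL {u x : V} (hux : u ≠ x) {z0 : ℤ} {t : V → ℤ} (hz : z0 ≤ 0) :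
    LL x (tt u z0 t) = insert u ((XX u x).filter (fun w => t w ≤ 0)) := by
  ext w
  rw [mem_LL, mem_insert, mem_filter, mem_XX]
  by_cases hw : w = u
  · subst hw
    rw [f3_tt_self]
    exact ⟨fun _ => Or.inl rfl, fun _ => ⟨hux, hz⟩⟩
  · rw [f3_tt_ne hw]
    constructor
    · rintro ⟨h1, h2⟩
      exact Or.inr ⟨⟨hw, h1⟩, h2⟩
    · rintro (h1 | ⟨⟨_, h1⟩, h2⟩)
      · exact absurd h1 hw
      · exact ⟨h1, h2⟩

private theorem f3_HH {u x : V} {z0 : ℤ} {t : V → ℤ} (hz : z0 ≤ 0) :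
    HH x (tt u z0 t) = (XX u x).filter (fun w => 1 ≤ t w) := by
  ext w
  rw [mem_HH, mem_filter, mem_XX]
  by_cases hw : w = u
  · subst hw
    rw [f3_tt_self]
    constructor
    · rintro ⟨_, h2⟩
      omega
    · rintro ⟨⟨h1, _⟩, _⟩
      exact absurd rfl h1
  · rw [f3_tt_ne hw]
    constructor
    · rintro ⟨h1, h2⟩
      exact ⟨⟨hw, h1⟩, h2⟩
    · rintro ⟨⟨_, h1⟩, h2⟩
      exact ⟨h1, h2⟩

private theorem f3_exL {u x : V} (hux : u ≠ x) {z0 : ℤ} {t : V → ℤ} (hz : z0 ≤ 0) :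
    exL x (tt u z0 t) = - z0 + ∑ w ∈ (XX u x).filter (fun w => t w ≤ 0), (- t w) := by
  unfold exL
  rw [f3_LL hux hz, sum_insert (fun hh => (mem_XX.1 (mem_filter.1 hh).1).1 rfl), f3_tt_self]
  congr 1
  refine sum_congr rfl fun w hw => ?_
  rw [f3_tt_ne (mem_XX.1 (mem_filter.1 hw).1).1]

private theorem f3_exH {u x : V} {z0 : ℤ} {t : V → ℤ} (hz : z0 ≤ 0) :
    exH x (tt u z0 t) = ∑ w ∈ (XX u x).filter (fun w => 1 ≤ t w), (t w - 1) := by
  unfold exH
  rw [f3_HH hz]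
  refine sum_congr rfl fun w hw => ?_
  rw [f3_tt_ne (mem_XX.1 (mem_filter.1 hw).1).1]

/-- `#{y ≥ 2, t ≥ 2} ≤ exH u y`. -/
private theorem f3_c2 (u x : V) (y t : V → ℤ) :
    (((XX u x).filter (fun w => 2 ≤ y w ∧ 2 ≤ t w)).card : ℤ) ≤ exH u y := by
  unfold exH
  have h1 : (((XX u x).filter (fun w => 2 ≤ y w ∧ 2 ≤ t w)).card : ℤ) ≤
      ∑ w ∈ (XX u x).filter (fun w => 2 ≤ y w ∧ 2 ≤ t w), (y w - 1) := by
    rw [card_eq_sum_ones]
    push_cast
    refine sum_le_sum fun w hw => ?_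
    have h2 := (mem_filter.1 hw).2.1
    omega
  refine h1.trans (sum_le_sum_of_subset_of_nonneg ?_ ?_)
  · intro w hw
    obtain ⟨h2, h3, _⟩ := mem_filter.1 hw
    exact mem_HH.2 ⟨(mem_XX.1 h2).1, by omega⟩
  · intro w hw _
    have h2 := (mem_HH.1 hw).2
    omega

/-- `#{y ≤ -1, t ≤ -1} ≤ exL u y`. -/
private theorem f3_c3 (u x : V) (y t : V → ℤ) :
    (((XX u x).filter (fun w => y w ≤ -1 ∧ t w ≤ -1)).card : ℤ) ≤ exL u y := by
  unfold exL
  have h1 : (((XX u x).filter (fun w => y w ≤ -1 ∧ t w ≤ -1)).card : ℤ) ≤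
      ∑ w ∈ (XX u x).filter (fun w => y w ≤ -1 ∧ t w ≤ -1), (- y w) := by
    rw [card_eq_sum_ones]
    push_cast
    refine sum_le_sum fun w hw => ?_
    have h2 := (mem_filter.1 hw).2.1
    omega
  refine h1.trans (sum_le_sum_of_subset_of_nonneg ?_ ?_)
  · intro w hw
    obtain ⟨h2, h3, _⟩ := mem_filter.1 hw
    exact mem_LL.2 ⟨(mem_XX.1 h2).1, by omega⟩
  · intro w hw _
    have h2 := (mem_LL.1 hw).2
    omega

/-- `∑_{t ≥ 1} (t - 1) ≤ ∑_{y ≥ 1 or t ≥ 1} (max - 1)`. -/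
private theorem f3_max (X : Finset V) (y t : V → ℤ) :
    ∑ w ∈ X.filter (fun w => 1 ≤ t w), (t w - 1) ≤
      ∑ w ∈ X.filter (fun w => 1 ≤ y w ∨ 1 ≤ t w), (max (y w) (t w) - 1) := by
  have h1 : ∑ w ∈ X.filter (fun w => 1 ≤ t w), (t w - 1) ≤
      ∑ w ∈ X.filter (fun w => 1 ≤ t w), (max (y w) (t w) - 1) := by
    refine sum_le_sum fun w _ => ?_
    have h2 := le_max_right (y w) (t w)
    linarith
  refine h1.trans (sum_le_sum_of_subset_of_nonneg ?_ ?_)
  · intro w hw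
    obtain ⟨h2, h3⟩ := mem_filter.1 hw
    exact mem_filter.2 ⟨h2, Or.inr h3⟩
  · intro w hw _
    have h2 := le_max_right (y w) (t w)
    have h3 := le_max_left (y w) (t w)
    rcases (mem_filter.1 hw).2 with h4 | h4 <;> linarith

/-- `∑_{t ≤ 0} (- t) ≤ ∑_{not both} (- min)`. -/
private theorem f3_min (X : Finset V) (y t : V → ℤ) :
    ∑ w ∈ X.filter (fun w => t w ≤ 0), (- t w) ≤
      ∑ w ∈ X.filter (fun w => ¬ (1 ≤ y w ∧ 1 ≤ t w)), (- min (y w) (t w)) := by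
  have h1 : ∑ w ∈ X.filter (fun w => t w ≤ 0), (- t w) ≤
      ∑ w ∈ X.filter (fun w => t w ≤ 0), (- min (y w) (t w)) := by
    refine sum_le_sum fun w _ => ?_
    have h2 := min_le_right (y w) (t w)
    linarith
  refine h1.trans (sum_le_sum_of_subset_of_nonneg ?_ ?_)
  · intro w hw
    obtain ⟨h2, h3⟩ := mem_filter.1 hw
    exact mem_filter.2 ⟨h2, fun h4 => by omega⟩
  · intro w hw _
    have h2 := min_le_right (y w) (t w)
    have h3 := min_le_left (y w) (t w)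
    have h4 := (mem_filter.1 hw).2
    by_cases h5 : 1 ≤ y w
    · have h6 : ¬ 1 ≤ t w := fun h7 => h4 ⟨h5, h7⟩
      omega
    · omega

theorem tot {c : V → V → ZMod m} {u x : V} {y t : V → ℤ} (h : PLift c u x (y x) y t)
    {s : ℕ} (hV : Fintype.card V = m + s) (hm : 2 * s ≤ m) (hL : exL u y + 2 ≤ s) (hH : exH u y + 2 ≤ s)
    (hx : y x ≤ 0) :
    (s : ℤ) ≤ ((XX u x).filter (fun w => 1 ≤ y w ∧ 1 ≤ t w)).card ∧
    exL x (tt u (y x) t) + s ≤ ((XX u x).filter (fun w => 1 ≤ y w ∧ 1 ≤ t w)).card ∧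
    (((XX u x).filter (fun w => 1 ≤ y w ∨ 1 ≤ t w)).card + 1 ≤ m ∧
        exH x (tt u (y x) t) + ((XX u x).filter (fun w => 1 ≤ y w ∨ 1 ≤ t w)).card + 1 ≤ m - y x ∨
      m ≤ ((XX u x).filter (fun w => 1 ≤ y w ∨ 1 ≤ t w)).card ∧ exH x (tt u (y x) t) ≤ - y x) := by
  have hL0 := exL_nonneg u y
  have hH0 := exH_nonneg u y
  have hs : 2 ≤ s := by
    have h0 : (2 : ℤ) ≤ s := by linarith
    exact_mod_cast h0
  have hlow := c4_low h hV (by omega) hx
  have h22 := f3_c2 u x y t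
  have h33 := f3_c3 u x y t
  have hmin := pair_min h hV (by omega) (by omega) (by omega) (by omega)
  have hmn := f3_min (XX u x) y t
  have hmx := f3_max (XX u x) y t
  have hz : - y x ≤ exL u y := by
    unfold exL
    exact single_le_sum (f := fun w => - y w) (fun w hw => by
      have := (mem_LL.1 hw).2
      show 0 ≤ - y w
      omega) (mem_LL.2 ⟨h.ne.symm, hx⟩)
  refine ⟨by exact_mod_cast hlow, ?_, ?_⟩
  · rw [f3_exL h.ne hx]
    linarith
  · rw [f3_exH hx]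
    rcases Nat.lt_or_ge ((XX u x).filter (fun w => 1 ≤ y w ∨ 1 ≤ t w)).card m with hU | hU
    · left
      refine ⟨hU, ?_⟩
      have h5 := pair_max h hV (by omega) hU (by omega)
      linarith
    · right
      refine ⟨hU, ?_⟩
      have h5 := pair_max2 h hV (by omega) (by omega) hU (by
        have : (2 : ℤ) * s ≤ m := by exact_mod_cast hm
        have h6 : (2 : ℤ) ≤ s := by exact_mod_cast hs
        linarith)
      linarith

theorem cnt1 {c : V → V → ZMod m} {x : V} {t : V → ℤ} (hc : ∀ w, w ≠ x → (t w : ZMod m) = c x w)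
    {a : ℕ} (ha : ((univ.erase x).filter (fun w => c x w = 1)).card ≤ a) :
    ((HH x t).card : ℤ) ≤ a + exH x t := by
  have h1 : ((HH x t).card : ℤ) ≤ ∑ w ∈ HH x t, ((if c x w = 1 then (1 : ℤ) else 0) + (t w - 1)) := by
    rw [card_eq_sum_ones]
    push_cast
    refine sum_le_sum fun w hw => ?_
    obtain ⟨h2, h3⟩ := mem_HH.1 hw
    by_cases h4 : t w = 1
    · have h5 : c x w = 1 := by
        rw [← hc w h2, h4]
        exact Int.cast_one
      rw [if_pos h5, h4]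
      norm_num
    · have h6 : (0 : ℤ) ≤ if c x w = 1 then (1 : ℤ) else 0 := by
        split_ifs <;> norm_num
      have h7 : 2 ≤ t w := by omega
      linarith
  rw [sum_add_distrib, Finset.sum_boole] at h1
  have h8 : ((HH x t).filter (fun w => c x w = 1)).card ≤ a :=
    (card_le_card (filter_subset_filter _ (filter_subset _ _))).trans ha
  have h9 : (((HH x t).filter (fun w => c x w = 1)).card : ℤ) ≤ a := by exact_mod_cast h8
  unfold exH
  linarith

theorem cnt0 {c : V → V → ZMod m} {x : V} {t : V → ℤ} (hc : ∀ w, w ≠ x → (t w : ZMod m) = c x w)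
    {a : ℕ} (ha : ((univ.erase x).filter (fun w => c x w = 0)).card ≤ a) :
    ((LL x t).card : ℤ) ≤ a + exL x t := by
  have h1 : ((LL x t).card : ℤ) ≤ ∑ w ∈ LL x t, ((if c x w = 0 then (1 : ℤ) else 0) + (- t w)) := by
    rw [card_eq_sum_ones]
    push_cast
    refine sum_le_sum fun w hw => ?_
    obtain ⟨h2, h3⟩ := mem_LL.1 hw
    by_cases h4 : t w = 0
    · have h5 : c x w = 0 := by
        rw [← hc w h2, h4]
        exact Int.cast_zero
      rw [if_pos h5, h4]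
      norm_num
    · have h6 : (0 : ℤ) ≤ if c x w = 0 then (1 : ℤ) else 0 := by
        split_ifs <;> norm_num
      have h7 : t w ≤ -1 := by omega
      linarith
  rw [sum_add_distrib, Finset.sum_boole] at h1
  have h8 : ((LL x t).filter (fun w => c x w = 0)).card ≤ a :=
    (card_le_card (filter_subset_filter _ (filter_subset _ _))).trans ha
  have h9 : (((LL x t).filter (fun w => c x w = 0)).card : ℤ) ≤ a := by exact_mod_cast h8
  unfold exL
  linarith

/-- the counts: `HH x tt` are the `w ∈ X` with `t w ≥ 1`; `U = |HH u y| + #{t ≥ 1} - p` for `y x ≤ 0`. -/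
theorem cntU {u x : V} (hux : u ≠ x) {y t : V → ℤ} (hx : y x ≤ 0) :
    (((XX u x).filter (fun w => 1 ≤ y w ∨ 1 ≤ t w)).card : ℤ) +
      ((XX u x).filter (fun w => 1 ≤ y w ∧ 1 ≤ t w)).card =
      (HH u y).card + (HH x (tt u (y x) t)).card := by
  have h1 : HH u y = (XX u x).filter (fun w => 1 ≤ y w) := by
    ext w
    rw [mem_HH, mem_filter, mem_XX]
    constructor
    · rintro ⟨h2, h3⟩
      refine ⟨⟨h2, fun h4 => ?_⟩, h3⟩
      rw [h4] at h3
      omega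
    · rintro ⟨⟨h2, _⟩, h3⟩
      exact ⟨h2, h3⟩
  rw [f3_HH hx, h1, filter_or, filter_and]
  exact_mod_cast card_union_add_card_inter _ _

end H
end ZS44129
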