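import Pool.Agent.Work.MP_44129c_co.H.FDefs

/-!
# MP_44129c_co/H, FR (size S): reflection and affine change for block F

PROOF.  `fs_refl`: `zsf_refl`; `U3`: `3 (1 - a) = 3 (1 - b)` iff `3 a = 3 b`; classes: `cl (1 - c) u r = cl c u (1 - r)`.  `es_refl`: `sl_refl`, `exL_refl`, `exH_refl`.  `df_refl`: `1 - a ≠ 1 - b` iff `a ≠ b`.
`fs_affine`: `ZSF` by `zsf_affine`; `g` is a unit: `3 (g a - β) = 3 (g b - β)` iff `3 a = 3 b`; classes `cl c' u r = cl c u (g⁻¹ (r + β))`.
-/

set_option autoImplicit false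

namespace ZS44129
namespace H

open Finset E N

variable {V : Type} [Fintype V] [DecidableEq V] {m : ℕ}

theorem fs_refl [NeZero m] {c : V → V → ZMod m} {s : ℕ} (h : FS c s) : FS (fun p q => 1 - c p q) s := by
  refine ⟨⟨fun x y => ?_, zsf_refl h.hs.zsf, h.hs.card, h.hs.rng⟩, fun z p q hp hq he => ?_,
    fun u r => ?_⟩
  · change 1 - c x y = 1 - c y x
    rw [h.hs.sym x y]
  · change 1 - c z p = 1 - c z q
    change 3 * (1 - c z p) = 3 * (1 - c z q) at he
    have h1 : 3 * c z p = 3 * c z q := by linear_combination -he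
    rw [h.u3 z p q hp hq h1]
  · have h1 : cl (fun p q => 1 - c p q) u r = cl c u (1 - r) := by
      ext x
      rw [mem_cl, mem_cl]
      refine and_congr_right fun _ => ?_
      change 1 - c u x = r ↔ c u x = 1 - r
      constructor
      · intro h2
        linear_combination -h2
      · intro h2
        linear_combination -h2
    rw [h1]
    exact h.cls u (1 - r)

theorem es_refl [NeZero m] {c : V → V → ZMod m} {s : ℕ} {x : V} {y : V → ℤ} (h : ES c s x y) :
    ES (fun p q => 1 - c p q) s x (fun w => 1 - y w) := by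
  refine ⟨sl_refl h.sl, ?_⟩
  rw [exL_refl, exH_refl, add_comm (exH x y) (exL x y)]
  exact h.ex

theorem df_refl (c : V → V → ZMod m) (u v : V) : Df (fun p q => 1 - c p q) u v = Df c u v := by
  unfold Df
  refine congrArg Finset.card (Finset.filter_congr fun x _ => ?_)
  change 1 - c u x ≠ 1 - c v x ↔ c u x ≠ c v x
  rw [not_iff_not]
  constructor
  · intro h2
    linear_combination -h2
  · intro h2
    rw [h2]

theorem fs_affine [NeZero m] {c : V → V → ZMod m} {s : ℕ} (h : FS c s) (g : (ZMod m)ˣ) (β : ZMod m) :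
    FS (fun p q => (g : ZMod m) * c p q - β) s := by
  have hg : ((g⁻¹ : (ZMod m)ˣ) : ZMod m) * (g : ZMod m) = 1 := by
    rw [← Units.val_mul, inv_mul_cancel, Units.val_one]
  refine ⟨⟨fun x y => ?_, zsf_affine c h.hs.zsf g β, h.hs.card, h.hs.rng⟩,
    fun z p q hp hq he => ?_, fun u r => ?_⟩
  · change (g : ZMod m) * c x y - β = (g : ZMod m) * c y x - β
    rw [h.hs.sym x y]
  · change (g : ZMod m) * c z p - β = (g : ZMod m) * c z q - β
    change 3 * ((g : ZMod m) * c z p - β) = 3 * ((g : ZMod m) * c z q - β) at he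
    have h1 : 3 * c z p = 3 * c z q := by
      linear_combination ((g⁻¹ : (ZMod m)ˣ) : ZMod m) * he - (3 * c z p - 3 * c z q) * hg
    rw [h.u3 z p q hp hq h1]
  · have h1 : cl (fun p q => (g : ZMod m) * c p q - β) u r =
        cl c u (((g⁻¹ : (ZMod m)ˣ) : ZMod m) * (r + β)) := by
      ext x
      rw [mem_cl, mem_cl]
      refine and_congr_right fun _ => ?_
      change (g : ZMod m) * c u x - β = r ↔ c u x = ((g⁻¹ : (ZMod m)ˣ) : ZMod m) * (r + β)
      constructor
      · intro h2
        linear_combination ((g⁻¹ : (ZMod m)ˣ) : ZMod m) * h2 - c u x * hg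
      · intro h2
        have hg2 : (g : ZMod m) * ((g⁻¹ : (ZMod m)ˣ) : ZMod m) = 1 := by
          rw [mul_comm]
          exact hg
        linear_combination (g : ZMod m) * h2 + (r + β) * hg2
    rw [h1]
    exact h.cls u _

end H
end ZS44129
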