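import Pool.Agent.Work.MP_44129c_co.H.F0
import Pool.Agent.Work.MP_44129c_co.H.F1
import Pool.Agent.Work.MP_44129c_co.H.F3
import Pool.Agent.Work.MP_44129c_co.H.FR

/-!
# MP_44129c_co/H, F4 (size M): a low vertex with few high neighbours has a star with small excess

`α = alp s`, `l = |LL u y|`, `h = |HH u y|`, `7 s ≤ 4 l, 4 h` (`es_num`), `U₁ = |UU c u y x|`, hypothesis `3 U₁ + α + 3 ≤ h + 4 s`.
PROOF.  (1) The `w ∈ KK c u y x` with `y w = 1` are `≠ u, x` (`x` is low) and have `c x w ≠ 1 = c u w` (`rep (2 - lo) (c x w) ∈ [2 - lo, 0]`, and `rep (2 - lo) 1 = 1` because `1 ≤ m + 1 - lo`, `lo ≤ m`): `Df c u x ≥ |KK| - exH ≥ h - U₁ - exH ≥ ff m s` (`n_good` with `b = exH`, `card_UK`;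
`4 h + 7 s + 4 ≤ 4 (m + s)` from `l + h = m + s - 1`, `4 l ≥ 7 s`).  `gpl_U` (`es_numU`): `t` with `PLift c u x (y x) y t`.
(2) `tot`: `p ≥ s`, `exL x tt ≤ p - s`, and (a) or (b).
(3) `p ≤ U₁`: let `w ∈ X` with `y w ≥ 1`, `t w ≥ 1`; suppose `r = rep (2 - lo) (c x w) ≤ 0`; `t w ≡ r (mod m)` and `t w ≥ 1 > r`, so `t w ≥ r + m ≥ m + 2 - lo = l + 2 + exL` (`lo = m - l - exL`).  But `exH x tt ≥ t w - 1 ≥ l + 1`: in case (a) `exH x tt ≤ m - 1 - U - y x ≤ m - 1 - h + exL`
(`U ≥ h`: all of `HH u y` is in `X`), so `l + h + 2 ≤ m + exL`, i.e. `s + 1 ≤ exL`: contradiction; in case (b) `exH x tt ≤ - y x ≤ exL ≤ s - 2`: contradiction to `4 l ≥ 7 s`.  So `w ∈ UU`.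
(4) excess.  Put `d = U₁ - s`; `exL x tt ≤ d`.  Case (a): by `cnt0` `|LL x tt| ≤ α + exL x tt ≤ α + d`, so `|HH x tt| ≥ m + s - 1 - α - d` and by `cntU` `U ≥ h + m + s - 1 - α - d - p`; `exH x tt ≤ m - 1 - U - y x`.  Here `- y x + exL(X) ≤ d`: more precisely `|LL x tt| = 1 + #{X : t ≤ 0}`
and `#{X : t ≤ 0} ≤ α + ∑_{X, t ≤ 0} (- t)`, where `exL x tt = - y x + ∑_{X, t ≤ 0} (- t)`.  So `U = h + (m + s - 2 - #{X : t ≤ 0}) - p ≥ h + m + s - 2 - α - (exL x tt + y x) - p` and
`exH x tt ≤ m - 1 - U - y x ≤ 1 - s - h + α + exL x tt + p ≤ 1 - h + α + 2 d` (`p ≤ U₁ = s + d`).  `exL + exH ≤ 1 - h + α + 3 d ≤ s - 2` by the hypothesis.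
Case (b): `exH x tt ≤ - y x ≤ exL u y ≤ eb`, `exL + exH ≤ d + eb ≤ s - 2` (`n_good`, `U + b + 2 ≤ 2 s` with `b = eb`).
(5) `sl_of_ex` for `tt`: `|HH x tt| ≥ p ≥ s`.  `|LL x tt|`: `2 |LL x tt| ≥ 2 (s - 1)`: case (a): `|LL x tt| ≥ m + s - 2 - U` (all `w ∈ X` with neither `y w ≥ 1` nor `t w ≥ 1`), and `|LL x tt| = m + s - 1 - |HH x tt| ≥ m + s - 1 - α - exH x tt ≥ s - α + U + y x` (`cnt1`); the sum is
`≥ m + 2 s - 2 - α - eb ≥ 2 s - 2` (`n_lin`: `α + eb ≤ m`).  Case (b): `|LL x tt| ≥ m + s - 1 - α - eb ≥ s - 1`.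
`good_high`: reflection (`fs_refl`, `es_refl`, `UU_refl`, `HH_refl`, ...).
-/

set_option autoImplicit false

namespace ZS44129
namespace H

open Finset E N

variable {V : Type} [Fintype V] [DecidableEq V] {m : ℕ}

private theorem tt_u (u : V) (z0 : ℤ) (t : V → ℤ) : tt u z0 t u = z0 := if_pos rfl

private theorem tt_ne {u w : V} (h : w ≠ u) (z0 : ℤ) (t : V → ℤ) : tt u z0 t w = t w := if_neg h

private theorem tt_cast {c : V → V → ZMod m} (hsym : ∀ x y, c x y = c y x) {u x : V} {z0 : ℤ}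
    {y t : V → ℤ} (h : PLift c u x z0 y t) :
    ∀ w, w ≠ x → ((tt u z0 t w : ℤ) : ZMod m) = c x w := by
  intro w hw
  by_cases hwu : w = u
  · subst hwu
    rw [tt_u, h.h0, hsym]
  · rw [tt_ne hwu]
    exact h.hx w hwu hw

private theorem yx_le {u x : V} {y : V → ℤ} (hx : x ∈ LL u y) : - y x ≤ exL u y :=
  Finset.single_le_sum (f := fun w => - y w)
    (fun w hw => by have := (mem_LL.1 hw).2; omega) hx

private theorem yh_le {u x : V} {y : V → ℤ} (hx : x ∈ HH u y) : y x - 1 ≤ exH u y :=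
  Finset.single_le_sum (f := fun w => y w - 1)
    (fun w hw => by have := (mem_HH.1 hw).2; omega) hx

private theorem fin_es [NeZero m] {c : V → V → ZMod m} {s : ℕ} (h : FS c s) {u : V} {y : V → ℤ}
    (hy : ES c s u y) {x : V} (hx : x ≠ u) (hx0 : y x ≤ 0) {t : V → ℤ}
    (hp : PLift c u x (y x) y t)
    (he : exL x (tt u (y x) t) + exH x (tt u (y x) t) + 2 ≤ s) : ES c s x (tt u (y x) t) := by
  have hV := h.hs.card
  have hf := h.hs.rng.facts
  have hn := n_lin h.hs.rng
  have hes := es_num h hy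
  have heL := exL_nonneg u y
  have heH := exH_nonneg u y
  have he0 := hy.ex
  have htL := exL_nonneg x (tt u (y x) t)
  have htH := exH_nonneg x (tt u (y x) t)
  have hcast := tt_cast h.hs.sym hp
  obtain ⟨hp1, hp2, hp3⟩ := tot hp hV (by omega) (by linarith) (by linarith) hx0
  have hc1 := cnt1 hcast (h.cls x 1)
  have hLH := card_LH hV (by omega) x (tt u (y x) t)
  have hHH : ((XX u x).filter (fun w => 1 ≤ y w ∧ 1 ≤ t w)).card ≤
      (HH x (tt u (y x) t)).card := by
    refine card_le_card ?_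
    intro w hw
    rw [mem_filter, mem_XX] at hw
    rw [mem_HH, tt_ne hw.1.1]
    exact ⟨hw.1.2, hw.2.2⟩
  have hyx : - y x ≤ exL u y := yx_le (mem_LL.2 ⟨hx, hx0⟩)
  have huL : u ∈ LL x (tt u (y x) t) := by
    rw [mem_LL, tt_u]
    exact ⟨hx.symm, hx0⟩
  have hLL : ((XX u x).filter (fun w => ¬ (1 ≤ y w ∨ 1 ≤ t w))).card + 1 ≤
      (LL x (tt u (y x) t)).card := by
    rw [← card_erase_add_one huL]
    refine Nat.add_le_add_right (card_le_card ?_) 1
    intro w hw
    rw [mem_filter, mem_XX] at hw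
    rw [mem_erase, mem_LL, tt_ne hw.1.1]
    exact ⟨hw.1.1, hw.1.2, by omega⟩
  have hXX : (XX u x).card + 2 = Fintype.card V := card_XX hx.symm
  have hsp := Finset.card_filter_add_card_filter_not (s := XX u x)
    (fun w => 1 ≤ y w ∨ 1 ≤ t w)
  have hl : s ≤ (LL x (tt u (y x) t)).card + 1 := by
    rcases hp3 with ⟨h1, h2⟩ | ⟨h1, h2⟩
    · omega
    · omega
  refine ⟨sl_of_ex h.hs.zsf hV (by omega) hcast (by omega) (by omega) hl (by omega), he⟩

theorem good_low [NeZero m] {c : V → V → ZMod m} {s : ℕ} (h : FS c s) {u : V} {y : V → ℤ} (hy : ES c s u y)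
    {x : V} (hx : x ∈ LL u y) (hU : 3 * (UU c u y x).card + alp s + 3 ≤ (HH u y).card + 4 * s) :
    ∃ t : V → ℤ, ES c s x t := by
  have hV := h.hs.card
  have hf := h.hs.rng.facts
  have hn := n_lin h.hs.rng
  have hes := es_num h hy
  have heL := exL_nonneg u y
  have heH := exH_nonneg u y
  have he0 := hy.ex
  obtain ⟨hxu, hx0⟩ := mem_LL.1 hx
  have hLHu := card_LH hV (by omega) u y
  have hyx : - y x ≤ exL u y := yx_le hx
  have hg := n_good h.hs.rng hes.2.1 (by omega) hU (b := (exH u y).toNat) (by omega)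
  have hg2 := n_good h.hs.rng hes.2.1 (by omega) hU (b := eb m s) le_rfl
  have hlo := lo_pos hy.sl hV (by linarith)
  have hD : ff m s ≤ ((XX u x).filter (fun w => c u w ≠ c x w)).card := by
    have h1 : (KK c u y x).filter (fun w => y w = 1) ⊆
        (XX u x).filter (fun w => c u w ≠ c x w) := by
      intro w hw
      rw [mem_filter] at hw
      obtain ⟨hwK, hw1⟩ := hw
      have hwH := (mem_filter.1 hwK).1
      have hwr := (mem_filter.1 hwK).2
      have hwu := (mem_HH.1 hwH).1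
      have hwx : w ≠ x := by
        rintro rfl
        omega
      rw [mem_filter, mem_XX]
      refine ⟨⟨hwu, hwx⟩, ?_⟩
      intro heq
      have h2 : c u w = 1 := by rw [← hy.sl.cast w hwu, hw1, Int.cast_one]
      have h3 : rep (2 - lo m u y) (c x w) = 1 := by
        apply rep_unique
        · rw [← heq, h2, Int.cast_one]
        · omega
        · unfold lo
          omega
      omega
    have h2 : (((KK c u y x).filter (fun w => ¬ y w = 1)).card : ℤ) ≤ exH u y := by
      have h3 : (((KK c u y x).filter (fun w => ¬ y w = 1)).card : ℤ) ≤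
          ∑ w ∈ (KK c u y x).filter (fun w => ¬ y w = 1), (y w - 1) := by
        rw [card_eq_sum_ones]
        push_cast
        refine sum_le_sum fun w hw => ?_
        have h4 := (mem_filter.1 hw).2
        have h5 := (mem_HH.1 (mem_filter.1 (mem_filter.1 hw).1).1).2
        omega
      refine h3.trans ?_
      unfold exH
      refine sum_le_sum_of_subset_of_nonneg ?_ ?_
      · exact (filter_subset _ _).trans (filter_subset _ _)
      · intro w hw _
        have := (mem_HH.1 hw).2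
        omega
    have h3 := card_le_card h1
    have h4 := card_UK c u y x
    have h5 := Finset.card_filter_add_card_filter_not (s := KK c u y x) (fun w => y w = 1)
    omega
  obtain ⟨t, hp⟩ := gpl_U h.hs.sym h.hs.zsf h.u3 hy.sl hV (es_numU h hy) hxu hD
  obtain ⟨hp1, hp2, hp3⟩ := tot hp hV (by omega) (by linarith) (by linarith) hx0
  have hcast := tt_cast h.hs.sym hp
  have htL := exL_nonneg x (tt u (y x) t)
  have htH := exH_nonneg x (tt u (y x) t)
  have hUH : (HH u y).card ≤ ((XX u x).filter (fun w => 1 ≤ y w ∨ 1 ≤ t w)).card := by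
    refine card_le_card ?_
    intro w hw
    have h1 := mem_HH.1 hw
    rw [mem_filter, mem_XX]
    refine ⟨⟨h1.1, ?_⟩, Or.inl h1.2⟩
    rintro rfl
    omega
  have hpU : ((XX u x).filter (fun w => 1 ≤ y w ∧ 1 ≤ t w)).card ≤ (UU c u y x).card := by
    refine card_le_card ?_
    intro w hw
    rw [mem_filter, mem_XX] at hw
    obtain ⟨⟨hwu, hwx⟩, hy1, ht1⟩ := hw
    unfold UU
    rw [mem_filter, mem_HH]
    refine ⟨⟨hwu, hy1⟩, ?_⟩
    by_contra hcon
    have hr1 := rep_ge (2 - lo m u y) (c x w)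
    have hr2 := rep_cast (2 - lo m u y) (c x w)
    have hr3 : ((t w - rep (2 - lo m u y) (c x w) : ℤ) : ZMod m) = 0 := by
      push_cast
      rw [hr2, hp.hx w hwu hwx, sub_self]
    rw [ZMod.intCast_zmod_eq_zero_iff_dvd] at hr3
    have hr4 := Int.le_of_dvd (by omega) hr3
    have hwH : w ∈ HH x (tt u (y x) t) := by
      rw [mem_HH, tt_ne hwu]
      exact ⟨hwx, ht1⟩
    have hr5 := yh_le hwH
    rw [tt_ne hwu] at hr5
    have hlo2 : lo m u y = m - (LL u y).card - exL u y := rfl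
    rcases hp3 with ⟨h1, h2⟩ | ⟨h1, h2⟩
    · omega
    · omega
  have hLH := card_LH hV (by omega) x (tt u (y x) t)
  have hcU := cntU (t := t) hxu.symm hx0
  have huL : u ∈ LL x (tt u (y x) t) := by
    rw [mem_LL, tt_u]
    exact ⟨hxu.symm, hx0⟩
  -- the zeros
  have hz : (((LL x (tt u (y x) t)).erase u).card : ℤ) ≤
      alp s + (exL x (tt u (y x) t) + y x) := by
    have h1 : exL x (tt u (y x) t) + y x =
        ∑ w ∈ (LL x (tt u (y x) t)).erase u, (- tt u (y x) t w) := by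
      unfold exL
      rw [← add_sum_erase _ _ huL, tt_u]
      ring
    have h2 : (((LL x (tt u (y x) t)).erase u).card : ℤ) ≤
        ∑ w ∈ (LL x (tt u (y x) t)).erase u,
          ((if tt u (y x) t w = 0 then (1 : ℤ) else 0) + (- tt u (y x) t w)) := by
      rw [card_eq_sum_ones]
      push_cast
      refine sum_le_sum fun w hw => ?_
      have h3 := (mem_LL.1 (mem_of_mem_erase hw)).2
      split_ifs <;> omega
    rw [sum_add_distrib, ← h1] at h2
    have h4 : (∑ w ∈ (LL x (tt u (y x) t)).erase u,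
        (if tt u (y x) t w = 0 then (1 : ℤ) else 0)) ≤ alp s := by
      have h5 : (∑ w ∈ (LL x (tt u (y x) t)).erase u,
          (if tt u (y x) t w = 0 then (1 : ℤ) else 0)) =
          ((((LL x (tt u (y x) t)).erase u).filter (fun w => tt u (y x) t w = 0)).card : ℤ) := by
        rw [card_filter]
        push_cast
        rfl
      rw [h5]
      have h6 : (((LL x (tt u (y x) t)).erase u).filter (fun w => tt u (y x) t w = 0)).card ≤
          (cl c x 0).card := by
        refine card_le_card ?_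
        intro w hw
        rw [mem_filter] at hw
        rw [mem_cl]
        have h7 := (mem_LL.1 (mem_of_mem_erase hw.1)).1
        refine ⟨h7, ?_⟩
        rw [← hcast w h7, hw.2, Int.cast_zero]
      have h7 := h.cls x 0
      exact_mod_cast h6.trans h7
    omega
  have hzc := card_erase_add_one huL
  have he : exL x (tt u (y x) t) + exH x (tt u (y x) t) + 2 ≤ s := by
    rcases hp3 with ⟨h1, h2⟩ | ⟨h1, h2⟩
    · omega
    · omega
  exact ⟨_, fin_es h hy hxu hx0 hp he⟩

theorem good_high [NeZero m] {c : V → V → ZMod m} {s : ℕ} (h : FS c s) {u : V} {y : V → ℤ} (hy : ES c s u y)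
    {x : V} (hx : x ∈ HH u y) (hU : 3 * (PP c u y x).card + alp s + 3 ≤ (LL u y).card + 4 * s) :
    ∃ t : V → ℤ, ES c s x t := by
  have h1 := fs_refl h
  have h2 := es_refl hy
  have h3 : x ∈ LL u (fun w => 1 - y w) := by
    rw [LL_refl]
    exact hx
  obtain ⟨t, ht⟩ := good_low h1 h2 h3 (by
    rw [UU_refl, HH_refl]
    exact hU)
  have h4 := es_refl ht
  have h5 : (fun p q => 1 - (fun p q => 1 - c p q) p q) = c := by
    funext p q
    ring
  exact ⟨fun w => 1 - t w, by rw [← h5]; exact h4⟩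

end H
end ZS44129
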