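import Pool.Agent.Work.MP_44129c_co.H.FR
import Pool.Agent.Work.MP_44129c_co.H.F4

/-!
# MP_44129c_co/H, F5 (size M): at most `s / 2` exceptional vertices

PROOF.  `BL` = the `x ∈ LL u y` which do not satisfy the hypothesis of `good_low`, `BH` the `x ∈ HH u y` which do not satisfy that of `good_high`, `B = BL ∪ BH`.  Every `x ∉ B`, `x ≠ u` has a lift by `good_low`, `good_high`; `u` itself by hypothesis.
`a = exL.toNat`, `b = exH.toNat`, `dL = ∑_{LL} (|UU_x| - s - a)`, `dH = ∑_{HH} (|PP_w| - s - b)` (natural numbers by `es_count`), `l (s + a) + h (s + b) + dL + dH ≤ l h`.  For `x ∈ BL`: `3 |UU_x| + α + 3 > h + 4 s`, i.e. `3 (|UU_x| - s - a) + α + 2 + 3 a ≥ h + s`; sum over `BL`: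
`|BL| (h + s) ≤ 3 dL + |BL| (α + 2 + 3 a)`; the same for `BH`.  `n_bad`: `2 (|BL| + |BH|) ≤ s`.
-/

set_option autoImplicit false

namespace ZS44129
namespace H

open Finset E N

variable {V : Type} [Fintype V] [DecidableEq V] {m : ℕ}

theorem bad_set [NeZero m] {c : V → V → ZMod m} {s : ℕ} (h : FS c s) {u : V} {y : V → ℤ} (hy : ES c s u y) :
    ∃ B : Finset V, 2 * B.card ≤ s ∧ ∀ x, x ∉ B → ∃ t : V → ℤ, ES c s x t := by
  classical
  set l := (LL u y).card with hl
  set k := (HH u y).card with hk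
  have hs38 := h.hs.rng.facts
  have hnL : 0 ≤ exL u y := by
    unfold exL
    refine Finset.sum_nonneg fun w hw => ?_
    have := (Finset.mem_filter.1 hw).2
    omega
  have hnH : 0 ≤ exH u y := by
    unfold exH
    refine Finset.sum_nonneg fun w hw => ?_
    have := (Finset.mem_filter.1 hw).2
    omega
  set a := (exL u y).toNat with ha
  set b := (exH u y).toNat with hb
  have haz : (a : ℤ) = exL u y := Int.toNat_of_nonneg hnL
  have hbz : (b : ℤ) = exH u y := Int.toNat_of_nonneg hnH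
  obtain ⟨h1, h2, h3⟩ := es_count h hy
  have h1' : ∀ x ∈ LL u y, s + a ≤ (UU c u y x).card := by
    intro x hx
    have := h1 x hx
    omega
  have h2' : ∀ w ∈ HH u y, s + b ≤ (PP c u y w).card := by
    intro w hw
    have := h2 w hw
    omega
  have h3' : ∑ x ∈ LL u y, (UU c u y x).card + ∑ w ∈ HH u y, (PP c u y w).card ≤ l * k := by
    have : ((∑ x ∈ LL u y, (UU c u y x).card + ∑ w ∈ HH u y, (PP c u y w).card : ℕ) : ℤ) ≤ ((l * k : ℕ) : ℤ) := by
      push_cast
      exact h3
    exact_mod_cast this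
  set dL := ∑ x ∈ LL u y, ((UU c u y x).card - (s + a)) with hdL
  set dH := ∑ w ∈ HH u y, ((PP c u y w).card - (s + b)) with hdH
  have e1 : dL + l * (s + a) = ∑ x ∈ LL u y, (UU c u y x).card := by
    rw [hdL, hl, ← smul_eq_mul, ← Finset.sum_const, ← Finset.sum_add_distrib]
    exact Finset.sum_congr rfl fun x hx => Nat.sub_add_cancel (h1' x hx)
  have e2 : dH + k * (s + b) = ∑ w ∈ HH u y, (PP c u y w).card := by
    rw [hdH, hk, ← smul_eq_mul, ← Finset.sum_const, ← Finset.sum_add_distrib]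
    exact Finset.sum_congr rfl fun w hw => Nat.sub_add_cancel (h2' w hw)
  set BL := (LL u y).filter (fun x => ¬ (3 * (UU c u y x).card + alp s + 3 ≤ k + 4 * s)) with hBL
  set BH := (HH u y).filter (fun x => ¬ (3 * (PP c u y x).card + alp s + 3 ≤ l + 4 * s)) with hBH
  have e3 : BL.card * (k + s) ≤ 3 * dL + BL.card * (alp s + 2 + 3 * a) := by
    have f1 : ∑ x ∈ BL, (k + s) ≤ ∑ x ∈ BL, (3 * ((UU c u y x).card - (s + a)) + (alp s + 2 + 3 * a)) := by
      refine Finset.sum_le_sum fun x hx => ?_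
      have g1 := (Finset.mem_filter.1 hx).1
      have g2 := (Finset.mem_filter.1 hx).2
      have g3 := h1' x g1
      omega
    have f2 : ∑ x ∈ BL, ((UU c u y x).card - (s + a)) ≤ dL :=
      Finset.sum_le_sum_of_subset (Finset.filter_subset _ _)
    rw [Finset.sum_const, smul_eq_mul, Finset.sum_add_distrib, Finset.sum_const, smul_eq_mul, ← Finset.mul_sum] at f1
    omega
  have e4 : BH.card * (l + s) ≤ 3 * dH + BH.card * (alp s + 2 + 3 * b) := by
    have f1 : ∑ x ∈ BH, (l + s) ≤ ∑ x ∈ BH, (3 * ((PP c u y x).card - (s + b)) + (alp s + 2 + 3 * b)) := by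
      refine Finset.sum_le_sum fun x hx => ?_
      have g1 := (Finset.mem_filter.1 hx).1
      have g2 := (Finset.mem_filter.1 hx).2
      have g3 := h2' x g1
      omega
    have f2 : ∑ x ∈ BH, ((PP c u y x).card - (s + b)) ≤ dH :=
      Finset.sum_le_sum_of_subset (Finset.filter_subset _ _)
    rw [Finset.sum_const, smul_eq_mul, Finset.sum_add_distrib, Finset.sum_const, smul_eq_mul, ← Finset.mul_sum] at f1
    omega
  have hn : l + k + 1 = m + s := card_LH h.hs.card (by omega) u y
  have hlh : s * (l + k) + l * a + k * b + dL + dH ≤ l * k := by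
    have g1 : l * (s + a) = l * s + l * a := Nat.mul_add _ _ _
    have g2 : k * (s + b) = k * s + k * b := Nat.mul_add _ _ _
    have g3 : s * (l + k) = l * s + k * s := by ring
    omega
  have hB := n_bad h.hs.rng hn hlh e3 e4
  refine ⟨BL ∪ BH, ?_, ?_⟩
  · have := Finset.card_union_le BL BH
    omega
  · intro x hx
    by_cases hxu : x = u
    · subst hxu
      exact ⟨y, hy⟩
    rw [Finset.mem_union, not_or] at hx
    by_cases hyx : y x ≤ 0
    · have hxL : x ∈ LL u y := Finset.mem_filter.2 ⟨Finset.mem_erase.2 ⟨hxu, Finset.mem_univ x⟩, hyx⟩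
      refine good_low h hy hxL ?_
      by_contra hcon
      exact hx.1 (Finset.mem_filter.2 ⟨hxL, hcon⟩)
    · have hxH : x ∈ HH u y :=
        Finset.mem_filter.2 ⟨Finset.mem_erase.2 ⟨hxu, Finset.mem_univ x⟩, by omega⟩
      refine good_high h hy hxH ?_
      by_contra hcon
      exact hx.2 (Finset.mem_filter.2 ⟨hxH, hcon⟩)

end H
end ZS44129
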