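import Pool.Agent.Work.MP_44129c_co.H.FR
import Pool.Agent.Work.MP_44129c_co.H.F0
import Pool.Agent.Work.MP_44129c_co.H.F1
import Pool.Agent.Work.MP_44129c_co.H.F3

/-!
# MP_44129c_co/H, F6 (size M): a vertex whose star differs from a lifted one in many signs

`G` = a set of vertices `w` where an integer lift `Y w` of `c x w` with `|Y w| ≤ s` is known, `sg` of them have `y w`, `Y w` on different sides (`≥ 1`, `≤ 0`), `5 s ≤ 4 sg`.
PROOF (case `y x ≤ 0`; the other case by reflection: `1 - c`, `1 - y`, `1 - Y`, where `|1 - Y| ≤ s` may fail, so the hypothesis is `- s ≤ Y w ≤ s + 1`, which is symmetric).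
(1) For the `sg` vertices `w` `c u w ≠ c x w`: `y w - Y w ≠ 0` and `|y w - Y w| ≤ 2 s - 1 < m` (`- (s - 2) ≤ y w ≤ s - 1` from `exL + exH ≤ s - 2`).  So `Df c u x ≥ sg ≥ ff m s` (`n_step`), `gpl_U` (`es_numU`) gives `t`, `PLift c u x (y x) y t`.  `z0 = y x`.
(2) `tot`: `p ≥ s`, `exL x tt ≤ p - s ≤ h - s`, and (a) `U ≤ m - 1`, `exH x tt ≤ m - 1 - U - y x ≤ m - 1 - h + eb` or (b) `U ≥ m`, `exH x tt ≤ - y x ≤ eb`.  As `7 s ≤ 4 h` and `4 h ≤ 4 (m + s - 1) - 7 s`, all `|t w| ≤ m - s - 2` (`w ∈ X`; use `n_lin`), so for `w ∈ G` `|t w - Y w| < m` and `t w = Y w` (both lift `c x w`).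
So at least `sg` elements of `X` have exactly one of `y w ≥ 1`, `t w ≥ 1`: `U - p ≥ sg`.
(3) Case (a): `exL x tt + exH x tt ≤ (p - s) + (m - 1 - U - y x) ≤ m - 1 - s - sg + eb ≤ s - 2` (`n_step`).  Case (b): `cnt1`: `|HH x tt| ≤ α + eb`, `cntU`: `p = h + |HH x tt| - U ≤ h + α + eb - m`; `n_step2`: `exL + exH ≤ (p - s) + eb ≤ s - 2`.
(4) `sl_of_ex` for `tt`, sizes as in F4 (5): `|HH x tt| ≥ p ≥ s`; `|LL x tt|`: case (a) the sum of the two bounds `m + s - 2 - U` and `s - α + U + y x`; case (b) `m + s - 1 - α - eb`.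
-/

set_option autoImplicit false

namespace ZS44129
namespace H

open Finset E N

variable {V : Type} [Fintype V] [DecidableEq V] {m : ℕ}

private theorem tt_u (u : V) (z0 : ℤ) (t : V → ℤ) : tt u z0 t u = z0 := if_pos rfl

private theorem tt_ne {u w : V} (h : w ≠ u) (z0 : ℤ) (t : V → ℤ) : tt u z0 t w = t w := if_neg h

private theorem tt_cast {c : V → V → ZMod m} (hsym : ∀ x y, c x y = c y x) {u x : V} {z0 : ℤ}
    {y t : V → ℤ} (h : PLift c u x z0 y t) :
    ∀ w, w ≠ x → ((tt u z0 t w : ℤ) : ZMod m) = c x w := by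
  intro w hw
  by_cases hwu : w = u
  · subst hwu
    rw [tt_u, h.h0, hsym]
  · rw [tt_ne hwu]
    exact h.hx w hwu hw

private theorem yx_le {u x : V} {y : V → ℤ} (hx : x ∈ LL u y) : - y x ≤ exL u y :=
  Finset.single_le_sum (f := fun w => - y w)
    (fun w hw => by have := (mem_LL.1 hw).2; omega) hx

private theorem yh_le {u x : V} {y : V → ℤ} (hx : x ∈ HH u y) : y x - 1 ≤ exH u y :=
  Finset.single_le_sum (f := fun w => y w - 1)
    (fun w hw => by have := (mem_HH.1 hw).2; omega) hx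

private theorem fin_es [NeZero m] {c : V → V → ZMod m} {s : ℕ} (h : FS c s) {u : V} {y : V → ℤ}
    (hy : ES c s u y) {x : V} (hx : x ≠ u) (hx0 : y x ≤ 0) {t : V → ℤ}
    (hp : PLift c u x (y x) y t)
    (he : exL x (tt u (y x) t) + exH x (tt u (y x) t) + 2 ≤ s) : ES c s x (tt u (y x) t) := by
  have hV := h.hs.card
  have hf := h.hs.rng.facts
  have hn := n_lin h.hs.rng
  have hes := es_num h hy
  have heL := exL_nonneg u y
  have heH := exH_nonneg u y
  have he0 := hy.ex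
  have htL := exL_nonneg x (tt u (y x) t)
  have htH := exH_nonneg x (tt u (y x) t)
  have hcast := tt_cast h.hs.sym hp
  obtain ⟨hp1, hp2, hp3⟩ := tot hp hV (by omega) (by linarith) (by linarith) hx0
  have hc1 := cnt1 hcast (h.cls x 1)
  have hLH := card_LH hV (by omega) x (tt u (y x) t)
  have hHH : ((XX u x).filter (fun w => 1 ≤ y w ∧ 1 ≤ t w)).card ≤
      (HH x (tt u (y x) t)).card := by
    refine card_le_card ?_
    intro w hw
    rw [mem_filter, mem_XX] at hw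
    rw [mem_HH, tt_ne hw.1.1]
    exact ⟨hw.1.2, hw.2.2⟩
  have hyx : - y x ≤ exL u y := yx_le (mem_LL.2 ⟨hx, hx0⟩)
  have huL : u ∈ LL x (tt u (y x) t) := by
    rw [mem_LL, tt_u]
    exact ⟨hx.symm, hx0⟩
  have hLL : ((XX u x).filter (fun w => ¬ (1 ≤ y w ∨ 1 ≤ t w))).card + 1 ≤
      (LL x (tt u (y x) t)).card := by
    rw [← card_erase_add_one huL]
    refine Nat.add_le_add_right (card_le_card ?_) 1
    intro w hw
    rw [mem_filter, mem_XX] at hw
    rw [mem_erase, mem_LL, tt_ne hw.1.1]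
    exact ⟨hw.1.1, hw.1.2, by omega⟩
  have hXX : (XX u x).card + 2 = Fintype.card V := card_XX hx.symm
  have hsp := Finset.card_filter_add_card_filter_not (s := XX u x)
    (fun w => 1 ≤ y w ∨ 1 ≤ t w)
  have hl : s ≤ (LL x (tt u (y x) t)).card + 1 := by
    rcases hp3 with ⟨h1, h2⟩ | ⟨h1, h2⟩
    · omega
    · omega
  refine ⟨sl_of_ex h.hs.zsf hV (by omega) hcast (by omega) (by omega) hl (by omega), he⟩

theorem step_low [NeZero m] {c : V → V → ZMod m} {s : ℕ} (h : FS c s) {u : V} {y : V → ℤ} (hy : ES c s u y)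
    {x : V} (hx : x ≠ u) (hx0 : y x ≤ 0) (G : Finset V) (hG : G ⊆ XX u x) (Y : V → ℤ)
    (hY : ∀ w ∈ G, (Y w : ZMod m) = c x w ∧ - (s : ℤ) ≤ Y w ∧ Y w ≤ s + 1)
    (hsg : 5 * s ≤ 4 * (G.filter (fun w => (1 ≤ y w ∧ Y w ≤ 0) ∨ (y w ≤ 0 ∧ 1 ≤ Y w))).card) :
    ∃ t : V → ℤ, ES c s x t := by
  have hV := h.hs.card
  have hf := h.hs.rng.facts
  have hn := n_lin h.hs.rng
  have hes := es_num h hy
  have heL := exL_nonneg u y
  have heH := exH_nonneg u y
  have he0 := hy.ex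
  have hLHu := card_LH hV (by omega) u y
  have hyx : - y x ≤ exL u y := yx_le (mem_LL.2 ⟨hx, hx0⟩)
  have hst := n_step h.hs.rng hsg
  have hyb : ∀ w, w ≠ u → - exL u y ≤ y w ∧ y w ≤ 1 + exH u y := by
    intro w hw
    rcases le_or_gt (y w) 0 with h1 | h1
    · have := yx_le (mem_LL.2 ⟨hw, h1⟩)
      omega
    · have := yh_le (mem_HH.2 ⟨hw, h1⟩)
      omega
  have hD : ff m s ≤ ((XX u x).filter (fun w => c u w ≠ c x w)).card := by
    refine hst.2.trans (card_le_card ?_)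
    intro w hw
    rw [mem_filter] at hw ⊢
    obtain ⟨hwG, hws⟩ := hw
    have hwX := hG hwG
    refine ⟨hwX, ?_⟩
    intro heq
    have hwu := (mem_XX.1 hwX).1
    obtain ⟨hY1, hY2, hY3⟩ := hY w hwG
    have hb := hyb w hwu
    have h1 : ((y w - Y w : ℤ) : ZMod m) = 0 := by
      push_cast
      rw [hY1, hy.sl.cast w hwu, heq, sub_self]
    rw [ZMod.intCast_zmod_eq_zero_iff_dvd] at h1
    have h2 := Int.eq_zero_of_abs_lt_dvd h1 (by
      rw [abs_lt]
      constructor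
      · omega
      · omega)
    omega
  obtain ⟨t, hp⟩ := gpl_U h.hs.sym h.hs.zsf h.u3 hy.sl hV (es_numU h hy) hx hD
  obtain ⟨hp1, hp2, hp3⟩ := tot hp hV (by omega) (by linarith) (by linarith) hx0
  have hcast := tt_cast h.hs.sym hp
  have htL := exL_nonneg x (tt u (y x) t)
  have htH := exH_nonneg x (tt u (y x) t)
  have hUH : (HH u y).card ≤ ((XX u x).filter (fun w => 1 ≤ y w ∨ 1 ≤ t w)).card := by
    refine card_le_card ?_
    intro w hw
    have h1 := mem_HH.1 hw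
    rw [mem_filter, mem_XX]
    refine ⟨⟨h1.1, ?_⟩, Or.inl h1.2⟩
    rintro rfl
    omega
  have hpH : ((XX u x).filter (fun w => 1 ≤ y w ∧ 1 ≤ t w)).card ≤ (HH u y).card := by
    refine card_le_card ?_
    intro w hw
    rw [mem_filter, mem_XX] at hw
    rw [mem_HH]
    exact ⟨hw.1.1, hw.2.1⟩
  have htb : ∀ w ∈ XX u x, - exL x (tt u (y x) t) ≤ t w ∧ t w ≤ 1 + exH x (tt u (y x) t) := by
    intro w hw
    obtain ⟨hwu, hwx⟩ := mem_XX.1 hw
    rcases le_or_gt (t w) 0 with h1 | h1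
    · have := yx_le (u := x) (x := w) (y := tt u (y x) t)
        (mem_LL.2 ⟨hwx, by rw [tt_ne hwu]; exact h1⟩)
      rw [tt_ne hwu] at this
      omega
    · have := yh_le (u := x) (x := w) (y := tt u (y x) t)
        (mem_HH.2 ⟨hwx, by rw [tt_ne hwu]; exact h1⟩)
      rw [tt_ne hwu] at this
      omega
  have hsgU : (G.filter (fun w => (1 ≤ y w ∧ Y w ≤ 0) ∨ (y w ≤ 0 ∧ 1 ≤ Y w))).card +
      ((XX u x).filter (fun w => 1 ≤ y w ∧ 1 ≤ t w)).card ≤
      ((XX u x).filter (fun w => 1 ≤ y w ∨ 1 ≤ t w)).card := by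
    have hty : ∀ w ∈ G, t w = Y w := by
      intro w hwG
      have hwX := hG hwG
      obtain ⟨hwu, hwx⟩ := mem_XX.1 hwX
      obtain ⟨hY1, hY2, hY3⟩ := hY w hwG
      have hb := htb w hwX
      have h1 : ((t w - Y w : ℤ) : ZMod m) = 0 := by
        push_cast
        rw [hY1, hp.hx w hwu hwx, sub_self]
      rw [ZMod.intCast_zmod_eq_zero_iff_dvd] at h1
      have h2 := Int.eq_zero_of_abs_lt_dvd h1 (by
        rw [abs_lt]
        rcases hp3 with ⟨h3, h4⟩ | ⟨h3, h4⟩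
        · constructor
          · omega
          · omega
        · constructor
          · omega
          · omega)
      omega
    have hdis : Disjoint (G.filter (fun w => (1 ≤ y w ∧ Y w ≤ 0) ∨ (y w ≤ 0 ∧ 1 ≤ Y w)))
        ((XX u x).filter (fun w => 1 ≤ y w ∧ 1 ≤ t w)) := by
      rw [Finset.disjoint_left]
      intro w h1 h2
      rw [mem_filter] at h1 h2
      have h3 := hty w h1.1
      omega
    rw [← card_union_of_disjoint hdis]
    refine card_le_card ?_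
    intro w hw
    rw [mem_union, mem_filter, mem_filter] at hw
    rw [mem_filter]
    rcases hw with ⟨h1, h2⟩ | ⟨h1, h2⟩
    · have h3 := hty w h1
      refine ⟨hG h1, ?_⟩
      rw [h3]
      omega
    · exact ⟨h1, Or.inl h2.1⟩
  have hc1 := cnt1 hcast (h.cls x 1)
  have hcU := cntU (t := t) hx.symm hx0
  have he : exL x (tt u (y x) t) + exH x (tt u (y x) t) + 2 ≤ s := by
    rcases hp3 with ⟨h1, h2⟩ | ⟨h1, h2⟩
    · omega
    · have h3 := n_step2 (p := ((XX u x).filter (fun w => 1 ≤ y w ∧ 1 ≤ t w)).card)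
        (h := (HH u y).card) h.hs.rng (by omega) (by omega)
      omega
  exact ⟨_, fin_es h hy hx hx0 hp he⟩

theorem step_any [NeZero m] {c : V → V → ZMod m} {s : ℕ} (h : FS c s) {u : V} {y : V → ℤ} (hy : ES c s u y)
    {x : V} (hx : x ≠ u) (G : Finset V) (hG : G ⊆ XX u x) (Y : V → ℤ)
    (hY : ∀ w ∈ G, (Y w : ZMod m) = c x w ∧ - (s : ℤ) ≤ Y w ∧ Y w ≤ s + 1)
    (hsg : 5 * s ≤ 4 * (G.filter (fun w => (1 ≤ y w ∧ Y w ≤ 0) ∨ (y w ≤ 0 ∧ 1 ≤ Y w))).card) :
    ∃ t : V → ℤ, ES c s x t := by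
  rcases le_or_gt (y x) 0 with hx0 | hx0
  · exact step_low h hy hx hx0 G hG Y hY hsg
  · have h1 := fs_refl h
    have h2 := es_refl hy
    obtain ⟨t, ht⟩ := step_low h1 h2 hx (by show 1 - y x ≤ 0; omega) G hG (fun w => 1 - Y w) (by
      intro w hw
      obtain ⟨hY1, hY2, hY3⟩ := hY w hw
      refine ⟨?_, ?_, ?_⟩
      · push_cast
        rw [hY1]
      · show - (s : ℤ) ≤ 1 - Y w
        omega
      · show 1 - Y w ≤ (s : ℤ) + 1
        omega) (by
      refine hsg.trans (Nat.mul_le_mul_left 4 (card_le_card ?_))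
      intro w hw
      rw [mem_filter] at hw ⊢
      refine ⟨hw.1, ?_⟩
      show (1 ≤ 1 - y w ∧ 1 - Y w ≤ 0) ∨ (1 - y w ≤ 0 ∧ 1 ≤ 1 - Y w)
      omega)
    have h4 := es_refl ht
    have h5 : (fun p q => 1 - (fun p q => 1 - c p q) p q) = c := by
      funext p q
      ring
    exact ⟨fun w => 1 - t w, by rw [← h5]; exact h4⟩

end H
end ZS44129
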