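import Pool.Agent.Work.MP_44129c_co.H.F5
import Pool.Agent.Work.MP_44129c_co.H.F6
import Pool.Agent.Work.MP_44129c_co.N.Common

/-!
# MP_44129c_co/H, F7 (size M): all vertices, conclusion of block F

PROOF of `all_es`.  `B` from `bad_set`; for `w ∉ B` choose `Y w` with `ES c s w (Y w)`: `- (s - 2) ≤ Y w v ≤ s - 1` for `v ≠ w` (`exL + exH ≤ s - 2`).  For `w, v ∉ B`, `w ≠ v`: `Y w v = Y v w` (both lift `c w v = c v w`, the difference is `< m` in absolute value).  Let `x ∈ B`.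
For `w ∉ B` let `A w` = the `v ∉ B`, `v ≠ w` for which `Y w v`, `Y w x` are on different sides (one `≥ 1`, the other `≤ 0`): it is `HH w (Y w) \ B` or `LL w (Y w) \ B`, so `4 |A w| ≥ 7 s - 4 |B| ≥ 5 s` (`es_num`, `2 |B| ≤ s`).  Double counting over the pairs `(w, v)`, `w, v ∉ B`, `w ≠ v`, `v ∈ A w`:
some `v ∉ B` has `4 #{w ∉ B, w ≠ v : v ∈ A w} ≥ 5 s`.  Apply `step_any` with `u = v`, `y = Y v`, `G` = the complement of `B ∪ {v}` (it does not contain `x`), `Y w := Y w x` (lifts `c w x = c x w`): `v ∈ A w` means that `Y v w = Y w v` and `Y w x` are on different sides.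
PROOF of `est_mf'`: choose `Y x` with `ES c s x (Y x)` for all `x` (`all_es`).  `common_mf` with `a = 0`, `g = 1`, `e₀ = eb m s`, `n₀ = alp s`: `∑_{univ.erase x} exc (Y x w) = exL + exH ≤ eb` (`es_num`; `exc v = v - 1` for `v ≥ 1`, `- v` for `v ≤ 0`), the zeros (ones) at `x` have colour `0` (`1`): at most `alp s`; `n_lin`.
-/

set_option autoImplicit false

namespace ZS44129
namespace H

open Finset E N

variable {V : Type} [Fintype V] [DecidableEq V] {m : ℕ}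

private theorem f7_bd {c : V → V → ZMod m} {s : ℕ} {w : V} {t : V → ℤ} (h : ES c s w t) {v : V}
    (hv : v ≠ w) : - (s : ℤ) + 2 ≤ t v ∧ t v ≤ s - 1 := by
  have h0 := h.ex
  have hL := exL_nonneg w t
  have hH := exH_nonneg w t
  rcases le_or_gt (t v) 0 with h1 | h1
  · have h2 : - t v ≤ exL w t := by
      unfold exL
      refine Finset.single_le_sum (f := fun i => - t i) (fun i hi => ?_) (mem_LL.2 ⟨hv, h1⟩)
      have := (mem_LL.1 hi).2
      change 0 ≤ - t i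
      omega
    constructor <;> linarith
  · have h2 : t v - 1 ≤ exH w t := by
      unfold exH
      refine Finset.single_le_sum (f := fun i => t i - 1) (fun i hi => ?_) (mem_HH.2 ⟨hv, h1⟩)
      have := (mem_HH.1 hi).2
      change 0 ≤ t i - 1
      omega
    constructor <;> linarith

private theorem f7_sym {c : V → V → ZMod m} {s : ℕ} (h : FS c s) {w v : V} {t t' : V → ℤ}
    (h1 : ES c s w t) (h2 : ES c s v t') (hwv : w ≠ v) : t v = t' w := by
  have e1 := h1.sl.cast v hwv.symm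
  have e2 := h2.sl.cast w hwv
  have b1 := f7_bd h1 hwv.symm
  have b2 := f7_bd h2 hwv
  have hm := h.hs.rng.facts
  have e3 : ((t v - t' w : ℤ) : ZMod m) = 0 := by
    push_cast
    rw [e1, e2, h.hs.sym w v, sub_self]
  rw [ZMod.intCast_zmod_eq_zero_iff_dvd] at e3
  have e4 : t v - t' w = 0 := by
    refine Int.eq_zero_of_abs_lt_dvd e3 ?_
    rw [abs_lt]
    constructor <;> omega
  linarith

private theorem f7_A [NeZero m] {c : V → V → ZMod m} {s : ℕ} (h : FS c s) {w : V} {t : V → ℤ}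
    (ht : ES c s w t) (B : Finset V) (hB : 2 * B.card ≤ s) (k : ℤ) :
    5 * s ≤ 4 * ((univ \ B).filter (fun v => v ≠ w ∧
      ((1 ≤ t v ∧ k ≤ 0) ∨ (t v ≤ 0 ∧ 1 ≤ k)))).card := by
  obtain ⟨h1, h2, -⟩ := es_num h ht
  rcases le_or_gt k 0 with hk | hk
  · have h3 : HH w t \ B ⊆ (univ \ B).filter (fun v => v ≠ w ∧
      ((1 ≤ t v ∧ k ≤ 0) ∨ (t v ≤ 0 ∧ 1 ≤ k))) := by
      intro v hv
      rw [Finset.mem_sdiff, mem_HH] at hv
      rw [Finset.mem_filter, Finset.mem_sdiff]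
      exact ⟨⟨Finset.mem_univ _, hv.2⟩, hv.1.1, Or.inl ⟨hv.1.2, hk⟩⟩
    have h4 := Finset.card_le_card h3
    have h5 := Finset.le_card_sdiff B (HH w t)
    omega
  · have h3 : LL w t \ B ⊆ (univ \ B).filter (fun v => v ≠ w ∧
      ((1 ≤ t v ∧ k ≤ 0) ∨ (t v ≤ 0 ∧ 1 ≤ k))) := by
      intro v hv
      rw [Finset.mem_sdiff, mem_LL] at hv
      rw [Finset.mem_filter, Finset.mem_sdiff]
      exact ⟨⟨Finset.mem_univ _, hv.2⟩, hv.1.1, Or.inr ⟨hv.1.2, hk⟩⟩
    have h4 := Finset.card_le_card h3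
    have h5 := Finset.le_card_sdiff B (LL w t)
    omega

theorem all_es [NeZero m] {c : V → V → ZMod m} {s : ℕ} (h : FS c s) {u : V} {y : V → ℤ} (hy : ES c s u y)
    (x : V) : ∃ t : V → ℤ, ES c s x t := by
  obtain ⟨B, hB, hBt⟩ := bad_set h hy
  by_cases hxB : x ∈ B
  swap
  · exact hBt x hxB
  have hch : ∀ w : V, ∃ t : V → ℤ, w ∉ B → ES c s w t := by
    intro w
    by_cases hw : w ∈ B
    · exact ⟨fun _ => 0, fun hh => absurd hw hh⟩
    · obtain ⟨t, ht⟩ := hBt w hw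
      exact ⟨t, fun _ => ht⟩
  choose Y hY using hch
  have hm := h.hs.rng.facts
  have hne : (univ \ B).Nonempty := by
    rw [← Finset.card_pos]
    have h1 := Finset.le_card_sdiff B (univ : Finset V)
    rw [Finset.card_univ, h.hs.card] at h1
    omega
  have hsum : ∑ w ∈ univ \ B, 4 * ((univ \ B).filter (fun v => v ≠ w ∧
      ((1 ≤ Y w v ∧ Y w x ≤ 0) ∨ (Y w v ≤ 0 ∧ 1 ≤ Y w x)))).card =
      ∑ v ∈ univ \ B, 4 * ((univ \ B).filter (fun w => v ≠ w ∧
      ((1 ≤ Y w v ∧ Y w x ≤ 0) ∨ (Y w v ≤ 0 ∧ 1 ≤ Y w x)))).card := by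
    rw [← Finset.mul_sum, ← Finset.mul_sum]
    congr 1
    exact Finset.sum_card_bipartiteAbove_eq_sum_card_bipartiteBelow (s := univ \ B) (t := univ \ B)
      (fun w v => v ≠ w ∧ ((1 ≤ Y w v ∧ Y w x ≤ 0) ∨ (Y w v ≤ 0 ∧ 1 ≤ Y w x)))
  have hex : ∃ v ∈ univ \ B, 5 * s ≤ 4 * ((univ \ B).filter (fun w => v ≠ w ∧
      ((1 ≤ Y w v ∧ Y w x ≤ 0) ∨ (Y w v ≤ 0 ∧ 1 ≤ Y w x)))).card := by
    refine Finset.exists_le_of_sum_le hne ?_
    rw [← hsum]
    refine Finset.sum_le_sum fun w hw => ?_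
    exact f7_A h (hY w (Finset.mem_sdiff.1 hw).2) B hB (Y w x)
  obtain ⟨v, hv, hv5⟩ := hex
  have hvB := (Finset.mem_sdiff.1 hv).2
  have hxv : x ≠ v := fun e => hvB (e ▸ hxB)
  refine step_any h (hY v hvB) hxv ((univ \ B).erase v) ?_ (fun w => Y w x) ?_ ?_
  · intro w hw
    rw [Finset.mem_erase, Finset.mem_sdiff] at hw
    have hwx : w ≠ x := fun e => hw.2.2 (e ▸ hxB)
    rw [mem_XX]
    exact ⟨hw.1, hwx⟩
  · intro w hw
    rw [Finset.mem_erase, Finset.mem_sdiff] at hw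
    have hwx : x ≠ w := fun e => hw.2.2 (e ▸ hxB)
    have h1 := hY w hw.2.2
    have h2 := h1.sl.cast x hwx
    have h3 := f7_bd h1 hwx
    change (Y w x : ZMod m) = c x w ∧ - (s : ℤ) ≤ Y w x ∧ Y w x ≤ s + 1
    refine ⟨?_, ?_, ?_⟩
    · rw [h2, h.hs.sym w x]
    · linarith
    · linarith
  · refine hv5.trans (Nat.mul_le_mul_left 4 (Finset.card_le_card ?_))
    intro w hw
    rw [Finset.mem_filter, Finset.mem_sdiff] at hw
    obtain ⟨⟨-, hwB⟩, hvw, hs⟩ := hw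
    have h1 := f7_sym h (hY w hwB) (hY v hvB) (Ne.symm hvw)
    rw [Finset.mem_filter, Finset.mem_erase, Finset.mem_sdiff]
    refine ⟨⟨Ne.symm hvw, Finset.mem_univ _, hwB⟩, ?_⟩
    change (1 ≤ Y v w ∧ Y w x ≤ 0) ∨ (Y v w ≤ 0 ∧ 1 ≤ Y w x)
    rw [← h1]
    exact hs

private theorem f7_exc (x : V) (y : V → ℤ) :
    ∑ w ∈ univ.erase x, N.exc (y w) = exL x y + exH x y := by
  unfold exL exH LL HH
  rw [Finset.sum_filter, Finset.sum_filter, ← Finset.sum_add_distrib]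
  refine Finset.sum_congr rfl fun w _ => ?_
  unfold N.exc
  rcases le_or_gt (y w) 0 with h1 | h1
  · rw [if_pos h1, if_neg (by omega), max_eq_right (by omega), max_eq_left (by omega)]
    ring
  · rw [if_neg (by omega), if_pos (by omega), max_eq_left (by omega), max_eq_right (by omega)]
    ring

theorem est_mf' [NeZero m] {c : V → V → ZMod m} {s : ℕ} (h : FS c s) {u : V} {y : V → ℤ} (hy : ES c s u y) :
    ∃ b : V → V → Bool, (∀ x y, b x y = b y x) ∧ MF m b := by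
  choose Y hY using fun x => all_es h hy x
  obtain ⟨n1, -, -, -, n2, -, -, -⟩ := n_lin h.hs.rng
  refine common_mf h.hs.sym h.hs.zsf 0 1 Y (fun x w hxw => ?_) (eb m s) (alp s) (fun x => ?_)
    (fun x => ?_) (fun x => ?_) n1 n2
  · rw [zsmul_eq_mul, Units.val_one, mul_one, zero_add]
    exact ((hY x).sl.cast w (Ne.symm hxw)).symm
  · rw [f7_exc]
    exact (es_num h (hY x)).2.2
  · refine le_trans (Finset.card_le_card fun w hw => ?_) (h.cls x 0)
    rw [Finset.mem_filter, Finset.mem_erase] at hw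
    rw [mem_cl, ← (hY x).sl.cast w hw.1.1, hw.2, Int.cast_zero]
    exact ⟨hw.1.1, rfl⟩
  · refine le_trans (Finset.card_le_card fun w hw => ?_) (h.cls x 1)
    rw [Finset.mem_filter, Finset.mem_erase] at hw
    rw [mem_cl, ← (hY x).sl.cast w hw.1.1, hw.2, Int.cast_one]
    exact ⟨hw.1.1, rfl⟩

end H
end ZS44129
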