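import Pool.Agent.Work.MP_44129c_co.H.Defs
import Pool.Agent.Work.MP_44129c_co.E.Basic
import Pool.Agent.Work.MP_44129c_co.E.Refl

/-!
# MP_44129c_co/H, FDefs (FIXED, do not change): definitions for block F (phase 2)

`ES c s x y`: the integers `y` lift the star of `x` and have total excess at most `s - 2`.  `FS c s`: the situation of phase 2.
`eb m s`: bound for the total excess of such a star.  `ff m s`: number of own switches needed for the propagation lemma `gpl`.
-/

set_option autoImplicit false

namespace ZS44129
namespace H

open Finset E N

variable {V : Type} [Fintype V] [DecidableEq V] {m : ℕ}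

/-- star with an integer lift of small excess. -/
structure ES (c : V → V → ZMod m) (s : ℕ) (x : V) (y : V → ℤ) : Prop where
  sl : SL c x y
  ex : exL x y + exH x y + 2 ≤ s

/-- the situation of phase 2. -/
structure FS (c : V → V → ZMod m) (s : ℕ) : Prop where
  hs : HS c s
  u3 : ∀ z, U3 c z
  cls : ∀ u r, (cl c u r).card ≤ alp s

/-- bound for the total excess. -/
def eb (m s : ℕ) : ℕ := ((m + s - 1) * (m - 3 * s - 1)) / (7 * s)

/-- number of own switches for `gpl`. -/
def ff (m s : ℕ) : ℕ := m / 2 + 2 - s

end H
end ZS44129
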