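import Mathlib
import Pool.Agent.Work.MP_44129c_co.T3.Cube3
import Pool.Agent.Work.MP_44129c_co.T3.NoTwG
import Pool.Agent.Work.MP_44129c_co.E.Goodman
import Pool.Agent.Work.MP_44129c_co.H.Defs

/-!
# MP_44129c_co/H, G1: the per-vertex Goodman inequality with `U3` at all vertices

`T3.cube3` gives the alternatives of order 2 and 3; in the alternative of order 3 every `w ∈ K₀` with `M ∣ D w` has `y w ≥ 2`
(`c w x - c w u = - D w` would be a difference of two colours at `w` of order 3), so there are at most `exH ≤ s - 2` of them and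
`lo ≤ (M - s - 1) + (s - 2) < M`, but `M ≤ D w < lo`.
-/

set_option autoImplicit false

namespace ZS44129
namespace H

open Finset E N

variable {V : Type} [Fintype V] [DecidableEq V] {m : ℕ}

private theorem KK_sub (c : V → V → ZMod m) (u : V) (y : V → ℤ) (x : V) : KK c u y x ⊆ HH u y :=
  Finset.filter_subset _ _

private theorem mem_KK {c : V → V → ZMod m} {u : V} {y : V → ℤ} {x w : V} :
    w ∈ KK c u y x ↔ w ∈ HH u y ∧ rep (2 - lo m u y) (c x w) ≤ 0 := by
  simp [KK]

private theorem D_bd {c : V → V → ZMod m} {u : V} {y : V → ℤ} {x w : V} (hw : w ∈ KK c u y x) :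
    1 ≤ 1 - rep (2 - lo m u y) (c x w) ∧ (1 - rep (2 - lo m u y) (c x w)) + 1 ≤ lo m u y := by
  have h1 := (mem_KK.1 hw).2
  have h2 := rep_ge (2 - lo m u y) (c x w)
  omega

private theorem no3 [NeZero m] {c : V → V → ZMod m} (hsym : ∀ x w, c x w = c w x)
    {u : V} {y : V → ℤ} (h : SL c u y) (hU : ∀ z, U3 c z) {x : V} (hx : x ∈ LL u y) {w : V}
    (hw : w ∈ KK c u y x) {M : ℕ} (hM : m = 3 * M) (hlm : lo m u y ≤ m)
    (hd : (M : ℤ) ∣ 1 - rep (2 - lo m u y) (c x w)) : 2 ≤ y w := by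
  have hm0 : m ≠ 0 := NeZero.ne m
  have hwH := mem_HH.1 (KK_sub c u y x hw)
  by_contra hcon
  have hyw : y w = 1 := by omega
  have hxu := (mem_LL.1 hx).1
  have hxw : x ≠ w := by
    rintro rfl
    have := (mem_LL.1 hx).2
    omega
  have hb := D_bd hw
  obtain ⟨j, hj⟩ := hd
  have e1 : c w u = 1 := by
    rw [hsym w u, ← h.cast w hwH.1, hyw, Int.cast_one]
  have e2 : c w x = 1 - (M : ZMod m) * j := by
    rw [hsym w x]
    have h1 := rep_cast (2 - lo m u y) (c x w)
    have h2 : rep (2 - lo m u y) (c x w) = 1 - M * j := by linarith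
    rw [h2] at h1
    rw [← h1]
    push_cast
    ring
  have e3 : 3 * c w x = 3 * c w u := by
    rw [e1, e2]
    have h1 : ((3 * M : ℕ) : ZMod m) = 0 := by rw [← hM]; exact ZMod.natCast_self m
    push_cast at h1
    linear_combination (-(j : ZMod m)) * h1
  have e4 := hU w x u hxw (Ne.symm hwH.1) e3
  rw [e1, e2] at e4
  have e5 : ((M * j : ℤ) : ZMod m) = 0 := by
    push_cast
    linear_combination -e4
  rw [← hj, ZMod.intCast_zmod_eq_zero_iff_dvd] at e5
  have e6 := Int.le_of_dvd (by linarith [hb.1]) e5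
  linarith [hb.2]

private theorem first3 [NeZero m] {c : V → V → ZMod m} (hsym : ∀ x w, c x w = c w x)
    (hz : ZSF m c) {u : V} {y : V → ℤ} (h : SL c u y) {s : ℕ} (hV : Fintype.card V = m + s)
    (hL : exL u y + 2 ≤ s) (hH : exH u y + 2 ≤ s) (hU : ∀ z, U3 c z) (hm : m ≤ 4 * s) {x : V}
    (hx : x ∈ LL u y) (hlo : (s : ℤ) + 2 ≤ lo m u y) {K₀ : Finset V} (hK : K₀ ⊆ KK c u y x)
    (hc : (K₀.card : ℤ) = lo m u y) :
    ∃ M : ℕ, m = 2 * M ∧
      (K₀.filter (fun w => 1 - rep (2 - lo m u y) (c x w) ≠ (M : ℤ))).card + s + 1 ≤ M := by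
  rcases T3.cube3 hsym hz h hV hL hH hm hx hlo hK hc with hM | ⟨M, hM1, hM2⟩
  · exact hM
  · exfalso
    have hLn := exL_nonneg u y
    have hlm : lo m u y ≤ m := by
      unfold lo
      have : (0 : ℤ) ≤ (LL u y).card := Int.natCast_nonneg _
      linarith
    have hsplit := Finset.card_filter_add_card_filter_not (s := K₀)
      (fun w => (M : ℤ) ∣ 1 - rep (2 - lo m u y) (c x w))
    have h1 : ((K₀.filter (fun w => (M : ℤ) ∣ 1 - rep (2 - lo m u y) (c x w))).card : ℤ) ≤
        exH u y := by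
      have h2 : ((K₀.filter (fun w => (M : ℤ) ∣ 1 - rep (2 - lo m u y) (c x w))).card : ℤ) ≤
          ∑ w ∈ K₀.filter (fun w => (M : ℤ) ∣ 1 - rep (2 - lo m u y) (c x w)), (y w - 1) := by
        rw [Finset.cast_card]
        refine Finset.sum_le_sum (fun w hw => ?_)
        have h3 := Finset.mem_filter.1 hw
        have := no3 hsym h hU hx (hK h3.1) hM1 hlm h3.2
        push_cast
        linarith
      refine h2.trans ?_
      unfold exH
      refine Finset.sum_le_sum_of_subset_of_nonneg (fun w hw => ?_) (fun w hw _ => ?_)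
      · exact KK_sub c u y x (hK (Finset.mem_filter.1 hw).1)
      · have := (mem_HH.1 hw).2
        omega
    have hpos : 0 < (K₀.filter (fun w => (M : ℤ) ∣ 1 - rep (2 - lo m u y) (c x w))).card := by
      omega
    obtain ⟨w, hw⟩ := Finset.card_pos.1 hpos
    have h3 := Finset.mem_filter.1 hw
    have hb := D_bd (hK h3.1)
    have h4 := Int.le_of_dvd (by linarith [hb.1]) h3.2
    omega

private theorem cubeK3 [NeZero m] {c : V → V → ZMod m} (hsym : ∀ x w, c x w = c w x)
    (hz : ZSF m c) {u : V} {y : V → ℤ} (h : SL c u y) {s : ℕ} (hV : Fintype.card V = m + s)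
    (hL : exL u y + 2 ≤ s) (hH : exH u y + 2 ≤ s) (hU : ∀ z, U3 c z) (hm : m ≤ 4 * s) {x : V}
    (hx : x ∈ LL u y) (hlo : (s : ℤ) + 2 ≤ lo m u y)
    (hK : lo m u y ≤ ((KK c u y x).card : ℤ)) :
    ∃ M : ℕ, m = 2 * M ∧ ((LL u y).card : ℤ) + exL u y + 1 ≤ M ∧
      (KK c u y x).card + s + 1 ≤ M + ((KK c u y x).filter (fun w => c x w = 1 - M)).card := by
  have hlonn : 0 ≤ lo m u y := by
    have : (0 : ℤ) ≤ s := Int.natCast_nonneg _
    linarith
  obtain ⟨K₀, hK₀, hK₀c⟩ := Finset.exists_subset_card_eq (s := KK c u y x) (n := (lo m u y).toNat)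
    (by omega)
  have hK₀c' : (K₀.card : ℤ) = lo m u y := by omega
  obtain ⟨M, hM, hM1⟩ := first3 hsym hz h hV hL hH hU hm hx hlo hK₀ hK₀c'
  have hMs : s + 1 ≤ M := by omega
  have hM2 : M ≤ 2 * s := by omega
  have hall : ((KK c u y x).filter (fun w => 1 - rep (2 - lo m u y) (c x w) ≠ (M : ℤ))).card + s + 1 ≤ M := by
    by_contra hcon
    obtain ⟨B, hB, hBc⟩ := Finset.exists_subset_card_eq
      (s := (KK c u y x).filter (fun w => 1 - rep (2 - lo m u y) (c x w) ≠ (M : ℤ))) (n := M - s) (by omega)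
    obtain ⟨K₁, hBK, hK₁, hK₁c⟩ := Finset.exists_subsuperset_card_eq
      (hB.trans (Finset.filter_subset _ _)) (n := (lo m u y).toNat) (by omega) (by omega)
    have hK₁c' : (K₁.card : ℤ) = lo m u y := by omega
    obtain ⟨M', hM', hM1'⟩ := first3 hsym hz h hV hL hH hU hm hx hlo hK₁ hK₁c'
    have hMM : M' = M := by omega
    subst hMM
    have hle : B.card ≤ (K₁.filter (fun w => 1 - rep (2 - lo m u y) (c x w) ≠ (M' : ℤ))).card := by
      apply Finset.card_le_card
      intro w hw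
      rw [Finset.mem_filter]
      exact ⟨hBK hw, (Finset.mem_filter.1 (hB hw)).2⟩
    omega
  have hsplit := Finset.card_filter_add_card_filter_not (s := KK c u y x)
    (fun w => 1 - rep (2 - lo m u y) (c x w) = (M : ℤ))
  have hKs : s + 2 ≤ (KK c u y x).card := by
    have : ((s + 2 : ℕ) : ℤ) ≤ ((KK c u y x).card : ℤ) := by push_cast; linarith
    exact_mod_cast this
  have hpos : 0 < ((KK c u y x).filter (fun w => 1 - rep (2 - lo m u y) (c x w) = (M : ℤ))).card := by
    have h9 : ((KK c u y x).filter (fun w => ¬ 1 - rep (2 - lo m u y) (c x w) = (M : ℤ))).card + s + 1 ≤ M := hall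
    omega
  refine ⟨M, hM, ?_, ?_⟩
  · obtain ⟨w, hw⟩ := Finset.card_pos.1 hpos
    rw [Finset.mem_filter] at hw
    have h10 := (D_bd hw.1).2
    rw [hw.2] at h10
    have hmz : (m : ℤ) = 2 * M := by exact_mod_cast hM
    have h11 : lo m u y = m - (LL u y).card - exL u y := rfl
    linarith
  · have h12 : ((KK c u y x).filter (fun w => 1 - rep (2 - lo m u y) (c x w) = (M : ℤ))).card ≤
        ((KK c u y x).filter (fun w => c x w = 1 - M)).card := by
      apply Finset.card_le_card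
      intro w hw
      rw [Finset.mem_filter] at hw ⊢
      refine ⟨hw.1, ?_⟩
      have h13 := rep_cast (2 - lo m u y) (c x w)
      have h14 : rep (2 - lo m u y) (c x w) = 1 - (M : ℤ) := by linarith [hw.2]
      rw [h14] at h13
      rw [← h13]
      push_cast
      ring
    have h9 : ((KK c u y x).filter (fun w => ¬ 1 - rep (2 - lo m u y) (c x w) = (M : ℤ))).card + s + 1 ≤ M := hall
    omega

theorem pervU [NeZero m] {c : V → V → ZMod m} (hsym : ∀ x w, c x w = c w x) (hz : ZSF m c)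
    {u : V} {y : V → ℤ} (h : SL c u y) {s : ℕ} (hV : Fintype.card V = m + s)
    (hL : exL u y + 2 ≤ s) (hH : exH u y + 2 ≤ s) (hU : ∀ z, U3 c z) (hm : m ≤ 4 * s) {x : V}
    (hx : x ∈ LL u y) :
    s + exL u y ≤ ((UU c u y x).card : ℤ) ∨
      ∃ M : ℕ, m = 2 * M ∧ ((LL u y).card : ℤ) + exL u y + 1 ≤ M ∧
        M + 2 * s ≤ (UU c u y x).card + (LL u y).card +
          ((HH u y).filter (fun w => c x w = 1 - M)).card := by
  by_cases hlt : s + exL u y ≤ ((UU c u y x).card : ℤ)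
  · exact Or.inl hlt
  right
  have hs : 1 ≤ s := by
    have := exL_nonneg u y
    have h0 : (2 : ℤ) ≤ s := by linarith
    omega
  have h2 : ((UU c u y x).card : ℤ) + (KK c u y x).card = (HH u y).card := by
    exact_mod_cast card_UK c u y x
  have h3' : ((LL u y).card : ℤ) + (HH u y).card + 1 = m + s := by
    exact_mod_cast card_LH hV hs u y
  by_cases hlo : lo m u y ≤ s + 1
  · exact absurd (perv_greedy hsym hz h hV hL hH hx hlo) hlt
  have hK : lo m u y ≤ ((KK c u y x).card : ℤ) := by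
    have h4 : ((UU c u y x).card : ℤ) + 1 ≤ s + exL u y := by omega
    unfold lo
    linarith
  obtain ⟨M, hM1, hM2, hM3⟩ := cubeK3 hsym hz h hV hL hH hU hm hx (by omega) hK
  refine ⟨M, hM1, hM2, ?_⟩
  have hsub : (KK c u y x).filter (fun w => c x w = 1 - M) ⊆
      (HH u y).filter (fun w => c x w = 1 - M) := by
    refine Finset.filter_subset_filter _ ?_
    unfold KK
    exact Finset.filter_subset _ _
  have h5 := Finset.card_le_card hsub
  have h6 := card_UK c u y x
  have h7 := card_LH hV hs u y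
  omega

theorem u3_refl1 {c : V → V → ZMod m} {z : V} (h : U3 c z) : U3 (fun p q => 1 - c p q) z := by
  intro p q hp hq h1
  have h2 : 3 * c z p = 3 * c z q := by
    have h3 : 3 * (1 - c z p) = 3 * (1 - c z q) := h1
    linear_combination -h3
  show 1 - c z p = 1 - c z q
  rw [h p q hp hq h2]

theorem goodL_U [NeZero m] {c : V → V → ZMod m} (hsym : ∀ x w, c x w = c w x) (hz : ZSF m c)
    (hU : ∀ z, U3 c z) {u : V} {y : V → ℤ} (h : SL c u y) {s : ℕ} (hV : Fintype.card V = m + s)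
    (hL : exL u y + 2 ≤ s) (hH : exH u y + 2 ≤ s) (hm : m ≤ 4 * s)
    (hev : ∀ M : ℕ, m = 2 * M → m + 4 ≤ 4 * s ∧ M * M + s < s * s + M * s + M) {x : V}
    (hx : x ∈ LL u y) : s + exL u y ≤ ((UU c u y x).card : ℤ) := by
  rcases pervU hsym hz h hV hL hH hU hm hx with h1 | ⟨M, hM, h2, -⟩
  · exact h1
  · exact absurd h2 (T3.no_tw_G hsym hz h hV hL hH
      (fun x hx => pervU hsym hz h hV hL hH hU hm hx) hM (hev M hM).1 (hev M hM).2)

theorem goodH_U [NeZero m] {c : V → V → ZMod m} (hsym : ∀ x w, c x w = c w x) (hz : ZSF m c)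
    (hU : ∀ z, U3 c z) {u : V} {y : V → ℤ} (h : SL c u y) {s : ℕ} (hV : Fintype.card V = m + s)
    (hL : exL u y + 2 ≤ s) (hH : exH u y + 2 ≤ s) (hm : m ≤ 4 * s)
    (hev : ∀ M : ℕ, m = 2 * M → m + 4 ≤ 4 * s ∧ M * M + s < s * s + M * s + M) {w : V}
    (hw : w ∈ HH u y) : s + exH u y ≤ ((PP c u y w).card : ℤ) := by
  have h1 := goodL_U (c := fun x w => 1 - c x w) (fun x w => by rw [hsym x w]) (zsf_refl hz)
    (fun z => u3_refl1 (hU z)) (sl_refl h) hV (by rw [exL_refl]; exact hH)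
    (by rw [exH_refl]; exact hL) hm hev (x := w) (by rw [LL_refl]; exact hw)
  rw [exL_refl, UU_refl] at h1
  exact h1

theorem goodman_starU [NeZero m] {c : V → V → ZMod m} (hsym : ∀ x w, c x w = c w x)
    (hz : ZSF m c) (hU : ∀ z, U3 c z) {u : V} {y : V → ℤ} (h : SL c u y) {s : ℕ}
    (hV : Fintype.card V = m + s) (hL : exL u y + 2 ≤ s) (hH : exH u y + 2 ≤ s) (hm : m ≤ 4 * s)
    (hev : ∀ M : ℕ, m = 2 * M → m + 4 ≤ 4 * s ∧ M * M + s < s * s + M * s + M) :
    4 * (((LL u y).card : ℤ) * (s + exL u y) + (HH u y).card * (s + exH u y)) ≤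
      4 * ((LL u y).card * (HH u y).card : ℤ) + exL u y * exH u y := by
  have h1 := dc hsym hz h hV hL hH
  have h2 : ((LL u y).card : ℤ) * (s + exL u y) ≤ ∑ x ∈ LL u y, ((UU c u y x).card : ℤ) := by
    rw [← nsmul_eq_mul]
    exact Finset.card_nsmul_le_sum _ _ _ (fun x hx => goodL_U hsym hz hU h hV hL hH hm hev hx)
  have h3 : ((HH u y).card : ℤ) * (s + exH u y) ≤ ∑ w ∈ HH u y, ((PP c u y w).card : ℤ) := by
    rw [← nsmul_eq_mul]
    exact Finset.card_nsmul_le_sum _ _ _ (fun w hw => goodH_U hsym hz hU h hV hL hH hm hev hw)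
  linarith

/-- if `exL + exH + 1 ≤ s`: `l h ≥ s (l + h) + l exL + h exH`. -/
theorem goodman0_U [NeZero m] {c : V → V → ZMod m} (hsym : ∀ x w, c x w = c w x)
    (hz : ZSF m c) (hU : ∀ z, U3 c z) {u : V} {y : V → ℤ} (h : SL c u y) {s : ℕ}
    (hV : Fintype.card V = m + s) (hL : exL u y + 2 ≤ s) (hH : exH u y + 2 ≤ s)
    (he : exL u y + exH u y + 1 ≤ s) (hm : m ≤ 4 * s)
    (hev : ∀ M : ℕ, m = 2 * M → m + 4 ≤ 4 * s ∧ M * M + s < s * s + M * s + M) :
    ((LL u y).card : ℤ) * (s + exL u y) + (HH u y).card * (s + exH u y) ≤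
      ((LL u y).card * (HH u y).card : ℤ) := by
  have h1 := dc0 hsym hz h hV hL hH he
  have h2 : ((LL u y).card : ℤ) * (s + exL u y) ≤ ∑ x ∈ LL u y, ((UU c u y x).card : ℤ) := by
    rw [← nsmul_eq_mul]
    exact Finset.card_nsmul_le_sum _ _ _ (fun x hx => goodL_U hsym hz hU h hV hL hH hm hev hx)
  have h3 : ((HH u y).card : ℤ) * (s + exH u y) ≤ ∑ w ∈ HH u y, ((PP c u y w).card : ℤ) := by
    rw [← nsmul_eq_mul]
    exact Finset.card_nsmul_le_sum _ _ _ (fun w hw => goodH_U hsym hz hU h hV hL hH hm hev hw)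
  linarith

/-- the numerical condition for even `m` in the range `R2`. -/
theorem R2.ev {m s : ℕ} (h : R2 m s) (M : ℕ) (hM : m = 2 * M) :
    m + 4 ≤ 4 * s ∧ M * M + s < s * s + M * s + M := by
  have h1 := h.facts
  refine ⟨by omega, ?_⟩
  have h2 : 2000 * M ≤ 3087 * s + 1000 := by omega
  have h3 : 38 ≤ s := h1.1
  have h4 : (2000 * (M : ℤ)) ≤ 3087 * s + 1000 := by exact_mod_cast h2
  have h5 : (38 : ℤ) ≤ s := by exact_mod_cast h3
  have h6 : 0 ≤ (M : ℤ) := Int.natCast_nonneg _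
  have h7 : (M : ℤ) * M + s < s * s + M * s + M := by nlinarith
  exact_mod_cast h7

end H
end ZS44129
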