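import Mathlib
import Pool.Agent.Work.MP_44129c_co.N.Gpl1
import Pool.Agent.Work.MP_44129c_co.H.G2

/-!
# MP_44129c_co/H, G3: copy of `N/Gpl1` with `U3` at all vertices instead of the condition on the factor 3

`sum_ddU`: in the periodic case of order 3 no own switch lies in the stabiliser (`c x w - c u w` would be a difference of two colours at
`w` of order 3).
-/

set_option autoImplicit false

namespace ZS44129
namespace H

open Finset E N

variable {V : Type} [Fintype V] [DecidableEq V] {m : ℕ}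

private theorem num_s {s f : ℕ} {u : V} {y : V → ℤ} (hn : NumU m s f u y) : 2 ≤ s := by
  have h1 := exL_nonneg u y
  have h2 := hn.eL
  have h3 : (2 : ℤ) ≤ s := by linarith
  exact_mod_cast h3

private theorem num_LL {s f : ℕ} {u : V} {y : V → ℤ} (hn : NumU m s f u y) :
    f + s ≤ (LL u y).card := by
  refine hn.z0.trans (Finset.card_le_card ?_)
  intro w hw
  rw [Finset.mem_filter, Finset.mem_erase] at hw
  exact mem_LL.2 ⟨hw.1.1, hw.2.le⟩

private theorem num_HH {s f : ℕ} {u : V} {y : V → ℤ} (hn : NumU m s f u y) :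
    f + s ≤ (HH u y).card := by
  refine hn.z1.trans (Finset.card_le_card ?_)
  intro w hw
  rw [Finset.mem_filter, Finset.mem_erase] at hw
  exact mem_HH.2 ⟨hw.1.1, hw.2.ge⟩

theorem dd_bdU {c : V → V → ZMod m} {u : V} {y : V → ℤ} (h : SL c u y) {s f : ℕ}
    (hV : Fintype.card V = m + s) (hn : NumU m s f u y) {x : V} (hx : x ≠ u) {t : V → ℤ}
    (ht : Wn c u x y t) {w : V} (hwu : w ≠ u) (hwx : w ≠ x) :
    t w - y w + sy u y + 1 ≤ m ∧ s ≤ sy u y + (t w - y w) ∧ 2 * |t w - y w| + 3 ≤ m := by
  have hs := num_s hn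
  have hL := num_LL hn
  have hH := num_HH hn
  have hf2 := hn.f2
  have hm2 := hn.m2
  have hsub : ({w} : Finset V) ⊆ XX u x := by
    rw [Finset.singleton_subset_iff, mem_XX]
    exact ⟨hwu, hwx⟩
  have hB1 : ({w} : Finset V).card + s ≤ (LL u y).card := by
    rw [Finset.card_singleton]; omega
  have hB2 : ({w} : Finset V).card + s ≤ (HH u y).card := by
    rw [Finset.card_singleton]; omega
  have key : ∀ τ : ℤ, sy u y + (t w - y w) ≤ τ + (s - 1) → τ ≤ sy u y + (t w - y w) →
      1 ≤ τ ∧ τ ≤ m - 1 := by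
    intro τ h1 h2
    obtain ⟨A, hA, hAB, hAc, hAs⟩ := famU h hV hn hx t {w} hsub hB1 hB2 τ
      (by rw [Finset.sum_singleton]; exact h1) (by rw [Finset.sum_singleton]; exact h2)
    rw [Finset.sum_singleton] at hAs
    rw [Finset.card_singleton] at hAc
    have hwA : w ∉ A := fun h3 => Finset.disjoint_left.1 hAB h3 (Finset.mem_singleton_self w)
    have h4 := (ht w hwu hwx).2 A hA hwA (by omega)
    rw [hAs] at h4
    exact h4
  have hs' : (2 : ℤ) ≤ s := by exact_mod_cast hs
  have k1 := (key (sy u y + (t w - y w)) (by linarith) le_rfl).2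
  have k2 := (key (sy u y + (t w - y w) - (s - 1)) (by linarith) (by linarith)).1
  have h1 := hn.s1
  have h2 := hn.s2
  refine ⟨by linarith, by linarith, ?_⟩
  have h3 : |t w - y w| ≤ (m - 1 : ℤ) - sy u y ∨ |t w - y w| ≤ sy u y - s := by
    rcases abs_cases (t w - y w) with ⟨h4, -⟩ | ⟨h4, -⟩
    · left; rw [h4]; linarith
    · right; rw [h4]; linarith
  rcases h3 with h3 | h3 <;> linarith

/-- an integer divisible by `m` of absolute value less than `m` is zero -/
private theorem zero_of_dvd {z : ℤ} (h : (z : ZMod m) = 0) (h1 : |z| < m) : z = 0 := by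
  rw [ZMod.intCast_zmod_eq_zero_iff_dvd] at h
  exact Int.eq_zero_of_abs_lt_dvd h h1

/-- the cube misses a point -/
private theorem miss {c : V → V → ZMod m} (hz : ZSF m c)
    {u : V} {y : V → ℤ} (h : SL c u y) {s f : ℕ} (hV : Fintype.card V = m + s)
    (hs : 2 ≤ s) {x : V} (hx : x ≠ u) {t : V → ℤ}
    (ht : ∀ w, w ≠ u → w ≠ x → (t w : ZMod m) = c x w) (D₀ E₀ E₁ : Finset V)
    (hD : D₀ ⊆ XX u x) (hE₀ : ∀ w ∈ E₀, w ≠ u ∧ y w = 0 ∧ w ≠ x ∧ w ∉ D₀)
    (hE₁ : ∀ w ∈ E₁, w ≠ u ∧ y w = 1 ∧ w ≠ x ∧ w ∉ D₀)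
    (hc0 : E₀.card = s - 1) (hc1 : E₁.card = s - 1) (T : Finset V) (hT : T ⊆ D₀ ∪ E₀) :
    (c u x + ∑ v ∈ XX u x \ E₁, c u v) +
      ∑ i ∈ T, (if i ∈ D₀ then ((t i - y i : ℤ) : ZMod m) else 1) ≠ 0 := by
  have hTD : T ∩ D₀ ⊆ D₀ := Finset.inter_subset_right
  have hTE : T \ D₀ ⊆ E₀ := by
    intro w hw
    rw [Finset.mem_sdiff] at hw
    rcases Finset.mem_union.1 (hT hw.1) with h1 | h1
    · exact absurd h1 hw.2
    · exact h1
  have hcard : (T \ D₀).card ≤ E₁.card := by
    rw [hc1, ← hc0]
    exact Finset.card_le_card hTE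
  obtain ⟨T', hT', hT'c⟩ := Finset.exists_subset_card_eq hcard
  have hTX : T ⊆ XX u x \ E₁ := by
    intro w hw
    rw [Finset.mem_sdiff]
    rcases Finset.mem_union.1 (hT hw) with h1 | h1
    · exact ⟨hD h1, fun h2 => (hE₁ w h2).2.2.2 h1⟩
    · have h2 := hE₀ w h1
      refine ⟨mem_XX.2 ⟨h2.1, h2.2.2.1⟩, fun h3 => ?_⟩
      have h4 := (hE₁ w h3).2.1
      rw [h2.2.1] at h4
      exact absurd h4 (by norm_num)
  have hE₁X : E₁ ⊆ XX u x := fun w hw => mem_XX.2 ⟨(hE₁ w hw).1, (hE₁ w hw).2.2.1⟩
  have hXc : (XX u x).card + 2 = m + s := by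
    unfold XX
    rw [Finset.card_erase_of_mem (Finset.mem_erase.2 ⟨hx, Finset.mem_univ _⟩),
      Finset.card_erase_of_mem (Finset.mem_univ _), Finset.card_univ, hV]
    omega
  have hXE : (XX u x \ E₁).card + 1 = m := by
    rw [Finset.card_sdiff_of_subset hE₁X, hc1]
    have := Finset.card_le_card hE₁X
    omega
  have hdj : Disjoint ((XX u x \ E₁) \ T) T' := by
    rw [Finset.disjoint_left]
    intro w h1 h2
    exact (Finset.mem_sdiff.1 (Finset.mem_sdiff.1 h1).1).2 (hT' h2)
  have hsplit : T.card = (T ∩ D₀).card + (T \ D₀).card :=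
    (Finset.card_inter_add_card_sdiff T D₀).symm
  have hXu : (((XX u x \ E₁) \ T) ∪ T').card + (T ∩ D₀).card + 1 = m := by
    rw [Finset.card_union_of_disjoint hdj, Finset.card_sdiff_of_subset hTX, hT'c]
    have := Finset.card_le_card hTX
    omega
  have hmemXu : ∀ w ∈ ((XX u x \ E₁) \ T) ∪ T', w ≠ u ∧ w ≠ x := by
    intro w hw
    rcases Finset.mem_union.1 hw with h1 | h1
    · exact mem_XX.1 (Finset.mem_sdiff.1 (Finset.mem_sdiff.1 h1).1).1
    · exact mem_XX.1 (hE₁X (hT' h1))
  have hmemD : ∀ w ∈ T ∩ D₀, w ≠ u ∧ w ≠ x := fun w hw => mem_XX.1 (hD (hTD hw))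
  have h0 := hz u x hx.symm (((XX u x \ E₁) \ T) ∪ T') (T ∩ D₀) (by
    rw [Finset.disjoint_left]
    intro w h1 h2
    rcases Finset.mem_union.1 h1 with h3 | h3
    · exact (Finset.mem_sdiff.1 h3).2 (Finset.mem_inter.1 h2).1
    · exact (hE₁ w (hT' h3)).2.2.2 (Finset.mem_inter.1 h2).2)
    (fun h1 => (hmemXu _ h1).1 rfl) (fun h1 => (hmemXu _ h1).2 rfl)
    (fun h1 => (hmemD _ h1).1 rfl) (fun h1 => (hmemD _ h1).2 rfl) hXu
  intro hcon
  apply h0
  have e1 : ∑ v ∈ ((XX u x \ E₁) \ T) ∪ T', c u v =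
      ∑ v ∈ (XX u x \ E₁) \ T, c u v + ∑ v ∈ T', c u v := Finset.sum_union hdj
  have e2 : ∑ v ∈ (XX u x \ E₁) \ T, c u v + ∑ v ∈ T, c u v = ∑ v ∈ XX u x \ E₁, c u v :=
    Finset.sum_sdiff hTX
  have e3 : ∑ v ∈ T', c u v = (T \ D₀).card := by
    rw [← hT'c, Finset.card_eq_sum_ones, Nat.cast_sum]
    refine Finset.sum_congr rfl (fun w hw => ?_)
    have h1 := hE₁ w (hT' hw)
    rw [← h.cast w h1.1, h1.2.1]
    norm_num
  have e4 : ∑ v ∈ T, c u v = ∑ v ∈ T ∩ D₀, c u v := by
    rw [← Finset.sum_inter_add_sum_sdiff T D₀]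
    have : ∑ v ∈ T \ D₀, c u v = 0 := by
      refine Finset.sum_eq_zero (fun w hw => ?_)
      have h1 := hE₀ w (hTE hw)
      rw [← h.cast w h1.1, h1.2.1]
      norm_num
    rw [this, add_zero]
  have e5 : ∑ i ∈ T, (if i ∈ D₀ then ((t i - y i : ℤ) : ZMod m) else 1) =
      ∑ i ∈ T ∩ D₀, (c x i - c u i) + (T \ D₀).card := by
    rw [← Finset.sum_inter_add_sum_sdiff T D₀]
    congr 1
    · refine Finset.sum_congr rfl (fun w hw => ?_)
      rw [if_pos (hTD hw)]
      push_cast
      rw [ht w (hmemD w hw).1 (hmemD w hw).2, h.cast w (hmemD w hw).1]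
    · rw [Finset.card_eq_sum_ones, Nat.cast_sum]
      refine Finset.sum_congr rfl (fun w hw => ?_)
      rw [if_neg (Finset.mem_sdiff.1 hw).2]
      norm_num
  rw [e5, Finset.sum_sub_distrib] at hcon
  rw [e1, e3]
  rw [e4] at e2
  linear_combination hcon + e2

private def stab (S : Finset (ZMod m)) [NeZero m] : AddSubgroup (ZMod m) where
  carrier := {h | ∀ x ∈ S, x + h ∈ S}
  add_mem' := by
    intro a b ha hb x hx
    rw [← add_assoc]
    exact hb _ (ha x hx)
  zero_mem' := by
    intro x hx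
    rwa [add_zero]
  neg_mem' := by
    intro a ha x hx
    have h1 : ∀ k : ℕ, ∀ x ∈ S, x + (k : ZMod m) * a ∈ S := by
      intro k
      induction k with
      | zero => intro x hx; simpa using hx
      | succ k ih =>
        intro x hx
        have h2 := ha _ (ih x hx)
        have h3 : x + ((k + 1 : ℕ) : ZMod m) * a = x + (k : ZMod m) * a + a := by
          push_cast; ring
        rwa [h3]
    have h2 := h1 (m - 1) x hx
    have h3 : ((m - 1 : ℕ) : ZMod m) = -1 := by
      have hm : 1 ≤ m := Nat.one_le_iff_ne_zero.2 (NeZero.ne m)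
      rw [Nat.cast_sub hm, ZMod.natCast_self, Nat.cast_one, zero_sub]
    rwa [h3, neg_one_mul] at h2

private theorem mem_stab [NeZero m] (S : Finset (ZMod m)) (h : ZMod m) :
    h ∈ stab S ↔ ∀ x ∈ S, x + h ∈ S := Iff.rfl

theorem sum_ddU [NeZero m] {c : V → V → ZMod m} (hsym : ∀ p q, c p q = c q p) (hz : ZSF m c)
    (hU : ∀ z, U3 c z)
    {u : V} {y : V → ℤ} (h : SL c u y) {s f : ℕ} (hV : Fintype.card V = m + s)
    (hn : NumU m s f u y) {x : V} (hx : x ≠ u) {t : V → ℤ} (ht : Wn c u x y t) (D₀ : Finset V)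
    (hD : D₀ ⊆ XX u x) (hDc : D₀.card = f) (hne : ∀ w ∈ D₀, c u w ≠ c x w) :
    ∑ w ∈ D₀, |t w - y w| + s + 1 ≤ m := by
  classical
  have hs := num_s hn
  have hf2 := hn.f2
  have hm2 := hn.m2
  have hm4 := hn.m4
  have hm : 4 ≤ m := by omega
  haveI : Fact (1 < m) := ⟨by omega⟩
  have hDxu : ∀ w ∈ D₀, w ≠ u ∧ w ≠ x := fun w hw => mem_XX.1 (hD hw)
  have hbd : ∀ w ∈ D₀, 2 * |t w - y w| + 3 ≤ m := fun w hw =>
    (dd_bdU h hV hn hx ht (hDxu w hw).1 (hDxu w hw).2).2.2
  -- the exchanges
  have hins : (insert x D₀).card ≤ f + 1 := by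
    have := Finset.card_insert_le x D₀
    omega
  obtain ⟨E₀, hE₀, hc0⟩ : ∃ E₀ : Finset V, (∀ w ∈ E₀, w ≠ u ∧ y w = 0 ∧ w ≠ x ∧ w ∉ D₀) ∧
      E₀.card = s - 1 := by
    have h1 : s - 1 ≤ (((univ.erase u).filter (fun w => y w = 0)) \ (insert x D₀)).card := by
      have h2 := Finset.le_card_sdiff (insert x D₀) ((univ.erase u).filter (fun w => y w = 0))
      have h3 := hn.z0
      omega
    obtain ⟨E₀, h2, h3⟩ := Finset.exists_subset_card_eq h1
    refine ⟨E₀, fun w hw => ?_, h3⟩
    have h4 := h2 hw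
    rw [Finset.mem_sdiff, Finset.mem_filter, Finset.mem_erase, Finset.mem_insert, not_or] at h4
    exact ⟨h4.1.1.1, h4.1.2, h4.2.1, h4.2.2⟩
  obtain ⟨E₁, hE₁, hc1⟩ : ∃ E₁ : Finset V, (∀ w ∈ E₁, w ≠ u ∧ y w = 1 ∧ w ≠ x ∧ w ∉ D₀) ∧
      E₁.card = s - 1 := by
    have h1 : s - 1 ≤ (((univ.erase u).filter (fun w => y w = 1)) \ (insert x D₀)).card := by
      have h2 := Finset.le_card_sdiff (insert x D₀) ((univ.erase u).filter (fun w => y w = 1))
      have h3 := hn.z1
      omega
    obtain ⟨E₁, h2, h3⟩ := Finset.exists_subset_card_eq h1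
    refine ⟨E₁, fun w hw => ?_, h3⟩
    have h4 := h2 hw
    rw [Finset.mem_sdiff, Finset.mem_filter, Finset.mem_erase, Finset.mem_insert, not_or] at h4
    exact ⟨h4.1.1.1, h4.1.2, h4.2.1, h4.2.2⟩
  set d : V → ZMod m := fun i => if i ∈ D₀ then ((t i - y i : ℤ) : ZMod m) else 1 with hd
  have hdD : ∀ w ∈ D₀, d w = ((t w - y w : ℤ) : ZMod m) := fun w hw => if_pos hw
  have hdE : ∀ w ∈ E₀, d w = 1 := fun w hw => if_neg (hE₀ w hw).2.2.2
  have hmiss := miss hz h hV hs (f := f) hx (fun w h1 h2 => (ht w h1 h2).1) D₀ E₀ E₁ hD hE₀ hE₁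
    hc0 hc1
  set β : ZMod m := c u x + ∑ v ∈ XX u x \ E₁, c u v with hβ
  have hβS : -β ∉ cube d (D₀ ∪ E₀) := by
    intro h1
    obtain ⟨T, hT, hTs⟩ := mem_cube.1 h1
    apply hmiss T hT
    show β + ∑ i ∈ T, d i = 0
    rw [hTs, add_neg_cancel]
  have hdj : Disjoint D₀ E₀ := by
    rw [Finset.disjoint_right]
    exact fun w hw => (hE₀ w hw).2.2.2
  have hIc : (D₀ ∪ E₀).card = f + (s - 1) := by
    rw [Finset.card_union_of_disjoint hdj, hDc, hc0]
  have hd0 : ∀ i ∈ D₀ ∪ E₀, d i ≠ 0 := by
    intro i hi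
    rcases Finset.mem_union.1 hi with h1 | h1
    · rw [hdD i h1]
      push_cast
      rw [(ht i (hDxu i h1).1 (hDxu i h1).2).1, h.cast i (hDxu i h1).1]
      intro h2
      exact hne i h1 (sub_eq_zero.1 h2).symm
    · rw [hdE i h1]
      exact one_ne_zero
  have hlt : (cube d (D₀ ∪ E₀)).card + 1 ≤ m := by
    have h1 : (cube d (D₀ ∪ E₀)).card < Fintype.card (ZMod m) := by
      rw [← Finset.card_univ]
      refine Finset.card_lt_card (Finset.ssubset_univ_iff.2 (fun h2 => hβS ?_))
      rw [h2]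
      exact Finset.mem_univ _
    rw [ZMod.card] at h1
    omega
  by_cases hap : Aper (cube d (D₀ ∪ E₀))
  · -- aperiodic
    obtain ⟨g, n, hnd, hsum, -⟩ := cube_zmod d (D₀ ∪ E₀) hd0 hap (by rw [hIc]; omega)
    have hsum2 : ∑ i ∈ D₀, |n i| + ∑ i ∈ E₀, |n i| + 2 ≤ (m : ℤ) := by
      rw [← Finset.sum_union hdj]
      have : ((cube d (D₀ ∪ E₀)).card : ℤ) + 1 ≤ m := by exact_mod_cast hlt
      linarith
    have hn1 : ∀ i ∈ D₀ ∪ E₀, 1 ≤ |n i| := by
      intro i hi
      have h1 : n i ≠ 0 := by
        intro h2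
        apply hd0 i hi
        rw [hnd i hi, h2, zero_zsmul]
      exact Int.one_le_abs h1
    have hsD : (f : ℤ) ≤ ∑ i ∈ D₀, |n i| := by
      have h1 : (D₀.card : ℤ) = ∑ i ∈ D₀, (1 : ℤ) := by simp
      rw [← hDc, h1]
      exact Finset.sum_le_sum (fun i hi => hn1 i (Finset.mem_union_left _ hi))
    obtain ⟨i₀, hi₀⟩ : E₀.Nonempty := by
      rw [← Finset.card_pos]; omega
    set r : ℤ := n i₀ with hr
    have hrg : (r : ZMod m) * g = 1 := by
      have h1 := hnd i₀ (Finset.mem_union_right _ hi₀)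
      rw [hdE i₀ hi₀, zsmul_eq_mul] at h1
      exact h1.symm
    have hginv : ∀ z z' : ℤ, (z : ZMod m) * g = (z' : ZMod m) * g →
        ((z - z' : ℤ) : ZMod m) = 0 := by
      intro z z' h1
      have h2 : (z : ZMod m) = z' := g.isUnit.mul_left_injective h1
      push_cast
      rw [h2, sub_self]
    have hEr : ∀ i ∈ E₀, n i = r := by
      intro i hi
      by_cases h1 : i = i₀
      · rw [h1]
      have h2 := hnd i (Finset.mem_union_right _ hi)
      rw [hdE i hi, zsmul_eq_mul] at h2
      have h3 := hginv (n i) r (by rw [← h2, hrg])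
      have h4 : |n i| + |r| ≤ ∑ i ∈ E₀, |n i| := by
        have h5 : ({i, i₀} : Finset V) ⊆ E₀ := by
          intro j hj
          rcases Finset.mem_insert.1 hj with h6 | h6
          · rw [h6]; exact hi
          · rw [Finset.mem_singleton.1 h6]; exact hi₀
        have h6 := Finset.sum_le_sum_of_subset_of_nonneg h5 (f := fun j => |n j|)
          (fun j _ _ => abs_nonneg _)
        rwa [Finset.sum_pair h1] at h6
      have h5 : (0 : ℤ) ≤ ∑ i ∈ D₀, |n i| := Finset.sum_nonneg (fun _ _ => abs_nonneg _)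
      have h6 : |n i - r| < m := by
        have := abs_sub (n i) r
        linarith
      have := zero_of_dvd h3 h6
      linarith
    have hsE : ∑ i ∈ E₀, |n i| = ((s : ℤ) - 1) * |r| := by
      rw [Finset.sum_congr rfl (fun i hi => by rw [hEr i hi] : ∀ i ∈ E₀, |n i| = |r|),
        Finset.sum_const, hc0, nsmul_eq_mul]
      congr 1
      rw [Nat.cast_sub (by omega)]
      norm_num
    have hs' : (2 : ℤ) ≤ s := by exact_mod_cast hs
    have hf2' : (m : ℤ) + 1 ≤ 2 * (f + s - 1) := by
      have : m + 1 + 2 ≤ 2 * (f + s) := by omega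
      have h1 : (m : ℤ) + 1 + 2 ≤ 2 * (f + s) := by exact_mod_cast this
      linarith
    have hm4' : (m : ℤ) + 1 ≤ 4 * s := by exact_mod_cast hm4
    have hr1 : 1 ≤ |r| := hn1 i₀ (Finset.mem_union_right _ hi₀)
    rcases lt_trichotomy |r| 2 with hr2 | hr2 | hr2
    · -- `|r| = 1`
      have hr1' : |r| = 1 := by omega
      have hgr : (g : ZMod m) = r := by
        have h1 : (r : ZMod m) * r = 1 := by
          have h2 : r * r = 1 := by
            rw [← abs_mul_abs_self r, hr1']
            norm_num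
          exact_mod_cast congrArg (fun z : ℤ => (z : ZMod m)) h2
        calc (g : ZMod m) = ((r : ZMod m) * r) * g := by rw [h1, one_mul]
          _ = (r : ZMod m) * (r * g) := by ring
          _ = r := by rw [hrg, mul_one]
      have hnn : ∀ w ∈ D₀, |n w| = |t w - y w| := by
        intro w hw
        have h1 := hnd w (Finset.mem_union_left _ hw)
        rw [hdD w hw, zsmul_eq_mul, hgr] at h1
        have h2 : ((n w * r - (t w - y w) : ℤ) : ZMod m) = 0 := by
          rw [Int.cast_sub, h1]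
          push_cast
          ring
        by_cases h3 : |n w * r - (t w - y w)| < m
        · have h4 := zero_of_dvd h2 h3
          have h5 : t w - y w = n w * r := by linarith
          rw [h5, abs_mul, hr1', mul_one]
        · exfalso
          push Not at h3
          have h4 := abs_sub (n w * r) (t w - y w)
          rw [abs_mul, hr1', mul_one] at h4
          have h5 := hbd w hw
          have h6 : |n w| + ((f : ℤ) - 1) ≤ ∑ i ∈ D₀, |n i| := by
            rw [← Finset.add_sum_erase D₀ (fun i => |n i|) hw]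
            have h7 : ((D₀.erase w).card : ℤ) = ∑ i ∈ D₀.erase w, (1 : ℤ) := by simp
            have h8 : ∑ i ∈ D₀.erase w, (1 : ℤ) ≤ ∑ i ∈ D₀.erase w, |n i| :=
              Finset.sum_le_sum (fun i hi => hn1 i
                (Finset.mem_union_left _ (Finset.mem_of_mem_erase hi)))
            rw [← h7, Finset.card_erase_of_mem hw, hDc] at h8
            have h9 : 1 ≤ f := by
              rw [← hDc]; exact Finset.card_pos.2 ⟨w, hw⟩
            rw [Nat.cast_sub h9] at h8
            push_cast at h8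
            linarith
          rw [hsE, hr1'] at hsum2
          linarith
      rw [Finset.sum_congr rfl hnn, hsE, hr1'] at hsum2
      linarith
    · -- `|r| = 2`
      exfalso
      by_cases hall : ∀ w ∈ D₀, 2 ≤ |n w|
      · have h1 : 2 * (f : ℤ) ≤ ∑ i ∈ D₀, |n i| := by
          have h2 : 2 * (D₀.card : ℤ) = ∑ i ∈ D₀, (2 : ℤ) := by
            rw [Finset.sum_const, nsmul_eq_mul]; ring
          rw [← hDc, h2]
          exact Finset.sum_le_sum hall
        rw [hsE, hr2] at hsum2
        linarith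
      · push Not at hall
        obtain ⟨w, hw, hw2⟩ := hall
        have hw1 : |n w| = 1 := by
          have := hn1 w (Finset.mem_union_left _ hw)
          omega
        have h1 := hnd w (Finset.mem_union_left _ hw)
        rw [hdD w hw, zsmul_eq_mul] at h1
        have h3 : ∃ e : ℤ, (e = 1 ∨ e = -1) ∧ 2 * n w = e * r := by
          rcases (abs_eq (by norm_num : (0 : ℤ) ≤ 1)).1 hw1 with h4 | h4 <;>
            rcases (abs_eq (by norm_num : (0 : ℤ) ≤ 2)).1 hr2 with h5 | h5
          · exact ⟨1, Or.inl rfl, by rw [h4, h5]; norm_num⟩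
          · exact ⟨-1, Or.inr rfl, by rw [h4, h5]; norm_num⟩
          · exact ⟨-1, Or.inr rfl, by rw [h4, h5]; norm_num⟩
          · exact ⟨1, Or.inl rfl, by rw [h4, h5]; norm_num⟩
        obtain ⟨e, he, h3⟩ := h3
        have h4 : ((2 * (t w - y w) - e : ℤ) : ZMod m) = 0 := by
          have h5 : (2 : ZMod m) * ((t w - y w : ℤ) : ZMod m) = e := by
            rw [h1]
            have h6 : (2 : ZMod m) * (n w : ZMod m) = (e : ZMod m) * r := by
              exact_mod_cast congrArg (fun z : ℤ => (z : ZMod m)) h3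
            calc (2 : ZMod m) * ((n w : ZMod m) * g) = ((2 : ZMod m) * (n w : ZMod m)) * g := by
                  ring
              _ = e * (r * g) := by rw [h6]; ring
              _ = e := by rw [hrg, mul_one]
          rw [Int.cast_sub, Int.cast_mul]
          rw [← h5]
          push_cast
          ring
        have h5 := hbd w hw
        have h6 : |2 * (t w - y w) - e| < m := by
          have h7 := abs_sub (2 * (t w - y w)) e
          rw [abs_mul] at h7
          have h8 : |e| = 1 := by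
            rcases he with rfl | rfl <;> norm_num
          rw [h8, abs_of_pos (by norm_num : (0 : ℤ) < 2)] at h7
          linarith
        have h7 := zero_of_dvd h4 h6
        rcases he with rfl | rfl <;> omega
    · -- `|r| ≥ 3`
      exfalso
      have h1 : ((s : ℤ) - 1) * 3 ≤ ((s : ℤ) - 1) * |r| :=
        mul_le_mul_of_nonneg_left (by omega) (by linarith)
      rw [hsE] at hsum2
      linarith
  · -- periodic
    exfalso
    set S := cube d (D₀ ∪ E₀) with hS
    have hper := cube_periodic d (D₀ ∪ E₀) (stab S) (fun h => mem_stab S h)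
    have h1H : (1 : ZMod m) ∉ stab S := by
      intro h1
      apply hβS
      have h2 : ∀ k : ℕ, (k : ZMod m) ∈ S := by
        intro k
        induction k with
        | zero =>
          rw [Nat.cast_zero]
          exact zero_mem_cube d _
        | succ k ih =>
          rw [Nat.cast_succ]
          exact h1 _ ih
      have h3 := h2 (-β).val
      rwa [ZMod.natCast_zmod_val] at h3
    have hnt : ∃ h : ZMod m, h ≠ 0 ∧ h ∈ stab S := by
      unfold Aper at hap
      push Not at hap
      obtain ⟨h, h1, h2⟩ := hap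
      exact ⟨h, h2, h1⟩
    have hcH : 2 ≤ Nat.card (stab S) := by
      obtain ⟨a, ha0, haS⟩ := hnt
      have h1 : Nontrivial (stab S) := ⟨⟨⟨a, haS⟩, 0, fun h2 => ha0 (congrArg Subtype.val h2)⟩⟩
      have := Finite.one_lt_card (α := stab S)
      omega
    have hdvd : Nat.card (stab S) ∣ m := by
      have h1 := AddSubgroup.card_addSubgroup_dvd_card (stab S)
      rwa [Nat.card_eq_fintype_card (α := ZMod m), ZMod.card] at h1
    have hfil : ((D₀ ∪ E₀).filter (fun i => d i ∉ stab S)).card =
        (D₀.filter (fun i => d i ∉ stab S)).card + (s - 1) := by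
      rw [Finset.filter_union, Finset.card_union_of_disjoint
        (Finset.disjoint_filter_filter hdj), ← hc0]
      congr 2
      refine Finset.filter_true_of_mem (fun i hi => ?_)
      rw [hdE i hi]
      exact h1H
    rw [hfil] at hper
    obtain ⟨M, hM⟩ := hdvd
    set H := Nat.card (stab S) with hH
    set D' := (D₀.filter (fun i => d i ∉ stab S)).card with hD'
    have hk : (D' + (s - 1) + 1) * H + 1 ≤ H * M := by
      rw [← hM]
      exact (Nat.add_le_add_right hper 1).trans hlt
    have hkM : D' + s + 1 ≤ M := by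
      by_contra hcon
      push Not at hcon
      have h2 : M ≤ D' + (s - 1) + 1 := by omega
      have h3 : H * M ≤ (D' + (s - 1) + 1) * H := by
        rw [mul_comm]; exact Nat.mul_le_mul_right _ h2
      omega
    have hfin : (D' + s + 1) * H ≤ m := by
      rw [hM, mul_comm H M]
      exact Nat.mul_le_mul_right _ hkM
    rcases Nat.lt_or_ge H 4 with h4 | h4
    · have h5 : H = 2 ∨ H = 3 := by omega
      rcases h5 with h5 | h5
      · -- two elements
        have hall : D' = f := by
          rw [hD', ← hDc]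
          congr 1
          refine Finset.filter_true_of_mem (fun i hi => ?_)
          intro h6
          apply hd0 i (Finset.mem_union_left _ hi)
          have h7 : (2 : ℕ) • (⟨d i, h6⟩ : stab S) = 0 := by
            rw [← h5, hH]
            exact card_nsmul_eq_zero'
          have h8 : (2 : ℕ) • d i = 0 := congrArg Subtype.val h7
          rw [hdD i hi] at h8 ⊢
          have h9 : ((2 * (t i - y i) : ℤ) : ZMod m) = 0 := by
            rw [nsmul_eq_mul] at h8
            push_cast at h8 ⊢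
            exact h8
          have h10 := hbd i hi
          have h11 := zero_of_dvd h9 (by
            rw [abs_mul, abs_of_pos (by norm_num : (0 : ℤ) < 2)]; linarith)
          have h12 : t i - y i = 0 := by omega
          rw [h12, Int.cast_zero]
        rw [hall, h5] at hfin
        omega
      · -- three elements
        have hall : D' = f := by
          rw [hD', ← hDc]
          congr 1
          refine Finset.filter_true_of_mem (fun i hi => ?_)
          intro h6
          apply hd0 i (Finset.mem_union_left _ hi)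
          have h7 : (3 : ℕ) • (⟨d i, h6⟩ : stab S) = 0 := by
            rw [← h5, hH]
            exact card_nsmul_eq_zero'
          have h8 : (3 : ℕ) • d i = 0 := congrArg Subtype.val h7
          have h9 : d i = c i x - c i u := by
            rw [hdD i hi]
            push_cast
            rw [(ht i (hDxu i hi).1 (hDxu i hi).2).1, h.cast i (hDxu i hi).1, hsym x i, hsym u i]
          have h10 : 3 * c i x = 3 * c i u := by
            rw [h9, nsmul_eq_mul] at h8
            push_cast at h8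
            linear_combination h8
          rw [h9, hU i x u (hDxu i hi).2.symm (hDxu i hi).1.symm h10, sub_self]
        rw [hall, h5] at hfin
        omega
    · have h5 : (D' + s + 1) * 4 ≤ m := (Nat.mul_le_mul_left _ h4).trans hfin
      omega

end H
end ZS44129
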