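import Mathlib
import Pool.Agent.Work.MP_44129c_co.N.Gpl2
import Pool.Agent.Work.MP_44129c_co.H.G3

/-!
# MP_44129c_co/H, G4: copy of `N/Gpl2` with `U3` at all vertices instead of the condition on the factor 3: `gplU`
-/

set_option autoImplicit false

namespace ZS44129
namespace H

open Finset E N

variable {V : Type} [Fintype V] [DecidableEq V] {m : ℕ}

private theorem mXX {u x w : V} : w ∈ XX u x ↔ w ≠ u ∧ w ≠ x := by
  unfold XX
  simp only [mem_erase, mem_univ, and_true]
  tauto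

private theorem cardU {s : ℕ} (hV : Fintype.card V = m + s) (u : V) :
    (univ.erase u).card + 1 = m + s := by
  have h1 : 0 < Fintype.card V := Fintype.card_pos_iff.2 ⟨u⟩
  rw [Finset.card_erase_of_mem (Finset.mem_univ u), Finset.card_univ]
  omega

private theorem sy_refl {s : ℕ} (hV : Fintype.card V = m + s) (u : V) (y : V → ℤ) :
    sy u (fun w => 1 - y w) = (m : ℤ) + s - 1 - sy u y := by
  have h1 := cardU hV u
  unfold sy
  rw [Finset.sum_sub_distrib, Finset.sum_const, nsmul_eq_mul, mul_one]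
  have h2 : ((univ.erase u).card : ℤ) + 1 = m + s := by exact_mod_cast h1
  linarith

theorem numU_refl {s f : ℕ} {u : V} {y : V → ℤ} (hV : Fintype.card V = m + s)
    (hn : NumU m s f u y) : NumU m s f u (fun w => 1 - y w) := by
  have hs := sy_refl hV u y
  refine ⟨?_, ?_, hn.f2, hn.m2, hn.m4, ?_, ?_, ?_, ?_, ?_, ?_, ?_, ?_⟩
  · rw [exL_refl]; exact hn.eH
  · rw [exH_refl]; exact hn.eL
  · have h1 := hn.z1
    refine le_trans h1 (le_of_eq ?_)
    congr 1
    refine Finset.filter_congr (fun w _ => ?_)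
    show y w = 1 ↔ 1 - y w = 0
    constructor <;> intro h <;> omega
  · have h1 := hn.z0
    refine le_trans h1 (le_of_eq ?_)
    congr 1
    refine Finset.filter_congr (fun w _ => ?_)
    show y w = 0 ↔ 1 - y w = 1
    constructor <;> intro h <;> omega
  · rw [hs]; have := hn.s2; linarith
  · rw [hs]; have := hn.s1; linarith
  · rw [hs, LL_refl]; have := hn.k2; linarith
  · rw [hs, LL_refl]; have := hn.k1; linarith
  · rw [hs, HH_refl]; have := hn.l2; linarith
  · rw [hs, HH_refl]; have := hn.l1; linarith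

theorem u3_refl {c : V → V → ZMod m} {z : V} (h : U3 c z) : U3 (fun p q => 1 - c p q) z := by
  intro p q hp hq h1
  have h2 : 3 * c z p = 3 * c z q := by
    have h3 : 3 * (1 - c z p) = 3 * (1 - c z q) := h1
    linear_combination -h3
  show 1 - c z p = 1 - c z q
  rw [h p q hp hq h2]

/-- the sums with `B` at `x` form an interval: a value between two attained ones is attained. -/
theorem famUfull {c : V → V → ZMod m} {u : V} {y : V → ℤ} (h : SL c u y) {s f : ℕ}
    (hV : Fintype.card V = m + s) (hn : NumU m s f u y) {x : V} (hx : x ≠ u) (t : V → ℤ)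
    (B : Finset V) (hB : B ⊆ XX u x) (hB1 : B.card + s ≤ (LL u y).card)
    (hB2 : B.card + s ≤ (HH u y).card) (A : Finset V) (hA : A ⊆ XX u x) (hAB : Disjoint A B)
    (hc : A.card + B.card + 1 = m) (τ : ℤ) (h1 : sy u y + ∑ w ∈ B, (t w - y w) ≤ τ + (s - 1))
    (h2 : τ ≤ y x + ∑ w ∈ A, y w + ∑ w ∈ B, t w) :
    ∃ A' : Finset V, A' ⊆ XX u x ∧ Disjoint A' B ∧ A'.card + B.card + 1 = m ∧
      y x + ∑ w ∈ A', y w + ∑ w ∈ B, t w = τ := by
  have heL := hn.eL
  have heH := hn.eH
  have hL0 := exL_nonneg u y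
  have hH0 := exH_nonneg u y
  have hs2 : 2 ≤ s := by omega
  have hcast : ((s - 1 : ℕ) : ℤ) = (s : ℤ) - 1 := by omega
  set P := (HH u y).filter (fun w => w ≠ x ∧ w ∉ B) with hPdef
  set N := (LL u y).filter (fun w => w ≠ x ∧ w ∉ B) with hNdef
  have hPN : Disjoint P N := by
    exact Finset.disjoint_of_subset_left (Finset.filter_subset _ _)
      (Finset.disjoint_of_subset_right (Finset.filter_subset _ _) (disj_LH u y).symm)
  have hP : ∀ w ∈ P, 1 ≤ y w := fun w hw => (mem_HH.1 (Finset.mem_filter.1 hw).1).2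
  have hN : ∀ w ∈ N, y w ≤ 0 := fun w hw => (mem_LL.1 (Finset.mem_filter.1 hw).1).2
  have hU : P ∪ N = XX u x \ B := by
    ext w
    simp only [hPdef, hNdef, Finset.mem_union, Finset.mem_filter, mem_HH, mem_LL, Finset.mem_sdiff, mXX]
    constructor
    · rintro (h | h)
      · exact ⟨⟨h.1.1, h.2.1⟩, h.2.2⟩
      · exact ⟨⟨h.1.1, h.2.1⟩, h.2.2⟩
    · intro h
      rcases le_or_gt 1 (y w) with h3 | h3
      · exact Or.inl ⟨⟨h.1.1, h3⟩, h.1.2, h.2⟩
      · exact Or.inr ⟨⟨h.1.1, by omega⟩, h.1.2, h.2⟩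
  have hPc : s - 1 ≤ P.card := by
    have h3 : HH u y ⊆ P ∪ insert x B := by
      intro w hw
      by_cases h4 : w = x ∨ w ∈ B
      · exact Finset.mem_union_right _ (by rcases h4 with h4 | h4 <;> simp [h4])
      · exact Finset.mem_union_left _ (Finset.mem_filter.2 ⟨hw, fun h => h4 (Or.inl h), fun h => h4 (Or.inr h)⟩)
    have h4 := Finset.card_le_card h3
    have h5 := Finset.card_union_le P (insert x B)
    have h6 := Finset.card_insert_le x B
    omega
  have hNc : s - 1 ≤ N.card := by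
    have h3 : LL u y ⊆ N ∪ insert x B := by
      intro w hw
      by_cases h4 : w = x ∨ w ∈ B
      · exact Finset.mem_union_right _ (by rcases h4 with h4 | h4 <;> simp [h4])
      · exact Finset.mem_union_left _ (Finset.mem_filter.2 ⟨hw, fun h => h4 (Or.inl h), fun h => h4 (Or.inr h)⟩)
    have h4 := Finset.card_le_card h3
    have h5 := Finset.card_union_le N (insert x B)
    have h6 := Finset.card_insert_le x B
    omega
  have hPe : ∑ w ∈ P, (y w - 1) ≤ exH u y := by
    unfold exH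
    refine Finset.sum_le_sum_of_subset_of_nonneg (Finset.filter_subset _ _) (fun w hw _ => ?_)
    have := (mem_HH.1 hw).2
    omega
  have hPe0 : 0 ≤ ∑ w ∈ P, (y w - 1) := Finset.sum_nonneg (fun w hw => by have := hP w hw; omega)
  have hNe : ∑ w ∈ N, (- y w) ≤ exL u y := by
    unfold exL
    refine Finset.sum_le_sum_of_subset_of_nonneg (Finset.filter_subset _ _) (fun w hw _ => ?_)
    have := (mem_LL.1 hw).2
    omega
  have hcX : (XX u x).card + 2 = m + s := by
    have h3 := cardU hV u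
    unfold XX
    have h4 : x ∈ univ.erase u := Finset.mem_erase.2 ⟨hx, Finset.mem_univ x⟩
    rw [Finset.card_erase_of_mem h4]
    have h5 : 0 < (univ.erase u).card := Finset.card_pos.2 ⟨x, h4⟩
    omega
  have hcU : (P ∪ N).card + B.card = (XX u x).card := by
    rw [hU]; exact Finset.card_sdiff_add_card_eq_card hB
  have hAU : A ⊆ P ∪ N := by
    rw [hU]
    intro w hw
    exact Finset.mem_sdiff.2 ⟨hA hw, Finset.disjoint_left.1 hAB hw⟩
  -- the total
  have htot : y x + ∑ w ∈ P ∪ N, y w + ∑ w ∈ B, t w = sy u y + ∑ w ∈ B, (t w - y w) := by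
    have h3 : ∑ w ∈ XX u x \ B, y w + ∑ w ∈ B, y w = ∑ w ∈ XX u x, y w := Finset.sum_sdiff hB
    have h4 : ∑ w ∈ XX u x, y w + y x = sy u y := by
      unfold XX sy
      exact Finset.sum_erase_add _ _ (Finset.mem_erase.2 ⟨hx, Finset.mem_univ x⟩)
    rw [Finset.sum_sub_distrib, hU]
    linarith
  set QA := (P ∪ N) \ A with hQA
  have hQAs : ∑ w ∈ QA, y w + ∑ w ∈ A, y w = ∑ w ∈ P ∪ N, y w := Finset.sum_sdiff hAU
  have hQAlow : - ∑ w ∈ N, (- y w) ≤ ∑ w ∈ QA, y w := by
    have h3 : QA = (QA ∩ P) ∪ (QA ∩ N) := by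
      rw [← Finset.inter_union_distrib_left]
      exact (Finset.inter_eq_left.2 Finset.sdiff_subset).symm
    have h4 : Disjoint (QA ∩ P) (QA ∩ N) :=
      Finset.disjoint_of_subset_left Finset.inter_subset_right
        (Finset.disjoint_of_subset_right Finset.inter_subset_right hPN)
    rw [h3, Finset.sum_union h4]
    have h5 : 0 ≤ ∑ w ∈ QA ∩ P, y w := Finset.sum_nonneg (fun w hw => by
      have := hP w (Finset.mem_inter.1 hw).2
      omega)
    have h6 : ∑ w ∈ QA ∩ N, (- y w) ≤ ∑ w ∈ N, (- y w) := by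
      refine Finset.sum_le_sum_of_subset_of_nonneg Finset.inter_subset_right (fun w hw _ => ?_)
      have := hN w hw
      omega
    rw [Finset.sum_neg_distrib] at h6
    linarith
  obtain ⟨Q, hQ, hQc, hQs⟩ := E.gf y (s - 1) (by omega) P N hPN hP hN hPc hNc
    (by rw [hcast]; linarith) (by rw [hcast]; linarith)
    (sy u y + ∑ w ∈ B, (t w - y w) - τ)
    (by linarith) (by rw [hcast]; linarith)
  refine ⟨(P ∪ N) \ Q, ?_, ?_, ?_, ?_⟩
  · refine Finset.Subset.trans Finset.sdiff_subset ?_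
    rw [hU]
    exact Finset.sdiff_subset
  · refine Finset.disjoint_of_subset_left Finset.sdiff_subset ?_
    rw [hU]
    exact Finset.sdiff_disjoint
  · have h3 : ((P ∪ N) \ Q).card + Q.card = (P ∪ N).card := Finset.card_sdiff_add_card_eq_card hQ
    omega
  · have h3 : ∑ w ∈ (P ∪ N) \ Q, y w + ∑ w ∈ Q, y w = ∑ w ∈ P ∪ N, y w := Finset.sum_sdiff hQ
    linarith

private theorem not_dvd {c : V → V → ZMod m} (hz : ZSF m c) {u : V} {y : V → ℤ} (h : SL c u y)
    {x : V} (hx : x ≠ u) {t : V → ℤ} (ht : Wn c u x y t) (A B : Finset V)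
    (hA : A ⊆ XX u x) (hB : B ⊆ XX u x) (hAB : Disjoint A B) (hc : A.card + B.card + 1 = m) :
    y x + ∑ w ∈ A, y w + ∑ w ∈ B, t w ≠ m := by
  intro h0
  have h1 : ((y x + ∑ w ∈ A, y w + ∑ w ∈ B, t w : ℤ) : ZMod m) = 0 := by
    rw [h0]
    push_cast
    exact ZMod.natCast_self m
  apply hz u x hx.symm A B hAB (fun h => (mXX.1 (hA h)).1 rfl) (fun h => (mXX.1 (hA h)).2 rfl)
    (fun h => (mXX.1 (hB h)).1 rfl) (fun h => (mXX.1 (hB h)).2 rfl) hc
  rw [← h1]
  push_cast
  rw [h.cast x hx]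
  congr 1
  · congr 1
    refine Finset.sum_congr rfl (fun w hw => ?_)
    exact (h.cast w (mXX.1 (hA hw)).1).symm
  · refine Finset.sum_congr rfl (fun w hw => ?_)
    exact ((ht w (mXX.1 (hB hw)).1 (mXX.1 (hB hw)).2).1).symm

theorem gpl_upU [NeZero m] {c : V → V → ZMod m} (hsym : ∀ p q, c p q = c q p) (hz : ZSF m c)
    (hU : ∀ z, U3 c z)
    {u : V} {y : V → ℤ} (h : SL c u y) {s f : ℕ} (hV : Fintype.card V = m + s)
    (hn : NumU m s f u y) {x : V} (hx : x ≠ u) {t : V → ℤ} (ht : Wn c u x y t)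
    (hD : f ≤ ((XX u x).filter (fun w => c u w ≠ c x w)).card) (A B : Finset V)
    (hA : A ⊆ XX u x) (hB : B ⊆ XX u x) (hAB : Disjoint A B) (hc : A.card + B.card + 1 = m)
    (ih : ∀ A' B' : Finset V, A' ⊆ XX u x → B' ⊆ XX u x → Disjoint A' B' →
      A'.card + B'.card + 1 = m → B'.card < B.card →
      1 ≤ y x + ∑ w ∈ A', y w + ∑ w ∈ B', t w ∧ y x + ∑ w ∈ A', y w + ∑ w ∈ B', t w ≤ m - 1) :
    y x + ∑ w ∈ A, y w + ∑ w ∈ B, t w ≤ m - 1 := by
  by_contra hcon
  push Not at hcon
  have hne := not_dvd hz h hx ht A B hA hB hAB hc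
  have hZ : (m : ℤ) + 1 ≤ y x + ∑ w ∈ A, y w + ∑ w ∈ B, t w := by omega
  -- `|B| ≥ 2`
  have hB0 : B.card ≠ 0 := by
    intro h0
    have hBe : B = ∅ := Finset.card_eq_zero.1 h0
    subst hBe
    have hxA : x ∉ A := fun h => (mXX.1 (hA h)).2 rfl
    have h1 := h.rng (insert x A) (by
      intro w hw
      rcases Finset.mem_insert.1 hw with h2 | h2
      · exact Finset.mem_erase.2 ⟨h2 ▸ hx, Finset.mem_univ _⟩
      · exact Finset.mem_erase.2 ⟨(mXX.1 (hA h2)).1, Finset.mem_univ _⟩)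
      (by rw [Finset.card_insert_of_notMem hxA]; simpa using hc)
    rw [Finset.sum_insert hxA] at h1
    simp only [Finset.sum_empty, add_zero] at hZ
    linarith [h1.2]
  have hB1 : B.card ≠ 1 := by
    intro h0
    obtain ⟨w, hw⟩ := Finset.card_eq_one.1 h0
    subst hw
    have hwX := mXX.1 (hB (Finset.mem_singleton_self w))
    have h1 := (ht w hwX.1 hwX.2).2 A hA (fun h2 => (Finset.disjoint_left.1 hAB h2) (Finset.mem_singleton_self w))
      (by rw [Finset.card_singleton] at hc; omega)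
    rw [Finset.sum_singleton] at hZ
    linarith [h1.2]
  have hk2 : 2 ≤ B.card := by omega
  -- `δ ≥ 2` on `B`
  have hδ : ∀ w ∈ B, 2 ≤ t w - y w := by
    intro w hw
    have hwA : w ∉ A := fun h2 => (Finset.disjoint_left.1 hAB h2) hw
    have h1 := ih (insert w A) (B.erase w)
      (by
        intro v hv
        rcases Finset.mem_insert.1 hv with h2 | h2
        · exact h2 ▸ hB hw
        · exact hA h2)
      (fun v hv => hB (Finset.mem_of_mem_erase hv))
      (by
        rw [Finset.disjoint_left]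
        intro v hv hv2
        rcases Finset.mem_insert.1 hv with h2 | h2
        · exact (Finset.ne_of_mem_erase hv2) h2
        · exact (Finset.disjoint_left.1 hAB h2) (Finset.mem_of_mem_erase hv2))
      (by
        rw [Finset.card_insert_of_notMem hwA, Finset.card_erase_of_mem hw]
        omega)
      (Finset.card_erase_lt_of_mem hw)
    rw [Finset.sum_insert hwA] at h1
    have h2 : ∑ v ∈ B.erase w, t v + t w = ∑ v ∈ B, t v := Finset.sum_erase_add _ _ hw
    linarith [h1.2]
  have hs1 := hn.s1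
  have hs2' := hn.s2
  have hl1 := hn.l1
  have hk1 := hn.k1
  have hm2 : 2 * (s : ℤ) ≤ m := by exact_mod_cast hn.m2
  have hm4 : (m : ℤ) + 1 ≤ 4 * s := by exact_mod_cast hn.m4
  have hls : (s : ℤ) + 1 ≤ (LL u y).card := by omega
  have hhs : (s : ℤ) + 1 ≤ (HH u y).card := by omega
  have hls' : s + 1 ≤ (LL u y).card := by exact_mod_cast hls
  have hhs' : s + 1 ≤ (HH u y).card := by exact_mod_cast hhs
  -- general use of `famB`
  have hfam : ∀ B' : Finset V, B' ⊆ B → B'.card < B.card → B'.card + s ≤ (LL u y).card →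
      B'.card + s ≤ (HH u y).card → sy u y + ∑ w ∈ B', (t w - y w) ≤ m - 1 := by
    intro B' hB' hlt h1 h2
    obtain ⟨A', hA1, hA2, hA3, hA4⟩ := famU h hV hn hx t B' (hB'.trans hB) h1 h2
      (sy u y + ∑ w ∈ B', (t w - y w)) (by
        have : 2 ≤ s := by
          have := hn.eL
          have := exL_nonneg u y
          omega
        have : (2 : ℤ) ≤ s := by exact_mod_cast this
        linarith) le_rfl
    have h3 := ih A' B' hA1 (hB'.trans hB) hA2 hA3 hlt
    linarith [h3.2]
  -- (a)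
  obtain ⟨B₁, hB₁, hB₁c⟩ := Finset.exists_subset_card_eq
    (s := B) (n := min (B.card - 1) (min ((LL u y).card - s) ((HH u y).card - s)))
    (le_trans (min_le_left _ _) (Nat.sub_le _ _))
  have hB₁lt : B₁.card < B.card := by
    rw [hB₁c]
    exact lt_of_le_of_lt (min_le_left _ _) (by omega)
  have ha1 := hfam B₁ hB₁ hB₁lt (by
      have : B₁.card ≤ (LL u y).card - s := by
        rw [hB₁c]; exact le_trans (min_le_right _ _) (min_le_left _ _)
      omega)
    (by
      have : B₁.card ≤ (HH u y).card - s := by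
        rw [hB₁c]; exact le_trans (min_le_right _ _) (min_le_right _ _)
      omega)
  have ha2 : 2 * (B₁.card : ℤ) ≤ ∑ w ∈ B₁, (t w - y w) := by
    have h1 : ∑ w ∈ B₁, (2 : ℤ) ≤ ∑ w ∈ B₁, (t w - y w) :=
      Finset.sum_le_sum (fun w hw => hδ w (hB₁ hw))
    rw [Finset.sum_const, nsmul_eq_mul] at h1
    linarith
  have ha3 : (B₁.card : ℤ) < (LL u y).card - s := by linarith
  have ha4 : (B₁.card : ℤ) < (HH u y).card - s := by linarith
  have hkl : B.card + s ≤ (LL u y).card ∧ B.card + s ≤ (HH u y).card := by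
    have h1 : B₁.card + s < (LL u y).card := by
      have : (B₁.card : ℤ) + s < (LL u y).card := by linarith
      exact_mod_cast this
    have h2 : B₁.card + s < (HH u y).card := by
      have : (B₁.card : ℤ) + s < (HH u y).card := by linarith
      exact_mod_cast this
    have h3 : B₁.card = B.card - 1 := by
      rw [hB₁c]
      rw [hB₁c] at h1 h2
      rcases min_choice (B.card - 1) (min ((LL u y).card - s) ((HH u y).card - s)) with h4 | h4
      · exact h4
      · exfalso
        rw [h4] at h1 h2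
        rcases min_choice ((LL u y).card - s) ((HH u y).card - s) with h5 | h5
        · rw [h5] at h1
          omega
        · rw [h5] at h2
          omega
    omega
  -- (b)
  have hb : (m : ℤ) + 1 ≤ sy u y + ∑ w ∈ B, (t w - y w) - (s - 1) := by
    by_contra hb
    push Not at hb
    obtain ⟨A', hA1, hA2, hA3, hA4⟩ := famUfull h hV hn hx t B hB hkl.1 hkl.2 A hA hAB hc m
      (by linarith) (by linarith)
    exact not_dvd hz h hx ht A' B hA1 hB hA2 hA3 hA4
  -- (c)
  have hcc : ∀ w ∈ B, (s : ℤ) + 1 ≤ t w - y w := by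
    intro w hw
    have h1 := hfam (B.erase w) (Finset.erase_subset _ _) (Finset.card_erase_lt_of_mem hw)
      (by rw [Finset.card_erase_of_mem hw]; omega) (by rw [Finset.card_erase_of_mem hw]; omega)
    have h2 : ∑ v ∈ B.erase w, (t v - y v) + (t w - y w) = ∑ v ∈ B, (t v - y v) :=
      Finset.sum_erase_add _ _ hw
    linarith
  -- (d)
  have hk : B.card = 2 := by
    by_contra hk3
    have h3 : 2 < B.card := by omega
    obtain ⟨B₂, hB₂, hB₂c⟩ := Finset.exists_subset_card_eq (s := B) (n := 2) (by omega)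
    have h1 := hfam B₂ hB₂ (by omega) (by omega) (by omega)
    have h2 : (B₂.card : ℤ) * (s + 1) ≤ ∑ w ∈ B₂, (t w - y w) := by
      have h4 : ∑ w ∈ B₂, ((s : ℤ) + 1) ≤ ∑ w ∈ B₂, (t w - y w) :=
        Finset.sum_le_sum (fun w hw => hcc w (hB₂ hw))
      rw [Finset.sum_const, nsmul_eq_mul] at h4
      exact h4
    rw [hB₂c] at h2
    push_cast at h2
    linarith
  -- (e)
  have hdne : ∀ w ∈ (XX u x).filter (fun w => c u w ≠ c x w), 1 ≤ |t w - y w| := by
    intro w hw
    obtain ⟨hwX, hwc⟩ := Finset.mem_filter.1 hw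
    have hwX' := mXX.1 hwX
    rcases eq_or_ne (t w - y w) 0 with h0 | h0
    · exfalso
      apply hwc
      have h1 : t w = y w := by linarith
      rw [← h.cast w hwX'.1, ← (ht w hwX'.1 hwX'.2).1, h1]
    · exact Int.one_le_abs h0
  have hBD : B ⊆ (XX u x).filter (fun w => c u w ≠ c x w) := by
    intro w hw
    refine Finset.mem_filter.2 ⟨hB hw, ?_⟩
    intro heq
    have hwX' := mXX.1 (hB hw)
    have h1 : ((t w - y w : ℤ) : ZMod m) = 0 := by
      push_cast
      rw [h.cast w hwX'.1, (ht w hwX'.1 hwX'.2).1, heq, sub_self]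
    rw [ZMod.intCast_zmod_eq_zero_iff_dvd] at h1
    have h2 := (dd_bdU h hV hn hx ht hwX'.1 hwX'.2).2.2
    have h3 := hcc w hw
    have h4 : |t w - y w| = t w - y w := abs_of_nonneg (by linarith [hm4])
    rw [h4] at h2
    have h5 := Int.le_of_dvd (by linarith) h1
    linarith
  have hf2 := hn.f2
  have hm2' := hn.m2
  obtain ⟨D₀, hBD₀, hD₀, hD₀c⟩ := Finset.exists_subsuperset_card_eq (n := f) hBD (by omega) hD
  have hsum := sum_ddU hsym hz hU h hV hn hx ht D₀ (hD₀.trans (Finset.filter_subset _ _)) hD₀c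
    (fun w hw => (Finset.mem_filter.1 (hD₀ hw)).2)
  have h1 : ∑ w ∈ D₀ \ B, |t w - y w| + ∑ w ∈ B, |t w - y w| = ∑ w ∈ D₀, |t w - y w| :=
    Finset.sum_sdiff hBD₀
  have h2 : ((D₀ \ B).card : ℤ) ≤ ∑ w ∈ D₀ \ B, |t w - y w| := by
    have h3 : ∑ w ∈ D₀ \ B, (1 : ℤ) ≤ ∑ w ∈ D₀ \ B, |t w - y w| :=
      Finset.sum_le_sum (fun w hw => hdne w (hD₀ (Finset.mem_sdiff.1 hw).1))
    simpa using h3
  have h3 : (B.card : ℤ) * (s + 1) ≤ ∑ w ∈ B, |t w - y w| := by
    have h4 : ∑ w ∈ B, ((s : ℤ) + 1) ≤ ∑ w ∈ B, |t w - y w| :=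
      Finset.sum_le_sum (fun w hw => le_trans (hcc w hw) (le_abs_self _))
    rw [Finset.sum_const, nsmul_eq_mul] at h4
    exact h4
  have h4 : ((D₀ \ B).card : ℤ) + B.card = f := by
    have h5 : (D₀ \ B).card + B.card = D₀.card := Finset.card_sdiff_add_card_eq_card hBD₀
    rw [hD₀c] at h5
    exact_mod_cast h5
  rw [hk] at h3 h4
  push_cast at h3 h4
  have hf2' : (m : ℤ) + 3 ≤ 2 * f + 2 * s := by
    have : m + 3 ≤ 2 * f + 2 * s := by omega
    exact_mod_cast this
  linarith

/-- the propagation lemma. -/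
theorem gplU [NeZero m] {c : V → V → ZMod m} (hsym : ∀ p q, c p q = c q p) (hz : ZSF m c)
    (hU : ∀ z, U3 c z)
    {u : V} {y : V → ℤ} (h : SL c u y) {s f : ℕ} (hV : Fintype.card V = m + s)
    (hn : NumU m s f u y) {x : V} (hx : x ≠ u)
    (hD : f ≤ ((XX u x).filter (fun w => c u w ≠ c x w)).card) :
    ∃ t : V → ℤ, PLift c u x (y x) y t := by
  classical
  have hw : ∀ w : V, ∃ t₀ : ℤ, w ≠ u → w ≠ x → (t₀ : ZMod m) = c x w ∧
      ∀ A : Finset V, A ⊆ XX u x → w ∉ A → A.card + 2 = m →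
      1 ≤ y x + ∑ v ∈ A, y v + t₀ ∧ y x + ∑ v ∈ A, y v + t₀ ≤ m - 1 := by
    intro w
    by_cases hwu : w = u
    · exact ⟨0, fun h1 => absurd hwu h1⟩
    by_cases hwx : w = x
    · exact ⟨0, fun _ h1 => absurd hwx h1⟩
    obtain ⟨t₀, h1⟩ := windowU hsym hz h hV hn hx hwu hwx
    exact ⟨t₀, fun _ _ => h1⟩
  choose t ht' using hw
  have ht : Wn c u x y t := fun w hwu hwx => ht' w hwu hwx
  refine ⟨t, hx.symm, fun w hwu _ => h.cast w hwu, fun w hwu hwx => (ht w hwu hwx).1, h.cast x hx, ?_⟩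
  have main : ∀ k : ℕ, ∀ A B : Finset V, A ⊆ XX u x → B ⊆ XX u x → Disjoint A B →
      A.card + B.card + 1 = m → B.card = k →
      1 ≤ y x + ∑ w ∈ A, y w + ∑ w ∈ B, t w ∧ y x + ∑ w ∈ A, y w + ∑ w ∈ B, t w ≤ m - 1 := by
    intro k
    induction k using Nat.strong_induction_on with
    | _ k ihk =>
      intro A B hA hB hAB hc hk
      have ih : ∀ A' B' : Finset V, A' ⊆ XX u x → B' ⊆ XX u x → Disjoint A' B' →
          A'.card + B'.card + 1 = m → B'.card < B.card →
          1 ≤ y x + ∑ w ∈ A', y w + ∑ w ∈ B', t w ∧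
            y x + ∑ w ∈ A', y w + ∑ w ∈ B', t w ≤ m - 1 := by
        intro A' B' h1 h2 h3 h4 h5
        exact ihk B'.card (hk ▸ h5) A' B' h1 h2 h3 h4 rfl
      have hs : ∀ A' B' : Finset V, A'.card + B'.card + 1 = m →
          (1 - y x) + ∑ w ∈ A', (1 - y w) + ∑ w ∈ B', (1 - t w) =
            (m : ℤ) - (y x + ∑ w ∈ A', y w + ∑ w ∈ B', t w) := by
        intro A' B' h1
        have h2 : (A'.card : ℤ) + B'.card + 1 = m := by exact_mod_cast h1
        rw [Finset.sum_sub_distrib, Finset.sum_sub_distrib, Finset.sum_const, Finset.sum_const,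
          nsmul_eq_mul, nsmul_eq_mul]
        linarith
      refine ⟨?_, gpl_upU hsym hz hU h hV hn hx ht hD A B hA hB hAB hc ih⟩
      have hlow := gpl_upU (c := fun p q => 1 - c p q) (fun p q => by rw [hsym p q]) (zsf_refl hz)
        (fun z => u3_refl (hU z)) (sl_refl h) hV (numU_refl hV hn) hx (wn_refl ht)
        (by
          refine le_trans hD (le_of_eq ?_)
          congr 1
          refine Finset.filter_congr (fun w _ => ?_)
          show c u w ≠ c x w ↔ 1 - c u w ≠ 1 - c x w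
          rw [not_iff_not]
          constructor
          · intro h1; rw [h1]
          · intro h1; exact sub_right_injective h1)
        A B hA hB hAB hc
        (by
          intro A' B' h1 h2 h3 h4 h5
          have h6 := ih A' B' h1 h2 h3 h4 h5
          show 1 ≤ (1 - y x) + ∑ w ∈ A', (1 - y w) + ∑ w ∈ B', (1 - t w) ∧
            (1 - y x) + ∑ w ∈ A', (1 - y w) + ∑ w ∈ B', (1 - t w) ≤ (m : ℤ) - 1
          rw [hs A' B' h4]
          constructor <;> linarith [h6.1, h6.2])
      have h7 : (1 - y x) + ∑ w ∈ A, (1 - y w) + ∑ w ∈ B, (1 - t w) ≤ (m : ℤ) - 1 := hlow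
      rw [hs A B hc] at h7
      linarith
  intro A B hA hB hAB hc
  exact main B.card A B hA hB hAB hc rfl

end H
end ZS44129
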