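import Mathlib
import Pool.Agent.Work.MP_44129c_co.H.G1
import Pool.Agent.Work.MP_44129c_co.H.G4

/-!
# MP_44129c_co/H, IG: interface of block G (per-vertex lemma and propagation lemma without 3-differences)

`goodL_U`, `goodH_U` (H/G1): as `E.goodL`, `E.goodH` with `h3` replaced by `U3` at all vertices.  `NumU` (H/G2): numerical
conditions (`N.Num` without `h3`).  `gpl_U`: as `N.gpl`.
-/

set_option autoImplicit false

namespace ZS44129
namespace H

open Finset E N

variable {V : Type} [Fintype V] [DecidableEq V] {m : ℕ}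

theorem gpl_U [NeZero m] {c : V → V → ZMod m} (hsym : ∀ p q, c p q = c q p) (hz : ZSF m c)
    (h3 : ∀ z, U3 c z) {u : V} {y : V → ℤ} (h : SL c u y) {s f : ℕ} (hV : Fintype.card V = m + s)
    (hn : NumU m s f u y) {x : V} (hx : x ≠ u)
    (hD : f ≤ ((XX u x).filter (fun w => c u w ≠ c x w)).card) :
    ∃ t : V → ℤ, PLift c u x (y x) y t :=
  gplU hsym hz h3 h hV hn hx hD

end H
end ZS44129
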