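import Pool.Agent.Work.MP_44129c_co.H.U3p

/-!
# MP_44129c_co/H, IU (size M): interface of block U (no colour differences of order 2, 3), from U1, U3p

PROOFS.
`u2_of`, `u3_of`: `W` has three elements, so some `x ∈ W` is different from `p` and `q`; `x ≠ z` by `lp_ne`; `u2_pair`, `u3_pair`.
`six_two`: let `2 x = 0`, `x ≠ 0`, `2 y = 0`, `y ≠ 0` in `ZMod m`: then `x = y` (`x.val = m / 2 = y.val`).  For `d, e` with `6 d = 0`,
`3 d ≠ 0`, `6 e = 0`, `3 e ≠ 0`: `3 d = 3 e` by the first statement.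
`two_col`: three colours `a, b, e` of `z` in the same coset of `K6`, pairwise different: `6 (a - b) = 0`, and `3 (a - b) ≠ 0` by `U3` (else the colours
are equal); the same for `b - e`; so `3 (a - b) = 3 (b - e)`, hence `3 (a - e) = 6 (b - e) = 0` and `a = e` by `U3`: contradiction.
`k6_cls`.  Let `A = {x ≠ z : 6 c z x = 6 r}`.  If `A` is empty, done.  Let `p ∈ A`, `a = c z p`.  If all of `A` has colour `a`: `A ⊆ cl c z a`, `class_le`
(with a partner from `W`, `lp`).  Else let `b` be another colour in `A`: by `two_col` `A ⊆ cl c z a ∪ cl c z b`, disjoint, both `≤ alp s`.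
Suppose `|A| ≥ alp s + 2`.  Then both classes have at least `2` elements.  One of them, say `cl c z b`, has at least `3` (`alp s + 2 ≥ 5`).  Let
`p1 ≠ p2` be in the other, `x ∈ W` different from `p1, p2` (`|W| = 3`), `q1 ≠ q2` in `cl c z b` minus `x`: `k6_pairs` with the pair `z, x`: contradiction.
-/

set_option autoImplicit false

namespace ZS44129
namespace H

open Finset E N

variable {V : Type} [Fintype V] [DecidableEq V] {m : ℕ}

/-- the vertex has at least three lifted pairs. -/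
def Good3 (c : V → V → ZMod m) (z : V) : Prop := ∃ W : Finset V, W.card = 3 ∧ ∀ x ∈ W, Lp c z x

omit [Fintype V] in
private theorem iu_pick {W0 : Finset V} (hW : W0.card = 3) (p q : V) : ∃ x ∈ W0, x ≠ p ∧ x ≠ q := by
  have h1 : 0 < ((W0.erase p).erase q).card := by
    have h2 := Finset.pred_card_le_card_erase (s := W0) (a := p)
    have h3 := Finset.pred_card_le_card_erase (s := W0.erase p) (a := q)
    omega
  obtain ⟨x, hx⟩ := Finset.card_pos.1 h1
  obtain ⟨h2, h3⟩ := Finset.mem_erase.1 hx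
  obtain ⟨h4, h5⟩ := Finset.mem_erase.1 h3
  exact ⟨x, h5, h4, h2⟩

theorem u2_of [NeZero m] {c : V → V → ZMod m} {s : ℕ} (h : HS c s) {z : V} (hz : Good3 c z) : U2 c z := by
  obtain ⟨W0, hW, hL⟩ := hz
  intro p q hp hq h2
  obtain ⟨x, hx, hxp, hxq⟩ := iu_pick hW p q
  exact u2_pair h (hL x hx) (mem_XX.2 ⟨hp, hxp.symm⟩) (mem_XX.2 ⟨hq, hxq.symm⟩) h2

theorem u3_of [NeZero m] {c : V → V → ZMod m} {s : ℕ} (h : HS c s) {z : V} (hz : Good3 c z) : U3 c z := by
  obtain ⟨W0, hW, hL⟩ := hz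
  intro p q hp hq h2
  obtain ⟨x, hx, hxp, hxq⟩ := iu_pick hW p q
  exact u3_pair h (hL x hx) (mem_XX.2 ⟨hp, hxp.symm⟩) (mem_XX.2 ⟨hq, hxq.symm⟩) h2

private theorem iu_half [NeZero m] {x : ZMod m} (h : 2 * x = 0) (hx : x ≠ 0) : 2 * x.val = m := by
  have h1 := ZMod.val_lt x
  have h2 : x.val ≠ 0 := fun h3 => hx ((ZMod.val_eq_zero x).1 h3)
  have h3 : ((2 * x.val : ℕ) : ZMod m) = 0 := by
    rw [Nat.cast_mul, ZMod.natCast_val, ZMod.cast_id', id_eq]
    push_cast
    exact h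
  rw [ZMod.natCast_eq_zero_iff] at h3
  obtain ⟨k, hk⟩ := h3
  have hk1 : k = 1 := by
    have h4 : k < 2 := by
      by_contra h5
      have h6 : m * 2 ≤ m * k := Nat.mul_le_mul_left m (by omega)
      omega
    have h5 : k ≠ 0 := by
      rintro rfl
      omega
    omega
  rw [hk1, mul_one] at hk
  exact hk

private theorem iu_two [NeZero m] {x y : ZMod m} (h1 : 2 * x = 0) (h2 : x ≠ 0) (h3 : 2 * y = 0) (h4 : y ≠ 0) :
    x = y := by
  have h5 := iu_half h1 h2
  have h6 := iu_half h3 h4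
  exact ZMod.val_injective m (by omega)

private theorem iu_three [NeZero m] {c : V → V → ZMod m} {z : V} (h3 : U3 c z) {p q t : V} (hp : p ≠ z)
    (hq : q ≠ z) (ht : t ≠ z) (e1 : 6 * c z p = 6 * c z q) (e2 : 6 * c z q = 6 * c z t)
    (n1 : c z p ≠ c z q) (n2 : c z q ≠ c z t) : c z p = c z t := by
  apply h3 p t hp ht
  have d1 : 3 * (c z p - c z q) ≠ 0 := by
    intro h
    apply n1
    apply h3 p q hp hq
    linear_combination h
  have d2 : 3 * (c z q - c z t) ≠ 0 := by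
    intro h
    apply n2
    apply h3 q t hq ht
    linear_combination h
  have h5 := iu_two (x := 3 * (c z p - c z q)) (y := 3 * (c z q - c z t))
    (by linear_combination e1) d1 (by linear_combination e2) d2
  linear_combination e1 - h5

private theorem iu_cls [NeZero m] {c : V → V → ZMod m} {s : ℕ} (h : HS c s) {z : V} (hz : Good3 c z)
    {a b : ZMod m} (hab : a ≠ b) (h6 : 6 * a = 6 * b) (P Q : Finset V) (hP : P ⊆ cl c z a)
    (hQ : Q ⊆ cl c z b) (h2 : 2 ≤ P.card) (h3 : 3 ≤ Q.card) : False := by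
  obtain ⟨W0, hW, hL⟩ := hz
  obtain ⟨p1, hp1, p2, hp2, hne⟩ := Finset.one_lt_card.1 (by omega : 1 < P.card)
  obtain ⟨x, hx, hxp, hxq⟩ := iu_pick hW p1 p2
  have h4 : 1 < (Q.erase x).card := by
    have h5 := Finset.pred_card_le_card_erase (s := Q) (a := x)
    omega
  obtain ⟨q1, hq1, q2, hq2, hne2⟩ := Finset.one_lt_card.1 h4
  obtain ⟨a1, a2⟩ := Finset.mem_erase.1 hq1
  obtain ⟨a3, a4⟩ := Finset.mem_erase.1 hq2
  obtain ⟨b1, b2⟩ := mem_cl.1 (hP hp1)
  obtain ⟨b3, b4⟩ := mem_cl.1 (hP hp2)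
  obtain ⟨b5, b6⟩ := mem_cl.1 (hQ a2)
  obtain ⟨b7, b8⟩ := mem_cl.1 (hQ a4)
  exact k6_pairs h (hL x hx) (mem_XX.2 ⟨b1, hxp.symm⟩) (mem_XX.2 ⟨b3, hxq.symm⟩) (mem_XX.2 ⟨b5, a1⟩)
    (mem_XX.2 ⟨b7, a3⟩) hne hne2 (by rw [b2, b4]) (by rw [b6, b8]) (by rw [b2, b6]; exact h6)
    (by rw [b2, b6]; exact hab)

theorem k6_cls [NeZero m] {c : V → V → ZMod m} {s : ℕ} (h : HS c s) {z : V} (hz : Good3 c z) (r : ZMod m) :
    ((univ.erase z).filter (fun x => 6 * c z x = 6 * r)).card ≤ alp s + 1 := by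
  classical
  by_contra hcon
  push Not at hcon
  have hs38 := h.rng.facts.1
  have halp : 38 ≤ alp s := by
    unfold alp
    split_ifs <;> omega
  have h3 := u3_of h hz
  obtain ⟨W0, hW, hL⟩ := id hz
  obtain ⟨x0, hx0, -, -⟩ := iu_pick hW z z
  have hcl : ∀ a, (cl c z a).card ≤ alp s := fun a => class_le h (hL x0 hx0) a
  have hA : ∀ x ∈ (univ.erase z).filter (fun x => 6 * c z x = 6 * r), x ≠ z ∧ 6 * c z x = 6 * r := by
    intro x hx
    obtain ⟨h1, h2⟩ := Finset.mem_filter.1 hx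
    exact ⟨(Finset.mem_erase.1 h1).1, h2⟩
  obtain ⟨A, hAdef⟩ : ∃ A, A = (univ.erase z).filter (fun x => 6 * c z x = 6 * r) := ⟨_, rfl⟩
  rw [← hAdef] at hcon hA
  obtain ⟨p, hp⟩ := Finset.card_pos.1 (by omega : 0 < A.card)
  obtain ⟨hpz, hp6⟩ := hA p hp
  have hex : ∃ q ∈ A, c z q ≠ c z p := by
    by_contra hno
    push Not at hno
    have hsub : A ⊆ cl c z (c z p) := fun x hx => mem_cl.2 ⟨(hA x hx).1, hno x hx⟩
    have h1 := Finset.card_le_card hsub
    have h2 := hcl (c z p)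
    omega
  obtain ⟨q, hq, hqp⟩ := hex
  obtain ⟨hqz, hq6⟩ := hA q hq
  have hsub : A ⊆ A.filter (fun x => c z x = c z p) ∪ A.filter (fun x => c z x = c z q) := by
    intro x hx
    obtain ⟨hxz, hx6⟩ := hA x hx
    rw [Finset.mem_union, Finset.mem_filter, Finset.mem_filter]
    by_cases h1 : c z x = c z p
    · exact Or.inl ⟨hx, h1⟩
    · right
      refine ⟨hx, ?_⟩
      by_contra h2
      exact hqp (iu_three h3 hqz hxz hpz (by rw [hq6, hx6]) (by rw [hx6, hp6]) (Ne.symm h2) h1)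
  have hc := (Finset.card_le_card hsub).trans (Finset.card_union_le _ _)
  have h1 : A.filter (fun x => c z x = c z p) ⊆ cl c z (c z p) := fun x hx =>
    mem_cl.2 ⟨(hA x (Finset.mem_filter.1 hx).1).1, (Finset.mem_filter.1 hx).2⟩
  have h2 : A.filter (fun x => c z x = c z q) ⊆ cl c z (c z q) := fun x hx =>
    mem_cl.2 ⟨(hA x (Finset.mem_filter.1 hx).1).1, (Finset.mem_filter.1 hx).2⟩
  have h1c := (Finset.card_le_card h1).trans (hcl _)
  have h2c := (Finset.card_le_card h2).trans (hcl _)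
  rcases Nat.lt_or_ge (A.filter (fun x => c z x = c z q)).card 3 with h4 | h4
  · exact iu_cls h hz hqp (by rw [hq6, hp6]) _ _ h2 h1 (by omega) (by omega)
  · exact iu_cls h hz hqp.symm (by rw [hq6, hp6]) _ _ h1 h2 (by omega) h4

end H
end ZS44129
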