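import Pool.Agent.Work.MP_44129c_co.H.Defs
import Pool.Agent.Work.MP_44129c_co.G.Unit
import Pool.Agent.Work.MP_44129c_co.G.Pair

/-!
# MP_44129c_co/H, P1 (size M): good pairs are lifted pairs; moduli of the differences

PROOFS.
`dd_bot`: `G.DD c u v ⊥ = G.Dn (c u) (c v) (XX u v) ⊥` is (unfold `G.DD`, `G.Dn`, G/PDefs, G/Cyc or where `Dn` lives) the number of
positions with `c u x - c v x ∉ ⊥`, i.e. `c u x ≠ c v x`; `ZS44129.XX` and `G.XX` are the same set (`(univ.erase u).erase v`; look at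
the two definitions, `rfl` or `ext`).
`dd_anti`: as `fb_dd_anti` in G/FinalB (private there, copy).
`card_K6`: `K6 m` is the kernel of multiplication by `6`.  For example: `exists_card` (G/Cyc: a subgroup `K` with
`Nat.card K = Nat.gcd 6 m`), `6 x = 0` for `x ∈ K` (`Nat.card K ∣ 6`, `card_nsmul_eq_zero`), so `K ≤ K6 m`; conversely the additive
order of `x ∈ K6 m` divides `6` and `m`, hence `gcd 6 m`, so the subgroup of multiples of `x` has order dividing `|K|` and
`G.le_of_dvd` (used in G/FinalB) gives `zmultiples x ≤ K`.  So `K6 m = K`.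
`gp_lp`: copy of the proof of `good_lift` (PL/Good.lean) with `G.gp_unit` (G/Unit) in place of `G.good_edge`: `G.gp_unit` gives a unit
`g` and `n` with `c v x = c u x + n x • g` on `XX u v`, `∑ |n x| + 2 ≤ m`, `m < 2 #{n x ≠ 0}`; `pair_lift_gen` (PL/Main) gives
`LP (fun x y => g⁻¹ * c x y - β) u v z0 val`; `N.plift_of_LP`.  `m < 2 Df`: `G.GP` contains `m < 2 DD c u v ⊥`, `dd_bot`.
-/

set_option autoImplicit false

namespace ZS44129
namespace H

open Finset E N

variable {V : Type} [Fintype V] [DecidableEq V] {m : ℕ}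

theorem dd_bot [NeZero m] (c : V → V → ZMod m) (u v : V) : G.DD c u v ⊥ = Df c u v := by
  classical
  have hXX : G.XX u v = XX u v := rfl
  unfold G.DD G.Dn Df
  rw [hXX]
  congr 1
  ext x
  simp only [mem_filter, AddSubgroup.mem_bot, sub_eq_zero, ne_eq]

theorem dd_anti [NeZero m] (c : V → V → ZMod m) (u v : V) {L L' : AddSubgroup (ZMod m)} (h : L ≤ L') :
    G.DD c u v L' ≤ G.DD c u v L := by
  classical
  unfold G.DD G.Dn
  apply Finset.card_le_card
  intro x hx
  rw [Finset.mem_filter] at hx ⊢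
  exact ⟨hx.1, fun hh => hx.2 (h hh)⟩

theorem card_K6 [NeZero m] : Nat.card (K6 m) = kap m := by
  have h : K6 m = (nsmulAddMonoidHom 6 : ZMod m →+ ZMod m).ker := by
    ext x
    rw [mem_K6, AddMonoidHom.mem_ker, nsmulAddMonoidHom_apply, nsmul_eq_mul]
    norm_num
  rw [h, IsAddCyclic.card_nsmulAddMonoidHom_ker, Nat.card_zmod, kap, Nat.gcd_comm]

theorem gp_lp [NeZero m] {c : V → V → ZMod m} {s : ℕ} (h : HS c s) {u v : V} (hg : G.GP c u v) : Lp c u v := by
  obtain ⟨hs, hm1, hm2, hm3⟩ := h.rng.facts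
  obtain ⟨g, n, hn, hW, hown⟩ := G.gp_unit c h.zsf (s := s) (by omega) h.card hg
  have hXX : G.XX u v = XX u v := rfl
  rw [hXX] at hn hW hown
  obtain ⟨β, z0, val, h1, h2, h4, h5⟩ := pair_lift_gen (s := s) (by omega) h.card c h.zsf hg.1
    ((XX u v).filter (fun x => n x ≠ 0)) (filter_subset _ _) (by omega) g n
    (by intro x hx; exact (mem_filter.1 hx).2)
    (by intro x hx; exact hn x (mem_filter.1 hx).1)
    (by
      rw [sum_filter_of_ne (fun x _ h => by
        intro h0
        rw [h0, abs_zero] at h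
        exact h rfl)]
      exact hW)
  have hlp : LP (fun x y => ((g⁻¹ : (ZMod m)ˣ) : ZMod m) * c x y - β) u v z0 val := by
    refine ⟨hg.1, ?_, ?_, ?_, h4, ?_⟩
    · intro x hx hx'
      exact (h1 x (mem_XX.2 ⟨hx, hx'⟩)).1
    · intro x hx hx'
      exact (h1 x (mem_XX.2 ⟨hx, hx'⟩)).2
    · exact h2
    · refine lt_of_lt_of_le hown (Nat.mul_le_mul_left 2 (card_le_card ?_))
      intro x hx
      rw [mem_filter]
      refine ⟨(mem_filter.1 hx).1, fun h => ?_⟩
      have h6 := h5 x hx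
      rw [h, sub_self] at h6
      exact (mem_filter.1 hx).2 h6.symm
  refine ⟨?_, g⁻¹, β, z0, _, _, plift_of_LP hlp⟩
  have h7 := hg.2.1
  rwa [dd_bot] at h7

end H
end ZS44129
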