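import Mathlib
import Pool.Agent.Work.MP_44129c_co.H.ID
import Pool.Agent.Work.MP_44129c_co.H.IC
import Pool.Agent.Work.MP_44129c_co.H.IU
import Pool.Agent.Work.MP_44129c_co.O2.SumK
import Pool.Agent.Work.MP_44129c_co.G.Count
import Pool.Agent.Work.MP_44129c_co.G.C1K

/-!
# MP_44129c_co/H, S0 (helper8; FIXED, do not change): block S, definitions

Block S of `/team-store/44129c_v2_helper25.md`: every vertex has three lifted pairs.  `n = m + s - 1`, `f = m / 2` (rounded down), `aN` = bound of the `K6`-classes at a vertex which has at most two lifted pairs,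
`Dp = 2 alp - 2 s` = bound of `DK` of a lifted pair, `SN` = bound of `∑_v DK u v` at such a vertex.
-/

set_option autoImplicit false

namespace ZS44129
namespace H

open Finset E N

variable {V : Type} [Fintype V] [DecidableEq V] {m : ℕ}

/-- bound of the `K6`-classes at a vertex without three lifted pairs. -/
def aN (m s : ℕ) : ℕ :=
  if s = 38 then 99 else if s = 42 then 109 else if m = 141 then 119 else if s = 46 then 118
  else (5 * m - 3 * s + 48) / 5

/-- number of positions with colours different modulo `K6`. -/
noncomputable def DK (c : V → V → ZMod m) (u v : V) : ℕ := G.DD c u v (K6 m)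

/-- bound of `DK` for a lifted pair. -/
def Dp (s : ℕ) : ℤ := 2 * (alp s : ℤ) - 2 * s

/-- bound of the sum at a vertex without three lifted pairs. -/
def SN (m s : ℕ) : ℤ :=
  ((m / 2 : ℕ) : ℤ) * (m + s - 1 - (2 + hvy m)) + hvy m * (m + s - 2) + 2 * Dp s

end H
end ZS44129
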