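import Mathlib
import Pool.Agent.Work.MP_44129c_co.H.S0

/-!
# MP_44129c_co/H, S1 (size M): the `K6`-classes at a vertex without three lifted pairs

PROOF of `card_K6`.  `K6 m` = the kernel of multiplication by `6` on `ZMod m`, its order is `gcd (m, 6)` (as in `G/Cyc` `cyc_eq_ker`: `IsAddCyclic.card_nsmulAddMonoidHom_ker`, `Nat.card_zmod`).
PROOF of `few` (`u` without three lifted pairs).  `F = {v ≠ u : m < 2 DK u v}`: the `v ∈ F` with `Lp c u v` are at most two (three of them would give `Good3`), the others at most `hvy m` (`heavyK_le`).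
PROOF of `s1_num`.  Over `ℤ`, with `k = kap m`, `x0 = 2 + hvy m`, `f = m / 2`, `n = m + s - 1`.  `f (n - a - q) + a q ≤ f (n - a - x0) + a x0` because `(a - f)(x0 - q) ≥ 0` (`a ≥ aN + 1 ≥ f`).  The difference
`(s + 1 - k)(a - 8) - f (n - a - x0) - a x0` is increasing in `a` (slope `s + 1 - k + f - x0 > 0`), so it is enough to take `a = aN + 1`.  The five small cases: numbers (`k = 3, 3, 3, 2, 1`, `hvy = 2, 2, 2, 1, 0`, `f = 58, 64, 70, 71, 71`).
`80 ≤ s`: `k ≤ 6`, `x0 ≤ 5`, `2 f ≤ m`, `5 a ≥ 5 m - 3 s + 49` (`5 aN + 4 ≥ 5 m - 3 s + 48`), `m = 3 s + 1 + t`, `2 ≤ t ≤ s / 19`: with `5 a ≥ 12 s + 5 t + 53`: `10 ((s - 5)(a - 8) - (m / 2)(n - a - 5) - 5 a) ≥ s (2 t + 12) - 22 t - 582 > 0`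
(that is `a (2 s + m - 20) ≥ m (n - 5) + 16 (s - 5)` times `5`).
PROOF of `cls_bad`.  Suppose `a = |cls| ≥ aN + 1` (`≥ 11`).  `G.exc6` (`kap m ∣ 6`): at most `8` exceptional `x`.  `G.countV` with `K = K6 m`, `F`, `ex = 8`: `(s + 1 - k)(a - 8) ≤ f |B \ F| + a |B ∩ F|`, `|B| = n - a`,
`q = |B ∩ F| ≤ 2 + hvy m` (`few`).  `s1_num`.
-/

set_option autoImplicit false

namespace ZS44129
namespace H

open Finset E N

variable {V : Type} [Fintype V] [DecidableEq V] {m : ℕ}

open Classical in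
theorem few [NeZero m] {c : V → V → ZMod m} {s : ℕ} (h : HS c s) {u : V} (hu : ¬ Good3 c u) :
    ((univ.erase u).filter (fun v => Lp c u v)).card ≤ 2 ∧
      ((univ.erase u).filter (fun v => m < 2 * DK c u v ∧ ¬ Lp c u v)).card ≤ hvy m ∧
      ((univ.erase u).filter (fun v => m < 2 * DK c u v)).card ≤ 2 + hvy m := by
  have h1 : ((univ.erase u).filter (fun v => Lp c u v)).card ≤ 2 := by
    by_contra hcon
    push Not at hcon
    obtain ⟨W, hW, hWc⟩ := Finset.exists_subset_card_eq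
      (show 3 ≤ ((univ.erase u).filter (fun v => Lp c u v)).card by omega)
    exact hu ⟨W, hWc, fun x hx => (Finset.mem_filter.1 (hW hx)).2⟩
  have h2 : ((univ.erase u).filter (fun v => m < 2 * DK c u v ∧ ¬ Lp c u v)).card ≤ hvy m :=
    heavyK_le h u
  refine ⟨h1, h2, ?_⟩
  have h3 : (univ.erase u).filter (fun v => m < 2 * DK c u v) ⊆
      (univ.erase u).filter (fun v => Lp c u v) ∪
        (univ.erase u).filter (fun v => m < 2 * DK c u v ∧ ¬ Lp c u v) := by
    intro v hv
    obtain ⟨h4, h5⟩ := Finset.mem_filter.1 hv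
    rw [Finset.mem_union, Finset.mem_filter, Finset.mem_filter]
    by_cases h6 : Lp c u v
    · exact Or.inl ⟨h4, h6⟩
    · exact Or.inr ⟨h4, h5, h6⟩
  have h4 := Finset.card_le_card h3
  have h5 := Finset.card_union_le ((univ.erase u).filter (fun v => Lp c u v))
    ((univ.erase u).filter (fun v => m < 2 * DK c u v ∧ ¬ Lp c u v))
  omega

private theorem hvy_le (m : ℕ) : hvy m ≤ 3 := by
  unfold hvy
  split_ifs <;> omega

private theorem kap_le (m : ℕ) : kap m ≤ 6 := by
  unfold kap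
  exact Nat.gcd_le_left m (by norm_num)

/-- the general case, with the numbers as parameters -/
private theorem s1_gen (s t f k x0 a q : ℤ) (hs : 80 ≤ s) (ht : 2 ≤ t) (hk : k ≤ 6) (hx0 : x0 ≤ 5)
    (hf : 2 * f ≤ 3 * s + 1 + t) (hf0 : 0 ≤ f) (hts : 19 * t ≤ s)
    (ha : 12 * s + 5 * t + 53 ≤ 5 * a) (hq : q ≤ x0) :
    f * (4 * s + t - a - q) + a * q < (s + 1 - k) * (a - 8) := by
  have hfa : f ≤ a := by linarith
  have h1 : f * (4 * s + t - a - q) + a * q ≤ f * (4 * s + t - a - 5) + 5 * a := by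
    nlinarith [mul_nonneg (sub_nonneg.2 hfa) (sub_nonneg.2 (hq.trans hx0))]
  have h2 : (s - 5) * (a - 8) ≤ (s + 1 - k) * (a - 8) :=
    mul_le_mul_of_nonneg_right (by linarith) (by linarith)
  have h3 : f * (4 * s + t - a - 5) + 5 * a < (s - 5) * (a - 8) := by
    rcases le_total 0 (4 * s + t - a - 5) with h4 | h4
    · have h5 : 2 * f * (4 * s + t - a - 5) ≤ (3 * s + 1 + t) * (4 * s + t - a - 5) :=
        mul_le_mul_of_nonneg_right hf h4
      have h6 : 0 ≤ (5 * a - (12 * s + 5 * t + 53)) * (5 * s + t - 19) :=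
        mul_nonneg (by linarith) (by linarith)
      have h7 : 0 ≤ (t - 2) * (s - 80) := mul_nonneg (by linarith) (by linarith)
      nlinarith
    · have h5 : f * (4 * s + t - a - 5) ≤ 0 := mul_nonpos_of_nonneg_of_nonpos hf0 h4
      have h6 : 0 ≤ (s - 80) * (a - 8) := mul_nonneg (by linarith) (by linarith)
      nlinarith
  linarith

theorem s1_num {m s : ℕ} (h : R2 m s) {a q : ℤ} (ha : (aN m s : ℤ) + 1 ≤ a) (hq : q ≤ 2 + hvy m) :
    ((m / 2 : ℕ) : ℤ) * (m + s - 1 - a - q) + a * q < (s + 1 - kap m) * (a - 8) := by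
  have hr := h
  unfold R2 at hr
  rcases hr with ⟨h1, h2⟩ | ⟨h1, h2⟩ | ⟨h1, h2⟩ | ⟨h1, h2⟩ | ⟨h1, h2⟩ | ⟨h1, h2, h3⟩
  · subst h1 h2
    have e1 : aN 117 38 = 99 := by decide
    have e2 : hvy 117 = 2 := by decide
    have e3 : kap 117 = 3 := by decide
    have e4 : (117 / 2 : ℕ) = 58 := by norm_num
    rw [e1] at ha
    rw [e2] at hq
    rw [e3, e4]
    push_cast at *
    nlinarith
  · subst h1 h2
    have e1 : aN 129 42 = 109 := by decide
    have e2 : hvy 129 = 2 := by decide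
    have e3 : kap 129 = 3 := by decide
    have e4 : (129 / 2 : ℕ) = 64 := by norm_num
    rw [e1] at ha
    rw [e2] at hq
    rw [e3, e4]
    push_cast at *
    nlinarith
  · subst h1 h2
    have e1 : aN 141 46 = 119 := by decide
    have e2 : hvy 141 = 2 := by decide
    have e3 : kap 141 = 3 := by decide
    have e4 : (141 / 2 : ℕ) = 70 := by norm_num
    rw [e1] at ha
    rw [e2] at hq
    rw [e3, e4]
    push_cast at *
    nlinarith
  · subst h1 h2
    have e1 : aN 142 46 = 118 := by decide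
    have e2 : hvy 142 = 1 := by decide
    have e3 : kap 142 = 2 := by decide
    have e4 : (142 / 2 : ℕ) = 71 := by norm_num
    rw [e1] at ha
    rw [e2] at hq
    rw [e3, e4]
    push_cast at *
    nlinarith
  · subst h1 h2
    have e1 : aN 143 46 = 118 := by decide
    have e2 : hvy 143 = 0 := by decide
    have e3 : kap 143 = 1 := by decide
    have e4 : (143 / 2 : ℕ) = 71 := by norm_num
    rw [e1] at ha
    rw [e2] at hq
    rw [e3, e4]
    push_cast at *
    nlinarith
  · obtain ⟨t, ht⟩ : ∃ t, m = 3 * s + 1 + t := ⟨m - 3 * s - 1, by omega⟩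
    have haN : aN m s = (5 * m - 3 * s + 48) / 5 := by
      unfold aN
      rw [if_neg (by omega), if_neg (by omega), if_neg (by omega), if_neg (by omega)]
    have hk := kap_le m
    have hv := hvy_le m
    have h4 : 12 * s + 5 * t + 53 ≤ 5 * (aN m s + 1) := by
      rw [haN]; omega
    have h5 : 2 * (m / 2) ≤ 3 * s + 1 + t := by omega
    have h6 : (m : ℤ) + s - 1 = 4 * s + t := by rw [ht]; push_cast; ring
    rw [h6]
    refine s1_gen (s : ℤ) t ((m / 2 : ℕ) : ℤ) (kap m) (2 + hvy m) a q (by exact_mod_cast h1)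
      (by omega) (by exact_mod_cast hk) ?_ (by exact_mod_cast h5) (Int.natCast_nonneg _)
      (by omega) ?_ hq
    · have : (hvy m : ℤ) ≤ 3 := by exact_mod_cast hv
      linarith
    · have : (12 * s + 5 * t + 53 : ℤ) ≤ 5 * ((aN m s : ℤ) + 1) := by exact_mod_cast h4
      linarith

theorem cls_bad [NeZero m] {c : V → V → ZMod m} {s : ℕ} (h : HS c s) {u : V} (hu : ¬ Good3 c u)
    (r : ZMod m) : (G.cls c u (K6 m) r).card ≤ aN m s := by
  classical
  by_contra hcon
  push Not at hcon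
  have hr := h.rng
  have hf := hr.facts
  have hV := h.card
  have haN : 10 ≤ aN m s := by
    unfold aN
    split_ifs <;> omega
  have hK : Nat.card (K6 m) = kap m := card_K6
  have hk := kap_le m
  have hK6 : Nat.card (K6 m) ∣ 6 := by
    rw [hK]; exact Nat.gcd_dvd_left 6 m
  have hex := G.exc6 c h.zsf hV (K6 m) (by omega) hK6 u r (by omega)
  have hcnt := G.countV c h.sym (s := s) (ex := 8) (K6 m) u r
    ((univ.erase u).filter (fun v => m < 2 * DK c u v)) (fun v hv hvF => by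
      by_contra h1
      push Not at h1
      exact hvF (Finset.mem_filter.2 ⟨Finset.mem_erase.2 ⟨hv, Finset.mem_univ v⟩, h1⟩)) hex
  have hfew := (few h hu).2.2
  obtain ⟨F, hF⟩ : ∃ F, F = (univ.erase u).filter (fun v => m < 2 * DK c u v) := ⟨_, rfl⟩
  have hFc : F.card ≤ 2 + hvy m := by
    rw [hF]
    exact hfew
  rw [← hF] at hcnt
  obtain ⟨A, hA⟩ : ∃ A, A = G.cls c u (K6 m) r := ⟨_, rfl⟩
  rw [← hA] at hcnt hcon
  have hAsub : A ⊆ univ.erase u := by
    intro x hx
    rw [hA] at hx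
    exact Finset.mem_erase.2 ⟨(G.mem_cls.1 hx).1, Finset.mem_univ x⟩
  have hB : ((univ.erase u) \ A).card + A.card + 1 = m + s := by
    rw [Finset.card_sdiff_of_subset hAsub]
    have h1 := Finset.card_le_card hAsub
    rw [Finset.card_erase_of_mem (Finset.mem_univ u), Finset.card_univ, hV] at *
    omega
  have hq : (((univ.erase u) \ A) ∩ F).card ≤ 2 + hvy m :=
    (Finset.card_le_card Finset.inter_subset_right).trans hFc
  have hsp := Finset.card_sdiff_add_card_inter ((univ.erase u) \ A) F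
  generalize (((univ.erase u) \ A) ∩ F).card = q at *
  generalize (((univ.erase u) \ A) \ F).card = p at *
  generalize ((univ.erase u) \ A).card = b at *
  have hnum := s1_num hr (a := (A.card : ℤ)) (q := (q : ℤ)) (by exact_mod_cast hcon)
    (by exact_mod_cast hq)
  rw [hK] at hcnt
  have e1 : ((s + 1 - kap m : ℕ) : ℤ) = (s : ℤ) + 1 - kap m := by
    rw [Nat.cast_sub (by omega)]; push_cast; ring
  have e2 : ((A.card - 8 : ℕ) : ℤ) = (A.card : ℤ) - 8 := by
    rw [Nat.cast_sub (by omega)]; push_cast; ring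
  have e3 : (p : ℤ) = (m : ℤ) + s - 1 - A.card - q := by
    have : p + q + A.card + 1 = m + s := by omega
    have : (p : ℤ) + q + A.card + 1 = m + s := by exact_mod_cast this
    linarith
  have hcnt' : ((s + 1 - kap m : ℕ) : ℤ) * ((A.card - 8 : ℕ) : ℤ) ≤
      ((m / 2 : ℕ) : ℤ) * p + A.card * q := by exact_mod_cast hcnt
  rw [e1, e2, e3] at hcnt'
  exact absurd hnum (not_lt.2 hcnt')

end H
end ZS44129
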