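import Mathlib
import Pool.Agent.Work.MP_44129c_co.H.S1

/-!
# MP_44129c_co/H, S2 (size M): bounds of `DK`, upper bounds of the sums

`n = m + s - 1`, `f = m / 2`.
PROOF of `r2_facts`: the six cases of `R2`, `alp` (`s = 38`: `89`; otherwise `7 s / 3`), `hvy m ≤ 3` (`omega`).
PROOF of `dk_lp`.  `DK ≤ Df` (`dk_le_df`).  `lp_cl`: `Df + s + 1 ≤ m`, so `Df ≤ m - s - 1 ≤ Dp s`, or `Df + 2 s ≤ |cl u a| + |cl v a| ≤ 2 alp s` (`class_le` for `u, v` and for `v, u`, `lp_symm`).
PROOF of `dk_le_n`: `O2.ddK_le`.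
PROOF of `sum_bad`.  For `v ≠ u`: `DK ≤ Dp` if `Lp c u v`; `DK ≤ n - 1` if `m < 2 DK` and not `Lp`; otherwise `DK ≤ f`.  By `few` the first kind has `p ≤ 2` elements, the second `p' ≤ hvy m`; the sum is
`≤ p Dp + p' (n - 1) + (n - p - p') f ≤ SN m s`, because `Dp ≥ f` and `n - 1 ≥ f`.
PROOF of `sum_all`.  `L = {z : Good3 c z}` (classical filter), `B` its complement, `l = |L|`, `q = |B|`.  For `u ∈ L` and `v ≠ u`: `DK u v ≤ [v ∈ L] Dp + [v ∈ B] (f + [Lp c u v] (Dp - f)) + [m < 2 DK u v, not Lp c u v] (n - 1)`.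
Sum over `v ≠ u`: `(l - 1) Dp + q f + (Dp - f) #{v ∈ B : Lp c u v} + hvy m (n - 1)` (`heavyK_le`).  Sum over `u ∈ L`: `∑_{u ∈ L} #{v ∈ B : Lp c u v} = ∑_{v ∈ B} #{u ∈ L : Lp c u v} ≤ 2 q` (`lp_symm`, `few` at `v`).  For `u ∈ B` use `sum_bad`.
-/

set_option autoImplicit false

namespace ZS44129
namespace H

open Finset E N

variable {V : Type} [Fintype V] [DecidableEq V] {m : ℕ}

theorem r2_facts {m s : ℕ} (h : R2 m s) : (m : ℤ) - s - 1 ≤ Dp s ∧ ((m / 2 : ℕ) : ℤ) ≤ Dp s ∧ (m : ℤ) ≤ 4 * s ∧ 38 ≤ s ∧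
    (m : ℤ) + s - 1 ≤ 2 * (alp s + 1) ∧ (m : ℤ) + s - 1 ≤ 2 * aN m s ∧ hvy m ≤ 3 := by
  have h1 : hvy m ≤ 3 := by
    unfold hvy
    split_ifs <;> norm_num
  have h2 : (m : ℤ) + s - 1 ≤ 2 * aN m s := by
    unfold R2 at h
    unfold aN
    split_ifs <;> omega
  have h3 : (m : ℤ) - s - 1 ≤ Dp s ∧ ((m / 2 : ℕ) : ℤ) ≤ Dp s ∧ (m : ℤ) ≤ 4 * s ∧ 38 ≤ s ∧
      (m : ℤ) + s - 1 ≤ 2 * (alp s + 1) := by
    unfold R2 at h
    unfold Dp alp
    split_ifs <;> omega
  exact ⟨h3.1, h3.2.1, h3.2.2.1, h3.2.2.2.1, h3.2.2.2.2, h2, h1⟩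

theorem dk_lp [NeZero m] {c : V → V → ZMod m} {s : ℕ} (h : HS c s) {u v : V} (hl : Lp c u v) :
    (DK c u v : ℤ) ≤ Dp s := by
  have h1 : DK c u v ≤ Df c u v := dk_le_df c u v
  obtain ⟨h2, -⟩ := r2_facts h.rng
  rcases lp_cl h hl with h3 | ⟨a, -, h3⟩
  · omega
  · have h4 := class_le h hl a
    have h5 := class_le h (lp_symm h hl) a
    unfold Dp
    omega

theorem dk_le_n [NeZero m] {c : V → V → ZMod m} {s : ℕ} (h : HS c s) {u v : V} (huv : u ≠ v) :
    (DK c u v : ℤ) ≤ m + s - 2 := by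
  have h1 := O2.ddK_le c (K6 m) huv
  rw [h.card] at h1
  unfold DK
  omega

private theorem sum_ite_card {s : Finset V} (p : V → Prop) [DecidablePred p] (a : ℤ) :
    ∑ v ∈ s, (if p v then a else 0) = (s.filter p).card * a := by
  rw [← Finset.sum_filter, Finset.sum_const, nsmul_eq_mul]

private theorem dk_half {c : V → V → ZMod m} {u v : V} (h : ¬ m < 2 * DK c u v) :
    (DK c u v : ℤ) ≤ ((m / 2 : ℕ) : ℤ) := by
  omega

theorem sum_bad [NeZero m] {c : V → V → ZMod m} {s : ℕ} (h : HS c s) {u : V} (hu : ¬ Good3 c u) :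
    ∑ v ∈ univ.erase u, (DK c u v : ℤ) ≤ SN m s := by
  classical
  obtain ⟨f1, f2, f3, f4, -, -, f7⟩ := r2_facts h.rng
  obtain ⟨g1, g2, -⟩ := few h hu
  have hn0 : ((m / 2 : ℕ) : ℤ) ≤ m + s - 2 := by omega
  have hterm : ∀ v ∈ univ.erase u, (DK c u v : ℤ) ≤ ((m / 2 : ℕ) : ℤ) +
      (if Lp c u v then Dp s - ((m / 2 : ℕ) : ℤ) else 0) +
      (if m < 2 * DK c u v ∧ ¬ Lp c u v then (m : ℤ) + s - 2 - ((m / 2 : ℕ) : ℤ) else 0) := by
    intro v hv
    by_cases hl : Lp c u v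
    · have h1 := dk_lp h hl
      rw [if_pos hl, if_neg (fun hh => hh.2 hl)]
      linarith
    · rw [if_neg hl]
      by_cases hm : m < 2 * DK c u v
      · have h1 := dk_le_n h (Finset.ne_of_mem_erase hv).symm
        rw [if_pos ⟨hm, hl⟩]
        linarith
      · rw [if_neg (fun hh => hm hh.1)]
        have h1 := dk_half hm
        linarith
  have hsum := Finset.sum_le_sum hterm
  rw [Finset.sum_add_distrib, Finset.sum_add_distrib, sum_ite_card (fun v => Lp c u v),
    sum_ite_card (fun v => m < 2 * DK c u v ∧ ¬ Lp c u v),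
    Finset.sum_const, Finset.card_erase_of_mem (Finset.mem_univ u), Finset.card_univ, h.card,
    nsmul_eq_mul] at hsum
  have hc : ((m + s - 1 : ℕ) : ℤ) = m + s - 1 := by omega
  rw [hc] at hsum
  have k1 : ((((univ.erase u).filter (fun v => Lp c u v)).card : ℤ)) *
      (Dp s - ((m / 2 : ℕ) : ℤ)) ≤ 2 * (Dp s - ((m / 2 : ℕ) : ℤ)) := by
    apply mul_le_mul_of_nonneg_right
    · exact_mod_cast g1
    · linarith
  have k2 : ((((univ.erase u).filter (fun v => m < 2 * DK c u v ∧ ¬ Lp c u v)).card : ℤ)) *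
      ((m : ℤ) + s - 2 - ((m / 2 : ℕ) : ℤ)) ≤ (hvy m : ℤ) * ((m : ℤ) + s - 2 - ((m / 2 : ℕ) : ℤ)) := by
    apply mul_le_mul_of_nonneg_right
    · exact_mod_cast g2
    · linarith
  unfold SN
  have k3 : ((m / 2 : ℕ) : ℤ) * (m + s - 1 - (2 + hvy m)) + hvy m * (m + s - 2) + 2 * Dp s =
      ((m : ℤ) + s - 1) * ((m / 2 : ℕ) : ℤ) + 2 * (Dp s - ((m / 2 : ℕ) : ℤ)) +
        (hvy m : ℤ) * ((m : ℤ) + s - 2 - ((m / 2 : ℕ) : ℤ)) := by
    ring
  rw [k3]
  linarith

open Classical in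
private theorem sum_good [NeZero m] {c : V → V → ZMod m} {s : ℕ} (h : HS c s) {u : V}
    (hu : Good3 c u) (l q : ℤ)
    (hl : l = (univ.filter (fun z => Good3 c z)).card) (hq : q = (univ.filter (fun z => ¬ Good3 c z)).card) :
    ∑ v ∈ univ.erase u, (DK c u v : ℤ) ≤ (l - 1) * Dp s + q * ((m / 2 : ℕ) : ℤ) +
      (Dp s - ((m / 2 : ℕ) : ℤ)) *
        ((univ.filter (fun z => ¬ Good3 c z)).filter (fun v => Lp c u v)).card +
      hvy m * (m + s - 2) := by
  obtain ⟨f1, f2, f3, f4, -, -, f7⟩ := r2_facts h.rng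
  have g2 := heavyK_le h u
  have hn0 : (0 : ℤ) ≤ m + s - 2 := by omega
  have hf0 : (0 : ℤ) ≤ ((m / 2 : ℕ) : ℤ) := by omega
  have hterm : ∀ v ∈ univ.erase u, (DK c u v : ℤ) ≤
      (if Good3 c v then Dp s else 0) + (if ¬ Good3 c v then ((m / 2 : ℕ) : ℤ) else 0) +
      (if ¬ Good3 c v ∧ Lp c u v then Dp s - ((m / 2 : ℕ) : ℤ) else 0) +
      (if m < 2 * DK c u v ∧ ¬ Lp c u v then (m : ℤ) + s - 2 else 0) := by
    intro v hv
    by_cases hg : Good3 c v
    · rw [if_pos hg, if_neg (not_not.2 hg), if_neg (fun hh => hh.1 hg)]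
      by_cases hl : Lp c u v
      · have h1 := dk_lp h hl
        rw [if_neg (fun hh => hh.2 hl)]
        linarith
      · by_cases hm : m < 2 * DK c u v
        · have h1 := dk_le_n h (Finset.ne_of_mem_erase hv).symm
          rw [if_pos ⟨hm, hl⟩]
          linarith
        · rw [if_neg (fun hh => hm hh.1)]
          have h1 := dk_half hm
          linarith
    · rw [if_neg hg, if_pos hg]
      by_cases hl : Lp c u v
      · have h1 := dk_lp h hl
        rw [if_pos ⟨hg, hl⟩, if_neg (fun hh => hh.2 hl)]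
        linarith
      · rw [if_neg (fun hh => hl hh.2)]
        by_cases hm : m < 2 * DK c u v
        · have h1 := dk_le_n h (Finset.ne_of_mem_erase hv).symm
          rw [if_pos ⟨hm, hl⟩]
          linarith
        · rw [if_neg (fun hh => hm hh.1)]
          have h1 := dk_half hm
          linarith
  have hsum := Finset.sum_le_sum hterm
  rw [Finset.sum_add_distrib, Finset.sum_add_distrib, Finset.sum_add_distrib,
    sum_ite_card (fun v => Good3 c v), sum_ite_card (fun v => ¬ Good3 c v),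
    sum_ite_card (fun v => ¬ Good3 c v ∧ Lp c u v),
    sum_ite_card (fun v => m < 2 * DK c u v ∧ ¬ Lp c u v)] at hsum
  have c1 : (((univ.erase u).filter (fun v => Good3 c v)).card : ℤ) = l - 1 := by
    have h1 : (univ.erase u).filter (fun v => Good3 c v) =
        (univ.filter (fun z => Good3 c z)).erase u := Finset.filter_erase _ _ _
    have h2 : u ∈ univ.filter (fun z => Good3 c z) := Finset.mem_filter.2 ⟨Finset.mem_univ u, hu⟩
    have h3 := Finset.card_erase_add_one h2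
    rw [h1]
    omega
  have c2 : (((univ.erase u).filter (fun v => ¬ Good3 c v)).card : ℤ) = q := by
    rw [hq]
    congr 2
    ext v
    rw [Finset.mem_filter, Finset.mem_filter, Finset.mem_erase]
    constructor
    · rintro ⟨-, h1⟩
      exact ⟨Finset.mem_univ v, h1⟩
    · rintro ⟨-, h1⟩
      refine ⟨⟨?_, Finset.mem_univ v⟩, h1⟩
      rintro rfl
      exact h1 hu
  have c3 : (((univ.erase u).filter (fun v => ¬ Good3 c v ∧ Lp c u v)).card : ℤ) ≤
      ((univ.filter (fun z => ¬ Good3 c z)).filter (fun v => Lp c u v)).card := by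
    have h1 : (univ.erase u).filter (fun v => ¬ Good3 c v ∧ Lp c u v) ⊆
        (univ.filter (fun z => ¬ Good3 c z)).filter (fun v => Lp c u v) := by
      intro v hv
      rw [Finset.mem_filter] at hv
      rw [Finset.mem_filter, Finset.mem_filter]
      exact ⟨⟨Finset.mem_univ v, hv.2.1⟩, hv.2.2⟩
    exact_mod_cast Finset.card_le_card h1
  have c4 : (((univ.erase u).filter (fun v => m < 2 * DK c u v ∧ ¬ Lp c u v)).card : ℤ) ≤
      hvy m := by
    exact_mod_cast g2
  rw [c1, c2] at hsum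
  have k3 := mul_le_mul_of_nonneg_right c3 (sub_nonneg.2 f2)
  have k4 := mul_le_mul_of_nonneg_right c4 hn0
  linarith

open Classical in
theorem sum_all [NeZero m] {c : V → V → ZMod m} {s : ℕ} (h : HS c s) (l q : ℤ)
    (hl : l = (univ.filter (fun z => Good3 c z)).card) (hq : q = (univ.filter (fun z => ¬ Good3 c z)).card) :
    ∑ u, ∑ v ∈ univ.erase u, (DK c u v : ℤ) ≤ q * SN m s + l * (l - 1) * Dp s + l * q * ((m / 2 : ℕ) : ℤ) +
      2 * q * (Dp s - ((m / 2 : ℕ) : ℤ)) + l * (hvy m * (m + s - 2)) := by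
  obtain ⟨f1, f2, f3, f4, -, -, f7⟩ := r2_facts h.rng
  rw [← Finset.sum_filter_add_sum_filter_not univ (fun z => Good3 c z)]
  have hbad : ∑ u ∈ univ.filter (fun z => ¬ Good3 c z), ∑ v ∈ univ.erase u, (DK c u v : ℤ) ≤
      q * SN m s := by
    have h1 := Finset.sum_le_sum (s := univ.filter (fun z => ¬ Good3 c z))
      (f := fun u => ∑ v ∈ univ.erase u, (DK c u v : ℤ)) (g := fun _ => SN m s)
      (fun u hu => sum_bad h (Finset.mem_filter.1 hu).2)
    rwa [Finset.sum_const, nsmul_eq_mul, ← hq] at h1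
  have hdc : ∑ u ∈ univ.filter (fun z => Good3 c z),
      (((univ.filter (fun z => ¬ Good3 c z)).filter (fun v => Lp c u v)).card : ℤ) ≤ 2 * q := by
    have h1 : ∑ u ∈ univ.filter (fun z => Good3 c z),
        ((univ.filter (fun z => ¬ Good3 c z)).filter (fun v => Lp c u v)).card =
        ∑ v ∈ univ.filter (fun z => ¬ Good3 c z),
          ((univ.filter (fun z => Good3 c z)).filter (fun u => Lp c u v)).card := by
      simp only [Finset.card_filter]
      exact Finset.sum_comm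
    have h2 : ∀ v ∈ univ.filter (fun z => ¬ Good3 c z),
        ((univ.filter (fun z => Good3 c z)).filter (fun u => Lp c u v)).card ≤ 2 := by
      intro v hv
      have h3 := (Finset.mem_filter.1 hv).2
      refine le_trans (Finset.card_le_card ?_) (few h h3).1
      intro u hu
      rw [Finset.mem_filter, Finset.mem_filter] at hu
      rw [Finset.mem_filter, Finset.mem_erase]
      refine ⟨⟨?_, Finset.mem_univ u⟩, lp_symm h hu.2⟩
      rintro rfl
      exact h3 hu.1.2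
    have h4 := Finset.sum_le_sum h2
    rw [← h1, Finset.sum_const, smul_eq_mul] at h4
    have h5 : (((univ.filter (fun z => ¬ Good3 c z)).card * 2 : ℕ) : ℤ) = 2 * q := by
      rw [hq]
      push_cast
      ring
    rw [← h5]
    exact_mod_cast h4
  have hgood : ∑ u ∈ univ.filter (fun z => Good3 c z), ∑ v ∈ univ.erase u, (DK c u v : ℤ) ≤
      l * ((l - 1) * Dp s + q * ((m / 2 : ℕ) : ℤ)) + (Dp s - ((m / 2 : ℕ) : ℤ)) * (2 * q) +
        l * (hvy m * (m + s - 2)) := by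
    have h1 := Finset.sum_le_sum (s := univ.filter (fun z => Good3 c z))
      (f := fun u => ∑ v ∈ univ.erase u, (DK c u v : ℤ))
      (fun u hu => sum_good h (Finset.mem_filter.1 hu).2 l q hl hq)
    rw [Finset.sum_add_distrib, Finset.sum_add_distrib, Finset.sum_const, Finset.sum_const,
      ← Finset.mul_sum, nsmul_eq_mul, nsmul_eq_mul, ← hl] at h1
    have h2 := mul_le_mul_of_nonneg_left hdc (sub_nonneg.2 f2)
    linarith
  linarith [hbad, hgood]

end H
end ZS44129
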