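import Mathlib
import Pool.Agent.Work.MP_44129c_co.H.S1

/-!
# MP_44129c_co/H, S3 (size M): lower bounds of the sums

`n = m + s - 1 = |V| - 1`.  `G.cls c z (K6 m) r` = the `x ≠ z` with `c z x - r ∈ K6`, i.e. `6 c z x = 6 r`.
PROOF of `cls_good`: `k6_cls` (the sets are equal).
PROOF of `low_one` (`u` bad).  `O2.sum_ddK` with `K = K6 m`: `∑_{v ≠ u} DK u v = n² - ∑_{z ≠ u} |cls c z K6 (c z u)|`; the `l` good vertices `z` (all `≠ u`) have classes `≤ alp s + 1`, the `q - 1` bad `z ≠ u` have classes `≤ aN m s` (`cls_bad`),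
and `n = l + (q - 1)`.
PROOF of `n2_le` (all classes of `z` at most `A`, `n ≤ 2 A`, `A ≤ n`).  `G.n2_bound`: either a class with `a` elements, `2 a ≥ n`, `N2 ≤ a² + (n - a)²`, and `a (n - a) ≥ A (n - A)` because `n / 2 ≤ a ≤ A`; or `2 N2 ≤ n (n - 1)`, and
`4 A (n - A) ≤ n²` gives `n² - 2 A (n - A) ≥ n² / 2`.
PROOF of `low_all`.  `G.glob` with `K = K6 m`: `∑_u ∑_v DK = ∑_z (n² - N2 z)`, and `n² - N2 z ≥ 2 A (n - A)` with `A = alp s + 1` for the good `z` and `A = aN m s` for the bad ones.  (`|V| = n + 1`, number of good `z` is `l`, of bad `z` is `q`.)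
`hA1`, `hA2`: `alp s + 1 ≤ n`, `aN m s ≤ n` (from `R2`; prove it here: `aN ≤ (5 m - 3 s + 48) / 5 ≤ m + s - 1` or the five cases).
-/

set_option autoImplicit false

namespace ZS44129
namespace H

open Finset E N

variable {V : Type} [Fintype V] [DecidableEq V] {m : ℕ}

private theorem s3_num {m s : ℕ} (h : R2 m s) : 1 ≤ m + s ∧ m + s - 1 ≤ 2 * (alp s + 1) ∧
    alp s + 1 ≤ m + s - 1 ∧ m + s - 1 ≤ 2 * aN m s ∧ aN m s ≤ m + s - 1 := by
  unfold R2 at h
  unfold alp aN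
  rcases h with ⟨rfl, rfl⟩ | ⟨rfl, rfl⟩ | ⟨rfl, rfl⟩ | ⟨rfl, rfl⟩ | ⟨rfl, rfl⟩ | ⟨h1, h2, h3⟩
  · norm_num
  · norm_num
  · norm_num
  · norm_num
  · norm_num
  · rw [if_neg (by omega), if_neg (by omega), if_neg (by omega), if_neg (by omega),
      if_neg (by omega)]
    omega

theorem cls_good [NeZero m] {c : V → V → ZMod m} {s : ℕ} (h : HS c s) {u : V} (hu : Good3 c u) (r : ZMod m) :
    (G.cls c u (K6 m) r).card ≤ alp s + 1 := by
  have h1 : G.cls c u (K6 m) r = (univ.erase u).filter (fun x => 6 * c u x = 6 * r) := by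
    ext x
    rw [G.mem_cls, Finset.mem_filter, Finset.mem_erase, mem_K6, mul_sub, sub_eq_zero]
    constructor
    · rintro ⟨h2, h3⟩
      exact ⟨⟨h2, Finset.mem_univ x⟩, h3⟩
    · rintro ⟨⟨h2, -⟩, h3⟩
      exact ⟨h2, h3⟩
  rw [h1]
  exact k6_cls h hu r

open Classical in
theorem low_one [NeZero m] {c : V → V → ZMod m} {s : ℕ} (h : HS c s) {u : V} (hu : ¬ Good3 c u) (l q : ℤ)
    (hl : l = (univ.filter (fun z => Good3 c z)).card) (hq : q = (univ.filter (fun z => ¬ Good3 c z)).card) :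
    l * (m + s - 1 - (alp s + 1)) + (q - 1) * (m + s - 1 - aN m s) ≤ ∑ v ∈ univ.erase u, (DK c u v : ℤ) := by
  obtain ⟨hms, -, -, -, -⟩ := s3_num h.rng
  have h0 := O2.sum_ddK c h.sym (K6 m) u
  have hcN : Fintype.card V - 1 = m + s - 1 := by rw [h.card]
  have hn : (((m + s - 1 : ℕ)) : ℤ) = m + s - 1 := by omega
  have h1 : (∑ v ∈ univ.erase u, (DK c u v : ℤ)) +
      ∑ z ∈ univ.erase u, ((G.cls c z (K6 m) (c z u)).card : ℤ) =
        ((m : ℤ) + s - 1) * (m + s - 1) := by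
    rw [hcN] at h0
    rw [← hn]
    exact_mod_cast h0
  have hE : (univ.erase u).card = m + s - 1 := by
    rw [Finset.card_erase_of_mem (Finset.mem_univ u), Finset.card_univ, hcN]
  have h2 : ∑ z ∈ univ.erase u, ((m : ℤ) + s - 1) = ((m : ℤ) + s - 1) * (m + s - 1) := by
    rw [Finset.sum_const, hE, nsmul_eq_mul, hn]
  have h3 : ∑ z ∈ univ.erase u, (if Good3 c z then ((m : ℤ) + s - 1 - (alp s + 1)) else
      ((m : ℤ) + s - 1 - aN m s)) ≤
      ∑ z ∈ univ.erase u, ((m : ℤ) + s - 1 - (G.cls c z (K6 m) (c z u)).card) := by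
    refine Finset.sum_le_sum fun z _ => ?_
    by_cases hz : Good3 c z
    · rw [if_pos hz]
      have h4 := cls_good h hz (c z u)
      have h5 : ((G.cls c z (K6 m) (c z u)).card : ℤ) ≤ alp s + 1 := by exact_mod_cast h4
      linarith
    · rw [if_neg hz]
      have h4 := cls_bad h hz (c z u)
      have h5 : ((G.cls c z (K6 m) (c z u)).card : ℤ) ≤ aN m s := by exact_mod_cast h4
      linarith
  rw [Finset.sum_sub_distrib, h2] at h3
  have h6 : (univ.erase u).filter (fun z => Good3 c z) = univ.filter (fun z => Good3 c z) := by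
    ext z
    simp only [Finset.mem_filter, Finset.mem_erase, Finset.mem_univ, and_true, true_and]
    constructor
    · exact fun h7 => h7.2
    · intro h7
      refine ⟨fun h8 => hu ?_, h7⟩
      rw [← h8]
      exact h7
  have h7 : (univ.erase u).filter (fun z => ¬ Good3 c z) =
      (univ.filter (fun z => ¬ Good3 c z)).erase u := by
    ext z
    simp only [Finset.mem_filter, Finset.mem_erase, Finset.mem_univ, and_true, true_and]
  have h8 : u ∈ univ.filter (fun z => ¬ Good3 c z) :=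
    Finset.mem_filter.2 ⟨Finset.mem_univ u, hu⟩
  have h9 : ((((univ.filter (fun z => ¬ Good3 c z)).erase u).card : ℕ) : ℤ) = q - 1 := by
    rw [Finset.card_erase_of_mem h8, hq]
    have h10 := Finset.card_pos.2 ⟨u, h8⟩
    omega
  rw [Finset.sum_ite, Finset.sum_const, Finset.sum_const, h6, h7, nsmul_eq_mul, nsmul_eq_mul,
    h9, ← hl] at h3
  linarith

theorem n2_le (c : V → V → ZMod m) (K : AddSubgroup (ZMod m)) (z : V) {A : ℕ}
    (hA : ∀ r, (G.cls c z K r).card ≤ A) (h1 : Fintype.card V - 1 ≤ 2 * A) (h2 : A ≤ Fintype.card V - 1) :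
    (G.N2 c K z : ℤ) + 2 * A * (((Fintype.card V - 1 : ℕ) : ℤ) - A) ≤ ((Fintype.card V - 1 : ℕ) : ℤ) ^ 2 := by
  have h1' : ((Fintype.card V - 1 : ℕ) : ℤ) ≤ 2 * (A : ℤ) := by exact_mod_cast h1
  have h2' : (A : ℤ) ≤ ((Fintype.card V - 1 : ℕ) : ℤ) := by exact_mod_cast h2
  rcases G.n2_bound c K z with ⟨r, hr1, hr2⟩ | hr
  · have ha := hA r
    obtain ⟨a, hadef⟩ : ∃ a : ℕ, a = (G.cls c z K r).card := ⟨_, rfl⟩
    rw [← hadef] at hr1 hr2 ha
    obtain ⟨n, hndef⟩ : ∃ n : ℕ, n = Fintype.card V - 1 := ⟨_, rfl⟩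
    rw [← hndef] at hr1 hr2 h1' h2' h2 ⊢
    have han : a ≤ n := ha.trans h2
    have h3 : ((n - a : ℕ) : ℤ) = n - a := by omega
    have h4 : (G.N2 c K z : ℤ) ≤ (a : ℤ) ^ 2 + ((n : ℤ) - a) ^ 2 := by
      rw [← h3]
      exact_mod_cast hr2
    have h5 : (n : ℤ) ≤ 2 * a := by exact_mod_cast hr1
    have h6 : (a : ℤ) ≤ A := by exact_mod_cast ha
    nlinarith [mul_nonneg (sub_nonneg.2 h6) (by linarith : (0 : ℤ) ≤ (A : ℤ) + a - n)]
  · obtain ⟨n, hndef⟩ : ∃ n : ℕ, n = Fintype.card V - 1 := ⟨_, rfl⟩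
    have h3 : Fintype.card V - 2 ≤ n := by omega
    rw [← hndef] at hr h1' h2' ⊢
    have h4 : 2 * G.N2 c K z ≤ n * n := hr.trans (Nat.mul_le_mul_left n h3)
    have h5 : 2 * (G.N2 c K z : ℤ) ≤ (n : ℤ) * n := by exact_mod_cast h4
    nlinarith [sq_nonneg ((n : ℤ) - 2 * A)]

open Classical in
theorem low_all [NeZero m] {c : V → V → ZMod m} {s : ℕ} (h : HS c s) (l q : ℤ)
    (hl : l = (univ.filter (fun z => Good3 c z)).card) (hq : q = (univ.filter (fun z => ¬ Good3 c z)).card) :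
    l * (2 * (alp s + 1) * (m + s - 1 - (alp s + 1))) + q * (2 * aN m s * (m + s - 1 - aN m s)) ≤
      ∑ u, ∑ v ∈ univ.erase u, (DK c u v : ℤ) := by
  obtain ⟨hms, hn1, hn2, hn3, hn4⟩ := s3_num h.rng
  have h0 := G.glob c h.sym (K6 m)
  have hcN : Fintype.card V - 1 = m + s - 1 := by rw [h.card]
  have hn : (((m + s - 1 : ℕ)) : ℤ) = m + s - 1 := by omega
  have h1 : (∑ u, ∑ v ∈ univ.erase u, (DK c u v : ℤ)) + ∑ z, (G.N2 c (K6 m) z : ℤ) =
      (Fintype.card V : ℤ) * ((m : ℤ) + s - 1) ^ 2 := by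
    rw [hcN] at h0
    rw [← hn]
    exact_mod_cast h0
  have h2 : ∑ z : V, ((m : ℤ) + s - 1) ^ 2 = (Fintype.card V : ℤ) * ((m : ℤ) + s - 1) ^ 2 := by
    rw [Finset.sum_const, Finset.card_univ, nsmul_eq_mul]
  have h3 : ∑ z, (if Good3 c z then (2 * ((alp s : ℤ) + 1) * (m + s - 1 - (alp s + 1))) else
      (2 * (aN m s : ℤ) * (m + s - 1 - aN m s))) ≤
      ∑ z, (((m : ℤ) + s - 1) ^ 2 - (G.N2 c (K6 m) z : ℤ)) := by
    refine Finset.sum_le_sum fun z _ => ?_
    by_cases hz : Good3 c z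
    · rw [if_pos hz]
      have h4 := n2_le c (K6 m) z (A := alp s + 1) (fun r => cls_good h hz r)
        (by rw [hcN]; exact hn1) (by rw [hcN]; exact hn2)
      rw [hcN, hn] at h4
      push_cast at h4
      linarith
    · rw [if_neg hz]
      have h4 := n2_le c (K6 m) z (A := aN m s) (fun r => cls_bad h hz r)
        (by rw [hcN]; exact hn3) (by rw [hcN]; exact hn4)
      rw [hcN, hn] at h4
      linarith
  rw [Finset.sum_sub_distrib, h2, Finset.sum_ite, Finset.sum_const, Finset.sum_const,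
    nsmul_eq_mul, nsmul_eq_mul, ← hl, ← hq] at h3
  linarith

end H
end ZS44129
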