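import Mathlib
import Pool.Agent.Work.MP_44129c_co.H.S0

/-!
# MP_44129c_co/H, S4 (size M): the numerical contradiction of block S

`n = m + s - 1`, `N = m + s = l + q`, `f = m / 2` (rounded down).
THE FIVE SMALL CASES (`alp = 89, 98, 107, 107, 107`; `aN = 99, 109, 119, 118, 118`; `hvy = 2, 2, 2, 1, 0`; `Dp = 102, 112, 122, 122, 122`; `f = 58, 64, 70, 71, 71`).  Substitute `q = N - l`.  `h4` is linear and gives `l ≤ 82, 81, 81, 59, 29`.
`h5` says `F(l) ≤ 0` for a quadratic polynomial `F` which is concave (leading coefficient `f - Dp < 0`) and positive at `0` (`246760, 344736, 465256, 505344, 560952`) and at the bound (`11092, 100440, 206866, 384689, 547496`):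
contradiction (`nlinarith [mul_nonneg hl (bound - l ≥ 0)]`, or `interval_cases l`).
THE CASE `80 ≤ s`.  Work over `ℚ` (or `ℝ`).  `t = m - 3 s - 1`, `2 ≤ t`, `19 t ≤ s`.  `a = alp s + 1`, `(7 s + 1) / 3 ≤ a ≤ 7 s / 3 + 1`; `A = aN m s`, `12 s + 5 t + 49 ≤ 5 A ≤ 12 s + 5 t + 53`; `D = Dp s = 2 a - 2 - 2 s ≤ 8 s / 3`; `2 f ≤ m`; `hvy ≤ 3`.
(i) `SN ≤ S := 6 s² + 7 s t / 2 + 71 s / 6 + t² / 2 + t - 11 / 2` (put `hvy = 3`, `2 f = m`, `D = 8 s / 3`; `SN` is increasing in each: `n - 1 ≥ f`).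
(ii) if `l ≥ 2 s`: `h4`'s left side is `l (n - a) + (n - l)(n - A) ≥ 2 s (n - a) + (n - 2 s)(n - A)` (`A ≥ a`), `n - a ≥ 5 s / 3 + t - 1`, `n - A ≥ 8 s / 5 - 53 / 5`, so it is `≥ (98/15) s² + (18/5) s t - (116/5) s - (53/5) t`, and this minus `S` is
`(8/15) s² + s t / 10 - (1051/30) s - (58/5) t - t² / 2 + 11/2 > 0`: contradiction to `h4`.
(iii) if `l ≤ 2 s` (`l ≥ 0`): `2 a (n - a) ≥ 2 (7 s / 3 + 1)(5 s / 3 + t - 1)` and `2 A (n - A) ≥ (2/25)(12 s + 5 t + 53)(8 s - 53)` (both `x (n - x)` are decreasing for `x ≥ n / 2`), and the right side of `h5` is at most the same expression with `SN, D, f, hvy` replaced by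
`S, 8 s / 3, m / 2, 3` (all coefficients are `≥ 0`; for `f`: `q (n - 5) + l q - 2 q ≥ 0`).  So `G(l) ≤ 0` where `G(l) = l g1 + q g2 - (q S + l (l - 1) D + l q f + 2 q (D - f) + 3 l (n - 1))` with `q = N - l` and `D = 8 s / 3`, `f = m / 2`, `g1, g2` the two bounds.
But `2 s G(l) = (2 s - l) G(0) + l G(2 s) + 2 s (D - f) l (2 s - l)` and `G(0) > 0`, `G(2 s) > 0` (`G(0) ≥ 4.9 s³`, `G(2 s) ≥ 1.1 s³` for all `s ≥ 80`, `2 ≤ t ≤ s / 19`; polynomial inequalities): contradiction.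
-/

set_option autoImplicit false

namespace ZS44129
namespace H

private theorem s4_g0 {s t : ℚ} (hs : 80 ≤ s) (ht : 2 ≤ t) (hts : 19 * t ≤ s) :
    0 < (2 / 25) * (12 * s + 5 * t + 53) * (8 * s - 53)
      - (6 * s ^ 2 + 7 * s * t / 2 + 71 * s / 6 + t ^ 2 / 2 + t - 11 / 2)
      - 2 * (8 * s / 3 - (3 * s + 1 + t) / 2) := by
  have h1 : 0 ≤ (s - 80) * s := mul_nonneg (by linarith) (by linarith)
  have h2 : 0 ≤ (s - 19 * t) * s := mul_nonneg (by linarith) (by linarith)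
  have h3 : 0 ≤ (s - 19 * t) * t := mul_nonneg (by linarith) (by linarith)
  linarith [h1, h2, h3]

private theorem s4_g2 {s t : ℚ} (hs : 80 ≤ s) (ht : 2 ≤ t) (hts : 19 * t ≤ s) :
    0 < (2 * s) * (2 * (7 * s / 3 + 1) * (5 * s / 3 + t - 1))
      + (2 * s + t + 1) * ((2 / 25) * (12 * s + 5 * t + 53) * (8 * s - 53))
      - ((2 * s + t + 1) * (6 * s ^ 2 + 7 * s * t / 2 + 71 * s / 6 + t ^ 2 / 2 + t - 11 / 2)
        + (2 * s) * (2 * s - 1) * (8 * s / 3) + (2 * s) * (2 * s + t + 1) * ((3 * s + 1 + t) / 2)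
        + 2 * (2 * s + t + 1) * (8 * s / 3 - (3 * s + 1 + t) / 2)
        + 3 * (2 * s) * (4 * s + t - 1)) := by
  have hs0 : 0 ≤ s := by linarith
  have ht0 : 0 ≤ t := by linarith
  have h1 : 0 ≤ (s - 80) * s := mul_nonneg (by linarith) (by linarith)
  have h2 : 0 ≤ (s - 19 * t) * s := mul_nonneg (by linarith) (by linarith)
  have h3 : 0 ≤ (s - 19 * t) * t := mul_nonneg (by linarith) (by linarith)
  have h4 : 0 ≤ (s - 80) * s * s := mul_nonneg h1 hs0
  have h5 : 0 ≤ (s - 19 * t) * s * s := mul_nonneg h2 hs0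
  have h6 : 0 ≤ (s - 19 * t) * t * s := mul_nonneg h3 hs0
  have h7 : 0 ≤ (s - 19 * t) * t * t := mul_nonneg h3 ht0
  have h8 : 0 ≤ (s - 80) * s * t := mul_nonneg h1 ht0
  have h9 : 0 ≤ s * s * t := mul_nonneg (mul_nonneg hs0 hs0) ht0
  have h10 : 0 ≤ s * t := mul_nonneg hs0 ht0
  have h11 : 0 ≤ s * t * t := mul_nonneg h10 ht0
  linarith [h1, h2, h3, h4, h5, h6, h7, h8, h9, h10, h11]

private theorem s4_big {s t a A D f v l q SN : ℚ} (hs : 80 ≤ s) (ht : 2 ≤ t) (hts : 19 * t ≤ s)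
    (ha1 : 7 * s + 1 ≤ 3 * a) (ha2 : 3 * a ≤ 7 * s + 3) (hA1 : 12 * s + 5 * t + 49 ≤ 5 * A)
    (hA2 : 5 * A ≤ 12 * s + 5 * t + 53) (hD : D = 2 * a - 2 - 2 * s)
    (hf : 2 * f ≤ 3 * s + 1 + t) (hv : v ≤ 3) (hl : 0 ≤ l) (hq : 1 ≤ q)
    (hl1 : 0 ≤ l * (l - 1))
    (hN : l + q = 4 * s + t + 1)
    (hSN : SN = f * (4 * s + t - (2 + v)) + v * (4 * s + t - 1) + 2 * D)
    (h4 : l * (4 * s + t - a) + (q - 1) * (4 * s + t - A) ≤ SN)
    (h5 : l * (2 * a * (4 * s + t - a)) + q * (2 * A * (4 * s + t - A)) ≤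
      q * SN + l * (l - 1) * D + l * q * f + 2 * q * (D - f) + l * (v * (4 * s + t - 1))) :
    False := by
  have hD' : D ≤ 8 * s / 3 := by linarith
  have e1 : SN ≤ f * (4 * s + t - 5) + 3 * (4 * s + t - 1) + 2 * D := by
    have := mul_nonneg (sub_nonneg.2 hv) (show 0 ≤ 4 * s + t - 1 - f by linarith)
    rw [hSN]
    linarith [this]
  have e2 : f * (4 * s + t - 5) ≤ (3 * s + 1 + t) / 2 * (4 * s + t - 5) :=
    mul_le_mul_of_nonneg_right (by linarith) (by linarith)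
  have hS : SN ≤ 6 * s ^ 2 + 7 * s * t / 2 + 71 * s / 6 + t ^ 2 / 2 + t - 11 / 2 := by
    linarith [e1, e2, hD']
  have hAa : a ≤ A := by linarith
  have hqe : q = 4 * s + t + 1 - l := by linarith
  rcases le_total (2 * s) l with hls | hls
  · -- `l ≥ 2 s`
    have k1 : 0 ≤ (l - 2 * s) * (A - a) := mul_nonneg (by linarith) (by linarith)
    have k2 : (2 * s) * (5 * s / 3 + t - 1) ≤ (2 * s) * (4 * s + t - a) :=
      mul_le_mul_of_nonneg_left (by linarith) (by linarith)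
    have k3 : (2 * s + t) * ((8 * s - 53) / 5) ≤ (2 * s + t) * (4 * s + t - A) :=
      mul_le_mul_of_nonneg_left (by linarith) (by linarith)
    have k4 : (2 * s) * (4 * s + t - a) + (2 * s + t) * (4 * s + t - A) ≤ SN := by
      rw [hqe] at h4
      linarith [h4, k1]
    have g1 : 0 ≤ (s - 80) * s := mul_nonneg (by linarith) (by linarith)
    have g2 : 0 ≤ (s - 19 * t) * s := mul_nonneg (by linarith) (by linarith)
    have g3 : 0 ≤ (s - 19 * t) * t := mul_nonneg (by linarith) (by linarith)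
    have g4 : 0 ≤ s * t := mul_nonneg (by linarith) (by linarith)
    linarith [k2, k3, k4, hS, g1, g2, g3, g4]
  · -- `l ≤ 2 s`
    have k1 : 2 * (7 * s / 3 + 1) * (5 * s / 3 + t - 1) ≤ 2 * a * (4 * s + t - a) := by
      have := mul_nonneg (show 0 ≤ 7 * s / 3 + 1 - a by linarith)
        (show 0 ≤ 7 * s / 3 + 1 + a - (4 * s + t) by linarith)
      linarith [this]
    have k2 : (2 / 25) * (12 * s + 5 * t + 53) * (8 * s - 53) ≤ 2 * A * (4 * s + t - A) := by
      have := mul_nonneg (show 0 ≤ (12 * s + 5 * t + 53) / 5 - A by linarith)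
        (show 0 ≤ (12 * s + 5 * t + 53) / 5 + A - (4 * s + t) by linarith)
      linarith [this]
    have k3 := mul_le_mul_of_nonneg_left k1 hl
    have k4 := mul_le_mul_of_nonneg_left k2 (show 0 ≤ q by linarith)
    -- the right side
    have r1 : q * SN ≤ q * (f * (4 * s + t - 5) + 3 * (4 * s + t - 1) + 2 * D) :=
      mul_le_mul_of_nonneg_left e1 (by linarith)
    have r2 : l * (v * (4 * s + t - 1)) ≤ l * (3 * (4 * s + t - 1)) :=
      mul_le_mul_of_nonneg_left (mul_le_mul_of_nonneg_right hv (by linarith)) hl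
    have r3 : f * (q * (4 * s + t - 5) + l * q - 2 * q) ≤
        (3 * s + 1 + t) / 2 * (q * (4 * s + t - 5) + l * q - 2 * q) := by
      apply mul_le_mul_of_nonneg_right (by linarith)
      have u1 : 0 ≤ q * (4 * s + t - 7) := mul_nonneg (by linarith) (by linarith)
      have u2 : 0 ≤ l * q := mul_nonneg hl (by linarith)
      linarith [u1, u2]
    have r4 : D * (4 * q + l * (l - 1)) ≤ 8 * s / 3 * (4 * q + l * (l - 1)) :=
      mul_le_mul_of_nonneg_right hD' (by linarith)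
    have hR : l * (2 * (7 * s / 3 + 1) * (5 * s / 3 + t - 1))
        + q * ((2 / 25) * (12 * s + 5 * t + 53) * (8 * s - 53)) ≤
        q * (6 * s ^ 2 + 7 * s * t / 2 + 71 * s / 6 + t ^ 2 / 2 + t - 11 / 2)
          + l * (l - 1) * (8 * s / 3) + l * q * ((3 * s + 1 + t) / 2)
          + 2 * q * (8 * s / 3 - (3 * s + 1 + t) / 2) + 3 * l * (4 * s + t - 1) := by
      linarith [h5, k3, k4, r1, r2, r3, r4]
    have g0 := s4_g0 hs ht hts
    have g2 := s4_g2 hs ht hts
    have c0 := mul_nonneg (mul_nonneg (show 0 ≤ 2 * s - l by linarith)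
      (show 0 ≤ 4 * s + t + 1 by linarith)) g0.le
    have c2 := mul_nonneg hl g2.le
    have c3 : 0 ≤ 2 * s * (8 * s / 3 - (3 * s + 1 + t) / 2) * (l * (2 * s - l)) :=
      mul_nonneg (mul_nonneg (by linarith) (by linarith)) (mul_nonneg hl (by linarith))
    have key : 0 < (2 * s - l) * (4 * s + t + 1) * ((2 / 25) * (12 * s + 5 * t + 53) * (8 * s - 53)
        - (6 * s ^ 2 + 7 * s * t / 2 + 71 * s / 6 + t ^ 2 / 2 + t - 11 / 2)
        - 2 * (8 * s / 3 - (3 * s + 1 + t) / 2)) +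
        l * ((2 * s) * (2 * (7 * s / 3 + 1) * (5 * s / 3 + t - 1))
      + (2 * s + t + 1) * ((2 / 25) * (12 * s + 5 * t + 53) * (8 * s - 53))
      - ((2 * s + t + 1) * (6 * s ^ 2 + 7 * s * t / 2 + 71 * s / 6 + t ^ 2 / 2 + t - 11 / 2)
        + (2 * s) * (2 * s - 1) * (8 * s / 3) + (2 * s) * (2 * s + t + 1) * ((3 * s + 1 + t) / 2)
        + 2 * (2 * s + t + 1) * (8 * s / 3 - (3 * s + 1 + t) / 2)
        + 3 * (2 * s) * (4 * s + t - 1))) := by
      rcases eq_or_lt_of_le hl with h0 | h0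
      · have := mul_pos (mul_pos (show 0 < 2 * s - l by linarith)
          (show 0 < 4 * s + t + 1 by linarith)) g0
        linarith
      · have := mul_pos h0 g2
        linarith
    have hR2 := mul_le_mul_of_nonneg_left hR (show 0 ≤ 2 * s by linarith)
    rw [hqe] at hR2
    linarith [key, c3, hR2]

theorem s4_num {m s : ℕ} (h : R2 m s) {l q : ℤ} (hl : 0 ≤ l) (hq : 1 ≤ q) (hN : l + q = m + s)
    (h4 : l * (m + s - 1 - (alp s + 1)) + (q - 1) * (m + s - 1 - aN m s) ≤ SN m s)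
    (h5 : l * (2 * (alp s + 1) * (m + s - 1 - (alp s + 1))) + q * (2 * aN m s * (m + s - 1 - aN m s)) ≤
      q * SN m s + l * (l - 1) * Dp s + l * q * ((m / 2 : ℕ) : ℤ) +
      2 * q * (Dp s - ((m / 2 : ℕ) : ℤ)) + l * (hvy m * (m + s - 2))) : False := by
  rcases h with ⟨rfl, rfl⟩ | ⟨rfl, rfl⟩ | ⟨rfl, rfl⟩ | ⟨rfl, rfl⟩ | ⟨rfl, rfl⟩ | ⟨hs, hm1, hm2⟩
  · have e1 : alp 38 = 89 := by decide
    have e2 : aN 117 38 = 99 := by decide
    have e3 : hvy 117 = 2 := by decide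
    simp only [SN, Dp, e1, e2, e3] at h4 h5
    norm_num at h4 h5 hN
    obtain rfl : q = 155 - l := by linarith
    have hb : l ≤ 82 := by linarith
    linarith [mul_nonneg hl (sub_nonneg.2 hb)]
  · have e1 : alp 42 = 98 := by decide
    have e2 : aN 129 42 = 109 := by decide
    have e3 : hvy 129 = 2 := by decide
    simp only [SN, Dp, e1, e2, e3] at h4 h5
    norm_num at h4 h5 hN
    obtain rfl : q = 171 - l := by linarith
    have hb : l ≤ 81 := by linarith
    linarith [mul_nonneg hl (sub_nonneg.2 hb)]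
  · have e1 : alp 46 = 107 := by decide
    have e2 : aN 141 46 = 119 := by decide
    have e3 : hvy 141 = 2 := by decide
    simp only [SN, Dp, e1, e2, e3] at h4 h5
    norm_num at h4 h5 hN
    obtain rfl : q = 187 - l := by linarith
    have hb : l ≤ 81 := by linarith
    linarith [mul_nonneg hl (sub_nonneg.2 hb)]
  · have e1 : alp 46 = 107 := by decide
    have e2 : aN 142 46 = 118 := by decide
    have e3 : hvy 142 = 1 := by decide
    simp only [SN, Dp, e1, e2, e3] at h4 h5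
    norm_num at h4 h5 hN
    obtain rfl : q = 188 - l := by linarith
    have hb : l ≤ 59 := by linarith
    linarith [mul_nonneg hl (sub_nonneg.2 hb)]
  · have e1 : alp 46 = 107 := by decide
    have e2 : aN 143 46 = 118 := by decide
    have e3 : hvy 143 = 0 := by decide
    simp only [SN, Dp, e1, e2, e3] at h4 h5
    norm_num at h4 h5 hN
    obtain rfl : q = 189 - l := by linarith
    have hb : l ≤ 29 := by linarith
    linarith [mul_nonneg hl (sub_nonneg.2 hb)]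
  · have ea : alp s = 7 * s / 3 := by
      unfold alp
      rw [if_neg (by omega)]
    have eA : aN m s = (5 * m - 3 * s + 48) / 5 := by
      unfold aN
      rw [if_neg (by omega), if_neg (by omega), if_neg (by omega), if_neg (by omega)]
    have ev : hvy m ≤ 3 := by
      unfold hvy
      split_ifs <;> omega
    obtain ⟨t, ht⟩ : ∃ t : ℕ, m = 3 * s + 1 + t := ⟨m - (3 * s + 1), by omega⟩
    have hl1 : 0 ≤ l * (l - 1) := by
      rcases eq_or_lt_of_le hl with h0 | h0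
      · rw [← h0]; norm_num
      · exact mul_nonneg hl (by linarith)
    have n1 : 7 * s + 1 ≤ 3 * (alp s + 1) := by rw [ea]; omega
    have n2 : 3 * (alp s + 1) ≤ 7 * s + 3 := by rw [ea]; omega
    have n3 : 12 * s + 5 * t + 49 ≤ 5 * aN m s := by rw [eA]; omega
    have n4 : 5 * aN m s ≤ 12 * s + 5 * t + 53 := by rw [eA]; omega
    have hSNd : SN m s = ((m / 2 : ℕ) : ℤ) * (m + s - 1 - (2 + hvy m)) + hvy m * (m + s - 2) +
        2 * Dp s := rfl
    obtain ⟨f, hf⟩ : ∃ f : ℕ, f = m / 2 := ⟨_, rfl⟩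
    rw [← hf] at h5 hSNd
    have n5 : 2 * f ≤ 3 * s + 1 + t := by omega
    have q1 : (7 * (s : ℚ) + 1) ≤ 3 * ((alp s : ℚ) + 1) := by exact_mod_cast n1
    have q2 : 3 * ((alp s : ℚ) + 1) ≤ 7 * (s : ℚ) + 3 := by exact_mod_cast n2
    have q3 : 12 * (s : ℚ) + 5 * t + 49 ≤ 5 * (aN m s : ℚ) := by exact_mod_cast n3
    have q4 : 5 * (aN m s : ℚ) ≤ 12 * (s : ℚ) + 5 * t + 53 := by exact_mod_cast n4
    have q5 : 2 * (f : ℚ) ≤ 3 * (s : ℚ) + 1 + t := by exact_mod_cast n5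
    have q6 : (80 : ℚ) ≤ s := by exact_mod_cast hs
    have q7 : (2 : ℚ) ≤ t := by
      have : 2 ≤ t := by omega
      exact_mod_cast this
    have q8 : 19 * (t : ℚ) ≤ s := by
      have : 19 * t ≤ s := by omega
      exact_mod_cast this
    have q9 : (hvy m : ℚ) ≤ 3 := by exact_mod_cast ev
    have qm : (m : ℚ) = 3 * s + 1 + t := by exact_mod_cast ht
    have z4 : (l : ℚ) * (m + s - 1 - (alp s + 1)) + (q - 1) * (m + s - 1 - aN m s) ≤ (SN m s : ℤ) := by
      have h := (Int.cast_le (R := ℚ)).2 h4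
      push_cast at h
      exact h
    have z5 : (l : ℚ) * (2 * (alp s + 1) * (m + s - 1 - (alp s + 1))) +
        q * (2 * aN m s * (m + s - 1 - aN m s)) ≤
        q * (SN m s : ℤ) + l * (l - 1) * (Dp s : ℤ) + l * q * (f : ℚ) +
        2 * q * ((Dp s : ℤ) - (f : ℚ)) + l * (hvy m * (m + s - 2)) := by
      have h := (Int.cast_le (R := ℚ)).2 h5
      push_cast at h
      exact h
    have zN : (l : ℚ) + q = m + s := by exact_mod_cast hN
    have zl : (0 : ℚ) ≤ l := by exact_mod_cast hl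
    have zq : (1 : ℚ) ≤ q := by exact_mod_cast hq
    have zl1 : (0 : ℚ) ≤ (l : ℚ) * (l - 1) := by exact_mod_cast hl1
    have zS : ((SN m s : ℤ) : ℚ) = (f : ℚ) * (4 * s + t - (2 + hvy m)) +
        hvy m * (4 * s + t - 1) + 2 * ((Dp s : ℤ) : ℚ) := by
      have h := congrArg (fun z : ℤ => (z : ℚ)) hSNd
      push_cast at h
      rw [h, qm]
      ring
    have zD : ((Dp s : ℤ) : ℚ) = 2 * ((alp s : ℚ) + 1) - 2 - 2 * s := by
      have : Dp s = 2 * (alp s : ℤ) - 2 * s := rfl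
      rw [this]
      push_cast
      ring
    have v1 : (m : ℚ) + s - 1 = 4 * s + t := by rw [qm]; ring
    have v2 : (m : ℚ) + s - 2 = 4 * s + t - 1 := by rw [qm]; ring
    rw [v1] at z4 z5
    rw [v2] at z5
    exact s4_big q6 q7 q8 q1 q2 q3 q4 zD q5 q9 zl zq zl1
      (by rw [zN, qm]; ring) zS z4 z5

end H
end ZS44129
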