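import Mathlib
import Pool.Agent.Work.MP_44129c_co.H.S2
import Pool.Agent.Work.MP_44129c_co.H.S3
import Pool.Agent.Work.MP_44129c_co.H.S4

/-!
# MP_44129c_co/H, S5 (helper8): every vertex has three lifted pairs (proved from S1-S4)
-/

set_option autoImplicit false

namespace ZS44129
namespace H

open Finset E N

variable {V : Type} [Fintype V] [DecidableEq V] {m : ℕ}

theorem all_good3' [NeZero m] {c : V → V → ZMod m} {s : ℕ} (h : HS c s) (z : V) : Good3 c z := by
  classical
  by_contra hz
  obtain ⟨l, hl⟩ : ∃ l : ℤ, l = (univ.filter (fun z => Good3 c z)).card := ⟨_, rfl⟩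
  obtain ⟨q, hq⟩ : ∃ q : ℤ, q = (univ.filter (fun z => ¬ Good3 c z)).card := ⟨_, rfl⟩
  have hN : l + q = m + s := by
    have h1 := card_filter_add_card_filter_not (s := (univ : Finset V)) (fun z => Good3 c z)
    rw [card_univ, h.card] at h1
    rw [hl, hq]
    exact_mod_cast h1
  have hl0 : 0 ≤ l := by rw [hl]; positivity
  have hq1 : 1 ≤ q := by
    have h1 : 0 < (univ.filter (fun z => ¬ Good3 c z)).card :=
      card_pos.2 ⟨z, mem_filter.2 ⟨mem_univ z, hz⟩⟩
    rw [hq]
    exact_mod_cast h1
  have h1 := low_one h hz l q hl hq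
  have h2 := sum_bad h hz
  have h3 := low_all h l q hl hq
  have h4 := sum_all h l q hl hq
  exact s4_num h.rng hl0 hq1 hN (h1.trans h2) (h3.trans h4)

end H
end ZS44129
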