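import Pool.Agent.Work.MP_44129c_co.H.D1

/-!
# MP_44129c_co/H, U1 (size S-M): two lifts at the ends of a lifted pair, differences of order 2

PROOFS.
`far_mul`: `(k (a - b) : ℤ)` is divisible by `m` (`ZMod.intCast_zmod_eq_zero_iff_dvd`) and not `0` (`a ≠ b`, `1 ≤ k`), so `m ≤ |k (a - b)|`.
`u2_pair`.  `2 (g c z p - β) = 2 (g c z q - β)`; `al p`, `al q` are lifts of `g * c z p - β`, `g * c z q - β` (`hu`; `p, q ≠ z, x`);
`al p ≠ al q` because the colours differ.  `far_mul` (`k = 2`): `m ≤ 2 |al p - al q|`.  `dich` (`lp_nD`).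
* `Cen`: `cost p + cost q ≥ |al p - al q| - 1` (`sub_le_cost`); the positions `≠ p, q` with `al ≠ ga` are at least `nD - 2` and have
  cost `≥ 1`, all costs are `≥ 0`: `nD - 2 + |al p - al q| - 1 + s + 1 ≤ m`; with `2 nD ≥ m + 1` and `2 |..| ≥ m`: `2 s ≤ 3`, false.
* `Non`: `cc p + cc q ≥ |al p - al q|`, the others `≥ bs ≥ 1` if `al ≠ ga`: `nD - 2 + |al p - al q| + 2 ≤ m`, so `2 nD ≤ m`, false.
`cost_sum`, `cc_sum` are the sums used here and in U2, U3 (`P` = the special positions).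
-/

set_option autoImplicit false

namespace ZS44129
namespace H

open Finset E N

variable {V : Type} [Fintype V] [DecidableEq V] {m : ℕ}

private theorem u1_gen (u v : V) (al ga : V → ℤ) (f : V → ℤ) (h0 : ∀ w, 0 ≤ f w)
    (h1 : ∀ w, al w ≠ ga w → 1 ≤ f w) (P : Finset V) (hP : P ⊆ XX u v) :
    (nD u v al ga : ℤ) + ∑ w ∈ P, f w ≤ ∑ w ∈ XX u v, f w + P.card := by
  have e1 : ∑ w ∈ XX u v, f w = ∑ w ∈ XX u v \ P, f w + ∑ w ∈ P, f w :=
    (Finset.sum_sdiff hP).symm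
  have e2 : (((XX u v \ P).filter (fun w => al w ≠ ga w)).card : ℤ) ≤ ∑ w ∈ XX u v \ P, f w := by
    have h2 := Finset.card_nsmul_le_sum ((XX u v \ P).filter (fun w => al w ≠ ga w)) f 1
      (fun w hw => h1 w (Finset.mem_filter.1 hw).2)
    have h3 := Finset.sum_le_sum_of_subset_of_nonneg
      (Finset.filter_subset (fun w => al w ≠ ga w) (XX u v \ P)) (fun w _ _ => h0 w)
    rw [nsmul_eq_mul, mul_one] at h2
    exact h2.trans h3
  have e3 : nD u v al ga ≤ ((XX u v \ P).filter (fun w => al w ≠ ga w)).card + P.card := by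
    unfold nD
    have h2 : (XX u v).filter (fun w => al w ≠ ga w) ⊆
        (XX u v \ P).filter (fun w => al w ≠ ga w) ∪ P := by
      intro w hw
      obtain ⟨h3, h4⟩ := Finset.mem_filter.1 hw
      rw [Finset.mem_union, Finset.mem_filter, Finset.mem_sdiff]
      by_cases h5 : w ∈ P
      · exact Or.inr h5
      · exact Or.inl ⟨⟨h3, h5⟩, h4⟩
    exact (Finset.card_le_card h2).trans (Finset.card_union_le _ _)
  have e4 : (nD u v al ga : ℤ) ≤
      (((XX u v \ P).filter (fun w => al w ≠ ga w)).card : ℤ) + P.card := by exact_mod_cast e3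
  linarith

theorem far_mul {a b : ℤ} {k : ℕ} (hk : 1 ≤ k) (h : (k : ZMod m) * (a : ZMod m) = (k : ZMod m) * (b : ZMod m))
    (hne : a ≠ b) : (m : ℤ) ≤ k * |a - b| := by
  have h1 : ((k * (a - b) : ℤ) : ZMod m) = 0 := by
    push_cast
    rw [mul_sub, h, sub_self]
  have h2 : (m : ℤ) ∣ k * (a - b) := (ZMod.intCast_zmod_eq_zero_iff_dvd _ _).1 h1
  have h3 : (k : ℤ) * (a - b) ≠ 0 :=
    mul_ne_zero (by omega) (sub_ne_zero.2 hne)
  have h4 : (m : ℤ) ∣ |(k : ℤ) * (a - b)| := (dvd_abs _ _).2 h2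
  have h5 := Int.le_of_dvd (abs_pos.2 h3) h4
  rw [abs_mul, Nat.abs_cast] at h5
  exact h5

theorem cost_sum (u v : V) (al ga : V → ℤ) (θ : ℤ) (P : Finset V) (hP : P ⊆ XX u v) :
    (nD u v al ga : ℤ) + ∑ w ∈ P, cost θ (al w) (ga w) ≤ ∑ w ∈ XX u v, cost θ (al w) (ga w) + P.card := by
  exact u1_gen u v al ga (fun w => cost θ (al w) (ga w)) (fun w => cost_nonneg θ _ _)
    (fun w hw => one_le_cost θ hw) P hP

theorem cc_sum (u v : V) (al ga : V → ℤ) (θ : ℤ) (P : Finset V) (hP : P ⊆ XX u v) :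
    (nD u v al ga : ℤ) + ∑ w ∈ P, cc θ (al w) (ga w) ≤ ∑ w ∈ XX u v, cc θ (al w) (ga w) + P.card := by
  exact u1_gen u v al ga (fun w => cc θ (al w) (ga w))
    (fun w => (bs_nonneg θ _ _).trans (bs_le θ _ _))
    (fun w hw => (one_le_bs θ hw).trans (bs_le θ _ _)) P hP

/-- the excess over the base cost. -/
theorem exs_sum (u v : V) (al ga : V → ℤ) (θ : ℤ) (P : Finset V) (hP : P ⊆ XX u v) :
    ∑ w ∈ P, cc θ (al w) (ga w) ≤ ∑ w ∈ XX u v, (cc θ (al w) (ga w) - bs θ (al w) (ga w)) + 2 * P.card := by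
  have h1 : ∑ w ∈ P, (cc θ (al w) (ga w) - bs θ (al w) (ga w)) ≤
      ∑ w ∈ XX u v, (cc θ (al w) (ga w) - bs θ (al w) (ga w)) :=
    Finset.sum_le_sum_of_subset_of_nonneg hP (fun w _ _ => sub_nonneg.2 (bs_le θ _ _))
  have h2 : ∑ w ∈ P, bs θ (al w) (ga w) ≤ 2 * P.card := by
    have h3 := Finset.sum_le_card_nsmul P (fun w => bs θ (al w) (ga w)) 2
      (fun w _ => bs_le_two θ _ _)
    rw [nsmul_eq_mul] at h3
    linarith
  rw [Finset.sum_sub_distrib] at h1
  linarith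

theorem u2_pair [NeZero m] {c : V → V → ZMod m} {s : ℕ} (h : HS c s) {z x p q : V} (hl : Lp c z x)
    (hp : p ∈ XX z x) (hq : q ∈ XX z x) (h2 : 2 * c z p = 2 * c z q) : c z p = c z q := by
  by_contra hne
  have hr := h.rng.facts
  obtain ⟨hD, g, β, z0, al, ga, hP⟩ := hl
  obtain ⟨hs, hm, hD'⟩ := lp_nD h hD hP
  have hdf := df_le_nD hP
  obtain ⟨hp1, hp2⟩ := mem_XX.1 hp
  obtain ⟨hq1, hq2⟩ := mem_XX.1 hq
  have ap := hP.hu p hp1 hp2
  have aq := hP.hu q hq1 hq2
  have hpq : p ≠ q := fun he => hne (by rw [he])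
  have hal : al p ≠ al q := by
    intro he
    rw [he, aq] at ap
    apply hne
    have h3 : (g : ZMod m) * c z q = (g : ZMod m) * c z p := sub_left_injective ap
    exact ((Units.mul_right_inj g).1 h3).symm
  have h3 : ((2 : ℕ) : ZMod m) * (al p : ZMod m) = ((2 : ℕ) : ZMod m) * (al q : ZMod m) := by
    rw [ap, aq]
    push_cast
    linear_combination (g : ZMod m) * h2
  have hfar := far_mul (k := 2) (by norm_num) h3 hal
  push_cast at hfar
  have hPs : ({p, q} : Finset V) ⊆ XX z x := by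
    intro w hw
    rw [Finset.mem_insert, Finset.mem_singleton] at hw
    rcases hw with h4 | h4
    · rw [h4]; exact hp
    · rw [h4]; exact hq
  have hPc : (({p, q} : Finset V).card : ℤ) = 2 := by
    rw [Finset.card_pair hpq]; norm_num
  have hDf : (m : ℤ) + 1 ≤ 2 * nD z x al ga := by
    have : m + 1 ≤ 2 * nD z x al ga := by omega
    exact_mod_cast this
  have hs38 : (38 : ℤ) ≤ s := by exact_mod_cast hr.1
  rcases dich hP h.card hs hm hD' with ⟨θ, hC⟩ | ⟨θ, hN⟩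
  · unfold Cen at hC
    have h4 := cost_sum z x al ga θ {p, q} hPs
    rw [Finset.sum_pair hpq, hPc] at h4
    have h5 := sub_le_cost θ (al p) (ga p) (al q) (ga q)
    linarith
  · have h4 := cc_sum z x al ga θ {p, q} hPs
    rw [Finset.sum_pair hpq, hPc] at h4
    have h5 := sub_le_cc θ (al p) (ga p) (al q) (ga q)
    have h6 := hN.tot
    linarith

end H
end ZS44129
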