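import Pool.Agent.Work.MP_44129c_co.H.U1
import Pool.Agent.Work.MP_44129c_co.H.IC

/-!
# MP_44129c_co/H, U3p (size M): differences of order 3, and two pairs with differences of order 6

PROOF of `u3_pair`.  As `u2_pair` (U1): `m ≤ 3 |al p - al q|` by `far_mul`.  `dich` (`lp_nD`).
* `Cen`: `cost_sum` with `P = {p, q}`, `sub_le_cost`: `nD + |al p - al q| - 1 ≤ ∑ cost + 2 ≤ m - s - 1 + 2`.  With `2 nD ≥ m + 1`,
  `3 |..| ≥ m`: `5 m + 3 ≤ 6 m - 6 s + 12`, i.e. `6 s ≤ m + 9`, false (`m ≤ 4 s`, `38 ≤ s`).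
* `Non`: `exs_sum` with `P = {p, q}`, `sub_le_cc`: `∑ (cc - bs) ≥ |al p - al q| - 4`; `cls` with `cls_u`, `cls_v` (`r := g⁻¹ * (θ + β)`) and
  `class_le` (IC; for `z` use `hl`, for `x` use `lp_symm h hl`): `nD + 2 s + 2 (|al p - al q| - 4) ≤ 2 alp s`.  With `2 nD ≥ m + 1`,
  `3 |..| ≥ m`, times `6`: `3 m + 3 + 12 s + 4 m - 48 ≤ 12 alp s ≤ 28 s + 4` (`alp s ≤ (7 s + 1)/3`: `3 alp s ≤ 7 s + 1`), so
  `7 m ≤ 16 s + 49`, false as `m ≥ 3 s + 3`.
PROOF of `k6_pairs`.  `P = {p1, p2, q1, q2}` (four different positions: `c z p1 = c z p2 ≠ c z q1 = c z q2`), `m ≤ 6 |al p_i - al q_i|`.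
* `Cen`: `nD + (|d1| - 1) + (|d2| - 1) ≤ ∑ cost + 4 ≤ m - s - 1 + 4`; times 6: `3 m + 3 + 2 m - 12 ≤ 6 m - 6 s + 18`: `6 s ≤ m + 27`, false.
* `Non`: `∑ (cc - bs) ≥ |d1| + |d2| - 8`: `nD + 2 s + 2 (|d1| + |d2| - 8) ≤ 2 alp s`; times 6: `3 m + 3 + 12 s + 4 m - 96 ≤ 28 s + 4`:
  `7 m ≤ 16 s + 97`, false (`5 s ≤ 76`).
-/

set_option autoImplicit false

namespace ZS44129
namespace H

open Finset E N

variable {V : Type} [Fintype V] [DecidableEq V] {m : ℕ}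

theorem alp_le (s : ℕ) : 3 * alp s ≤ 7 * s + 1 := by
  unfold alp
  split_ifs with h
  · omega
  · omega

private theorem far_pl [NeZero m] {c : V → V → ZMod m} {g : (ZMod m)ˣ} {β : ZMod m} {z x : V} {z0 : ℤ}
    {al ga : V → ℤ} (h : PLift (fun p q => (g : ZMod m) * c p q - β) z x z0 al ga) {p q : V}
    (hp : p ∈ XX z x) (hq : q ∈ XX z x) {k : ℕ} (hk : 1 ≤ k)
    (h2 : (k : ZMod m) * c z p = (k : ZMod m) * c z q) (hne : c z p ≠ c z q) :
    (m : ℤ) ≤ k * |al p - al q| := by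
  have hp' := mem_XX.1 hp
  have hq' := mem_XX.1 hq
  have ep := h.hu p hp'.1 hp'.2
  have eq := h.hu q hq'.1 hq'.2
  refine far_mul hk ?_ ?_
  · rw [ep, eq]
    have e1 : (k : ZMod m) * ((g : ZMod m) * c z p - β) = (g : ZMod m) * ((k : ZMod m) * c z p) - k * β := by
      ring
    have e2 : (k : ZMod m) * ((g : ZMod m) * c z q - β) = (g : ZMod m) * ((k : ZMod m) * c z q) - k * β := by
      ring
    show (k : ZMod m) * ((g : ZMod m) * c z p - β) = (k : ZMod m) * ((g : ZMod m) * c z q - β)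
    rw [e1, e2, h2]
  · intro hc
    apply hne
    rw [hc, eq] at ep
    have e3 : (g : ZMod m) * c z q - β = (g : ZMod m) * c z p - β := ep
    exact (Units.mul_right_inj g).1 (sub_left_injective e3).symm

/-- the bound of the noncentral case. -/
private theorem non_cls [NeZero m] {c : V → V → ZMod m} {s : ℕ} (h : HS c s) {g : (ZMod m)ˣ} {β : ZMod m}
    {z x : V} (hl : Lp c z x) {z0 : ℤ}
    {al ga : V → ℤ} (hPL : PLift (fun p q => (g : ZMod m) * c p q - β) z x z0 al ga) {θ : ℤ}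
    (hN : Non s m θ z0 z x al ga) :
    3 * ((nD z x al ga : ℤ) + 2 * s + 2 * ∑ w ∈ XX z x, (cc θ (al w) (ga w) - bs θ (al w) (ga w))) ≤
      2 * (7 * s + 1) := by
  have hr : (θ : ZMod m) = (g : ZMod m) * (((g⁻¹ : (ZMod m)ˣ) : ZMod m) * (θ + β)) - β := by
    rw [← mul_assoc, Units.mul_inv, one_mul, add_sub_cancel_right]
  have h1 := (cls_u hPL hr).trans (class_le h hl _)
  have h2 := (cls_v hPL hr).trans (class_le h (lp_symm h hl) _)
  have h3 := hN.cls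
  have h4 := alp_le s
  have h1' : ((((XX z x).filter (fun w => al w = θ)).card : ℕ) : ℤ) ≤ (alp s : ℤ) := by exact_mod_cast h1
  have h2' : ((((XX z x).filter (fun w => ga w = θ)).card : ℕ) : ℤ) ≤ (alp s : ℤ) := by exact_mod_cast h2
  have h4' : 3 * (alp s : ℤ) ≤ 7 * s + 1 := by exact_mod_cast h4
  have h5 : (0 : ℤ) ≤ (nD2 θ z x al ga : ℤ) := Int.natCast_nonneg _
  linarith

private theorem sum_four {p1 p2 q1 q2 : V} (h1 : p1 ≠ p2) (h2 : p1 ≠ q1) (h3 : p1 ≠ q2) (h4 : p2 ≠ q1)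
    (h5 : p2 ≠ q2) (h6 : q1 ≠ q2) (f : V → ℤ) :
    ∑ w ∈ ({p1, p2, q1, q2} : Finset V), f w = f p1 + f p2 + f q1 + f q2 := by
  rw [Finset.sum_insert, Finset.sum_insert, Finset.sum_pair h6]
  · ring
  · rw [Finset.mem_insert, Finset.mem_singleton, not_or]
    exact ⟨h4, h5⟩
  · rw [Finset.mem_insert, Finset.mem_insert, Finset.mem_singleton, not_or, not_or]
    exact ⟨h1, h2, h3⟩

private theorem card_four {p1 p2 q1 q2 : V} (h1 : p1 ≠ p2) (h2 : p1 ≠ q1) (h3 : p1 ≠ q2) (h4 : p2 ≠ q1)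
    (h5 : p2 ≠ q2) (h6 : q1 ≠ q2) : ({p1, p2, q1, q2} : Finset V).card = 4 := by
  rw [Finset.card_insert_of_notMem, Finset.card_insert_of_notMem, Finset.card_pair h6]
  · rw [Finset.mem_insert, Finset.mem_singleton, not_or]
    exact ⟨h4, h5⟩
  · rw [Finset.mem_insert, Finset.mem_insert, Finset.mem_singleton, not_or, not_or]
    exact ⟨h1, h2, h3⟩

theorem u3_pair [NeZero m] {c : V → V → ZMod m} {s : ℕ} (h : HS c s) {z x p q : V} (hl : Lp c z x)
    (hp : p ∈ XX z x) (hq : q ∈ XX z x) (h2 : 3 * c z p = 3 * c z q) : c z p = c z q := by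
  by_contra hne
  obtain ⟨hD, g, β, z0, al, ga, hPL⟩ := id hl
  have hpq : p ≠ q := fun hc => hne (by rw [hc])
  have hfar := far_pl hPL hp hq (k := 3) (by norm_num) (by exact_mod_cast h2) hne
  obtain ⟨hs1, hm2, hDn⟩ := lp_nD h hD hPL
  have hdf := df_le_nD hPL
  have hn : (m : ℤ) + 1 ≤ 2 * (nD z x al ga : ℤ) := by
    have : m + 1 ≤ 2 * nD z x al ga := by omega
    exact_mod_cast this
  obtain ⟨f1, f2, f3, -⟩ := h.rng.facts
  have f1' : (38 : ℤ) ≤ s := by exact_mod_cast f1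
  have f2' : (3 : ℤ) * s + 3 ≤ m := by exact_mod_cast f2
  have f3' : (m : ℤ) ≤ 4 * s := by exact_mod_cast f3
  have hP : ({p, q} : Finset V) ⊆ XX z x := by
    intro y hy
    rw [Finset.mem_insert, Finset.mem_singleton] at hy
    rcases hy with rfl | rfl
    · exact hp
    · exact hq
  have hfar' : (m : ℤ) ≤ 3 * |al p - al q| := by exact_mod_cast hfar
  rcases dich hPL h.card hs1 hm2 hDn with ⟨θ, hC⟩ | ⟨θ, hN⟩
  · have h5 := cost_sum z x al ga θ _ hP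
    rw [Finset.sum_pair hpq, Finset.card_pair hpq] at h5
    have h6 := sub_le_cost θ (al p) (ga p) (al q) (ga q)
    have h7 : ∑ w ∈ XX z x, cost θ (al w) (ga w) + s + 1 ≤ (m : ℤ) := hC
    push_cast at h5
    linarith
  · have h5 := exs_sum z x al ga θ _ hP
    rw [Finset.sum_pair hpq, Finset.card_pair hpq] at h5
    have h6 := sub_le_cc θ (al p) (ga p) (al q) (ga q)
    have h7 := non_cls h hl hPL hN
    push_cast at h5
    linarith

theorem k6_pairs [NeZero m] {c : V → V → ZMod m} {s : ℕ} (h : HS c s) {z x p1 p2 q1 q2 : V} (hl : Lp c z x)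
    (hp1 : p1 ∈ XX z x) (hp2 : p2 ∈ XX z x) (hq1 : q1 ∈ XX z x) (hq2 : q2 ∈ XX z x) (hp : p1 ≠ p2) (hq : q1 ≠ q2)
    (e1 : c z p1 = c z p2) (e2 : c z q1 = c z q2) (h6 : 6 * c z p1 = 6 * c z q1) (hne : c z p1 ≠ c z q1) : False := by
  obtain ⟨hD, g, β, z0, al, ga, hPL⟩ := id hl
  have hfar1 := far_pl hPL hp1 hq1 (k := 6) (by norm_num) (by exact_mod_cast h6) hne
  have hfar2 := far_pl hPL hp2 hq2 (k := 6) (by norm_num) (by rw [← e1, ← e2]; exact_mod_cast h6)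
    (by rw [← e1, ← e2]; exact hne)
  obtain ⟨hs1, hm2, hDn⟩ := lp_nD h hD hPL
  have hdf := df_le_nD hPL
  have hn : (m : ℤ) + 1 ≤ 2 * (nD z x al ga : ℤ) := by
    have : m + 1 ≤ 2 * nD z x al ga := by omega
    exact_mod_cast this
  obtain ⟨f1, f2, f3, -⟩ := h.rng.facts
  have f1' : (38 : ℤ) ≤ s := by exact_mod_cast f1
  have f2' : (3 : ℤ) * s + 3 ≤ m := by exact_mod_cast f2
  have f3' : (m : ℤ) ≤ 4 * s := by exact_mod_cast f3
  have n1 : p1 ≠ q1 := fun hc => hne (by rw [hc])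
  have n2 : p1 ≠ q2 := fun hc => hne (by rw [e2, hc])
  have n3 : p2 ≠ q1 := fun hc => hne (by rw [e1, hc])
  have n4 : p2 ≠ q2 := fun hc => hne (by rw [e1, e2, hc])
  have hP : ({p1, p2, q1, q2} : Finset V) ⊆ XX z x := by
    intro y hy
    rw [Finset.mem_insert, Finset.mem_insert, Finset.mem_insert, Finset.mem_singleton] at hy
    rcases hy with rfl | rfl | rfl | rfl
    · exact hp1
    · exact hp2
    · exact hq1
    · exact hq2
  have hfar1' : (m : ℤ) ≤ 6 * |al p1 - al q1| := by exact_mod_cast hfar1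
  have hfar2' : (m : ℤ) ≤ 6 * |al p2 - al q2| := by exact_mod_cast hfar2
  rcases dich hPL h.card hs1 hm2 hDn with ⟨θ, hC⟩ | ⟨θ, hN⟩
  · have h5 := cost_sum z x al ga θ _ hP
    rw [sum_four hp n1 n2 n3 n4 hq, card_four hp n1 n2 n3 n4 hq] at h5
    have h8 := sub_le_cost θ (al p1) (ga p1) (al q1) (ga q1)
    have h9 := sub_le_cost θ (al p2) (ga p2) (al q2) (ga q2)
    have h7 : ∑ w ∈ XX z x, cost θ (al w) (ga w) + s + 1 ≤ (m : ℤ) := hC
    push_cast at h5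
    linarith
  · have h5 := exs_sum z x al ga θ _ hP
    rw [sum_four hp n1 n2 n3 n4 hq, card_four hp n1 n2 n3 n4 hq] at h5
    have h8 := sub_le_cc θ (al p1) (ga p1) (al q1) (ga q1)
    have h9 := sub_le_cc θ (al p2) (ga p2) (al q2) (ga q2)
    have h7 := non_cls h hl hPL hN
    push_cast at h5
    linarith

end H
end ZS44129
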