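import Pool.Agent.Work.MP_44129c_co.H.WDefs

/-!
# MP_44129c_co/H, W0 (size S-M): the two alternatives for a lifted pair, with the value of the centre edge

PROOF.  Copy the proof of `c3` in N/C34.lean (and its private lemmas `c34_sides`, `c34_max`, `c34_min`, `c34_card`, `c34_top`); it proves `z0 + ∑_S max ≤ m - 1`, `1 ≤ z0 + ∑_T min` with `∑_S max = (m - 1) a + ∑_X (max - a)^+` and
`∑_T min = (m - 1) b - ∑_X (b - min)^+`; keep these two inequalities.  Case `a = b` (`= θ`): `WNon` (`co` is the sum of the two).  Case `b = a + 1`: `θ = b`: `up` with `a = θ - 1`, `dn` with `b = θ`, `co` as in `c3`.  The other cases are impossible as in `c3`.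
`cen_refl`: `plift_refl`; `θ ↦ 2 - θ`: `max (1 - al) (1 - ga) = 1 - min al ga`, so `up` and `dn` are exchanged; `cost (2 - θ) (1 - a) (1 - b) = cost θ a b`.
-/

set_option autoImplicit false

namespace ZS44129
namespace H

open Finset E N

variable {V : Type} [Fintype V] [DecidableEq V] {m : ℕ}

private theorem w0_sides {c : V → V → ZMod m} {u x : V} {z0 : ℤ} {al ga : V → ℤ}
    (h : PLift c u x z0 al ga) {S : Finset V} (hS : S ⊆ XX u x) (hc : S.card + 1 = m)
    (p : V → Prop) [DecidablePred p] :
    1 ≤ z0 + ∑ w ∈ S, (if p w then al w else ga w) ∧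
      z0 + ∑ w ∈ S, (if p w then al w else ga w) ≤ m - 1 := by
  have h1 := h.gap (S.filter p) (S.filter fun w => ¬ p w) ((filter_subset _ _).trans hS)
    ((filter_subset _ _).trans hS) (disjoint_filter_filter_not _ _ _)
    (by rw [card_filter_add_card_filter_not]; exact hc)
  rw [Finset.sum_ite]
  rw [add_assoc] at h1
  exact h1

private theorem w0_max {c : V → V → ZMod m} {u x : V} {z0 : ℤ} {al ga : V → ℤ}
    (h : PLift c u x z0 al ga) {S : Finset V} (hS : S ⊆ XX u x) (hc : S.card + 1 = m) :
    z0 + ∑ w ∈ S, max (al w) (ga w) ≤ m - 1 := by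
  have h1 := (w0_sides h hS hc (fun w => ga w ≤ al w)).2
  have h2 : ∀ w ∈ S, (if ga w ≤ al w then al w else ga w) = max (al w) (ga w) := by
    intro w _
    split_ifs with h3
    · exact (max_eq_left h3).symm
    · exact (max_eq_right (le_of_not_ge h3)).symm
  rwa [sum_congr rfl h2] at h1

private theorem w0_min {c : V → V → ZMod m} {u x : V} {z0 : ℤ} {al ga : V → ℤ}
    (h : PLift c u x z0 al ga) {S : Finset V} (hS : S ⊆ XX u x) (hc : S.card + 1 = m) :
    1 ≤ z0 + ∑ w ∈ S, min (al w) (ga w) := by
  have h1 := (w0_sides h hS hc (fun w => al w ≤ ga w)).1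
  have h2 : ∀ w ∈ S, (if al w ≤ ga w then al w else ga w) = min (al w) (ga w) := by
    intro w _
    split_ifs with h3
    · exact (min_eq_left h3).symm
    · exact (min_eq_right (le_of_not_ge h3)).symm
  rwa [sum_congr rfl h2] at h1

private theorem w0_card {u x : V} (hux : u ≠ x) {s : ℕ} (hV : Fintype.card V = m + s) :
    (XX u x).card + 2 = m + s := by
  have h1 : (XX u x) = (univ.erase u).erase x := by
    ext y
    rw [mem_XX, mem_erase, mem_erase]
    simp only [mem_univ, and_true]
    exact and_comm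
  rw [h1, card_erase_of_mem (mem_erase.2 ⟨hux.symm, mem_univ x⟩), card_erase_of_mem (mem_univ u),
    card_univ, hV]
  have h2 : 2 ≤ Fintype.card V := by
    rw [← Finset.card_pair hux]
    exact card_le_univ _
  omega

private theorem w0_top (X : Finset V) (M : V → ℤ) {k : ℕ} (hk : 1 ≤ k) (hX : k ≤ X.card) :
    ∃ (a : ℤ) (S : Finset V), S ⊆ X ∧ S.card = k ∧
      k ≤ (X.filter fun w => a ≤ M w).card ∧ (X.filter fun w => a + 1 ≤ M w).card + 1 ≤ k ∧
      ∑ w ∈ S, M w = k * a + ∑ w ∈ X, max (M w - a) 0 := by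
  have hb : ∀ w ∈ X, |M w| ≤ ∑ v ∈ X, |M v| := fun w hw =>
    single_le_sum (f := fun v => |M v|) (fun v _ => abs_nonneg _) hw
  obtain ⟨a, ha, hmax⟩ := Int.exists_greatest_of_bdd
    (P := fun a => k ≤ (X.filter fun w => a ≤ M w).card)
    ⟨∑ v ∈ X, |M v|, fun z hz => by
      have h1 : 0 < (X.filter fun w => z ≤ M w).card := by omega
      obtain ⟨w, hw⟩ := card_pos.1 h1
      obtain ⟨h2, h3⟩ := mem_filter.1 hw
      exact h3.trans ((le_abs_self _).trans (hb w h2))⟩
    ⟨-∑ v ∈ X, |M v|, by
      rw [filter_true_of_mem]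
      · exact hX
      · intro w hw
        have h1 := hb w hw
        have h2 := neg_abs_le (M w)
        linarith⟩
  have hlt : (X.filter fun w => a + 1 ≤ M w).card + 1 ≤ k := by
    by_contra hcon
    have h1 := hmax (a + 1) (by omega)
    omega
  have hsub : (X.filter fun w => a + 1 ≤ M w) ⊆ X.filter fun w => a ≤ M w := by
    intro w hw
    obtain ⟨h1, h2⟩ := mem_filter.1 hw
    exact mem_filter.2 ⟨h1, by linarith⟩
  obtain ⟨S, hS1, hS2, hSc⟩ := exists_subsuperset_card_eq hsub (n := k) (by omega) ha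
  refine ⟨a, S, hS2.trans (filter_subset _ _), hSc, ha, hlt, ?_⟩
  have h1 : ∑ w ∈ X, max (M w - a) 0 = ∑ w ∈ S, max (M w - a) 0 := by
    refine (sum_subset (hS2.trans (filter_subset _ _)) fun w hw hw2 => ?_).symm
    have h2 : ¬ a + 1 ≤ M w := fun h3 => hw2 (hS1 (mem_filter.2 ⟨hw, h3⟩))
    exact max_eq_right (by omega)
  have h2 : ∑ w ∈ S, max (M w - a) 0 = ∑ w ∈ S, (M w - a) := by
    refine sum_congr rfl fun w hw => max_eq_left ?_
    have h3 := (mem_filter.1 (hS2 hw)).2
    linarith
  rw [h1, h2, sum_sub_distrib, sum_const, hSc, nsmul_eq_mul]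
  ring

theorem c3z {c : V → V → ZMod m} {u v : V} {z0 : ℤ} {al ga : V → ℤ} (h : PLift c u v z0 al ga) {s : ℕ}
    (hV : Fintype.card V = m + s) (hs : 1 ≤ s) (hm : 2 ≤ m)
    (hD : m < 2 * s + ((XX u v).filter (fun w => al w ≠ ga w)).card) :
    (∃ θ : ℤ, WNon c s u v z0 al ga θ) ∨ ∃ θ : ℤ, WCen c s u v z0 al ga θ := by
  have hX := w0_card h.ne hV
  obtain ⟨a, S, hS, hSc, ha1, ha2, ha3⟩ := w0_top (XX u v) (fun w => max (al w) (ga w))
    (k := m - 1) (by omega) (by omega)
  obtain ⟨b', T, hT, hTc, hb1, hb2, hb3⟩ := w0_top (XX u v) (fun w => - min (al w) (ga w))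
    (k := m - 1) (by omega) (by omega)
  obtain ⟨b, rfl⟩ : ∃ b, b' = -b := ⟨-b', by ring⟩
  have hmx := w0_max h hS (by omega)
  have hmn := w0_min h hT (by omega)
  have hk : ((m - 1 : ℕ) : ℤ) = m - 1 := by omega
  rw [hk] at ha3 hb3
  have e1 : ∑ w ∈ XX u v, max (- min (al w) (ga w) - -b) 0 =
      ∑ w ∈ XX u v, max (b - min (al w) (ga w)) 0 :=
    sum_congr rfl fun w _ => by rw [show - min (al w) (ga w) - -b = b - min (al w) (ga w) by ring]
  rw [e1, sum_neg_distrib] at hb3
  have hup : z0 + (m - 1) * a + ∑ w ∈ XX u v, max (max (al w) (ga w) - a) 0 ≤ m - 1 := by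
    linarith
  have hdn : 1 + ∑ w ∈ XX u v, max (b - min (al w) (ga w)) 0 ≤ z0 + (m - 1) * b := by
    linarith
  have hstar : ((m : ℤ) - 1) * (a - b) + ∑ w ∈ XX u v, (max (max (al w) (ga w) - a) 0 +
      max (b - min (al w) (ga w)) 0) ≤ m - 2 := by
    rw [sum_add_distrib]
    linarith
  have hXz : ((XX u v).card : ℤ) = m + s - 2 := by
    have : (((XX u v).card + 2 : ℕ) : ℤ) = ((m + s : ℕ) : ℤ) := congrArg _ hX
    push_cast at this
    linarith
  have hm' : (2 : ℤ) ≤ m := by exact_mod_cast hm
  rcases lt_trichotomy b a with hab | hab | hab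
  · exfalso
    have h1 : 0 ≤ ∑ w ∈ XX u v, (max (max (al w) (ga w) - a) 0 +
      max (b - min (al w) (ga w)) 0) :=
      sum_nonneg fun w _ => add_nonneg (le_max_right _ _) (le_max_right _ _)
    have h2 : ((m : ℤ) - 1) * 1 ≤ (m - 1) * (a - b) :=
      mul_le_mul_of_nonneg_left (by omega) (by omega)
    linarith
  · subst hab
    left
    refine ⟨b, h, ?_, hup, hdn⟩
    rw [sub_self, mul_zero, zero_add] at hstar
    linarith
  · rcases eq_or_lt_of_le (show a + 1 ≤ b by omega) with hab' | hab'
    · right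
      subst hab'
      refine ⟨a + 1, h, ?_, ?_, hdn⟩
      · have h1 : ∑ w ∈ XX u v, (max (max (al w) (ga w) - a) 0 +
            max (a + 1 - min (al w) (ga w)) 0) =
            ∑ w ∈ XX u v, (1 + cost (a + 1) (al w) (ga w)) := by
          refine sum_congr rfl fun w _ => ?_
          unfold cost
          have h2 : min (al w) (ga w) ≤ max (al w) (ga w) := min_le_max
          generalize max (al w) (ga w) = p at h2
          generalize min (al w) (ga w) = r at h2
          split_ifs with h3
          · rw [max_eq_left (by omega), max_eq_left (by omega), max_eq_left (by omega),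
              max_eq_left (by omega)]
            ring
          · by_cases h4 : r < a + 1
            · have h5 : p < a + 1 := by
                by_contra h6
                exact h3 ⟨h4, by omega⟩
              rw [max_eq_right (by omega), max_eq_left (by omega), max_eq_right (by omega),
                max_eq_left (by omega)]
              ring
            · rw [max_eq_left (by omega), max_eq_right (by omega), max_eq_left (by omega),
                max_eq_right (by omega)]
              ring
        rw [h1, sum_add_distrib, sum_const, nsmul_eq_mul, hXz] at hstar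
        linarith
      · rw [add_sub_cancel_right]
        exact hup
    · exfalso
      have h1 : ∑ w ∈ XX u v, ((b - a) + (if al w ≠ ga w then (1 : ℤ) else 0)) ≤
          ∑ w ∈ XX u v, (max (max (al w) (ga w) - a) 0 + max (b - min (al w) (ga w)) 0) := by
        refine sum_le_sum fun w _ => ?_
        have h2 := le_max_left (max (al w) (ga w) - a) 0
        have h3 := le_max_left (b - min (al w) (ga w)) 0
        have h4 : (if al w ≠ ga w then (1 : ℤ) else 0) ≤ max (al w) (ga w) - min (al w) (ga w) := by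
          split_ifs with h5
          · rcases lt_or_gt_of_ne h5 with h6 | h6
            · rw [max_eq_right h6.le, min_eq_left h6.le]
              omega
            · rw [max_eq_left h6.le, min_eq_right h6.le]
              omega
          · have : min (al w) (ga w) ≤ max (al w) (ga w) := min_le_max
            linarith
        linarith
      rw [sum_add_distrib, sum_const, nsmul_eq_mul, hXz, Finset.sum_boole] at h1
      have hD' : (m : ℤ) < 2 * s + (((XX u v).filter (fun w => al w ≠ ga w)).card : ℤ) := by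
        exact_mod_cast hD
      have hs' : (1 : ℤ) ≤ s := by exact_mod_cast hs
      have h2 : ((s : ℤ) - 1) * 2 ≤ (s - 1) * (b - a) :=
        mul_le_mul_of_nonneg_left (by omega) (by omega)
      nlinarith

theorem cost_refl (θ a b : ℤ) : cost (2 - θ) (1 - a) (1 - b) = cost θ a b := by
  unfold cost
  split_ifs <;> omega

theorem cen_refl {c : V → V → ZMod m} {s : ℕ} {u v : V} {z0 : ℤ} {al ga : V → ℤ} {θ : ℤ}
    (h : WCen c s u v z0 al ga θ) :
    WCen (fun p q => 1 - c p q) s u v (1 - z0) (fun w => 1 - al w) (fun w => 1 - ga w) (2 - θ) := by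
  refine ⟨plift_refl h.pl, ?_, ?_, ?_⟩
  · have h1 : ∑ w ∈ XX u v, cost (2 - θ) (1 - al w) (1 - ga w) =
        ∑ w ∈ XX u v, cost θ (al w) (ga w) := sum_congr rfl fun w _ => cost_refl θ _ _
    show ∑ w ∈ XX u v, cost (2 - θ) (1 - al w) (1 - ga w) + s + 1 ≤ m
    rw [h1]
    exact h.co
  · have h1 : ∑ w ∈ XX u v, max (max (1 - al w) (1 - ga w) - (2 - θ - 1)) 0 =
        ∑ w ∈ XX u v, max (θ - min (al w) (ga w)) 0 := sum_congr rfl fun w _ => by omega
    show 1 - z0 + (m - 1) * (2 - θ - 1) +
      ∑ w ∈ XX u v, max (max (1 - al w) (1 - ga w) - (2 - θ - 1)) 0 ≤ m - 1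
    rw [h1]
    have := h.dn
    linarith
  · have h1 : ∑ w ∈ XX u v, max (2 - θ - min (1 - al w) (1 - ga w)) 0 =
        ∑ w ∈ XX u v, max (max (al w) (ga w) - (θ - 1)) 0 := sum_congr rfl fun w _ => by omega
    show 1 + ∑ w ∈ XX u v, max (2 - θ - min (1 - al w) (1 - ga w)) 0 ≤
      1 - z0 + (m - 1) * (2 - θ)
    rw [h1]
    have := h.up
    linarith

end H
end ZS44129
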