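import Pool.Agent.Work.MP_44129c_co.H.WDefs
import Pool.Agent.Work.MP_44129c_co.H.F0
import Pool.Agent.Work.MP_44129c_co.H.F2

/-!
# MP_44129c_co/H, W1 (size M): basic facts for block W

PROOFS.  `own_eq`: for `w ∈ XX u v`: `al w = ga w` iff `c u w = c v w`: `→` both lift; `←` `pair_eq` (H/F2).
`al_const`: `w, w' ∈ XX u v` with `c u w = c u w'`: choose `A ⊆ XX u v` with `m - 1` elements, `w ∈ A`, `w' ∉ A` (`|XX u v| = m + s - 2 ≥ m`); the star sums of `A` and of `insert w' (A.erase w)` (no leaf at `v`) are in `[1, m - 1]`, so `|al w' - al w| ≤ m - 2`,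
and `m ∣ al w' - al w`.
`est_build`: `y' w = y w - (θ - 1)`, `c' = 1 * c - (θ - 1)` (`zsf_affine` with `g = 1`).  `exL u y' = ∑ max (θ - 1 - y) 0`, `exH u y' = ∑ max (y - θ) 0` (over `univ.erase u`), their sum is `∑ ex1 θ (y w)`; `LL u y'` = the `w` with `y w ≤ θ - 1`, `HH u y'` = those with `θ ≤ y w`.  `sl_of_ex` (H/F0).
`est_refl`: if `SL (g (1 - c) - β) u y` then `(- g) c - (β - g)` is the same colouring.  `est_affine`: `g' (g c - β) - β' = (g' g) c - (g' β + β')`.
`wp_refl`: `zsf_refl`, `df_refl` (H/FR), `cl (1 - c) u (1 - e) = cl c u e`.  `wp_affine`: the same for `g c - β`: `cl c' u (g e - β) = cl c u e` (`g` is a unit), `Df` does not change.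
-/

set_option autoImplicit false

namespace ZS44129
namespace H

open Finset E N

variable {V : Type} [Fintype V] [DecidableEq V] {m : ℕ}

private theorem w1_card {u x : V} (hux : u ≠ x) {s : ℕ} (hV : Fintype.card V = m + s) :
    (XX u x).card + 2 = m + s := by
  have h1 : (XX u x) = (univ.erase u).erase x := rfl
  rw [h1, card_erase_of_mem (mem_erase.2 ⟨hux.symm, mem_univ x⟩), card_erase_of_mem (mem_univ u),
    card_univ, hV]
  have h2 : 2 ≤ Fintype.card V := by
    rw [← Finset.card_pair hux]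
    exact card_le_univ _
  omega

theorem own_eq {c : V → V → ZMod m} {u v : V} {z0 : ℤ} {al ga : V → ℤ} (h : PLift c u v z0 al ga) {s : ℕ}
    (hV : Fintype.card V = m + s) (hs : 1 ≤ s) (hm : 2 ≤ m) {w : V} (hw : w ∈ XX u v) :
    al w = ga w ↔ c u w = c v w := by
  constructor
  · intro h1
    have hw' := mem_XX.1 hw
    rw [← h.hu w hw'.1 hw'.2, ← h.hx w hw'.1 hw'.2, h1]
  · intro h1
    exact pair_eq h hV hs hm hw h1

theorem own_card {c : V → V → ZMod m} {u v : V} {z0 : ℤ} {al ga : V → ℤ} (h : PLift c u v z0 al ga) {s : ℕ}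
    (hV : Fintype.card V = m + s) (hs : 1 ≤ s) (hm : 2 ≤ m) :
    ((XX u v).filter (fun w => al w ≠ ga w)).card = Df c u v := by
  unfold Df
  refine congrArg Finset.card (Finset.filter_congr fun x hx => ?_)
  rw [not_iff_not]
  exact own_eq h hV hs hm hx

theorem al_const {c : V → V → ZMod m} {u v : V} {z0 : ℤ} {al ga : V → ℤ} (h : PLift c u v z0 al ga) {s : ℕ}
    (hV : Fintype.card V = m + s) (hs : 2 ≤ s) (hm : 2 ≤ m) {w w' : V} (hw : w ∈ XX u v) (hw' : w' ∈ XX u v)
    (he : c u w = c u w') : al w = al w' := by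
  by_contra hne
  have hww : w ≠ w' := fun h1 => hne (by rw [h1])
  have hX := w1_card h.ne hV
  obtain ⟨A, hA1, hA2, hA3⟩ := exists_subsuperset_card_eq (s := {w}) (t := (XX u v).erase w')
    (n := m - 1) (singleton_subset_iff.2 (mem_erase.2 ⟨hww, hw⟩))
    (by rw [card_singleton]; omega) (by rw [card_erase_of_mem hw']; omega)
  have hwA : w ∈ A := singleton_subset_iff.1 hA1
  have hw'A : w' ∉ A := fun h1 => (mem_erase.1 (hA2 h1)).1 rfl
  have hAX : A ⊆ XX u v := hA2.trans (erase_subset _ _)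
  have g1 := h.gap A ∅ hAX (empty_subset _) (disjoint_empty_right _) (by rw [card_empty]; omega)
  have hw'E : w' ∉ A.erase w := fun h1 => hw'A (mem_of_mem_erase h1)
  have g2 := h.gap (insert w' (A.erase w)) ∅
    (insert_subset hw' ((erase_subset _ _).trans hAX)) (empty_subset _) (disjoint_empty_right _)
    (by
      rw [card_empty, card_insert_of_notMem hw'E, card_erase_of_mem hwA]
      have : 0 < A.card := card_pos.2 ⟨w, hwA⟩
      omega)
  rw [sum_empty, add_zero] at g1 g2
  rw [sum_insert hw'E] at g2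
  have g3 := add_sum_erase A al hwA
  have h5 := mem_XX.1 hw
  have h6 := mem_XX.1 hw'
  have h7 : (al w : ZMod m) = (al w' : ZMod m) := by
    rw [h.hu w h5.1 h5.2, h.hu w' h6.1 h6.2, he]
  have h8 : (m : ℤ) ∣ al w' - al w := (ZMod.intCast_eq_intCast_iff_dvd_sub _ _ _).1 h7
  have h9 : |al w' - al w| < m := by
    rw [abs_lt]
    constructor <;> linarith
  have h10 := Int.eq_zero_of_abs_lt_dvd h8 h9
  exact hne (by linarith)

theorem est_build [NeZero m] {c : V → V → ZMod m} (hz : ZSF m c) {s : ℕ} (hV : Fintype.card V = m + s)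
    (hs : 2 ≤ s) {u : V} (y : V → ℤ) (hy : ∀ w, w ≠ u → (y w : ZMod m) = c u w) (θ : ℤ)
    (hex : ∑ w ∈ univ.erase u, ex1 θ (y w) + 2 ≤ s)
    (hl : s ≤ ((univ.erase u).filter (fun w => y w ≤ θ - 1)).card + 1)
    (hh : s ≤ ((univ.erase u).filter (fun w => θ ≤ y w)).card + 1) : ESt c s u := by
  have hLL : LL u (fun w => y w - (θ - 1)) = (univ.erase u).filter (fun w => y w ≤ θ - 1) := by
    unfold LL
    exact Finset.filter_congr fun w _ => by constructor <;> intro h1 <;> linarith
  have hHH : HH u (fun w => y w - (θ - 1)) = (univ.erase u).filter (fun w => θ ≤ y w) := by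
    unfold HH
    exact Finset.filter_congr fun w _ => by constructor <;> intro h1 <;> linarith
  have hexL : exL u (fun w => y w - (θ - 1)) = ∑ w ∈ univ.erase u, max (θ - 1 - y w) 0 := by
    unfold exL
    rw [hLL, Finset.sum_filter]
    refine Finset.sum_congr rfl fun w _ => ?_
    split_ifs with h1
    · rw [max_eq_left (by linarith)]
      ring
    · rw [max_eq_right (by linarith)]
  have hexH : exH u (fun w => y w - (θ - 1)) = ∑ w ∈ univ.erase u, max (y w - θ) 0 := by
    unfold exH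
    rw [hHH, Finset.sum_filter]
    refine Finset.sum_congr rfl fun w _ => ?_
    split_ifs with h1
    · rw [max_eq_left (by linarith)]
      ring
    · rw [max_eq_right (by linarith)]
  have hsum : ∑ w ∈ univ.erase u, ex1 θ (y w) = ∑ w ∈ univ.erase u, max (y w - θ) 0 +
      ∑ w ∈ univ.erase u, max (θ - 1 - y w) 0 := by
    rw [← sum_add_distrib]
    rfl
  have hp1 : 0 ≤ ∑ w ∈ univ.erase u, max (y w - θ) 0 := sum_nonneg fun w _ => le_max_right _ _
  have hp2 : 0 ≤ ∑ w ∈ univ.erase u, max (θ - 1 - y w) 0 := sum_nonneg fun w _ => le_max_right _ _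
  refine ⟨1, ((θ - 1 : ℤ) : ZMod m), fun w => y w - (θ - 1), ?_, ?_⟩
  · refine sl_of_ex (zsf_affine c hz 1 ((θ - 1 : ℤ) : ZMod m)) hV hs (fun w hw => ?_) ?_ ?_ ?_ ?_
    · change ((y w - (θ - 1) : ℤ) : ZMod m) = _
      rw [Int.cast_sub, hy w hw, Units.val_one, one_mul]
    · rw [hexL]; linarith
    · rw [hexH]; linarith
    · rw [hLL]; exact hl
    · rw [hHH]; exact hh
  · rw [hexL, hexH]
    linarith

theorem est_refl [NeZero m] {c : V → V → ZMod m} {s : ℕ} {u : V} (h : ESt (fun p q => 1 - c p q) s u) :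
    ESt c s u := by
  obtain ⟨g, β, y, h1, h2⟩ := h
  refine ⟨-g, β - g, y, ?_, h2⟩
  have h3 : (fun p q => ((-g : (ZMod m)ˣ) : ZMod m) * c p q - (β - g)) =
      fun p q => (g : ZMod m) * (1 - c p q) - β := by
    funext p q
    rw [Units.val_neg]
    ring
  rw [h3]
  exact h1

theorem est_affine [NeZero m] {c : V → V → ZMod m} {s : ℕ} {u : V} (g : (ZMod m)ˣ) (β : ZMod m)
    (h : ESt (fun p q => (g : ZMod m) * c p q - β) s u) : ESt c s u := by
  obtain ⟨g', β', y, h1, h2⟩ := h
  refine ⟨g' * g, g' * β + β', y, ?_, h2⟩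
  have h3 : (fun p q => ((g' * g : (ZMod m)ˣ) : ZMod m) * c p q - (g' * β + β')) =
      fun p q => (g' : ZMod m) * ((g : ZMod m) * c p q - β) - β' := by
    funext p q
    rw [Units.val_mul]
    ring
  rw [h3]
  exact h1

private theorem w1_clr (c : V → V → ZMod m) (u : V) (e : ZMod m) :
    cl (fun x y => 1 - c x y) u e = cl c u (1 - e) := by
  ext x
  rw [mem_cl, mem_cl]
  refine and_congr_right fun _ => ?_
  change 1 - c u x = e ↔ c u x = 1 - e
  constructor
  · intro h2
    linear_combination -h2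
  · intro h2
    linear_combination -h2

private theorem w1_dfr (c : V → V → ZMod m) (u v : V) :
    Df (fun p q => 1 - c p q) u v = Df c u v := by
  unfold Df
  refine congrArg Finset.card (Finset.filter_congr fun x _ => ?_)
  change 1 - c u x ≠ 1 - c v x ↔ c u x ≠ c v x
  rw [not_iff_not]
  constructor
  · intro h2
    linear_combination -h2
  · intro h2
    rw [h2]

theorem wp_refl [NeZero m] {c : V → V → ZMod m} {s : ℕ} {u v : V} {p q : ZMod m} {a b r A : ℕ} {T : ℤ}
    (h : WP c s u v p q a b r A T) : WP (fun x y => 1 - c x y) s u v (1 - p) (1 - q) a b r A T where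
  sym := fun x y => by
    change 1 - c x y = 1 - c y x
    rw [h.sym x y]
  zsf := zsf_refl h.zsf
  card := h.card
  s4 := h.s4
  m1 := h.m1
  m2 := h.m2
  ne := h.ne
  pq := fun h1 => h.pq (by linear_combination -h1)
  cuv := by
    change 1 - c u v = 1 - p ∨ 1 - c u v = 1 - q
    rcases h.cuv with h1 | h1
    · exact Or.inl (by rw [h1])
    · exact Or.inr (by rw [h1])
  ca := by
    rw [w1_clr, sub_sub_cancel]
    exact h.ca
  cb := by
    rw [w1_clr, sub_sub_cancel]
    exact h.cb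
  hr := h.hr
  ba := h.ba
  T0 := h.T0
  d0 := by rw [w1_dfr]; exact h.d0
  d1 := by rw [w1_dfr]; exact h.d1
  d2 := fun e he => by
    rw [w1_dfr, w1_clr, w1_clr]
    refine h.d2 (1 - e) fun h1 => he ?_
    change e = 1 - c u v
    rw [← h1, sub_sub_cancel]
  cv := fun e => by
    rw [w1_clr]
    exact h.cv _
  n1 := h.n1
  n2 := h.n2
  n3 := by rw [w1_dfr]; exact h.n3

private theorem w1_inj {g : (ZMod m)ˣ} {β a b : ZMod m} (h : (g : ZMod m) * a - β = g * b - β) :
    a = b := by
  have hg : ((g⁻¹ : (ZMod m)ˣ) : ZMod m) * (g : ZMod m) = 1 := by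
    rw [← Units.val_mul, inv_mul_cancel, Units.val_one]
  linear_combination ((g⁻¹ : (ZMod m)ˣ) : ZMod m) * h + (b - a) * hg

private theorem w1_cla (c : V → V → ZMod m) (g : (ZMod m)ˣ) (β : ZMod m) (u : V) (e : ZMod m) :
    cl (fun x y => (g : ZMod m) * c x y - β) u (g * e - β) = cl c u e := by
  ext x
  rw [mem_cl, mem_cl]
  refine and_congr_right fun _ => ?_
  change (g : ZMod m) * c u x - β = g * e - β ↔ c u x = e
  exact ⟨fun h => w1_inj h, fun h => by rw [h]⟩

private theorem w1_surj (g : (ZMod m)ˣ) (β e : ZMod m) : ∃ e', e = (g : ZMod m) * e' - β := by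
  refine ⟨((g⁻¹ : (ZMod m)ˣ) : ZMod m) * (e + β), ?_⟩
  have hg : (g : ZMod m) * ((g⁻¹ : (ZMod m)ˣ) : ZMod m) = 1 := by
    rw [← Units.val_mul, mul_inv_cancel, Units.val_one]
  linear_combination -(e + β) * hg

private theorem w1_dfa (c : V → V → ZMod m) (g : (ZMod m)ˣ) (β : ZMod m) (u v : V) :
    Df (fun x y => (g : ZMod m) * c x y - β) u v = Df c u v := by
  unfold Df
  refine congrArg Finset.card (Finset.filter_congr fun x _ => ?_)
  change (g : ZMod m) * c u x - β ≠ (g : ZMod m) * c v x - β ↔ c u x ≠ c v x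
  rw [not_iff_not]
  exact ⟨fun h => w1_inj h, fun h => by rw [h]⟩

theorem wp_affine [NeZero m] {c : V → V → ZMod m} {s : ℕ} {u v : V} {p q : ZMod m} {a b r A : ℕ} {T : ℤ}
    (h : WP c s u v p q a b r A T) (g : (ZMod m)ˣ) (β : ZMod m) :
    WP (fun x y => (g : ZMod m) * c x y - β) s u v (g * p - β) (g * q - β) a b r A T where
  sym := fun x y => by
    change (g : ZMod m) * c x y - β = g * c y x - β
    rw [h.sym x y]
  zsf := zsf_affine c h.zsf g β
  card := h.card
  s4 := h.s4
  m1 := h.m1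
  m2 := h.m2
  ne := h.ne
  pq := fun h1 => h.pq (w1_inj h1)
  cuv := by
    change (g : ZMod m) * c u v - β = g * p - β ∨ (g : ZMod m) * c u v - β = g * q - β
    rcases h.cuv with h1 | h1
    · exact Or.inl (by rw [h1])
    · exact Or.inr (by rw [h1])
  ca := by
    rw [w1_cla]
    exact h.ca
  cb := by
    rw [w1_cla]
    exact h.cb
  hr := h.hr
  ba := h.ba
  T0 := h.T0
  d0 := by rw [w1_dfa]; exact h.d0
  d1 := by rw [w1_dfa]; exact h.d1
  d2 := fun e he => by
    obtain ⟨e', rfl⟩ := w1_surj g β e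
    rw [w1_dfa, w1_cla, w1_cla]
    refine h.d2 e' fun h1 => he ?_
    change (g : ZMod m) * e' - β = g * c u v - β
    rw [h1]
  cv := fun e => by
    obtain ⟨e', rfl⟩ := w1_surj g β e
    rw [w1_cla]
    exact h.cv _
  n1 := h.n1
  n2 := h.n2
  n3 := by rw [w1_dfa]; exact h.n3

end H
end ZS44129
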