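import Pool.Agent.Work.MP_44129c_co.H.W1

/-!
# MP_44129c_co/H, W2 (size M-L): the threshold is not central

`X = XX u v`, `|X| = m + s - 2`, `k w = max (max al ga - θ) 0 + max (θ - min al ga) 0`, `∑ k ≤ m - 2`, `D = Df c u v = #{al ≠ ga}` (`own_card`).
PROOF.  (1) `(θ : ZMod m) ≠ c u v`: by `up`, `dn` the integer `z0 + (m - 1) θ` is in `[1, m - 1]`, not divisible by `m`; if `θ ≡ z0` (and `z0 ≡ c u v`) it would be `≡ m θ ≡ 0`.
(2) Put `f w = 2 k w - 2 + [al w = θ] + [ga w = θ] - [al w ≠ ga w]`.  Cases: both `= θ`: `f = 0`; exactly one `= θ`: `f = 2 (k - 1) ≥ 0`; both `≠ θ`, `al ≠ ga`: `k ≥ 2`, `f = 2 k - 3 ≥ 1`; both `≠ θ`, `al = ga`: `f = 2 (k - 1) ≥ 0`.  In all cases `f ≥ 0`, `k ≤ 1 + f`, and `f ≥ 1` if `|al w - θ| ≥ 2`.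
`∑ f = 2 ∑ k - 2 (m + s - 2) + #{al = θ} + #{ga = θ} - D ≤ |cl c u θ| + |cl c v θ| - 2 s - D`; with `d2`: `2 ∑ f ≤ T`; also `D + 2 s ≤ |cl c u θ| + |cl c v θ|`.
(3) `θ ≡ p` or `θ ≡ q`: otherwise `|cl c u θ| ≤ r` (the classes of `p`, `q`, `θ` are disjoint, `hr`) and `|cl c v θ| ≤ A`: contradiction to `n3`.  Let `q'` be the other one of `p`, `q`; as `c u v ≠ θ`, `c u v = q'`.  The class of `q'` without `v` has at least `b - 1 ≥ 1` elements, `al = κ` on it (`al_const`),
`κ ≠ θ` (different colours).  If `|κ - θ| ≥ 2` then `f ≥ 1` on this class, `2 (b - 1) ≤ 2 ∑ f ≤ T`: contradiction to `n2`, `m1`.  So `κ = θ + 1` or `κ = θ - 1`.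
(4) `est_build` for `u` with `y w = al w` (`w ≠ v`), `y v = κ` (`κ` lifts `q' = c u v`) and the threshold `θ + 1` if `κ = θ + 1`, resp. `θ` if `κ = θ - 1` (so that the two values are threshold `- 1` and threshold).  `ex1 = 0` on the two classes and at `v`; for the others (at most `r` elements)
`ex1 ≤ |al w - θ| ≤ k w ≤ 1 + f w`.  So the total is `≤ r + T / 2 ≤ s - 2` (`n1`).  Both sides contain one of the two classes: at least `b ≥ s` elements (`n2`).
-/

set_option autoImplicit false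

namespace ZS44129
namespace H

open Finset E N

variable {V : Type} [Fintype V] [DecidableEq V] {m : ℕ}

private def kkw (θ a g : ℤ) : ℤ := max (max a g - θ) 0 + max (θ - min a g) 0

private def ffw (θ a g : ℤ) : ℤ :=
  2 * kkw θ a g - 2 + (if a = θ then 1 else 0) + (if g = θ then 1 else 0) - (if a ≠ g then 1 else 0)

private theorem kkw_nonneg (θ a g : ℤ) : 0 ≤ kkw θ a g := by
  unfold kkw
  omega

private theorem ffw_facts (θ a g : ℤ) : 0 ≤ ffw θ a g ∧ a - θ ≤ 1 + ffw θ a g ∧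
    θ - a ≤ 1 + ffw θ a g ∧ ((θ + 2 ≤ a ∨ a + 2 ≤ θ) → 1 ≤ ffw θ a g) := by
  unfold ffw kkw
  split_ifs <;> omega

omit [DecidableEq V] [Fintype V] in
private theorem ffw_sum (X : Finset V) (θ : ℤ) (al ga : V → ℤ) :
    ∑ w ∈ X, ffw θ (al w) (ga w) = 2 * ∑ w ∈ X, kkw θ (al w) (ga w) - 2 * X.card +
      (X.filter (fun w => al w = θ)).card + (X.filter (fun w => ga w = θ)).card -
      (X.filter (fun w => al w ≠ ga w)).card := by
  unfold ffw
  rw [Finset.sum_sub_distrib, Finset.sum_add_distrib, Finset.sum_add_distrib,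
    Finset.sum_sub_distrib, ← Finset.mul_sum, Finset.sum_const, Finset.sum_boole,
    Finset.sum_boole, Finset.sum_boole, nsmul_eq_mul, mul_comm (X.card : ℤ)]

private theorem cl_sub (c : V → V → ZMod m) (u : V) (e : ZMod m) : cl c u e ⊆ univ.erase u :=
  filter_subset _ _

private theorem cl_dj (c : V → V → ZMod m) (u : V) {e e' : ZMod m} (h : e ≠ e') :
    Disjoint (cl c u e) (cl c u e') := by
  rw [Finset.disjoint_left]
  intro x h1 h2
  rw [mem_cl] at h1 h2
  exact h (h1.2.symm.trans h2.2)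

private theorem three_le (c : V → V → ZMod m) (u : V) {e e' : ZMod m} (h : e ≠ e')
    {O : Finset V} (hO : ∀ x ∈ O, x ≠ u ∧ c u x ≠ e ∧ c u x ≠ e') :
    O.card + (cl c u e).card + (cl c u e').card + 1 ≤ Fintype.card V := by
  have h1 : Disjoint O (cl c u e) := by
    rw [Finset.disjoint_left]
    intro x h1 h2
    exact (hO x h1).2.1 (mem_cl.1 h2).2
  have h2 : Disjoint (O ∪ cl c u e) (cl c u e') := by
    rw [Finset.disjoint_union_left]
    refine ⟨?_, cl_dj c u h⟩
    rw [Finset.disjoint_left]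
    intro x h1 h2
    exact (hO x h1).2.2 (mem_cl.1 h2).2
  have h3 : (O ∪ cl c u e ∪ cl c u e') ⊆ univ.erase u := by
    refine Finset.union_subset (Finset.union_subset ?_ (cl_sub c u e)) (cl_sub c u e')
    intro x hx
    exact Finset.mem_erase.2 ⟨(hO x hx).1, Finset.mem_univ x⟩
  have h4 := Finset.card_le_card h3
  rw [Finset.card_union_of_disjoint h2, Finset.card_union_of_disjoint h1] at h4
  have h5 := Finset.card_erase_add_one (Finset.mem_univ u)
  rw [Finset.card_univ] at h5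
  omega

theorem ncen_est [NeZero m] {c : V → V → ZMod m} {s : ℕ} {u v : V} {p q : ZMod m} {a b r A : ℕ} {T : ℤ}
    (h : WP c s u v p q a b r A T) {z0 : ℤ} {al ga : V → ℤ} {θ : ℤ} (hn : WNon c s u v z0 al ga θ) :
    ESt c s u := by
  have hm1 := h.m1
  have hs4 := h.s4
  have hm : 2 ≤ m := by omega
  have hP := hn.pl
  have hXc : ((XX u v).card : ℤ) = m + s - 2 := by
    have h1 := card_XX h.ne
    rw [h.card] at h1
    omega
  have hXn : (XX u v).card + 2 = m + s := by
    have h1 := card_XX h.ne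
    rw [h.card] at h1
    exact h1
  have hD : ((XX u v).filter (fun w => al w ≠ ga w)).card = Df c u v :=
    own_card hP h.card (by omega) hm
  have hk0 : 0 ≤ ∑ w ∈ XX u v, max (max (al w) (ga w) - θ) 0 :=
    Finset.sum_nonneg fun w _ => le_max_right _ _
  have hk1 : 0 ≤ ∑ w ∈ XX u v, max (θ - min (al w) (ga w)) 0 :=
    Finset.sum_nonneg fun w _ => le_max_right _ _
  have hup := hn.up
  have hdn := hn.dn
  have hco := hn.co
  -- the threshold is not the colour of `u v`
  have h1 : ((θ : ℤ) : ZMod m) ≠ c u v := by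
    intro he
    have hz : (((z0 + (m - 1) * θ : ℤ)) : ZMod m) = 0 := by
      push_cast
      rw [hP.h0, ← he, ZMod.natCast_self]
      ring
    have hdvd := (ZMod.intCast_zmod_eq_zero_iff_dvd _ m).1 hz
    have h2 := Int.le_of_dvd (by omega) hdvd
    omega
  set f : V → ℤ := fun w => ffw θ (al w) (ga w) with hf
  have hf0 : ∀ w, 0 ≤ f w := fun w => (ffw_facts θ (al w) (ga w)).1
  have hfs : 2 * ∑ w ∈ XX u v, f w ≤ T ∧
      (Df c u v : ℤ) + 2 * s ≤ ((cl c u θ).card : ℤ) + (cl c v θ).card := by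
    have h2 : ∑ w ∈ XX u v, f w = _ := ffw_sum (XX u v) θ al ga
    have h3 : ∑ w ∈ XX u v, kkw θ (al w) (ga w) + 2 ≤ m := hco
    have h4 : ((XX u v).filter (fun w => al w = θ)).card ≤ (cl c u θ).card := by
      refine Finset.card_le_card fun w hw => ?_
      rw [Finset.mem_filter, mem_XX] at hw
      rw [mem_cl]
      refine ⟨hw.1.1, ?_⟩
      rw [← hP.hu w hw.1.1 hw.1.2, hw.2]
    have h5 : ((XX u v).filter (fun w => ga w = θ)).card ≤ (cl c v θ).card := by
      refine Finset.card_le_card fun w hw => ?_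
      rw [Finset.mem_filter, mem_XX] at hw
      rw [mem_cl]
      refine ⟨hw.1.2, ?_⟩
      rw [← hP.hx w hw.1.1 hw.1.2, hw.2]
    have h6 := h.d2 θ h1
    have h7 : 0 ≤ ∑ w ∈ XX u v, f w := Finset.sum_nonneg fun w _ => hf0 w
    rw [hD] at h2
    constructor
    · omega
    · omega
  obtain ⟨hfT, hDs⟩ := hfs
  -- the threshold is one of the two large colours
  have h2 : ((θ : ℤ) : ZMod m) = p ∨ ((θ : ℤ) : ZMod m) = q := by
    by_contra hcon
    rw [not_or] at hcon
    have h3 := three_le c u h.pq (O := cl c u θ) (fun x hx => by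
      rw [mem_cl] at hx
      rw [hx.2]
      exact ⟨hx.1, hcon⟩)
    rw [h.ca, h.cb, h.card] at h3
    have h4 := h.cv θ
    have h5 := h.n3
    have h6 := h.hr
    omega
  have hba := h.ba
  have hn2 := h.n2
  have hT0 := h.T0
  -- the two classes
  obtain ⟨hc1, hc2, hc3⟩ : b ≤ (cl c u θ).card ∧ b ≤ (cl c u (c u v)).card ∧
      (cl c u θ).card + (cl c u (c u v)).card = a + b := by
    rcases h2 with h2 | h2 <;> rcases h.cuv with h3 | h3
    · exact absurd (h2.trans h3.symm) h1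
    · rw [h2, h3, h.ca, h.cb]
      exact ⟨hba, le_rfl, rfl⟩
    · rw [h2, h3, h.ca, h.cb]
      exact ⟨le_rfl, hba, add_comm _ _⟩
    · exact absurd (h2.trans h3.symm) h1
  have hbig : s + 4 ≤ b := by omega
  have near : ∀ e : ZMod m, b ≤ (cl c u e).card → ∀ w ∈ XX u v, c u w = e →
      ¬ (θ + 2 ≤ al w ∨ al w + 2 ≤ θ) := by
    intro e he w hw hwe hcon
    have h3 : ∀ w' ∈ (cl c u e).erase v, 1 ≤ f w' := by
      intro w' hw'
      rw [Finset.mem_erase, mem_cl] at hw'
      have h4 : al w' = al w := al_const hP h.card (by omega) hm (mem_XX.2 ⟨hw'.2.1, hw'.1⟩) hw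
        (by rw [hw'.2.2, hwe])
      refine (ffw_facts θ (al w') (ga w')).2.2.2 ?_
      rw [h4]
      exact hcon
    have h5 : (cl c u e).erase v ⊆ XX u v := by
      intro w' hw'
      rw [Finset.mem_erase, mem_cl] at hw'
      exact mem_XX.2 ⟨hw'.2.1, hw'.1⟩
    have h6 : ∑ w' ∈ (cl c u e).erase v, (1 : ℤ) ≤ ∑ w' ∈ XX u v, f w' :=
      (Finset.sum_le_sum h3).trans (Finset.sum_le_sum_of_subset_of_nonneg h5 fun w' _ _ => hf0 w')
    rw [Finset.sum_const, nsmul_eq_mul, mul_one] at h6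
    have h7 := Finset.pred_card_le_card_erase (s := cl c u e) (a := v)
    omega
  -- the second value
  have hne : ((cl c u (c u v)).erase v).Nonempty := by
    rw [← Finset.card_pos]
    have h7 := Finset.pred_card_le_card_erase (s := cl c u (c u v)) (a := v)
    omega
  obtain ⟨w0, hw0⟩ := hne
  rw [Finset.mem_erase, mem_cl] at hw0
  have hw0X : w0 ∈ XX u v := mem_XX.2 ⟨hw0.2.1, hw0.1⟩
  set κ := al w0 with hκ
  have hκc : ((κ : ℤ) : ZMod m) = c u v := by rw [hκ, hP.hu w0 hw0.2.1 hw0.1, hw0.2.2]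
  have hκθ : κ ≠ θ := by
    intro he
    apply h1
    rw [← he, hκc]
  have hκn := near _ hc2 w0 hw0X hw0.2.2
  rw [← hκ] at hκn
  have hκ2 : κ = θ + 1 ∨ κ = θ - 1 := by omega
  have alc : ∀ w ∈ XX u v, c u w = c u v → al w = κ := fun w hw he =>
    al_const hP h.card (by omega) hm hw hw0X (by rw [he, hw0.2.2])
  have alθ : ∀ w ∈ XX u v, c u w = θ → al w = θ := by
    intro w hw he
    have h3 := near _ hc1 w hw he
    have h4 : ((al w - θ : ℤ) : ZMod m) = 0 := by
      push_cast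
      rw [hP.hu w (mem_XX.1 hw).1 (mem_XX.1 hw).2, he, sub_self]
    obtain ⟨d, hd⟩ := (ZMod.intCast_zmod_eq_zero_iff_dvd _ m).1 h4
    by_contra hcon
    have h5 : d ≠ 0 := by
      rintro rfl
      omega
    have h6 : (m : ℤ) ≤ |(m : ℤ) * d| := by
      rw [abs_mul, Nat.abs_cast]
      have := Int.one_le_abs h5
      nlinarith
    rw [← hd] at h6
    have h7 : |al w - θ| ≤ 1 := abs_le.2 ⟨by omega, by omega⟩
    omega
  have hvX : v ∉ XX u v := fun hv => (mem_XX.1 hv).2 rfl
  set y : V → ℤ := fun w => if w = v then κ else al w with hy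
  have hyv : y v = κ := if_pos rfl
  have hyw : ∀ w, w ≠ v → y w = al w := fun w hw => if_neg hw
  have hyc : ∀ w, w ≠ u → (y w : ZMod m) = c u w := by
    intro w hw
    by_cases hwv : w = v
    · rw [hwv, hyv, hκc]
    · rw [hyw w hwv, hP.hu w hw hwv]
  -- the classes in terms of `y`
  have hyθ : ∀ w ∈ cl c u θ, w ∈ univ.erase u ∧ y w = θ := by
    intro w hw
    rw [mem_cl] at hw
    have hwv : w ≠ v := by
      rintro rfl
      exact h1 hw.2.symm
    refine ⟨Finset.mem_erase.2 ⟨hw.1, Finset.mem_univ w⟩, ?_⟩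
    rw [hyw w hwv]
    exact alθ w (mem_XX.2 ⟨hw.1, hwv⟩) hw.2
  have hyκ : ∀ w ∈ cl c u (c u v), w ∈ univ.erase u ∧ y w = κ := by
    intro w hw
    rw [mem_cl] at hw
    refine ⟨Finset.mem_erase.2 ⟨hw.1, Finset.mem_univ w⟩, ?_⟩
    by_cases hwv : w = v
    · rw [hwv, hyv]
    · rw [hyw w hwv]
      exact alc w (mem_XX.2 ⟨hw.1, hwv⟩) hw.2
  -- the excess
  have hexs : ∀ θ' : ℤ, ex1 θ' θ = 0 → ex1 θ' κ = 0 → (θ' = θ ∨ θ' = θ + 1) →
      ∑ w ∈ univ.erase u, ex1 θ' (y w) + 2 ≤ s := by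
    intro θ' e1 e2 e3
    have hvm : v ∈ univ.erase u := Finset.mem_erase.2 ⟨h.ne.symm, Finset.mem_univ v⟩
    rw [← Finset.add_sum_erase _ _ hvm, hyv, e2, zero_add]
    have h3 : ∑ w ∈ (univ.erase u).erase v, ex1 θ' (y w) ≤
        ∑ w ∈ XX u v, ((if c u w ≠ θ ∧ c u w ≠ c u v then 1 else 0) + f w) := by
      refine Finset.sum_le_sum fun w hw => ?_
      have hwX : w ∈ XX u v := hw
      have hww := mem_XX.1 hwX
      rw [hyw w hww.2]
      have hfw := ffw_facts θ (al w) (ga w)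
      by_cases h4 : c u w = θ
      · rw [alθ w hwX h4, e1, if_neg (fun h5 => h5.1 h4), zero_add]
        exact hf0 w
      by_cases h5 : c u w = c u v
      · rw [alc w hwX h5, e2, if_neg (fun h6 => h6.2 h5), zero_add]
        exact hf0 w
      rw [if_pos ⟨h4, h5⟩]
      show ex1 θ' (al w) ≤ 1 + ffw θ (al w) (ga w)
      unfold ex1
      omega
    rw [Finset.sum_add_distrib, Finset.sum_boole] at h3
    have h4 := three_le c u h1 (O := (XX u v).filter (fun w => c u w ≠ θ ∧ c u w ≠ c u v))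
      (fun x hx => by
        rw [Finset.mem_filter, mem_XX] at hx
        exact ⟨hx.1.1, hx.2⟩)
    rw [h.card] at h4
    have h5 := h.hr
    have h6 := h.n1
    omega
  rcases hκ2 with hκ2 | hκ2
  · refine est_build h.zsf h.card (by omega) y hyc (θ + 1) (hexs _ ?_ ?_ (Or.inr rfl)) ?_ ?_
    · unfold ex1
      omega
    · unfold ex1
      omega
    · have h3 : (cl c u θ).card ≤ ((univ.erase u).filter (fun w => y w ≤ θ + 1 - 1)).card := by
        refine Finset.card_le_card fun w hw => Finset.mem_filter.2 ⟨(hyθ w hw).1, ?_⟩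
        rw [(hyθ w hw).2]
        omega
      omega
    · have h3 : (cl c u (c u v)).card ≤ ((univ.erase u).filter (fun w => θ + 1 ≤ y w)).card := by
        refine Finset.card_le_card fun w hw => Finset.mem_filter.2 ⟨(hyκ w hw).1, ?_⟩
        rw [(hyκ w hw).2]
        omega
      omega
  · refine est_build h.zsf h.card (by omega) y hyc θ (hexs _ ?_ ?_ (Or.inl rfl)) ?_ ?_
    · unfold ex1
      omega
    · unfold ex1
      omega
    · have h3 : (cl c u (c u v)).card ≤ ((univ.erase u).filter (fun w => y w ≤ θ - 1)).card := by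
        refine Finset.card_le_card fun w hw => Finset.mem_filter.2 ⟨(hyκ w hw).1, ?_⟩
        rw [(hyκ w hw).2]
        omega
      omega
    · have h3 : (cl c u θ).card ≤ ((univ.erase u).filter (fun w => θ ≤ y w)).card := by
        refine Finset.card_le_card fun w hw => Finset.mem_filter.2 ⟨(hyθ w hw).1, ?_⟩
        rw [(hyθ w hw).2]
      omega

end H
end ZS44129
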