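import Pool.Agent.Work.MP_44129c_co.H.W0
import Pool.Agent.Work.MP_44129c_co.H.W1

/-!
# MP_44129c_co/H, W3 (size M): central threshold, pointwise facts and the positions of the two main classes

PROOFS.  Pointwise facts: case distinction (`max`, `min`; `split_ifs`, `omega` after `rcases le_total`).  `g_sum`: `∑ gs = ∑ cost - D ≤ m - s - 1 - D` (`own_card`), `d1`.
`cen_pos`: `P = (cl c u p).erase v`, `Q = (cl c u q).erase v` have at least `b - 1` elements in `XX u v`, `al = p1` on `P`, `al = p2` on `Q` (`al_const`).  `2 ∑ gs ≤ T < 2 (b - 1)` (`n2`, `m1`), so some `w ∈ P` has `gs = 0`, hence (`gs_far`) `θ - 2 ≤ p1 ≤ θ + 1`; the same for `p2`.  `p1 ≠ p2` (different colours).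
Not `{p1, p2} = {θ - 2, θ + 1}`: otherwise (`gs_top`, `gs_bot`) every `w ∈ P ∪ Q` with `gs = 0` has `al w ≠ ga w`, so `D ≥ (a + b - 1) - ∑ gs`, while `D + ∑ gs = ∑ cost ≤ m - s - 1`: `a + b ≤ m - s`, i.e. (`hr`) `2 s ≤ r + 1`: contradiction to `n1`.
-/

set_option autoImplicit false

namespace ZS44129
namespace H

open Finset E N

variable {V : Type} [Fintype V] [DecidableEq V] {m : ℕ}

private theorem erase_cl_sub (c : V → V → ZMod m) (u v : V) (e : ZMod m) :
    (cl c u e).erase v ⊆ XX u v := by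
  intro w hw
  have h1 := (mem_cl.mp (Finset.mem_of_mem_erase hw)).1
  have h2 := Finset.ne_of_mem_erase hw
  simp [XX, h1, h2]

theorem gs_nonneg (θ a b : ℤ) : 0 ≤ gs θ a b := by
  unfold gs cost
  split_ifs <;> omega

theorem gs_far {θ a b : ℤ} (h : gs θ a b = 0) : θ - 2 ≤ a ∧ a ≤ θ + 1 := by
  unfold gs cost at h
  split_ifs at h <;> omega

theorem gs_top {θ b : ℤ} (h : gs θ (θ + 1) b = 0) : b = θ := by
  unfold gs cost at h
  split_ifs at h <;> omega

theorem gs_bot {θ b : ℤ} (h : gs θ (θ - 2) b = 0) : b = θ - 1 := by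
  unfold gs cost at h
  split_ifs at h <;> omega

theorem ex1_cost (θ a b : ℤ) : ex1 θ a ≤ cost θ a b := by
  unfold ex1 cost
  split_ifs <;> omega

theorem ex1_add (θ a b : ℤ) : ex1 θ a + ex1 θ b ≤ cost θ a b + gs θ a b := by
  unfold ex1 gs cost
  split_ifs <;> omega

theorem cost_le (θ a b : ℤ) : cost θ a b ≤ 1 + gs θ a b := by
  unfold gs
  split_ifs <;> omega

theorem g_sum [NeZero m] {c : V → V → ZMod m} {s : ℕ} {u v : V} {p q : ZMod m} {a b r A : ℕ} {T : ℤ}
    (h : WP c s u v p q a b r A T) {z0 : ℤ} {al ga : V → ℤ} {θ : ℤ} (hc : WCen c s u v z0 al ga θ) :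
    2 * ∑ w ∈ XX u v, gs θ (al w) (ga w) ≤ T ∧
      ∑ w ∈ XX u v, cost θ (al w) (ga w) = Df c u v + ∑ w ∈ XX u v, gs θ (al w) (ga w) := by
  have hs := h.s4
  have hm := h.m1
  have hD := own_card hc.pl h.card (by omega) (by omega)
  have hsum : ∑ w ∈ XX u v, cost θ (al w) (ga w)
      = Df c u v + ∑ w ∈ XX u v, gs θ (al w) (ga w) := by
    have e1 : (Df c u v : ℤ) = ∑ w ∈ XX u v, (if al w ≠ ga w then (1 : ℤ) else 0) := by
      rw [← hD, Finset.card_filter]
      push_cast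
      rfl
    rw [e1, ← Finset.sum_add_distrib]
    refine Finset.sum_congr rfl fun w _ => ?_
    unfold gs
    ring
  refine ⟨?_, hsum⟩
  have h1 := hc.co
  have h2 := h.d1
  omega

theorem cen_pos [NeZero m] {c : V → V → ZMod m} {s : ℕ} {u v : V} {p q : ZMod m} {a b r A : ℕ} {T : ℤ}
    (h : WP c s u v p q a b r A T) {z0 : ℤ} {al ga : V → ℤ} {θ : ℤ} (hc : WCen c s u v z0 al ga θ) :
    ∃ p1 p2 : ℤ, (p1 : ZMod m) = p ∧ (p2 : ZMod m) = q ∧ (∀ w ∈ XX u v, c u w = p → al w = p1) ∧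
      (∀ w ∈ XX u v, c u w = q → al w = p2) ∧ p1 ≠ p2 ∧ θ - 2 ≤ p1 ∧ p1 ≤ θ + 1 ∧ θ - 2 ≤ p2 ∧ p2 ≤ θ + 1 ∧
      |p1 - p2| ≤ 2 := by
  have hs := h.s4
  have hm := h.m1
  have hT := h.T0
  have hn1 := h.n1
  have hn2 := h.n2
  have hba := h.ba
  have hr := h.hr
  obtain ⟨hg1, hg2⟩ := g_sum h hc
  have hPX : ∀ e : ZMod m, (cl c u e).erase v ⊆ XX u v := fun e => erase_cl_sub c u v e
  have hca := h.ca
  have hcb := h.cb
  have hP : b ≤ ((cl c u p).erase v).card + 1 := by
    have := Finset.pred_card_le_card_erase (s := cl c u p) (a := v)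
    omega
  have hQ : b ≤ ((cl c u q).erase v).card + 1 := by
    have := Finset.pred_card_le_card_erase (s := cl c u q) (a := v)
    omega
  have hcon : ∀ w ∈ XX u v, ∀ w' ∈ XX u v, c u w = c u w' → al w = al w' := fun w hw w' hw' he =>
    al_const hc.pl h.card (by omega) (by omega) hw hw' he
  have key : ∀ e : ZMod m, b ≤ ((cl c u e).erase v).card + 1 →
      ∃ p1 : ℤ, (p1 : ZMod m) = e ∧ (∀ w ∈ XX u v, c u w = e → al w = p1) ∧ θ - 2 ≤ p1 ∧ p1 ≤ θ + 1 := by
    intro e he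
    have hex : ∃ w ∈ (cl c u e).erase v, gs θ (al w) (ga w) = 0 := by
      by_contra hcon'
      push Not at hcon'
      have h1 : ∀ w ∈ (cl c u e).erase v, (1 : ℤ) ≤ gs θ (al w) (ga w) := by
        intro w hw
        have h2 := hcon' w hw
        have h3 := gs_nonneg θ (al w) (ga w)
        omega
      have h2 : (((cl c u e).erase v).card : ℤ) ≤ ∑ w ∈ (cl c u e).erase v, gs θ (al w) (ga w) := by
        have := Finset.sum_le_sum h1
        simpa using this
      have h3 : ∑ w ∈ (cl c u e).erase v, gs θ (al w) (ga w) ≤ ∑ w ∈ XX u v, gs θ (al w) (ga w) :=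
        Finset.sum_le_sum_of_subset_of_nonneg (hPX e) fun w _ _ => gs_nonneg _ _ _
      omega
    obtain ⟨w, hw, hw0⟩ := hex
    have hwX := hPX e hw
    have hwc : c u w = e := (mem_cl.mp (Finset.mem_of_mem_erase hw)).2
    have hwu : w ≠ u := (mem_cl.mp (Finset.mem_of_mem_erase hw)).1
    have hwv : w ≠ v := Finset.ne_of_mem_erase hw
    refine ⟨al w, ?_, ?_, (gs_far hw0).1, (gs_far hw0).2⟩
    · rw [hc.pl.hu w hwu hwv, hwc]
    · intro w' hw' he'
      exact hcon w' hw' w hwX (by rw [he', hwc])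
  obtain ⟨p1, hp1, hp1c, hp1l, hp1h⟩ := key p hP
  obtain ⟨p2, hp2, hp2c, hp2l, hp2h⟩ := key q hQ
  have hne : p1 ≠ p2 := by
    intro he
    apply h.pq
    rw [← hp1, ← hp2, he]
  refine ⟨p1, p2, hp1, hp2, hp1c, hp2c, hne, hp1l, hp1h, hp2l, hp2h, ?_⟩
  by_contra hab
  have hcase : (p1 = θ + 1 ∨ p1 = θ - 2) ∧ (p2 = θ + 1 ∨ p2 = θ - 2) := by
    rw [abs_le] at hab
    constructor <;> omega
  have hcost : ∀ w ∈ (cl c u p).erase v ∪ (cl c u q).erase v, (1 : ℤ) ≤ cost θ (al w) (ga w) := by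
    intro w hw
    have h1 : al w = θ + 1 ∨ al w = θ - 2 := by
      rcases Finset.mem_union.mp hw with hw | hw
      · rw [hp1c w (hPX p hw) (mem_cl.mp (Finset.mem_of_mem_erase hw)).2]
        exact hcase.1
      · rw [hp2c w (hPX q hw) (mem_cl.mp (Finset.mem_of_mem_erase hw)).2]
        exact hcase.2
    rcases h1 with h1 | h1
    · rw [h1]
      unfold cost
      split_ifs <;> omega
    · rw [h1]
      unfold cost
      split_ifs <;> omega
  have hdisj : Disjoint ((cl c u p).erase v) ((cl c u q).erase v) := by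
    rw [Finset.disjoint_left]
    intro w hw hw'
    apply h.pq
    rw [← (mem_cl.mp (Finset.mem_of_mem_erase hw)).2, ← (mem_cl.mp (Finset.mem_of_mem_erase hw')).2]
  have hcard : a + b = ((cl c u p).erase v ∪ (cl c u q).erase v).card + 1 := by
    rw [Finset.card_union_of_disjoint hdisj]
    rcases h.cuv with hv | hv
    · have hvp : v ∈ cl c u p := mem_cl.mpr ⟨fun he => h.ne he.symm, hv⟩
      have hvq : v ∉ cl c u q := fun hq => h.pq (by rw [← hv, (mem_cl.mp hq).2])
      rw [Finset.erase_eq_of_notMem hvq, Finset.card_erase_of_mem hvp]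
      have : 0 < (cl c u p).card := Finset.card_pos.mpr ⟨v, hvp⟩
      omega
    · have hvp : v ∉ cl c u p := fun hq => h.pq (by rw [← hv, (mem_cl.mp hq).2])
      have hvq : v ∈ cl c u q := mem_cl.mpr ⟨fun he => h.ne he.symm, hv⟩
      rw [Finset.erase_eq_of_notMem hvp, Finset.card_erase_of_mem hvq]
      have : 0 < (cl c u q).card := Finset.card_pos.mpr ⟨v, hvq⟩
      omega
  have h2 : ((((cl c u p).erase v ∪ (cl c u q).erase v).card : ℕ) : ℤ)
      ≤ ∑ w ∈ (cl c u p).erase v ∪ (cl c u q).erase v, cost θ (al w) (ga w) := by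
    have := Finset.sum_le_sum hcost
    simpa using this
  have h3 : ∑ w ∈ (cl c u p).erase v ∪ (cl c u q).erase v, cost θ (al w) (ga w)
      ≤ ∑ w ∈ XX u v, cost θ (al w) (ga w) := by
    refine Finset.sum_le_sum_of_subset_of_nonneg (Finset.union_subset (hPX p) (hPX q)) fun w _ _ => ?_
    have h4 := gs_nonneg θ (al w) (ga w)
    unfold gs at h4
    split_ifs at h4 <;> omega
  have h5 := hc.co
  omega

end H
end ZS44129
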