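import Pool.Agent.Work.MP_44129c_co.H.W3

/-!
# MP_44129c_co/H, W4 (size M-L): central threshold, neighbouring main values

`x1`, `x2` = the smaller and the larger main value of `u` (`cen_pos`), `x2 = x1 + 1`; `k1`, `k2` the two colours (`{k1, k2} = {p, q}`), both classes have at least `b` elements, together `a + b`.
PROOF of `cen_mid` (`x1 = θ - 1`, `x2 = θ`).  `est_build` for `u` with the threshold `θ`, `y = al`, `y v` = the main value of the colour `c u v`.  `ex1 = 0` on the two classes; on the at most `r` others `ex1 θ (al w) ≤ cost ≤ 1 + gs`: total `≤ r + ∑ gs ≤ r + T / 2 ≤ s - 2`.  The sizes: `b ≥ s` (`n2`, `m1`).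
PROOF of `cen_top` (`x1 = θ`, `x2 = θ + 1`).  `z' = z0 + (m - 1) θ`.  `dn`: `z' ≥ 1 + ∑ max (θ - min) 0 ≥ 1`.  `up`: `z' ≤ 2 (m - 1) - ∑ max (max - (θ - 1)) 0`, and the summand is `≥ 2` on the class of value `θ + 1` (at least `b - 1` elements of `XX u v`), `≥ 1` on the class of value `θ`; together these classes have
`a + b - 1` elements in `XX u v` (`v` is in one of them): `z' ≤ 2 (m - 1) - (a + b - 1) - (b - 1) = m - s + 1 + r - b < m` (`hr`, `n1`, `n2`).  `z' ≡ z0 - θ` is `≡ 0` or `≡ 1 (mod m)` because `z0 ≡ c u v ∈ {p, q}`; so `z' = 1` and all `min (al w) (ga w) ≥ θ`.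
`est_build` for `u` with the threshold `θ + 1`: `ex1 (θ + 1) (al w) = max (al w - θ - 1) 0 ≤ gs θ (al w) (ga w)` (if `al w ≥ θ + 2` the cost is `≥ al w - θ`), so the total is `≤ T / 2 ≤ s - 2`.
-/

set_option autoImplicit false

namespace ZS44129
namespace H

open Finset E N

variable {V : Type} [Fintype V] [DecidableEq V] {m : ℕ}

/-- splitting of a class. -/
private theorem w4_cl {c : V → V → ZMod m} {u v : V} (hne : u ≠ v) (e : ZMod m) :
    (cl c u e).card = ((XX u v).filter (fun w => c u w = e)).card + (if c u v = e then 1 else 0) := by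
  have hv : v ∈ univ.erase u := Finset.mem_erase.2 ⟨hne.symm, Finset.mem_univ v⟩
  have h1 : univ.erase u = insert v (XX u v) := by
    unfold XX
    rw [Finset.insert_erase hv]
  have h2 : v ∉ (XX u v).filter (fun w => c u w = e) :=
    fun h => (mem_XX.1 (Finset.mem_filter.1 h).1).2 rfl
  unfold cl
  rw [h1, Finset.filter_insert]
  split_ifs with h3
  · rw [Finset.card_insert_of_notMem h2]
  · rw [add_zero]

private theorem w4_sum {u v : V} (hne : u ≠ v) (f : V → ℤ) :
    ∑ w ∈ univ.erase u, f w = f v + ∑ w ∈ XX u v, f w :=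
  (Finset.add_sum_erase (univ.erase u) f (Finset.mem_erase.2 ⟨hne.symm, Finset.mem_univ v⟩)).symm

/-- counting in `XX u v`. -/
private theorem w4_cnt [NeZero m] {c : V → V → ZMod m} {s : ℕ} {u v : V} {p q : ZMod m} {a b r A : ℕ} {T : ℤ}
    (h : WP c s u v p q a b r A T) :
    ((XX u v).filter (fun w => c u w = p)).card + ((XX u v).filter (fun w => c u w = q)).card + 1 = a + b ∧
    ((XX u v).filter (fun w => c u w ≠ p ∧ c u w ≠ q)).card = r ∧
    b ≤ ((XX u v).filter (fun w => c u w = p)).card + 1 ∧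
    b ≤ ((XX u v).filter (fun w => c u w = q)).card + 1 := by
  have hp := w4_cl (c := c) h.ne p
  have hq := w4_cl (c := c) h.ne q
  rw [h.ca] at hp
  rw [h.cb] at hq
  have hX := card_XX h.ne
  rw [h.card] at hX
  have e : ∀ w ∈ XX u v, (1 : ℕ) = (if c u w = p then 1 else 0) + (if c u w = q then 1 else 0) +
      (if (c u w ≠ p ∧ c u w ≠ q) then 1 else 0) := by
    intro w _
    by_cases h1 : c u w = p
    · have h2 : c u w ≠ q := by rw [h1]; exact h.pq
      rw [if_pos h1, if_neg h2, if_neg (fun h3 => h3.1 h1)]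
    · by_cases h2 : c u w = q
      · rw [if_neg h1, if_pos h2, if_neg (fun h3 => h3.2 h2)]
      · rw [if_neg h1, if_neg h2, if_pos ⟨h1, h2⟩]
  have e1 := Finset.sum_congr rfl e
  rw [Finset.sum_add_distrib, Finset.sum_add_distrib, ← Finset.card_eq_sum_ones,
    ← Finset.card_filter, ← Finset.card_filter, ← Finset.card_filter] at e1
  have hr := h.hr
  have hba := h.ba
  rcases h.cuv with h1 | h1
  · have h2 : c u v ≠ q := by rw [h1]; exact h.pq
    rw [if_pos h1] at hp
    rw [if_neg h2] at hq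
    omega
  · have h2 : c u v ≠ p := by rw [h1]; exact h.pq.symm
    rw [if_neg h2] at hp
    rw [if_pos h1] at hq
    omega

/-- the lift of the star of `u`. -/
private theorem w4_y [NeZero m] {c : V → V → ZMod m} {s : ℕ} {u v : V} {p q : ZMod m} {a b r A : ℕ} {T : ℤ}
    (h : WP c s u v p q a b r A T) {z0 : ℤ} {al ga : V → ℤ} (hp : PLift c u v z0 al ga)
    {p1 p2 : ℤ} (h1 : (p1 : ZMod m) = p) (h2 : (p2 : ZMod m) = q) (h3 : ∀ w ∈ XX u v, c u w = p → al w = p1)
    (h4 : ∀ w ∈ XX u v, c u w = q → al w = p2) :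
    ∃ y : V → ℤ, (∀ w, w ≠ u → (y w : ZMod m) = c u w) ∧ (∀ w ∈ XX u v, y w = al w) ∧
      (y v = p1 ∨ y v = p2) ∧ (∀ w ∈ cl c u p, y w = p1) ∧ (∀ w ∈ cl c u q, y w = p2) := by
  refine ⟨fun w => if w = v then (if c u v = p then p1 else p2) else al w, ?_, ?_, ?_, ?_, ?_⟩
  · intro w hw
    by_cases hwv : w = v
    · subst hwv
      simp only [if_true]
      split_ifs with h5
      · rw [h1, h5]
      · rw [h2]
        exact (h.cuv.resolve_left h5).symm
    · simp only [if_neg hwv]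
      exact hp.hu w hw hwv
  · intro w hw
    simp only [if_neg (mem_XX.1 hw).2]
  · simp only [if_true]
    split_ifs with h5
    · exact Or.inl rfl
    · exact Or.inr rfl
  · intro w hw
    obtain ⟨hwu, hwp⟩ := mem_cl.1 hw
    by_cases hwv : w = v
    · subst hwv
      simp only [if_true]
      rw [if_pos hwp]
    · simp only [if_neg hwv]
      exact h3 w (mem_XX.2 ⟨hwu, hwv⟩) hwp
  · intro w hw
    obtain ⟨hwu, hwq⟩ := mem_cl.1 hw
    by_cases hwv : w = v
    · subst hwv
      simp only [if_true]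
      rw [if_neg (by rw [hwq]; exact h.pq.symm)]
    · simp only [if_neg hwv]
      exact h4 w (mem_XX.2 ⟨hwu, hwv⟩) hwq

/-- a class gives elements with given property. -/
private theorem w4_sub {c : V → V → ZMod m} {u : V} {e : ZMod m} {y : V → ℤ} {x : ℤ}
    (hy : ∀ w ∈ cl c u e, y w = x) (P : ℤ → Prop) [DecidablePred P] (hP : P x) :
    (cl c u e).card ≤ ((univ.erase u).filter (fun w => P (y w))).card := by
  apply Finset.card_le_card
  intro w hw
  have h1 := hy w hw
  rw [Finset.mem_filter, h1]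
  exact ⟨Finset.mem_erase.2 ⟨(mem_cl.1 hw).1, Finset.mem_univ w⟩, hP⟩

private theorem w4_pt {θ a b : ℤ} (h : θ ≤ min a b) : ex1 (θ + 1) a ≤ gs θ a b := by
  unfold ex1 gs cost
  split_ifs <;> omega

theorem cen_mid [NeZero m] {c : V → V → ZMod m} {s : ℕ} {u v : V} {p q : ZMod m} {a b r A : ℕ} {T : ℤ}
    (h : WP c s u v p q a b r A T) {z0 : ℤ} {al ga : V → ℤ} {θ : ℤ} (hc : WCen c s u v z0 al ga θ)
    {p1 p2 : ℤ} (h1 : (p1 : ZMod m) = p) (h2 : (p2 : ZMod m) = q) (h3 : ∀ w ∈ XX u v, c u w = p → al w = p1)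
    (h4 : ∀ w ∈ XX u v, c u w = q → al w = p2)
    (h5 : (p1 = θ - 1 ∧ p2 = θ) ∨ (p1 = θ ∧ p2 = θ - 1)) : ESt c s u := by
  obtain ⟨y, y1, y2, y3, y4, y5⟩ := w4_y h hc.pl h1 h2 h3 h4
  obtain ⟨k1, k2, k3, k4⟩ := w4_cnt h
  have hg := (g_sum h hc).1
  have n1 := h.n1
  have n2 := h.n2
  have hT := h.T0
  have hm1 := h.m1
  have hba := h.ba
  have ez : ∀ x : ℤ, x = p1 ∨ x = p2 → ex1 θ x = 0 := by
    intro x hx
    unfold ex1
    rcases hx with h6 | h6 <;> rw [h6] <;> rcases h5 with ⟨h7, h8⟩ | ⟨h7, h8⟩ <;> omega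
  have hex : ∑ w ∈ univ.erase u, ex1 θ (y w) + 2 ≤ s := by
    rw [w4_sum h.ne, ez _ y3, zero_add]
    have e1 : ∑ w ∈ XX u v, ex1 θ (y w) ≤ ∑ w ∈ XX u v,
        (gs θ (al w) (ga w) + if (c u w ≠ p ∧ c u w ≠ q) then (1 : ℤ) else 0) := by
      apply Finset.sum_le_sum
      intro w hw
      rw [y2 w hw]
      have e2 := gs_nonneg θ (al w) (ga w)
      by_cases h6 : c u w ≠ p ∧ c u w ≠ q
      · rw [if_pos h6]
        have e3 := ex1_cost θ (al w) (ga w)
        have e4 := cost_le θ (al w) (ga w)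
        linarith
      · rw [if_neg h6, add_zero]
        have e3 : ex1 θ (al w) = 0 := by
          apply ez
          by_cases h7 : c u w = p
          · exact Or.inl (h3 w hw h7)
          · exact Or.inr (h4 w hw (by
              by_contra h8
              exact h6 ⟨h7, h8⟩))
        rw [e3]
        exact e2
    rw [Finset.sum_add_distrib, Finset.sum_boole, k2] at e1
    have e5 : ((s : ℕ) : ℤ) = s := rfl
    linarith
  have hP : ∀ (P : ℤ → Prop) [DecidablePred P], (P p1 ∨ P p2) →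
      s ≤ ((univ.erase u).filter (fun w => P (y w))).card + 1 := by
    intro P _ hP
    rcases hP with hP | hP
    · have e1 := w4_sub y4 P hP
      rw [h.ca] at e1
      omega
    · have e1 := w4_sub y5 P hP
      rw [h.cb] at e1
      omega
  refine est_build h.zsf h.card (by have := h.s4; omega) y y1 θ hex ?_ ?_
  · exact hP (fun x => x ≤ θ - 1) (by omega)
  · exact hP (fun x => θ ≤ x) (by omega)

theorem cen_top [NeZero m] {c : V → V → ZMod m} {s : ℕ} {u v : V} {p q : ZMod m} {a b r A : ℕ} {T : ℤ}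
    (h : WP c s u v p q a b r A T) {z0 : ℤ} {al ga : V → ℤ} {θ : ℤ} (hc : WCen c s u v z0 al ga θ)
    {p1 p2 : ℤ} (h1 : (p1 : ZMod m) = p) (h2 : (p2 : ZMod m) = q) (h3 : ∀ w ∈ XX u v, c u w = p → al w = p1)
    (h4 : ∀ w ∈ XX u v, c u w = q → al w = p2)
    (h5 : (p1 = θ ∧ p2 = θ + 1) ∨ (p1 = θ + 1 ∧ p2 = θ)) : ESt c s u := by
  obtain ⟨y, y1, y2, y3, y4, y5⟩ := w4_y h hc.pl h1 h2 h3 h4
  obtain ⟨k1, k2, k3, k4⟩ := w4_cnt h
  have hg := (g_sum h hc).1
  have n1 := h.n1
  have n2 := h.n2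
  have hT := h.T0
  have hm1 := h.m1
  have hba := h.ba
  have hr := h.hr
  have hdn := hc.dn
  have hup := hc.up
  have e1 : (a : ℤ) + b - 1 + (b - 1) ≤ ∑ w ∈ XX u v, max (max (al w) (ga w) - (θ - 1)) 0 := by
    have e2 : ∑ w ∈ XX u v, ((if c u w = p then (p1 - (θ - 1)) else 0) +
        (if c u w = q then (p2 - (θ - 1)) else 0)) ≤
        ∑ w ∈ XX u v, max (max (al w) (ga w) - (θ - 1)) 0 := by
      apply Finset.sum_le_sum
      intro w hw
      by_cases h6 : c u w = p
      · have h7 : c u w ≠ q := by rw [h6]; exact h.pq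
        rw [if_pos h6, if_neg h7, h3 w hw h6]
        omega
      · by_cases h7 : c u w = q
        · rw [if_neg h6, if_pos h7, h4 w hw h7]
          omega
        · rw [if_neg h6, if_neg h7]
          omega
    rw [Finset.sum_add_distrib, ← Finset.sum_filter, ← Finset.sum_filter, Finset.sum_const,
      Finset.sum_const, nsmul_eq_mul, nsmul_eq_mul] at e2
    refine le_trans ?_ e2
    rcases h5 with ⟨h7, h8⟩ | ⟨h7, h8⟩
    · rw [h7, h8]
      have e3 : θ - (θ - 1) = 1 := by ring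
      have e4 : θ + 1 - (θ - 1) = 2 := by ring
      rw [e3, e4]
      omega
    · rw [h7, h8]
      have e3 : θ - (θ - 1) = 1 := by ring
      have e4 : θ + 1 - (θ - 1) = 2 := by ring
      rw [e3, e4]
      omega
  have e2 : 0 ≤ ∑ w ∈ XX u v, max (θ - min (al w) (ga w)) 0 :=
    Finset.sum_nonneg fun w _ => le_max_right _ _
  obtain ⟨Y, hY⟩ : ∃ Y : ℤ, Y = z0 + (m - 1) * θ := ⟨_, rfl⟩
  have hY1 : 1 ≤ Y := by rw [hY]; linarith
  have hY2 : Y < m := by
    have e3 : z0 + (m - 1) * (θ - 1) = Y - (m - 1) := by rw [hY]; ring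
    rw [e3] at hup
    omega
  obtain ⟨x, hx, hx1⟩ : ∃ x : ℤ, (x : ZMod m) = c u v ∧ (x = p1 ∨ x = p2) := by
    rcases h.cuv with h6 | h6
    · exact ⟨p1, by rw [h1, h6], Or.inl rfl⟩
    · exact ⟨p2, by rw [h2, h6], Or.inr rfl⟩
  have hdv : (m : ℤ) ∣ Y - (x - θ) := by
    have e3 : (m : ℤ) ∣ z0 - x := by
      rw [← ZMod.intCast_zmod_eq_zero_iff_dvd]
      push_cast
      rw [hc.pl.h0, hx, sub_self]
    have e4 : Y - (x - θ) = (z0 - x) + m * θ := by rw [hY]; ring
    rw [e4]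
    exact dvd_add e3 (dvd_mul_right _ _)
  have hY3 := Int.eq_zero_of_dvd_of_nonneg_of_lt (m := Y - (x - θ)) (n := (m : ℤ)) (by omega) (by omega) hdv
  have hY4 : Y = 1 := by omega
  have e3 : ∑ w ∈ XX u v, max (θ - min (al w) (ga w)) 0 = 0 := by
    rw [← hY, hY4] at hdn
    linarith
  have e4 : ∀ w ∈ XX u v, θ ≤ min (al w) (ga w) := by
    intro w hw
    have e5 := (Finset.sum_eq_zero_iff_of_nonneg (fun w _ => le_max_right _ _)).1 e3 w hw
    omega
  have hex : ∑ w ∈ univ.erase u, ex1 (θ + 1) (y w) + 2 ≤ s := by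
    rw [w4_sum h.ne]
    have e5 : ex1 (θ + 1) (y v) = 0 := by
      unfold ex1
      rcases y3 with h6 | h6 <;> rw [h6] <;> rcases h5 with ⟨h7, h8⟩ | ⟨h7, h8⟩ <;> omega
    have e6 : ∑ w ∈ XX u v, ex1 (θ + 1) (y w) ≤ ∑ w ∈ XX u v, gs θ (al w) (ga w) := by
      apply Finset.sum_le_sum
      intro w hw
      rw [y2 w hw]
      exact w4_pt (e4 w hw)
    rw [e5, zero_add]
    linarith
  have hP : ∀ (P : ℤ → Prop) [DecidablePred P], (P p1 ∨ P p2) →
      s ≤ ((univ.erase u).filter (fun w => P (y w))).card + 1 := by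
    intro P _ hP
    rcases hP with hP | hP
    · have e1 := w4_sub y4 P hP
      rw [h.ca] at e1
      omega
    · have e1 := w4_sub y5 P hP
      rw [h.cb] at e1
      omega
  refine est_build h.zsf h.card (by have := h.s4; omega) y y1 (θ + 1) hex ?_ ?_
  · exact hP (fun x => x ≤ θ + 1 - 1) (by omega)
  · exact hP (fun x => θ + 1 ≤ x) (by omega)

end H
end ZS44129
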