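import Pool.Agent.Work.MP_44129c_co.H.W3

/-!
# MP_44129c_co/H, W5 (size M-L): central threshold, main values `θ - 1`, `θ + 1`: the star of `v` is good

`Z` = the `w ∈ XX u v` with `al w = θ + 1` in the main class of value `θ + 1` (at least `b - 1` elements), `Y` = the main class of value `θ - 1` in `XX u v`; `|Z| + |Y| = a + b - 1`.  `C = ∑ cost ≤ m - s - 1`, `∑ gs ≤ T / 2`.
PROOF.  `est_build` for `v` with the threshold `θ`, `y w = ga w` for `w ∈ XX u v`, `y u = θ - 1` or `θ + 1` (the main value of the colour `c v u = c u v`), so `ex1 θ (y u) ≤ 1`.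
Excess: `∑_{XX u v} ex1 θ (ga w) ≤ ∑ (cost + gs - ex1 θ (al w))` (`ex1_add`) `≤ C + T / 2 - |Z|` (`ex1 θ (θ + 1) = 1`) `≤ m - s - 1 + T / 2 - (b - 1)`; with `y u`: `≤ m - s + 1 + T / 2 - b ≤ s - 2` by `n2`.
High side: the `w ∈ Z` with `gs = 0` have `ga w = θ` (`gs_top`): at least `b - 1 - T / 2 ≥ s - 1` (`n2`, `m1`).
Low side: a `w ∈ Y` with `ga w ≥ θ` has cost `≥ 1` (`min < θ ≤ max`), a `w ∈ Z` has cost `≥ 1`; so `#{w ∈ Y : ga w ≥ θ} + |Z| ≤ C ≤ m - s - 1`, and `#{w ∈ Y : ga w ≤ θ - 1} ≥ |Y| + |Z| - (m - s - 1) = a + b - m + s = 2 s - 1 - r ≥ s - 1` (`hr`, `n1`).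
-/

set_option autoImplicit false

namespace ZS44129
namespace H

open Finset E N

variable {V : Type} [Fintype V] [DecidableEq V] {m : ℕ}

private theorem ex1_nn (θ x : ℤ) : 0 ≤ ex1 θ x := by
  unfold ex1
  exact add_nonneg (le_max_right _ _) (le_max_right _ _)

private theorem cen_aux [NeZero m] {c : V → V → ZMod m} {s : ℕ} {u v : V} {p q : ZMod m} {a b r A : ℕ} {T : ℤ}
    (h : WP c s u v p q a b r A T) {z0 : ℤ} {al ga : V → ℤ} {θ : ℤ} (hc : WCen c s u v z0 al ga θ)
    {p' q' : ZMod m} (hp' : ((θ - 1 : ℤ) : ZMod m) = p') (hq' : ((θ + 1 : ℤ) : ZMod m) = q')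
    (h3 : ∀ w ∈ XX u v, c u w = p' → al w = θ - 1) (h4 : ∀ w ∈ XX u v, c u w = q' → al w = θ + 1)
    (hne : p' ≠ q') (huv : c u v = p' ∨ c u v = q')
    (hsum : (cl c u p').card + (cl c u q').card = a + b) (hbq : b ≤ (cl c u q').card) :
    ESt c s v := by
  classical
  obtain ⟨hg1, -⟩ := g_sum h hc
  have hco := hc.co
  have hs4 := h.s4
  have hm1 := h.m1
  have hr := h.hr
  have n1 := h.n1
  have n2 := h.n2
  have hT := h.T0
  have huvne := h.ne
  set Z := (cl c u q').erase v with hZ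
  set Y := (cl c u p').erase v with hY
  have hcard : Z.card + Y.card + 1 = a + b ∧ b ≤ Z.card + 1 := by
    rcases huv with huv | huv
    · have h5 : v ∈ cl c u p' := mem_cl.2 ⟨huvne.symm, huv⟩
      have h6 : v ∉ cl c u q' := fun h7 => hne (huv.symm.trans (mem_cl.1 h7).2)
      have h7 := card_erase_add_one h5
      have h8 : Z = cl c u q' := erase_eq_of_notMem h6
      rw [h8]
      rw [← hY] at h7
      omega
    · have h5 : v ∈ cl c u q' := mem_cl.2 ⟨huvne.symm, huv⟩
      have h6 : v ∉ cl c u p' := fun h7 => hne ((mem_cl.1 h7).2.symm.trans huv)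
      have h7 := card_erase_add_one h5
      have h8 : Y = cl c u p' := erase_eq_of_notMem h6
      rw [h8]
      rw [← hZ] at h7
      omega
  obtain ⟨hc1, hc2⟩ := hcard
  have hZm : ∀ w ∈ Z, w ∈ XX u v ∧ al w = θ + 1 := by
    intro w hw
    obtain ⟨h5, h6⟩ := mem_erase.1 hw
    obtain ⟨h7, h8⟩ := mem_cl.1 h6
    have h9 : w ∈ XX u v := mem_XX.2 ⟨h7, h5⟩
    exact ⟨h9, h4 w h9 h8⟩
  have hYm : ∀ w ∈ Y, w ∈ XX u v ∧ al w = θ - 1 := by
    intro w hw
    obtain ⟨h5, h6⟩ := mem_erase.1 hw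
    obtain ⟨h7, h8⟩ := mem_cl.1 h6
    have h9 : w ∈ XX u v := mem_XX.2 ⟨h7, h5⟩
    exact ⟨h9, h3 w h9 h8⟩
  have hYZ : Disjoint Y Z := by
    rw [Finset.disjoint_left]
    intro w h5 h6
    have h7 := (hYm w h5).2
    have h8 := (hZm w h6).2
    omega
  have hcost0 : ∀ w, 0 ≤ cost θ (al w) (ga w) := fun w =>
    le_trans (ex1_nn θ (al w)) (ex1_cost θ (al w) (ga w))
  -- the sum of the excesses of `al`
  have hS1 : (Z.card : ℤ) ≤ ∑ w ∈ XX u v, ex1 θ (al w) := by
    have h5 : ∑ w ∈ Z, (1 : ℤ) = ∑ w ∈ Z, ex1 θ (al w) := by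
      refine Finset.sum_congr rfl fun w hw => ?_
      rw [(hZm w hw).2]
      unfold ex1
      rw [max_eq_left (by omega), max_eq_right (by omega)]
      ring
    have h6 : ∑ w ∈ Z, ex1 θ (al w) ≤ ∑ w ∈ XX u v, ex1 θ (al w) :=
      Finset.sum_le_sum_of_subset_of_nonneg (fun w hw => (hZm w hw).1) fun w _ _ => ex1_nn _ _
    rw [Finset.sum_const, nsmul_eq_mul, mul_one] at h5
    rw [h5]
    exact h6
  have hS2 : ∑ w ∈ XX u v, ex1 θ (al w) + ∑ w ∈ XX u v, ex1 θ (ga w) ≤
      ∑ w ∈ XX u v, cost θ (al w) (ga w) + ∑ w ∈ XX u v, gs θ (al w) (ga w) := by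
    rw [← Finset.sum_add_distrib, ← Finset.sum_add_distrib]
    exact Finset.sum_le_sum fun w _ => ex1_add θ (al w) (ga w)
  -- the positions of `Z` with `gs = 0`
  have hG : ((Z.filter fun w => gs θ (al w) (ga w) ≠ 0).card : ℤ) ≤
      ∑ w ∈ XX u v, gs θ (al w) (ga w) := by
    have h5 : ∑ w ∈ Z.filter (fun w => gs θ (al w) (ga w) ≠ 0), (1 : ℤ) ≤
        ∑ w ∈ Z.filter (fun w => gs θ (al w) (ga w) ≠ 0), gs θ (al w) (ga w) := by
      refine Finset.sum_le_sum fun w hw => ?_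
      have h6 := (mem_filter.1 hw).2
      have h7 := gs_nonneg θ (al w) (ga w)
      omega
    have h6 : ∑ w ∈ Z.filter (fun w => gs θ (al w) (ga w) ≠ 0), gs θ (al w) (ga w) ≤
        ∑ w ∈ XX u v, gs θ (al w) (ga w) :=
      Finset.sum_le_sum_of_subset_of_nonneg (fun w hw => (hZm w (mem_filter.1 hw).1).1)
        fun w _ _ => gs_nonneg _ _ _
    rw [Finset.sum_const, nsmul_eq_mul, mul_one] at h5
    exact h5.trans h6
  have hZs := card_filter_add_card_filter_not (s := Z) (fun w => gs θ (al w) (ga w) ≠ 0)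
  -- the positions of `Y` with `ga ≥ θ`
  have hC : ((Y.filter fun w => ¬ ga w ≤ θ - 1).card : ℤ) + Z.card ≤
      ∑ w ∈ XX u v, cost θ (al w) (ga w) := by
    have hd : Disjoint (Y.filter fun w => ¬ ga w ≤ θ - 1) Z :=
      Finset.disjoint_of_subset_left (filter_subset _ _) hYZ
    have h5 : ∑ w ∈ (Y.filter fun w => ¬ ga w ≤ θ - 1) ∪ Z, (1 : ℤ) ≤
        ∑ w ∈ (Y.filter fun w => ¬ ga w ≤ θ - 1) ∪ Z, cost θ (al w) (ga w) := by
      refine Finset.sum_le_sum fun w hw => ?_
      rcases mem_union.1 hw with h6 | h6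
      · obtain ⟨h7, h8⟩ := mem_filter.1 h6
        have h9 := (hYm w h7).2
        rw [h9]
        unfold cost
        rw [if_pos ⟨lt_of_le_of_lt (min_le_left _ _) (by omega),
          le_trans (show θ ≤ ga w by omega) (le_max_right _ _)⟩]
        have := le_max_right (max (θ - 1) (ga w) - θ) 0
        have := le_max_right (θ - 1 - min (θ - 1) (ga w)) 0
        omega
      · have h7 := (hZm w h6).2
        have h8 := ex1_cost θ (al w) (ga w)
        have h9 : ex1 θ (al w) = 1 := by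
          rw [h7]
          unfold ex1
          rw [max_eq_left (by omega), max_eq_right (by omega)]
          ring
        omega
    have h6 : ∑ w ∈ (Y.filter fun w => ¬ ga w ≤ θ - 1) ∪ Z, cost θ (al w) (ga w) ≤
        ∑ w ∈ XX u v, cost θ (al w) (ga w) := by
      refine Finset.sum_le_sum_of_subset_of_nonneg ?_ fun w _ _ => hcost0 w
      intro w hw
      rcases mem_union.1 hw with h7 | h7
      · exact (hYm w (mem_filter.1 h7).1).1
      · exact (hZm w h7).1
    rw [Finset.sum_const, nsmul_eq_mul, mul_one, card_union_of_disjoint hd] at h5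
    push_cast at h5
    exact h5.trans h6
  have hYs := card_filter_add_card_filter_not (s := Y) (fun w => ga w ≤ θ - 1)
  -- the integer lift of the star of `v`
  let y : V → ℤ := fun w => if w = u then (if c u v = p' then θ - 1 else θ + 1) else ga w
  have hyu : y u = if c u v = p' then θ - 1 else θ + 1 := if_pos rfl
  have hyw : ∀ w, w ≠ u → y w = ga w := fun w hw => if_neg hw
  have hI : univ.erase v = insert u (XX u v) := by
    ext w
    rw [mem_erase, mem_insert, mem_XX]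
    constructor
    · rintro ⟨h5, _⟩
      by_cases h6 : w = u
      · exact Or.inl h6
      · exact Or.inr ⟨h6, h5⟩
    · rintro (h5 | h5)
      · rw [h5]
        exact ⟨huvne, mem_univ u⟩
      · exact ⟨h5.2, mem_univ w⟩
  have huX : u ∉ XX u v := fun h5 => (mem_XX.1 h5).1 rfl
  refine est_build h.zsf h.card (by omega) y ?_ θ ?_ ?_ ?_
  · intro w hw
    by_cases hwu : w = u
    · rw [hwu, hyu, h.sym v u]
      split_ifs with h5
      · rw [h5]
        exact hp'
      · rw [huv.resolve_left h5]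
        exact hq'
    · rw [hyw w hwu]
      exact hc.pl.hx w hwu hw
  · rw [hI, Finset.sum_insert huX]
    have h5 : ex1 θ (y u) ≤ 1 := by
      rw [hyu]
      unfold ex1
      split_ifs
      · rw [max_eq_right (by omega), max_eq_right (by omega)]
        omega
      · rw [max_eq_left (by omega), max_eq_right (by omega)]
        omega
    have h6 : ∑ w ∈ XX u v, ex1 θ (y w) = ∑ w ∈ XX u v, ex1 θ (ga w) := by
      refine Finset.sum_congr rfl fun w hw => ?_
      rw [hyw w (mem_XX.1 hw).1]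
    rw [h6]
    omega
  · have h5 : (Y.filter fun w => ga w ≤ θ - 1).card ≤
        ((univ.erase v).filter fun w => y w ≤ θ - 1).card := by
      apply card_le_card
      intro w hw
      obtain ⟨h6, h7⟩ := mem_filter.1 hw
      have h8 := mem_XX.1 (hYm w h6).1
      refine mem_filter.2 ⟨mem_erase.2 ⟨h8.2, mem_univ w⟩, ?_⟩
      rw [hyw w h8.1]
      exact h7
    omega
  · have h5 : (Z.filter fun w => ¬ gs θ (al w) (ga w) ≠ 0).card ≤
        ((univ.erase v).filter fun w => θ ≤ y w).card := by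
      apply card_le_card
      intro w hw
      obtain ⟨h6, h7⟩ := mem_filter.1 hw
      have h8 := mem_XX.1 (hZm w h6).1
      refine mem_filter.2 ⟨mem_erase.2 ⟨h8.2, mem_univ w⟩, ?_⟩
      rw [hyw w h8.1]
      have h9 : gs θ (θ + 1) (ga w) = 0 := by
        rw [← (hZm w h6).2]
        exact not_not.1 h7
      rw [gs_top h9]
    omega

theorem cen_odd [NeZero m] {c : V → V → ZMod m} {s : ℕ} {u v : V} {p q : ZMod m} {a b r A : ℕ} {T : ℤ}
    (h : WP c s u v p q a b r A T) {z0 : ℤ} {al ga : V → ℤ} {θ : ℤ} (hc : WCen c s u v z0 al ga θ)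
    {p1 p2 : ℤ} (h1 : (p1 : ZMod m) = p) (h2 : (p2 : ZMod m) = q) (h3 : ∀ w ∈ XX u v, c u w = p → al w = p1)
    (h4 : ∀ w ∈ XX u v, c u w = q → al w = p2)
    (h5 : (p1 = θ - 1 ∧ p2 = θ + 1) ∨ (p1 = θ + 1 ∧ p2 = θ - 1)) : ESt c s v := by
  have hba := h.ba
  have hca := h.ca
  have hcb := h.cb
  rcases h5 with ⟨rfl, rfl⟩ | ⟨rfl, rfl⟩
  · exact cen_aux h hc h1 h2 h3 h4 h.pq h.cuv (by rw [hca, hcb]) (by rw [hcb])
  · exact cen_aux h hc h2 h1 h4 h3 h.pq.symm h.cuv.symm (by rw [hca, hcb, add_comm])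
      (by rw [hca]; exact hba)

end H
end ZS44129
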