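import Pool.Agent.Work.MP_44129c_co.H.W2
import Pool.Agent.Work.MP_44129c_co.H.W4
import Pool.Agent.Work.MP_44129c_co.H.W5

/-!
# MP_44129c_co/H, W6 (size S-M): a lifted pair gives a star with small excess

PROOF of `pair_est`.  `c3z` (`hD`: `own_card`, `d0`, `m2`).  Not central: `ncen_est`.  Central: `cen_pos`; `{p1, p2}` is `{θ - 1, θ}` (`cen_mid`), `{θ, θ + 1}` (`cen_top`), `{θ - 1, θ + 1}` (`cen_odd`), or `{θ - 2, θ - 1}`, `{θ - 2, θ}`: apply `cen_top`, `cen_odd` to the reflected pair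
(`cen_refl`, `wp_refl`; threshold `θ' = 2 - θ`, values `1 - p1`, `1 - p2`: `1 - (θ - 2) = θ' + 1`, `1 - (θ - 1) = θ'`, `1 - θ = θ' - 1`) and `est_refl`.
`lp_est`: `Lp` gives `g`, `β` and a lift of the pair for `c' = g c - β`; `wp_affine`, `pair_est`, `est_affine`.
-/

set_option autoImplicit false

namespace ZS44129
namespace H

open Finset E N

variable {V : Type} [Fintype V] [DecidableEq V] {m : ℕ}

theorem pair_est [NeZero m] {c : V → V → ZMod m} {s : ℕ} {u v : V} {p q : ZMod m} {a b r A : ℕ} {T : ℤ}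
    (h : WP c s u v p q a b r A T) {z0 : ℤ} {al ga : V → ℤ} (hp : PLift c u v z0 al ga) :
    ESt c s u ∨ ESt c s v := by
  have h4 := h.s4
  have h5 := h.m1
  have h6 := h.m2
  have h7 := h.d0
  have hD : m < 2 * s + ((XX u v).filter (fun w => al w ≠ ga w)).card := by
    rw [own_card hp h.card (by omega) (by omega)]
    omega
  rcases c3z hp h.card (by omega) (by omega) hD with ⟨θ, hn⟩ | ⟨θ, hc⟩
  · exact Or.inl (ncen_est h hn)
  · obtain ⟨p1, p2, e1, e2, e3, e4, hne, a1, a2, b1, b2, hab⟩ := cen_pos h hc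
    rw [abs_le] at hab
    -- the reflected pair
    have hc' := cen_refl hc
    have h' := wp_refl h
    have f1 : ((1 - p1 : ℤ) : ZMod m) = 1 - p := by rw [Int.cast_sub, Int.cast_one, e1]
    have f2 : ((1 - p2 : ℤ) : ZMod m) = 1 - q := by rw [Int.cast_sub, Int.cast_one, e2]
    have f3 : ∀ w ∈ XX u v, 1 - c u w = 1 - p → 1 - al w = 1 - p1 := fun w hw hh => by
      rw [e3 w hw (sub_right_injective hh)]
    have f4 : ∀ w ∈ XX u v, 1 - c u w = 1 - q → 1 - al w = 1 - p2 := fun w hw hh => by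
      rw [e4 w hw (sub_right_injective hh)]
    have hcases : ((p1 = θ - 1 ∧ p2 = θ) ∨ (p1 = θ ∧ p2 = θ - 1)) ∨
        ((p1 = θ ∧ p2 = θ + 1) ∨ (p1 = θ + 1 ∧ p2 = θ)) ∨
        ((p1 = θ - 1 ∧ p2 = θ + 1) ∨ (p1 = θ + 1 ∧ p2 = θ - 1)) ∨
        ((1 - p1 = 2 - θ ∧ 1 - p2 = 2 - θ + 1) ∨ (1 - p1 = 2 - θ + 1 ∧ 1 - p2 = 2 - θ)) ∨
        ((1 - p1 = 2 - θ - 1 ∧ 1 - p2 = 2 - θ + 1) ∨ (1 - p1 = 2 - θ + 1 ∧ 1 - p2 = 2 - θ - 1)) := by
      omega
    rcases hcases with h8 | h8 | h8 | h8 | h8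
    · exact Or.inl (cen_mid h hc e1 e2 e3 e4 h8)
    · exact Or.inl (cen_top h hc e1 e2 e3 e4 h8)
    · exact Or.inr (cen_odd h hc e1 e2 e3 e4 h8)
    · exact Or.inl (est_refl (cen_top h' hc' f1 f2 f3 f4 h8))
    · exact Or.inr (est_refl (cen_odd h' hc' f1 f2 f3 f4 h8))

theorem lp_est [NeZero m] {c : V → V → ZMod m} {s : ℕ} {u v : V} {p q : ZMod m} {a b r A : ℕ} {T : ℤ}
    (h : WP c s u v p q a b r A T) (hp : Lp c u v) : ESt c s u ∨ ESt c s v := by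
  obtain ⟨_, g, β, z0, al, ga, hPL⟩ := hp
  rcases pair_est (wp_affine h g β) hPL with h1 | h1
  · exact Or.inl (est_affine g β h1)
  · exact Or.inr (est_affine g β h1)

end H
end ZS44129
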