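import Pool.Agent.Work.MP_44129c_co.H.WDefs
import Pool.Agent.Work.MP_44129c_co.H.ID

/-!
# MP_44129c_co/H, W7 (size M): double counting

`n = |V| - 1`.
PROOFS.  `df_sum`: `∑_u ∑_{v ≠ u} Df c u v` counts the triples `(u, v, z)` with `z ≠ u, v` and `c u z ≠ c v z` (then `u ≠ v`), i.e. `c z u ≠ c z v`; for fixed `z` there are `n²` pairs `u, v ≠ z`, and `∑_e |cl c z e|² = QQ c z` of them have the same colour.
`pw_sum`: for fixed `u` `pw = 0` for the `v` in the largest class, the others have the constant value: `n - |cl c u (f u)|` of them.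
`tt_sum`: `∑_u ∑_{v ≠ u} TT = ∑_u (2 n (m - s - 1) + 2 (n - a_u) max (2 a_u - n) 0 - 2 (n² - QQ c u))`: the sums of `pw c f u v` and of `pw c f v u` over all ordered pairs are equal.  So some `u` has `∑_{v ≠ u} TT ≤` its term (otherwise the sum would be larger; `V` is not empty).
`cl_le_pw`: `2 |cl c u e| ≤ n + pw c f u v` for `e ≠ c u v`: if `e = f u` then `c u v ≠ f u` and `pw ≥ 2 a_u - n`; if `e ≠ f u`, `|cl c u e| + |cl c u (f u)| ≤ n` and `|cl c u e| ≤ |cl c u (f u)|`.
`tt_lp`: `lp_cl` (H/ID): `Df ≤ m - s - 1` (then `TT ≥ 0`), or `e ≠ c u v` with `Df + 2 s ≤ |cl c u e| + |cl c v e|`, `cl_le_pw` for both (`c v u = c u v`): `2 Df + 4 s ≤ 2 (m + s - 1) + pw + pw`.  `tt_cl` is `cl_le_pw` twice.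
-/

set_option autoImplicit false

namespace ZS44129
namespace H

open Finset E N

variable {V : Type} [Fintype V] [DecidableEq V] {m : ℕ}

private theorem w7_cardE (u : V) : (((univ.erase u : Finset V).card : ℕ) : ℤ) = (Fintype.card V : ℤ) - 1 := by
  have h := Finset.card_erase_add_one (Finset.mem_univ u)
  rw [Finset.card_univ] at h
  have h2 : (((univ.erase u : Finset V).card + 1 : ℕ) : ℤ) = ((Fintype.card V : ℕ) : ℤ) := congrArg _ h
  push_cast at h2
  linarith

private theorem w7_fib [NeZero m] (c : V → V → ZMod m) (z : V) :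
    ∑ u ∈ univ.erase z, ((cl c z (c z u)).card : ℤ) = (QQ c z : ℤ) := by
  unfold QQ
  rw [← Finset.sum_fiberwise (univ.erase z) (fun u => c z u) (fun u => ((cl c z (c z u)).card : ℤ))]
  push_cast
  refine Finset.sum_congr rfl fun e _ => ?_
  have h1 : ∀ u ∈ (univ.erase z).filter (fun u => c z u = e),
      ((cl c z (c z u)).card : ℤ) = ((cl c z e).card : ℤ) := by
    intro u hu
    rw [(Finset.mem_filter.1 hu).2]
  rw [Finset.sum_congr rfl h1, Finset.sum_const, nsmul_eq_mul]
  unfold cl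
  ring

theorem df_sum [NeZero m] {c : V → V → ZMod m} (hsym : ∀ x y, c x y = c y x) :
    ∑ u : V, ∑ v ∈ univ.erase u, (Df c u v : ℤ) =
      ∑ z : V, (((Fintype.card V : ℤ) - 1) ^ 2 - QQ c z) := by
  obtain ⟨F, hF⟩ : ∃ F : V → V → V → ℤ, F = fun u v x =>
    if u ≠ x ∧ v ≠ x ∧ c u x ≠ c v x then (1 : ℤ) else 0 := ⟨_, rfl⟩
  have h1 : ∀ u : V, ∑ v ∈ univ.erase u, (Df c u v : ℤ) = ∑ v : V, ∑ x : V, F u v x := by
    intro u
    have h0 : ∑ x : V, F u u x = 0 := by
      refine Finset.sum_eq_zero fun x _ => ?_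
      rw [hF]
      exact if_neg (fun h => h.2.2 rfl)
    rw [← Finset.sum_erase (f := fun v => ∑ x : V, F u v x) univ h0]
    refine Finset.sum_congr rfl fun v hv => ?_
    rw [hF]
    simp only
    rw [Finset.sum_boole]
    unfold Df
    congr 2
    ext x
    rw [Finset.mem_filter, Finset.mem_filter, mem_XX]
    constructor
    · rintro ⟨⟨a1, a2⟩, a3⟩
      exact ⟨Finset.mem_univ _, a1.symm, a2.symm, a3⟩
    · rintro ⟨-, a1, a2, a3⟩
      exact ⟨⟨a1.symm, a2.symm⟩, a3⟩
  rw [Finset.sum_congr rfl fun u _ => h1 u]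
  have h2 : ∑ u : V, ∑ v : V, ∑ x : V, F u v x = ∑ x : V, ∑ u : V, ∑ v : V, F u v x := by
    rw [Finset.sum_congr rfl fun u _ => Finset.sum_comm]
    exact Finset.sum_comm
  rw [h2]
  refine Finset.sum_congr rfl fun z _ => ?_
  have h3 : ∑ v : V, F z v z = 0 := by
    refine Finset.sum_eq_zero fun x _ => ?_
    rw [hF]
    exact if_neg (fun h => h.1 rfl)
  rw [← Finset.sum_erase (f := fun u => ∑ v : V, F u v z) univ h3]
  have h4 : ∀ u ∈ univ.erase z, ∑ v : V, F u v z =
      ((Fintype.card V : ℤ) - 1) - ((cl c z (c z u)).card : ℤ) := by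
    intro u hu
    have hu' := (Finset.mem_erase.1 hu).1
    have h5 : F u z z = 0 := by
      rw [hF]
      exact if_neg (fun h => h.2.1 rfl)
    rw [← Finset.sum_erase (f := fun v => F u v z) univ h5]
    have h6 : ∀ v ∈ univ.erase z, F u v z = 1 - (if c z v = c z u then (1 : ℤ) else 0) := by
      intro v hv
      have hv' := (Finset.mem_erase.1 hv).1
      rw [hF]
      simp only
      by_cases h7 : c z v = c z u
      · rw [if_pos h7, if_neg (fun h => h.2.2 (by rw [hsym u z, hsym v z, h7]))]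
        norm_num
      · rw [if_neg h7, if_pos ⟨hu', hv', fun h => h7 (by rw [hsym z v, hsym z u, h])⟩]
        norm_num
    rw [Finset.sum_congr rfl h6, Finset.sum_sub_distrib, Finset.sum_const, nsmul_eq_mul, mul_one,
      w7_cardE, Finset.sum_boole]
    rfl
  rw [Finset.sum_congr rfl h4, Finset.sum_sub_distrib, w7_fib, Finset.sum_const, nsmul_eq_mul, w7_cardE]
  ring

private theorem w7_pw (c : V → V → ZMod m) (f : V → ZMod m) (u : V) :
    ∑ v ∈ univ.erase u, pw c f u v = ((Fintype.card V : ℤ) - 1 - (cl c u (f u)).card) *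
      max (2 * ((cl c u (f u)).card : ℤ) - ((Fintype.card V : ℤ) - 1)) 0 := by
  obtain ⟨K, hK⟩ : ∃ K, K = max (2 * ((cl c u (f u)).card : ℤ) - ((Fintype.card V : ℤ) - 1)) 0 := ⟨_, rfl⟩
  rw [← hK]
  have h1 : ∀ v ∈ univ.erase u, pw c f u v = K - K * (if c u v = f u then (1 : ℤ) else 0) := by
    intro v _
    unfold pw
    rw [← hK]
    split_ifs
    · ring
    · ring
  rw [Finset.sum_congr rfl h1, Finset.sum_sub_distrib, ← Finset.mul_sum, Finset.sum_boole,
    Finset.sum_const, nsmul_eq_mul, w7_cardE]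
  change ((Fintype.card V : ℤ) - 1) * K - K * ((cl c u (f u)).card : ℤ) = _
  ring

private theorem w7_swap (g : V → V → ℤ) : ∑ u : V, ∑ v ∈ univ.erase u, g v u = ∑ u : V, ∑ v ∈ univ.erase u, g u v := by
  rw [Finset.sum_comm' (t' := univ) (s' := fun v => univ.erase v)]
  intro x y
  simp only [Finset.mem_univ, Finset.mem_erase, true_and, and_true]
  exact ne_comm

theorem tt_sum [NeZero m] [Nonempty V] {c : V → V → ZMod m} (hsym : ∀ x y, c x y = c y x) (s : ℕ)
    (f : V → ZMod m) :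
    ∃ u : V, ∑ v ∈ univ.erase u, TT c s f u v ≤
      2 * (((Fintype.card V : ℤ) - 1) * ((m : ℤ) - s - 1) +
        ((Fintype.card V : ℤ) - 1 - (cl c u (f u)).card) *
          max (2 * ((cl c u (f u)).card : ℤ) - ((Fintype.card V : ℤ) - 1)) 0 -
        (((Fintype.card V : ℤ) - 1) ^ 2 - QQ c u)) := by
  by_contra hcon
  push Not at hcon
  have h1 := Finset.sum_lt_sum_of_nonempty (s := (univ : Finset V)) Finset.univ_nonempty
    (fun u _ => hcon u)
  refine absurd h1 (not_lt.2 (le_of_eq ?_))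
  have h2 : ∑ u : V, ∑ v ∈ univ.erase u, TT c s f u v =
      ∑ u : V, ∑ v ∈ univ.erase u, (2 * ((m : ℤ) - s - 1)) + ∑ u : V, ∑ v ∈ univ.erase u, pw c f u v +
        ∑ u : V, ∑ v ∈ univ.erase u, pw c f v u - 2 * ∑ u : V, ∑ v ∈ univ.erase u, (Df c u v : ℤ) := by
    unfold TT
    simp only [Finset.sum_add_distrib, Finset.sum_sub_distrib, ← Finset.mul_sum]
  rw [h2, w7_swap (fun a b => pw c f a b), df_sum hsym, Finset.mul_sum, ← Finset.sum_add_distrib,
    ← Finset.sum_add_distrib, ← Finset.sum_sub_distrib]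
  refine Finset.sum_congr rfl fun u _ => ?_
  rw [w7_pw, Finset.sum_const, nsmul_eq_mul, w7_cardE]
  ring

theorem cl_le_pw {c : V → V → ZMod m} (f : V → ZMod m) {u v : V} (hf : ∀ e, (cl c u e).card ≤ (cl c u (f u)).card)
    {e : ZMod m} (he : e ≠ c u v) : 2 * ((cl c u e).card : ℤ) ≤ ((Fintype.card V : ℤ) - 1) + pw c f u v := by
  by_cases h1 : e = f u
  · have h2 : c u v ≠ f u := fun h => he (by rw [h, h1])
    unfold pw
    rw [if_neg h2, h1]
    have h3 := le_max_left (2 * ((cl c u (f u)).card : ℤ) - ((Fintype.card V : ℤ) - 1)) 0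
    linarith
  · have h2 : 0 ≤ pw c f u v := by
      unfold pw
      split_ifs
      · exact le_refl _
      · exact le_max_right _ _
    have hdis : Disjoint (cl c u e) (cl c u (f u)) := by
      rw [Finset.disjoint_left]
      intro x hx hx'
      exact h1 ((mem_cl.1 hx).2.symm.trans (mem_cl.1 hx').2)
    have hsub : cl c u e ∪ cl c u (f u) ⊆ univ.erase u := by
      intro x hx
      rcases Finset.mem_union.1 hx with h3 | h3
      · exact Finset.mem_erase.2 ⟨(mem_cl.1 h3).1, Finset.mem_univ x⟩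
      · exact Finset.mem_erase.2 ⟨(mem_cl.1 h3).1, Finset.mem_univ x⟩
    have h3 := Finset.card_le_card hsub
    rw [Finset.card_union_of_disjoint hdis] at h3
    have h4 := hf e
    have h5 := w7_cardE u
    have h6 : ((cl c u e).card : ℤ) + ((cl c u (f u)).card : ℤ) ≤ ((univ.erase u : Finset V).card : ℤ) := by
      exact_mod_cast h3
    have h7 : ((cl c u e).card : ℤ) ≤ ((cl c u (f u)).card : ℤ) := by exact_mod_cast h4
    linarith

private theorem w7_two {c : V → V → ZMod m} {s : ℕ} (h : HS c s) (f : V → ZMod m)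
    (hf : ∀ u e, (cl c u e).card ≤ (cl c u (f u)).card) {u v : V} {e : ZMod m} (he : e ≠ c u v) :
    2 * (((cl c u e).card : ℤ) + (cl c v e).card) ≤ 2 * ((m : ℤ) + s - 1) + pw c f u v + pw c f v u := by
  have h1 := cl_le_pw f (hf u) he
  have h2 := cl_le_pw f (u := v) (v := u) (hf v) (e := e) (by rw [h.sym v u]; exact he)
  have h3 : (Fintype.card V : ℤ) = m + s := by
    rw [h.card]
    push_cast
    ring
  rw [h3] at h1 h2
  linarith

theorem tt_cl {c : V → V → ZMod m} {s : ℕ} (h : HS c s) (f : V → ZMod m)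
    (hf : ∀ u e, (cl c u e).card ≤ (cl c u (f u)).card) {u v : V} {e : ZMod m} (he : e ≠ c u v) :
    2 * (((cl c u e).card : ℤ) + (cl c v e).card) ≤ 4 * s + 2 * Df c u v + TT c s f u v := by
  have h1 := w7_two h f hf he
  unfold TT
  linarith

theorem tt_lp [NeZero m] {c : V → V → ZMod m} {s : ℕ} (h : HS c s) (f : V → ZMod m)
    (hf : ∀ u e, (cl c u e).card ≤ (cl c u (f u)).card) {u v : V} (hl : Lp c u v) : 0 ≤ TT c s f u v := by
  have hpw : ∀ a b : V, 0 ≤ pw c f a b := by
    intro a b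
    unfold pw
    split_ifs
    · exact le_refl _
    · exact le_max_right _ _
  rcases lp_cl h hl with h1 | ⟨e, he, h1⟩
  · have h2 : (Df c u v : ℤ) + s + 1 ≤ m := by exact_mod_cast h1
    have h3 := hpw u v
    have h4 := hpw v u
    unfold TT
    linarith
  · have h2 : (Df c u v : ℤ) + 2 * s ≤ (cl c u e).card + (cl c v e).card := by exact_mod_cast h1
    have h3 := w7_two h f hf he
    unfold TT
    linarith

end H
end ZS44129
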