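import Pool.Agent.Work.MP_44129c_co.H.CD
import Pool.Agent.Work.MP_44129c_co.N.C34

/-!
# MP_44129c_co/H, WDefs (FIXED, do not change): definitions for block W (one star with small excess)

`ex1 θ a`: excess of the integer `a` over the values `θ - 1`, `θ`.  `gs θ a b`: cost of a position minus 1 if `a ≠ b` (`≥ 0`).
`WCen`: a lifted pair with a central threshold `θ` (second alternative of `c3z`).  `WP`: the hypotheses on the pair `u v`: `p`, `q` are the colours of the two largest classes at `u`, of sizes `a ≥ b`, `r` other edges; `T` measures how far `Df` is from its upper bound.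
-/

set_option autoImplicit false

namespace ZS44129
namespace H

open Finset E N

variable {V : Type} [Fintype V] [DecidableEq V] {m : ℕ}

/-- excess over `θ - 1`, `θ`. -/
def ex1 (θ a : ℤ) : ℤ := max (a - θ) 0 + max (θ - 1 - a) 0

/-- cost minus own. -/
def gs (θ a b : ℤ) : ℤ := cost θ a b - (if a ≠ b then 1 else 0)

/-- lifted pair with a central threshold. -/
structure WCen (c : V → V → ZMod m) (s : ℕ) (u v : V) (z0 : ℤ) (al ga : V → ℤ) (θ : ℤ) : Prop where
  pl : PLift c u v z0 al ga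
  co : ∑ w ∈ XX u v, cost θ (al w) (ga w) + s + 1 ≤ m
  up : z0 + (m - 1) * (θ - 1) + ∑ w ∈ XX u v, max (max (al w) (ga w) - (θ - 1)) 0 ≤ m - 1
  dn : 1 + ∑ w ∈ XX u v, max (θ - min (al w) (ga w)) 0 ≤ z0 + (m - 1) * θ

/-- lifted pair with a threshold that is not central. -/
structure WNon (c : V → V → ZMod m) (s : ℕ) (u v : V) (z0 : ℤ) (al ga : V → ℤ) (θ : ℤ) : Prop where
  pl : PLift c u v z0 al ga
  co : ∑ w ∈ XX u v, (max (max (al w) (ga w) - θ) 0 + max (θ - min (al w) (ga w)) 0) + 2 ≤ m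
  up : z0 + (m - 1) * θ + ∑ w ∈ XX u v, max (max (al w) (ga w) - θ) 0 ≤ m - 1
  dn : 1 + ∑ w ∈ XX u v, max (θ - min (al w) (ga w)) 0 ≤ z0 + (m - 1) * θ

/-- the hypotheses on the pair. -/
structure WP (c : V → V → ZMod m) (s : ℕ) (u v : V) (p q : ZMod m) (a b r A : ℕ) (T : ℤ) : Prop where
  sym : ∀ x y, c x y = c y x
  zsf : ZSF m c
  card : Fintype.card V = m + s
  s4 : 4 ≤ s
  m1 : 3 * s + 1 ≤ m
  m2 : m ≤ 4 * s
  ne : u ≠ v
  pq : p ≠ q
  cuv : c u v = p ∨ c u v = q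
  ca : (cl c u p).card = a
  cb : (cl c u q).card = b
  hr : a + b + r + 1 = m + s
  ba : b ≤ a
  T0 : 0 ≤ T
  d0 : m < 2 * Df c u v
  d1 : 2 * ((m : ℤ) - s - 1) ≤ 2 * Df c u v + T
  d2 : ∀ e : ZMod m, e ≠ c u v → 2 * (((cl c u e).card : ℤ) + (cl c v e).card) ≤ 4 * s + 2 * Df c u v + T
  cv : ∀ e : ZMod m, (cl c v e).card ≤ A
  n1 : 2 * (r : ℤ) + T + 4 ≤ 2 * s
  n2 : 2 * ((m : ℤ) - 2 * s + 3) + T ≤ 2 * b
  n3 : A + r < Df c u v + 2 * s

/-- the weight of `u v` seen from `u` (`f u` = the colour of the largest class at `u`). -/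
def pw (c : V → V → ZMod m) (f : V → ZMod m) (u v : V) : ℤ :=
  if c u v = f u then 0 else max (2 * ((cl c u (f u)).card : ℤ) - ((Fintype.card V : ℤ) - 1)) 0

/-- `T`. -/
def TT (c : V → V → ZMod m) (s : ℕ) (f : V → ZMod m) (u v : V) : ℤ :=
  2 * ((m : ℤ) - s - 1) + pw c f u v + pw c f v u - 2 * Df c u v

/-- sum of the squares of the class sizes. -/
def QQ [NeZero m] (c : V → V → ZMod m) (u : V) : ℕ := ∑ e : ZMod m, (cl c u e).card ^ 2

end H
end ZS44129
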